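import Pool.Agent.Mg.F39b1da.G324722

section

/-!
Arithmetic of the lattice: the form takes values in the golden integers and its conjugate is
positive definite.
-/

set_option autoImplicit false

namespace Pool.Agent.MP_39b1da_gt

open Filter Topology Set Real
open scoped ENNReal NNReal ContDiff InnerProductSpace

variable {m : ℕ}

/-- The rational part of the form on lattice vectors. -/
def wP {R : Type} [CommRing R] (a b a' b' : Fin (m + 4 + 1) → R) : R :=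
  -(a 0 * b' 0 + b 0 * a' 0 + b 0 * b' 0) +
    ∑ i : Fin (m + 4), (a i.succ * a' i.succ + b i.succ * b' i.succ)

/-- The irrational part of the form on lattice vectors. -/
def wQ {R : Type} [CommRing R] (a b a' b' : Fin (m + 4 + 1) → R) : R :=
  -(a 0 * a' 0 + b 0 * b' 0 + (a 0 * b' 0 + b 0 * a' 0 + b 0 * b' 0)) +
    ∑ i : Fin (m + 4), (a i.succ * b' i.succ + b i.succ * a' i.succ + b i.succ * b' i.succ)

/-- The form, with `t` in place of the golden ratio. -/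
noncomputable def wF (t : ℝ) (a b a' b' : Fin (m + 4 + 1) → ℤ) : ℝ :=
  -(t * ((a 0 + b 0 * t) * (a' 0 + b' 0 * t))) +
    ∑ i : Fin (m + 4), ((a i.succ : ℝ) + b i.succ * t) * (a' i.succ + b' i.succ * t)

theorem wF_eq {t : ℝ} (ht : t ^ 2 = t + 1) (a b a' b' : Fin (m + 4 + 1) → ℤ) :
    wF t a b a' b' = (wP a b a' b' : ℤ) + (wQ a b a' b' : ℤ) * t := by
  have h : ∀ i : Fin (m + 4), ((a i.succ : ℝ) + b i.succ * t) * (a' i.succ + b' i.succ * t) =
      (a i.succ * a' i.succ + b i.succ * b' i.succ) +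
      (a i.succ * b' i.succ + b i.succ * a' i.succ + b i.succ * b' i.succ) * t := by
    intro i
    linear_combination (b i.succ * b' i.succ : ℝ) * ht
  simp only [wF, wP, wQ, h, Finset.sum_add_distrib, ← Finset.sum_mul]
  push_cast
  linear_combination (-(a 0 * b' 0 + b 0 * a' 0 : ℝ) - (b 0 * b' 0 : ℝ) * (t + 1)) * ht

theorem wLor_lat (a b a' b' : Fin (m + 4 + 1) → ℤ) :
    lor (lat a b) (lat a' b') = wF goldenRatio a b a' b' := by
  have h : √goldenRatio * √goldenRatio = goldenRatio := Real.mul_self_sqrt goldenRatio_pos.le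
  simp only [lor, lat, wF, PiLp.inner_apply, RCLike.inner_apply, conj_trivial]
  congr 1
  · linear_combination (-((a 0 + b 0 * goldenRatio) * (a' 0 + b' 0 * goldenRatio) : ℝ)) * h
  · exact Finset.sum_congr rfl fun i _ => mul_comm _ _

theorem wLor_eq (a b a' b' : Fin (m + 4 + 1) → ℤ) :
    lor (lat a b) (lat a' b') = (wP a b a' b' : ℤ) + (wQ a b a' b' : ℤ) * goldenRatio := by
  rw [wLor_lat, wF_eq goldenRatio_sq]

theorem wIrr {t : ℝ} (ht : Irrational t) {p q : ℤ} (h : (p : ℝ) + q * t = 0) :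
    p = 0 ∧ q = 0 := by
  by_cases hq : q = 0
  · subst hq
    simpa using h
  · exfalso
    have hq' : (q : ℝ) ≠ 0 := by exact_mod_cast hq
    refine ht ⟨-p / q, ?_⟩
    push_cast
    field_simp
    linarith

theorem wPhi_bd : 1.618 < goldenRatio ∧ goldenRatio < 1.619 := by
  have h1 := goldenRatio_sq
  have h2 := one_lt_goldenRatio
  constructor <;> nlinarith

theorem wPsi_eq : goldenConj = 1 - goldenRatio := by
  linarith [goldenRatio_add_goldenConj]

theorem wCoord_le (a b : Fin (m + 4 + 1) → ℤ) (i : Fin (m + 4 + 1)) :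
    ((a i : ℝ) + b i * goldenConj) ^ 2 ≤ 2 * wF goldenConj a b a b := by
  have h1 := wPhi_bd
  have h2 := wPsi_eq
  have h3 : 0 ≤ ∑ i : Fin (m + 4), ((a i.succ : ℝ) + b i.succ * goldenConj) *
      (a i.succ + b i.succ * goldenConj) := Finset.sum_nonneg fun i _ => mul_self_nonneg _
  have h4 := mul_self_nonneg ((a 0 : ℝ) + b 0 * goldenConj)
  unfold wF
  refine Fin.cases ?_ (fun j => ?_) i
  · nlinarith
  · have h5 := Finset.single_le_sum (f := fun i : Fin (m + 4) =>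
      ((a i.succ : ℝ) + b i.succ * goldenConj) * (a i.succ + b i.succ * goldenConj))
      (fun i _ => mul_self_nonneg _) (Finset.mem_univ j)
    have h6 := mul_self_nonneg ((a j.succ : ℝ) + b j.succ * goldenConj)
    nlinarith

theorem wF_pos {a b : Fin (m + 4 + 1) → ℤ} (h : ¬(a = 0 ∧ b = 0)) :
    0 < wF goldenConj a b a b := by
  by_contra hc
  refine h ?_
  have : ∀ i, a i = 0 ∧ b i = 0 := fun i => wIrr goldenConj_irrational
    (pow_eq_zero_iff (two_ne_zero) |>.1 (le_antisymm (by linarith [wCoord_le a b i]) (sq_nonneg _)))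
  exact ⟨funext fun i => (this i).1, funext fun i => (this i).2⟩

theorem wF_sub (t : ℝ) (a b a' b' : Fin (m + 4 + 1) → ℤ) :
    wF t (a - a') (b - b') (a - a') (b - b') =
      wF t a b a b + wF t a' b' a' b' - 2 * wF t a b a' b' := by
  have h : ∀ i : Fin (m + 4), ((((a - a') i.succ : ℤ) : ℝ) + ((b - b') i.succ : ℤ) * t) *
      (((a - a') i.succ : ℤ) + ((b - b') i.succ : ℤ) * t) =
      ((a i.succ : ℝ) + b i.succ * t) * (a i.succ + b i.succ * t) +
      ((a' i.succ : ℝ) + b' i.succ * t) * (a' i.succ + b' i.succ * t) -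
      2 * (((a i.succ : ℝ) + b i.succ * t) * (a' i.succ + b' i.succ * t)) := by
    intro i
    simp only [Pi.sub_apply]
    push_cast
    ring
  simp only [wF, h, Finset.sum_add_distrib, Finset.sum_sub_distrib, ← Finset.mul_sum]
  simp only [Pi.sub_apply]
  push_cast
  ring

theorem wF_neg (t : ℝ) (a b a' b' : Fin (m + 4 + 1) → ℤ) :
    wF t a b (-a') (-b') = -wF t a b a' b' := by
  simp only [wF, Pi.neg_apply, neg_add, ← Finset.sum_neg_distrib]
  push_cast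
  congr 1
  · ring
  · exact Finset.sum_congr rfl fun i _ => by ring

theorem wF_neg' (t : ℝ) (a b : Fin (m + 4 + 1) → ℤ) :
    wF t (-a) (-b) (-a) (-b) = wF t a b a b := by
  simp only [wF, Pi.neg_apply]
  push_cast
  congr 1
  · ring
  · exact Finset.sum_congr rfl fun i _ => by ring

theorem wConj {a b a' b' c d c' d' : Fin (m + 4 + 1) → ℤ}
    (h : lor (lat a b) (lat a' b') = lor (lat c d) (lat c' d')) :
    wF goldenConj a b a' b' = wF goldenConj c d c' d' := by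
  rw [wLor_eq, wLor_eq] at h
  have := wIrr goldenRatio_irrational (p := wP a b a' b' - wP c d c' d')
    (q := wQ a b a' b' - wQ c d c' d') (by push_cast; linarith)
  rw [wF_eq goldenConj_sq, wF_eq goldenConj_sq, sub_eq_zero.1 this.1, sub_eq_zero.1 this.2]

theorem wConj_one {a b : Fin (m + 4 + 1) → ℤ} (h : lor (lat a b) (lat a b) = 1) :
    wF goldenConj a b a b = 1 := by
  rw [wLor_eq] at h
  have := wIrr goldenRatio_irrational (p := wP a b a b - 1) (q := wQ a b a b)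
    (by push_cast; linarith)
  rw [wF_eq goldenConj_sq, sub_eq_zero.1 this.1, this.2]
  simp

theorem wGap {p q : ℤ} (h1 : (p : ℝ) + q * goldenConj < 1) (h2 : -1 < (p : ℝ) + q * goldenConj) :
    (p = 0 ∧ q = 0) ∨ 3 / 2 ≤ |(p : ℝ) + q * goldenRatio| := by
  have h3 := wPhi_bd
  rw [wPsi_eq] at h1 h2
  rcases lt_trichotomy q 0 with hq | hq | hq
  · right
    refine le_abs.2 (Or.inr ?_)
    rcases eq_or_lt_of_le (show q ≤ -1 by omega) with h | h
    · subst h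
      have : (p : ℝ) < 1 := by push_cast at h1; linarith
      have : p ≤ 0 := by
        have : p < 1 := by exact_mod_cast this
        omega
      have : (p : ℝ) ≤ 0 := by exact_mod_cast this
      push_cast; linarith
    · have : (q : ℝ) ≤ -2 := by exact_mod_cast (show q ≤ -2 by omega)
      nlinarith
  · left
    subst hq
    simp only [Int.cast_zero, zero_mul, add_zero] at h1 h2
    have a1 : p < 1 := by exact_mod_cast h1
    have a2 : -1 < p := by exact_mod_cast h2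
    omega
  · right
    refine le_abs.2 (Or.inl ?_)
    rcases eq_or_lt_of_le (show 1 ≤ q by omega) with h | h
    · subst h
      have : (-1 : ℝ) < p := by push_cast at h2; linarith
      have : 0 ≤ p := by
        have : -1 < p := by exact_mod_cast this
        omega
      have : (0 : ℝ) ≤ p := by exact_mod_cast this
      push_cast; linarith
    · have : (2 : ℝ) ≤ q := by exact_mod_cast (show 2 ≤ q by omega)
      nlinarith

/-- Two unit lattice vectors are equal up to sign, orthogonal, or far apart. -/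
theorem wTri {a b a' b' : Fin (m + 4 + 1) → ℤ} (h : lor (lat a b) (lat a b) = 1)
    (h' : lor (lat a' b') (lat a' b') = 1) :
    (a' = a ∧ b' = b) ∨ (a' = -a ∧ b' = -b) ∨ (wP a b a' b' = 0 ∧ wQ a b a' b' = 0) ∨
      3 / 2 ≤ |lor (lat a b) (lat a' b')| := by
  by_cases e1 : a' = a ∧ b' = b
  · exact Or.inl e1
  by_cases e2 : a' = -a ∧ b' = -b
  · exact Or.inr (Or.inl e2)
  refine Or.inr (Or.inr ?_)
  have f1 := wF_pos (a := a - a') (b := b - b') fun hh =>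
    e1 ⟨(sub_eq_zero.1 hh.1).symm, (sub_eq_zero.1 hh.2).symm⟩
  have f2 := wF_pos (a := a - -a') (b := b - -b') fun hh =>
    e2 ⟨by rw [sub_eq_zero.1 hh.1, neg_neg], by rw [sub_eq_zero.1 hh.2, neg_neg]⟩
  rw [wF_sub, wConj_one h, wConj_one h'] at f1
  rw [wF_sub, wF_neg', wF_neg, wConj_one h, wConj_one h'] at f2
  rw [wF_eq goldenConj_sq] at f1 f2
  rw [wLor_eq]
  exact wGap (by linarith) (by linarith)

theorem wLat_neg (a b : Fin (m + 4 + 1) → ℤ) : lat (-a) (-b) = -lat a b := by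
  refine Prod.ext ?_ ?_
  · simp only [lat, Pi.neg_apply, Prod.fst_neg]; push_cast; ring
  · ext i
    simp only [lat, Pi.neg_apply, Prod.snd_neg, PiLp.neg_apply]; push_cast; ring

theorem wLat_refl (a b c d : Fin (m + 4 + 1) → ℤ) (p q : ℤ) :
    lat a b - (2 * ((p : ℝ) + q * goldenRatio)) • lat c d =
      lat (fun i => a i - 2 * (p * c i + q * d i))
        (fun i => b i - 2 * (p * d i + q * c i + q * d i)) := by
  have h := goldenRatio_sq
  refine Prod.ext ?_ ?_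
  · simp only [lat, Prod.fst_sub, Prod.smul_fst, smul_eq_mul]
    push_cast
    linear_combination (-2 * √goldenRatio * q * d 0) * h
  · ext i
    simp only [lat, Prod.snd_sub, Prod.smul_snd, PiLp.sub_apply, PiLp.smul_apply, smul_eq_mul]
    push_cast
    linear_combination (-2 * q * d i.succ : ℝ) * h

theorem wBound {E : Type} [NormedAddCommGroup E] [InnerProductSpace ℝ E] (x : Hyp E)
    (c R : ℝ) : ∃ K : ℝ, ∀ v : ℝ × E, lor v v = c → |lor (lift x) v| ≤ R →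
      |v.1| ≤ K ∧ ‖v.2‖ ≤ K := by
  refine ⟨√|c| + ((lift x).1 + ‖x.val‖) * (R + ‖x.val‖ * √|c|), fun v hv hR => ?_⟩
  have h1 := lift_fst_sq x
  have h2 := one_le_lift_fst x
  have h3 : lor (lift x) v = -((lift x).1 * v.1) + ⟪x.val, v.2⟫_ℝ := rfl
  have h4 := abs_real_inner_le_norm x.val v.2
  have h5 : ‖v.2‖ ^ 2 = c + |v.1| ^ 2 := by
    simp only [lor, real_inner_self_eq_norm_sq] at hv
    rw [sq_abs]; nlinarith
  have h6 : √|c| ^ 2 = |c| := Real.sq_sqrt (abs_nonneg c)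
  have h7 := Real.sqrt_nonneg |c|
  have h8 := abs_nonneg v.1
  have h9 : ‖v.2‖ ≤ √|c| + |v.1| := by
    refine abs_le_of_sq_le_sq' ?_ (by positivity) |>.2
    nlinarith [le_abs_self c]
  have h10 : (lift x).1 * |v.1| ≤ R + ‖x.val‖ * ‖v.2‖ := by
    have : (lift x).1 * v.1 = ⟪x.val, v.2⟫_ℝ - lor (lift x) v := by linarith
    have e : (lift x).1 * |v.1| = |(lift x).1 * v.1| := by
      rw [abs_mul, abs_of_pos (by linarith : 0 < (lift x).1)]
    rw [e, this]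
    linarith [abs_sub ⟪x.val, v.2⟫_ℝ (lor (lift x) v)]
  have h11 := norm_nonneg x.val
  have h12 : ((lift x).1 - ‖x.val‖) * |v.1| ≤ R + ‖x.val‖ * √|c| := by nlinarith
  have h13 : |v.1| ≤ ((lift x).1 + ‖x.val‖) * (R + ‖x.val‖ * √|c|) := by
    have := mul_le_mul_of_nonneg_left h12 (show 0 ≤ (lift x).1 + ‖x.val‖ by linarith)
    have e : ((lift x).1 + ‖x.val‖) * (((lift x).1 - ‖x.val‖) * |v.1|) = |v.1| := by
      linear_combination |v.1| * h1
    linarith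
  constructor <;> linarith

theorem wSep {a b K L : ℝ} (h1 : |a + b * goldenRatio| ≤ K) (h2 : |a + b * goldenConj| ≤ L) :
    |a| ≤ K + 2 * L ∧ |b| ≤ K + 2 * L := by
  have hφ := wPhi_bd
  have h3 : 0 ≤ L := (abs_nonneg _).trans h2
  have e1 := abs_le.1 h1
  have e2 := abs_le.1 h2
  rw [wPsi_eq] at e2
  have e3 : |b| ≤ K + L := by
    rcases abs_cases b with h | h <;> nlinarith
  have e4 := abs_le.1 e3
  refine ⟨?_, by linarith⟩
  rcases abs_cases b with h | h <;> rw [abs_le] <;> constructor <;> nlinarith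

/-- Lattice vectors of given norm and bounded height are finite in number. -/
theorem wFin (x : Hyp (Euc m)) (c R : ℝ) :
    {v : ℝ × Euc m | (∃ a b, v = lat a b) ∧ lor v v = c ∧ |lor (lift x) v| ≤ R}.Finite := by
  rcases Set.eq_empty_or_nonempty
    {v : ℝ × Euc m | (∃ a b, v = lat a b) ∧ lor v v = c ∧ |lor (lift x) v| ≤ R} with h | h
  · rw [h]; exact Set.finite_empty
  obtain ⟨_, ⟨a₀, b₀, rfl⟩, h₀, -⟩ := h
  obtain ⟨K, hK⟩ := wBound x c R
  obtain ⟨N, hN⟩ := exists_nat_ge (K + 2 * (1 + 2 * wF goldenConj a₀ b₀ a₀ b₀))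
  refine ((Set.finite_Icc (fun _ : Fin (m + 4 + 1) => -(N : ℤ)) fun _ => (N : ℤ)).prod
    (Set.finite_Icc (fun _ : Fin (m + 4 + 1) => -(N : ℤ)) fun _ => (N : ℤ))).image
    (fun p => lat p.1 p.2) |>.subset ?_
  rintro _ ⟨⟨a, b, rfl⟩, h1, h2⟩
  obtain ⟨k1, k2⟩ := hK _ h1 h2
  have c1 : ∀ i, |(a i : ℝ) + b i * goldenRatio| ≤ K := by
    intro i
    refine Fin.cases ?_ (fun j => ?_) i
    · have e : 1 ≤ √goldenRatio := Real.one_le_sqrt.2 one_lt_goldenRatio.le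
      simp only [lat, abs_mul, abs_of_nonneg (Real.sqrt_nonneg goldenRatio)] at k1
      nlinarith [abs_nonneg ((a 0 : ℝ) + b 0 * goldenRatio)]
    · exact (PiLp.norm_apply_le (lat a b).2 j).trans k2
  have c2 : ∀ i, |(a i : ℝ) + b i * goldenConj| ≤ 1 + 2 * wF goldenConj a₀ b₀ a₀ b₀ := by
    intro i
    have e := wCoord_le a b i
    rw [wConj (h1.trans h₀.symm), ← sq_abs] at e
    nlinarith [sq_nonneg (|(a i : ℝ) + b i * goldenConj| - 1)]
  have c3 : ∀ i, |(a i : ℝ)| ≤ N ∧ |(b i : ℝ)| ≤ N := fun i => by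
    have := wSep (c1 i) (c2 i)
    exact ⟨this.1.trans hN, this.2.trans hN⟩
  have c4 : ∀ z : ℤ, |(z : ℝ)| ≤ N → -(N : ℤ) ≤ z ∧ z ≤ N := fun z hz =>
    abs_le.1 (by exact_mod_cast hz)
  exact ⟨(a, b), ⟨⟨fun i => (c4 _ (c3 i).1).1, fun i => (c4 _ (c3 i).1).2⟩,
    ⟨fun i => (c4 _ (c3 i).2).1, fun i => (c4 _ (c3 i).2).2⟩⟩, rfl⟩

end Pool.Agent.MP_39b1da_gt

end

section

/-!
The four families of lattice walls and the hexagon they cut out of the plane.
-/

set_option autoImplicit false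

namespace Pool.Agent.MP_39b1da_gt

open Filter Topology Set Real
open scoped ENNReal NNReal ContDiff InnerProductSpace

variable {m : ℕ}

/-- Five coordinates followed by zeros. -/
def wV {R : Type} [Zero R] (m : ℕ) (x : Fin 5 → R) : Fin (m + 4 + 1) → R :=
  Matrix.vecCons (x 0) (Matrix.vecCons (x 1) (Matrix.vecCons (x 2) (Matrix.vecCons (x 3)
    (Matrix.vecCons (x 4) 0))))

/-- The colours of the six classes. -/
def wCol : Fin 6 → Fin 4 := ![0, 0, 2, 2, 1, 3]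

/-- The rational parts of the six classes. -/
def wA : Fin 6 → Fin 5 → ZMod 2 :=
  ![![0, 0, 1, 0, 0], ![0, 0, 0, 0, 0], ![1, 0, 0, 0, 0], ![1, 0, 0, 0, 0], ![0, 0, 0, 1, 0],
    ![0, 0, 0, 0, 1]]

/-- The irrational parts of the six classes. -/
def wB : Fin 6 → Fin 5 → ZMod 2 :=
  ![![0, 0, 0, 0, 0], ![1, 1, 1, 0, 0], ![0, 1, 0, 0, 0], ![0, 0, 1, 0, 0], ![0, 0, 0, 0, 0],
    ![0, 0, 0, 0, 0]]

/-- Reduction modulo `2`. -/
def wR (a : Fin (m + 4 + 1) → ℤ) : Fin (m + 4 + 1) → ZMod 2 := fun i => (a i : ZMod 2)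

/-- The walls of colour `c`. -/
def wS (m : ℕ) (c : Fin 4) : Set (ℝ × Euc m) :=
  {v | lor v v = 1 ∧ ∃ a b j, v = lat a b ∧ wCol j = c ∧ wR a = wV m (wA j) ∧ wR b = wV m (wB j)}

theorem wR_neg (a : Fin (m + 4 + 1) → ℤ) : wR (-a) = wR a := by
  funext i
  simp [wR]

theorem wR_wV (x : Fin 5 → ℤ) : wR (wV m x) = wV m fun i => (x i : ZMod 2) := by
  funext i
  refine Fin.cases rfl (Fin.cases rfl (Fin.cases rfl (Fin.cases rfl (Fin.cases rfl fun j => ?_)))) i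
  simp [wR, wV]

theorem wV_inj {R : Type} [Zero R] {x y : Fin 5 → R} (h : wV m x = wV m y) : x = y := by
  simp only [wV, Matrix.vecCons_inj] at h
  funext i
  fin_cases i
  exacts [h.1, h.2.1, h.2.2.1, h.2.2.2.1, h.2.2.2.2.1]

theorem wP_cast (a b a' b' : Fin (m + 4 + 1) → ℤ) :
    ((wP a b a' b' : ℤ) : ZMod 2) = wP (wR a) (wR b) (wR a') (wR b') := by
  simp [wP, wR]

theorem wQ_cast (a b a' b' : Fin (m + 4 + 1) → ℤ) :
    ((wQ a b a' b' : ℤ) : ZMod 2) = wQ (wR a) (wR b) (wR a') (wR b') := by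
  simp [wQ, wR]

theorem wP_wV {R : Type} [CommRing R] (a b a' b' : Fin 5 → R) :
    wP (wV m a) (wV m b) (wV m a') (wV m b') = wP (m := 0) a b a' b' := by
  simp [wP, wV, Fin.sum_univ_succ]

theorem wQ_wV {R : Type} [CommRing R] (a b a' b' : Fin 5 → R) :
    wQ (wV m a) (wV m b) (wV m a') (wV m b') = wQ (m := 0) a b a' b' := by
  simp [wQ, wV, Fin.sum_univ_succ]

theorem wSame_tab : ∀ j j' : Fin 6, wCol j = wCol j' →
    ¬(wP (m := 0) (wA j) (wB j) (wA j') (wB j') = 0 ∧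
      wQ (m := 0) (wA j) (wB j) (wA j') (wB j') = 0) := by
  decide

theorem wDiff_tab : ∀ j j' : Fin 6, wA j = wA j' → wB j = wB j' → wCol j = wCol j' := by
  decide

theorem wPlane_tab : ∀ j : Fin 6, wCol j = 0 ∨ wCol j = 2 →
    ¬(wA j 0 = 0 ∧ wB j 0 = 0 ∧ wA j 2 = 0 ∧ wB j 2 = 0) := by
  decide

theorem wNe_tab : ∀ j : Fin 6, ¬(wA j = 0 ∧ wB j = 0) := by
  decide

theorem wS_neg {c : Fin 4} {v : ℝ × Euc m} (h : v ∈ wS m c) : -v ∈ wS m c := by
  obtain ⟨h1, a, b, j, rfl, h2, h3, h4⟩ := h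
  exact ⟨by rw [lor_neg_left, lor_neg_right, neg_neg, h1], -a, -b, j, (wLat_neg a b).symm, h2,
    by rw [wR_neg, h3], by rw [wR_neg, h4]⟩

theorem wS_same {c : Fin 4} {v w : ℝ × Euc m} (h : v ∈ wS m c) (h' : w ∈ wS m c) :
    w = v ∨ w = -v ∨ 3 / 2 ≤ |lor v w| := by
  obtain ⟨h1, a, b, j, rfl, h2, h3, h4⟩ := h
  obtain ⟨k1, a', b', j', rfl, k2, k3, k4⟩ := h'
  rcases wTri h1 k1 with ⟨rfl, rfl⟩ | ⟨rfl, rfl⟩ | ⟨e1, e2⟩ | e
  · exact Or.inl rfl
  · exact Or.inr (Or.inl (wLat_neg a b))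
  · refine absurd ⟨?_, ?_⟩ (wSame_tab j j' (h2.trans k2.symm))
    · rw [← wP_wV (m := m), ← h3, ← h4, ← k3, ← k4, ← wP_cast, e1, Int.cast_zero]
    · rw [← wQ_wV (m := m), ← h3, ← h4, ← k3, ← k4, ← wQ_cast, e2, Int.cast_zero]
  · exact Or.inr (Or.inr e)

theorem wS_diff {c c' : Fin 4} (hc : c ≠ c') {v w : ℝ × Euc m} (h : v ∈ wS m c)
    (h' : w ∈ wS m c') : lor v w = 0 ∨ 3 / 2 ≤ |lor v w| := by
  obtain ⟨h1, a, b, j, rfl, rfl, h3, h4⟩ := h
  obtain ⟨k1, a', b', j', rfl, rfl, k3, k4⟩ := h'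
  rcases wTri h1 k1 with ⟨rfl, rfl⟩ | ⟨rfl, rfl⟩ | ⟨e1, e2⟩ | e
  · exact absurd (wDiff_tab j j' (wV_inj (h3.symm.trans k3)) (wV_inj (h4.symm.trans k4))) hc
  · rw [wR_neg] at k3 k4
    exact absurd (wDiff_tab j j' (wV_inj (h3.symm.trans k3)) (wV_inj (h4.symm.trans k4))) hc
  · left
    rw [wLor_eq, e1, e2]
    simp
  · exact Or.inr e

theorem wS_fin (c : Fin 4) (x : Hyp (Euc m)) (R : ℝ) :
    {v | v ∈ wS m c ∧ |lor (lift x) v| ≤ R}.Finite :=
  (wFin x 1 R).subset fun _ ⟨⟨h1, a, b, _, h2, _⟩, h3⟩ => ⟨⟨a, b, h2⟩, h1, h3⟩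

theorem wS_countable (c : Fin 4) : (wS m c).Countable :=
  (Set.countable_range fun p : (Fin (m + 4 + 1) → ℤ) × (Fin (m + 4 + 1) → ℤ) =>
    lat p.1 p.2).mono (by rintro _ ⟨_, a, b, _, h2, _⟩; exact ⟨(a, b), h2.symm⟩)

/-- `g` is congruent to the identity modulo `2` on the lattice. -/
def wCong (g : Lor (Euc m)) : Prop :=
  ∀ a b, ∃ a' b', g.1 (lat a b) = lat a' b' ∧ wR a' = wR a ∧ wR b' = wR b

theorem wS_map {g : Lor (Euc m)} (hg : wCong g) {c : Fin 4} {v : ℝ × Euc m} (h : v ∈ wS m c) :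
    g.1 v ∈ wS m c := by
  obtain ⟨h1, a, b, j, rfl, h2, h3, h4⟩ := h
  obtain ⟨a', b', e1, e2, e3⟩ := hg a b
  exact ⟨(g.2.1 _ _).trans h1, a', b', j, e1, h2, e2.trans h3, e3.trans h4⟩

theorem wCong_of_cong4 {g : Lor (Euc m)} (hg : Cong4 g) : wCong g := by
  intro a b
  obtain ⟨a', b', e⟩ := hg a b
  have h : ∀ a a' : Fin (m + 4 + 1) → ℤ, wR (a + 4 • a') = wR a := by
    intro a a'
    funext i
    have : (4 : ZMod 2) = 0 := by decide
    simp [wR, this]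
  exact ⟨_, _, e, h _ _, h _ _⟩

theorem wCong_mul {g h : Lor (Euc m)} (hg : wCong g) (hh : wCong h) : wCong (g * h) := by
  intro a b
  obtain ⟨a', b', e1, e2, e3⟩ := hh a b
  obtain ⟨a'', b'', f1, f2, f3⟩ := hg a' b'
  refine ⟨a'', b'', ?_, f2.trans e2, f3.trans e3⟩
  change g.1 (h.1 (lat a b)) = _
  rw [e1, f1]

theorem wCong_refl {g : Lor (Euc m)} {c d : Fin (m + 4 + 1) → ℤ}
    (hg : ∀ v, g.1 v = v - (2 * lor v (lat c d)) • lat c d) : wCong g := by
  intro a b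
  have : (2 : ZMod 2) = 0 := by decide
  refine ⟨_, _, by rw [hg, wLor_eq, wLat_refl], ?_, ?_⟩ <;> funext i <;> simp [wR, this]

theorem wMem (a b : Fin 5 → ℤ) (j : Fin 6) (h1 : wP (m := 0) a b a b = 1)
    (h2 : wQ (m := 0) a b a b = 0) (h3 : (fun i => (a i : ZMod 2)) = wA j)
    (h4 : (fun i => (b i : ZMod 2)) = wB j) : lat (wV m a) (wV m b) ∈ wS m (wCol j) :=
  ⟨by rw [wLor_eq, wP_wV, wQ_wV, h1, h2]; simp, _, _, j, rfl, rfl, by rw [wR_wV, h3],
    by rw [wR_wV, h4]⟩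

theorem wS_w1 : ((0 : ℝ), EuclideanSpace.single 2 (1 : ℝ)) ∈ wS m 1 := by
  have e : ((0 : ℝ), EuclideanSpace.single 2 (1 : ℝ)) = lat (wV m ![0, 0, 0, 1, 0]) (wV m 0) := by
    refine Prod.ext (by simp [lat, wV]) ?_
    ext i
    refine Fin.cases ?_ (Fin.cases ?_ (Fin.cases ?_ (Fin.cases ?_ fun j => ?_))) i <;>
      simp [lat, wV, Fin.ext_iff, Nat.mod_eq_of_lt]
  rw [e]
  exact wMem _ _ 4 (by decide) (by decide) (by decide) (by decide)

theorem wS_w3 : ((0 : ℝ), EuclideanSpace.single 3 (1 : ℝ)) ∈ wS m 3 := by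
  have e : ((0 : ℝ), EuclideanSpace.single 3 (1 : ℝ)) = lat (wV m ![0, 0, 0, 0, 1]) (wV m 0) := by
    refine Prod.ext (by simp [lat, wV]) ?_
    ext i
    refine Fin.cases ?_ (Fin.cases ?_ (Fin.cases ?_ (Fin.cases ?_ fun j => ?_))) i <;>
      simp [lat, wV, Fin.ext_iff, Nat.mod_eq_of_lt]
  rw [e]
  exact wMem _ _ 5 (by decide) (by decide) (by decide) (by decide)

end Pool.Agent.MP_39b1da_gt

end

section

/-!
The walls of colours `0` and `2` cut the plane into bounded pieces.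
-/

set_option autoImplicit false

namespace Pool.Agent.MP_39b1da_gt

open Filter Topology Set Real
open scoped ENNReal NNReal ContDiff InnerProductSpace

variable {m : ℕ}

/-- The unit vectors orthogonal to the plane. -/
noncomputable def wE (j : Fin (m + 2)) : ℝ × Euc m := (0, EuclideanSpace.single j.succ.succ 1)

theorem wLor_wE (v : ℝ × Euc m) (j : Fin (m + 2)) : lor v (wE j) = v.2 j.succ.succ := by
  simp [lor, wE, EuclideanSpace.inner_single_right]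

/-- Points of the plane. -/
def wIn (x : Hyp (Euc m)) : Prop := ∀ j : Fin (m + 2), lor (lift x) (wE j) = 0

theorem wIn_I1 (w : ℂ) : wIn (Hyp.mk (I1 m w)) := by
  intro j
  rw [wLor_wE]
  simp [lift, I1, Fin.succ_succ_ne_one]

theorem wIn_smul {g : Lor (Euc m)} (hg : ∀ j, g.1 (wE j) = wE j) {x : Hyp (Euc m)}
    (hx : wIn x) : wIn (g • x) := by
  intro j
  rw [lift_smul, ← hg, g.2.1, hx]

theorem wInv_fix {E : Type} [NormedAddCommGroup E] [InnerProductSpace ℝ E] {g : Lor E}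
    {v : ℝ × E} (h : g.1 v = v) : (g⁻¹).1 v = v := by
  have : (g⁻¹).1 (g.1 v) = v := g.1.symm_apply_apply v
  rwa [h] at this

theorem wLor_inv {E : Type} [NormedAddCommGroup E] [InnerProductSpace ℝ E] (g : Lor E)
    (x : Hyp E) (v : ℝ × E) : lor (lift (g⁻¹ • x)) v = lor (lift x) (g.1 v) := by
  rw [← g.2.1, ← lift_smul, smul_inv_smul]

theorem wLor_in {x : Hyp (Euc m)} (hx : wIn x) (v : ℝ × Euc m) :
    lor (lift x) v = -((lift x).1 * v.1) + x.val 0 * v.2 0 + x.val 1 * v.2 1 := by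
  have h : ∀ j : Fin (m + 2), x.val j.succ.succ = 0 := fun j => (wLor_wE (lift x) j).symm.trans (hx j)
  have e : (lift x).2 = x.val := rfl
  simp only [lor, e, PiLp.inner_apply, RCLike.inner_apply, conj_trivial]
  rw [Fin.sum_univ_succ, Fin.sum_univ_succ]
  simp only [h, mul_zero, Finset.sum_const_zero, Fin.succ_zero_eq_one]
  ring

/-- The rational parts of the normals of the hexagon. -/
def wHa : Fin 6 → Fin 5 → ℤ :=
  ![![0, 0, 1, 0, 0], ![-1, 0, 0, 0, 0], ![-1, 0, 0, 0, 0], ![0, 0, 0, 0, 0], ![0, 0, 0, 0, 0],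
    ![-1, 0, 0, 0, 0]]

/-- The irrational parts of the normals of the hexagon. -/
def wHb : Fin 6 → Fin 5 → ℤ :=
  ![![0, 0, 0, 0, 0], ![0, -1, 0, 0, 0], ![0, 1, 0, 0, 0], ![-1, -1, -1, 0, 0],
    ![-1, 1, -1, 0, 0], ![0, 0, -1, 0, 0]]

/-- The classes of the normals of the hexagon. -/
def wHj : Fin 6 → Fin 6 := ![0, 2, 2, 1, 1, 3]

/-- The normals of the hexagon. -/
noncomputable def wH (m : ℕ) (k : Fin 6) : ℝ × Euc m := lat (wV m (wHa k)) (wV m (wHb k))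

theorem wH_mem (k : Fin 6) : wH m k ∈ wS m (wCol (wHj k)) :=
  wMem _ _ _ (by revert k; decide) (by revert k; decide) (by revert k; decide)
    (by revert k; decide)

theorem wH_col : ∀ k : Fin 6, wCol (wHj k) = 0 ∨ wCol (wHj k) = 2 := by decide

theorem wH_wE (k : Fin 6) (j : Fin (m + 2)) : lor (wE j) (wH m k) = 0 := by
  have h1 : ∀ k : Fin 6, wHa k 3 = 0 ∧ wHa k 4 = 0 ∧ wHb k 3 = 0 ∧ wHb k 4 = 0 := by decide
  rw [lor_comm, wLor_wE]
  refine Fin.cases ?_ (Fin.cases ?_ fun j => ?_) j <;> simp [wH, lat, wV, h1]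

/-- A lattice vector inside the cone over the hexagon. -/
noncomputable def wN (m : ℕ) : ℝ × Euc m := lat (wV m ![2, 0, 1, 0, 0]) (wV m 0)

theorem wN_pos (k : Fin 6) : 0 < lor (wN m) (wH m k) := by
  have h1 : ∀ k : Fin 6, -1 ≤ wP (m := 0) ![2, 0, 1, 0, 0] 0 (wHa k) (wHb k) ∧
      1 ≤ wP (m := 0) ![2, 0, 1, 0, 0] 0 (wHa k) (wHb k) +
        wQ (m := 0) ![2, 0, 1, 0, 0] 0 (wHa k) (wHb k) ∧
      0 ≤ wQ (m := 0) ![2, 0, 1, 0, 0] 0 (wHa k) (wHb k) := by decide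
  rw [wN, wH, wLor_eq, wP_wV, wQ_wV]
  obtain ⟨-, h2, h3⟩ := h1 k
  have h2' : (1 : ℝ) ≤ (wP (m := 0) ![2, 0, 1, 0, 0] 0 (wHa k) (wHb k) : ℤ) +
    (wQ (m := 0) ![2, 0, 1, 0, 0] 0 (wHa k) (wHb k) : ℤ) := by exact_mod_cast h2
  have h3' : (0 : ℝ) ≤ (wQ (m := 0) ![2, 0, 1, 0, 0] 0 (wHa k) (wHb k) : ℤ) := by
    exact_mod_cast h3
  nlinarith [one_lt_goldenRatio]

theorem wN_neg (g : Lor (Euc m)) (x : Hyp (Euc m)) : lor (lift x) (g.1 (wN m)) < 0 := by
  have h1 : lor (wN m) (wN m) = 1 - 4 * goldenRatio := by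
    rw [wN, wLor_eq, wP_wV, wQ_wV, show wP (m := 0) ![(2 : ℤ), 0, 1, 0, 0] 0 ![2, 0, 1, 0, 0] 0 = 1
      by decide, show wQ (m := 0) ![(2 : ℤ), 0, 1, 0, 0] 0 ![2, 0, 1, 0, 0] 0 = -4 by decide]
    push_cast; ring
  have h2 : 0 < (wN m).1 := by
    have := Real.sqrt_pos.2 goldenRatio_pos
    simpa [wN, lat, wV] using goldenRatio_pos
  have h3 : 0 < 4 * goldenRatio - 1 := by linarith [one_lt_goldenRatio]
  have h4 := Real.sqrt_pos.2 h3
  have h5 := Real.mul_self_sqrt h3.le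
  set t := √(4 * goldenRatio - 1)
  have h6 : lor (t⁻¹ • wN m) (t⁻¹ • wN m) = -1 := by
    rw [lor_smul_left, lor_smul_right, h1, show 1 - 4 * goldenRatio = -(t * t) by linarith]
    field_simp
  have h7 := lift_eq h6 (by simpa using mul_pos (inv_pos.2 h4) h2)
  have h8 := one_le_lor x (g • Hyp.mk (t⁻¹ • wN m).2)
  rw [lift_smul, h7, map_smul, lor_smul_right] at h8
  by_contra hc
  nlinarith [mul_nonneg (inv_pos.2 h4).le (not_lt.1 hc)]

theorem wHexR {φ s T p q : ℝ} (hφ : 1.618 < φ ∧ φ < 1.619) (hs : s * s = φ)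
    (h6 : -1 = -(T * T) + p * p + q * q) (h0 : 0 ≤ q) (h1 : p * φ ≤ T * s)
    (h2 : 0 ≤ T * s + p * φ) (h3 : q * φ + p * φ ≤ T * (s * φ))
    (h4 : q * φ ≤ T * (s * φ) + p * φ) (h5 : q * φ ≤ T * s) : T ≤ 3 := by
  have h : 0 < φ := by linarith
  obtain ⟨y, hy⟩ : ∃ y, T * s = y * φ := ⟨T * s / φ, by field_simp⟩
  have h9 : T ^ 2 = φ * y ^ 2 := by
    refine mul_left_cancel₀ h.ne' ?_
    linear_combination (T * s + y * φ) * hy - T ^ 2 * hs
  rw [← mul_assoc] at h3 h4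
  rw [hy] at h1 h2 h3 h4 h5
  have k1 : |p| ≤ y := abs_le.2 ⟨by nlinarith, by nlinarith⟩
  have k2 : q ≤ y := by nlinarith
  have k3 : |p| + q ≤ y * φ := by
    rcases abs_cases p with e | e <;> rw [e.1] <;> nlinarith
  have k4 := abs_nonneg p
  have k5 : p * p = |p| ^ 2 := by rw [sq_abs, sq]
  have k6 : |p| ^ 2 + q * q ≤ 1.4 * y ^ 2 := by
    have k7 := mul_nonneg (sub_nonneg.2 k1) (sub_nonneg.2 k2)
    have k8 : |p| + q ≤ 1.62 * y := by nlinarith
    rcases le_total (|p| + q) y with e | e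
    · nlinarith [mul_nonneg k4 h0]
    · nlinarith [mul_nonneg (sub_nonneg.2 e) (sub_nonneg.2 k8)]
  have k9 : y ^ 2 ≤ 5 := by nlinarith [sq_nonneg y]
  nlinarith

/-- The hexagon is bounded. -/
theorem wHex {x : Hyp (Euc m)} (hx : wIn x) (h : ∀ k, 0 ≤ lor (lift x) (wH m k)) :
    dist x (Hyp.mk 0) ≤ 3 := by
  have hs := Real.mul_self_sqrt goldenRatio_pos.le
  have h0 := h 0
  have h1 := h 1
  have h2 := h 2
  have h3 := h 3
  have h4 := h 4
  have h5 := h 5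
  have h6 := wLor_in hx (lift x)
  rw [lor_lift_self] at h6
  simp only [wLor_in hx, wH, lat] at h0 h1 h2 h3 h4 h5
  generalize √goldenRatio = s at *
  simp [wV, wHa, wHb] at h0 h1 h2 h3 h4 h5
  have h7 : cosh (dist x (Hyp.mk 0)) = (lift x).1 := by
    rw [cosh_dist]; simp [lor, lift]
  have h8 := wHexR wPhi_bd hs h6 h0 h1 h2 h3 h4 h5
  have h9 := Real.self_le_sinh_iff.2 (dist_nonneg (x := x) (y := Hyp.mk 0))
  linarith [Real.sinh_lt_cosh (dist x (Hyp.mk 0))]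

/-- Every point lies on the positive side of the six walls of a translate of the hexagon. -/
theorem wChamber (x : Hyp (Euc m)) : ∃ g : Lor (Euc m), wCong g ∧ (∀ j, g.1 (wE j) = wE j) ∧
    ∀ k, 0 ≤ lor (lift x) (g.1 (wH m k)) := by
  let A : Set (ℝ × Euc m) := {v | (∃ g : Lor (Euc m), wCong g ∧ (∀ j, g.1 (wE j) = wE j) ∧
    g.1 (wN m) = v) ∧ -lor (lift x) v ≤ -lor (lift x) (wN m)}
  have hA : A.Finite := by
    refine (wFin x (lor (wN m) (wN m)) (-lor (lift x) (wN m))).subset ?_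
    rintro _ ⟨⟨g, h1, -, rfl⟩, h2⟩
    obtain ⟨a, b, e, -⟩ := h1 (wV m ![2, 0, 1, 0, 0]) (wV m 0)
    exact ⟨⟨a, b, e⟩, g.2.1 _ _, by rwa [abs_of_neg (wN_neg g x)]⟩
  obtain ⟨_, ⟨⟨g, h1, h2, rfl⟩, h3⟩, h4⟩ := Set.exists_min_image A (fun v => -lor (lift x) v) hA
    ⟨wN m, ⟨1, fun a b => ⟨a, b, rfl, rfl, rfl⟩, fun _ => rfl, rfl⟩, le_rfl⟩
  refine ⟨g, h1, h2, fun k => ?_⟩
  obtain ⟨r, hr⟩ := exists_refl (wH_mem (m := m) k).1
  have e : lor (lift x) ((g * r).1 (wN m)) = lor (lift x) (g.1 (wN m)) -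
      2 * lor (wN m) (wH m k) * lor (lift x) (g.1 (wH m k)) := by
    change lor (lift x) (g.1 (r.1 (wN m))) = _
    rw [hr, map_sub, map_smul, lor_sub_right, lor_smul_right]
  by_contra hc
  have h5 := mul_pos (wN_pos (m := m) k) (neg_pos.2 (not_le.1 hc))
  have h6 := h4 ((g * r).1 (wN m)) ⟨⟨g * r, wCong_mul h1 (wCong_refl hr), fun j => by
    change g.1 (r.1 (wE j)) = _
    rw [hr, wH_wE, mul_zero, zero_smul, sub_zero, h2], rfl⟩, by linarith⟩
  linarith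

theorem wDense {x y : Hyp (Euc m)} (hx : wIn x) (hy : wIn y) (h : 7 ≤ dist x y) :
    ∃ c, (c = 0 ∨ c = 2) ∧ ∃ v ∈ wS m c, 0 ≤ lor (lift x) v ∧ lor (lift y) v < 0 := by
  obtain ⟨g, h1, h2, h3⟩ := wChamber x
  by_contra hc
  have h4 : ∀ k, 0 ≤ lor (lift y) (g.1 (wH m k)) := fun k => not_lt.1 fun hk =>
    hc ⟨_, wH_col k, _, wS_map h1 (wH_mem k), h3 k, hk⟩
  have h5 := wHex (wIn_smul (fun j => wInv_fix (h2 j)) hx) fun k => by rw [wLor_inv]; exact h3 k
  have h6 := wHex (wIn_smul (fun j => wInv_fix (h2 j)) hy) fun k => by rw [wLor_inv]; exact h4 k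
  have h7 := dist_triangle_right (g⁻¹ • x) (g⁻¹ • y) (Hyp.mk 0)
  rw [dist_smul_lor] at h7
  linarith

/-- A point off countably many walls. -/
theorem wOff {E : Type} [NormedAddCommGroup E] [InnerProductSpace ℝ E] [CompleteSpace E]
    {A : Set (ℝ × E)} (hA : A.Countable) (h0 : ∀ v ∈ A, v ≠ 0) :
    ∃ x : Hyp E, ∀ v ∈ A, lor (lift x) v ≠ 0 := by
  have : BaireSpace (Hyp E) := inferInstanceAs (BaireSpace E)
  have : Nonempty (Hyp E) := ⟨Hyp.mk 0⟩
  have h : Dense (⋂ v ∈ A, {x : Hyp E | lor (lift x) v ≠ 0}) := by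
    refine dense_biInter_of_isOpen (fun v _ => ?_) hA fun v hv x => ?_
    · exact isOpen_ne_fun (f := fun x : Hyp E => lor (lift x) v) (by unfold lor; fun_prop)
        continuous_const
    · rw [mem_closure_iff_frequently]
      intro hc
      exact h0 v hv (eq_zero_of_eventually (hc.mono fun y hy => not_not.1 hy))
  obtain ⟨x, hx⟩ := h.nonempty
  exact ⟨x, fun v hv => Set.mem_iInter₂.1 hx v hv⟩

theorem wLat_zero {a b : Fin (m + 4 + 1) → ℤ} (i : Fin (m + 4 + 1))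
    (h : (a i : ℝ) + b i * goldenRatio = 0) : wR a i = 0 ∧ wR b i = 0 := by
  obtain ⟨h1, h2⟩ := wIrr goldenRatio_irrational h
  simp [wR, h1, h2]

theorem wGen : ∃ x : Hyp (Euc m), ∀ c, ∀ v ∈ wS m c, lor (lift x) v ≠ 0 := by
  obtain ⟨x, hx⟩ := wOff (Set.countable_iUnion (wS_countable (m := m))) fun v hv h0 => by
    obtain ⟨c, h, -⟩ := Set.mem_iUnion.1 hv
    simp [h0, lor] at h
  exact ⟨x, fun c v hv => hx v (Set.mem_iUnion.2 ⟨c, hv⟩)⟩

theorem wNorm_I1 (w : ℂ) : ‖I1 m w‖ ^ 2 = ‖w‖ ^ 2 := by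
  rw [EuclideanSpace.real_norm_sq_eq, Fin.sum_univ_succ, Fin.sum_univ_succ, Complex.sq_norm,
    Complex.normSq_apply]
  simp [I1, Fin.succ_succ_ne_one, sq]

theorem wLor_I1 (w : ℂ) (v : ℝ × Euc m) :
    lor (lift (Hyp.mk (I1 m w))) v = lor (lift (Hyp.mk w)) (v.1, Z1 v.2) := by
  rw [wLor_in (wIn_I1 w)]
  simp only [lor, lift, Hyp.val_mk, wNorm_I1, Complex.inner]
  simp [I1, Z1]
  ring

theorem wGen0 : ∃ w : ℂ, ∀ c, c = 0 ∨ c = 2 → ∀ v ∈ wS m c,
    lor (lift (Hyp.mk (I1 m w))) v ≠ 0 := by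
  obtain ⟨x, hx⟩ := wOff (((wS_countable (m := m) 0).union (wS_countable 2)).image
    fun v => (v.1, Z1 v.2)) (by
      rintro _ ⟨v, hv, rfl⟩ h0
      obtain ⟨c, hc, -, a, b, j, rfl, rfl, h3, h4⟩ : ∃ c, (c = 0 ∨ c = 2) ∧ v ∈ wS m c :=
        hv.elim (fun h => ⟨0, Or.inl rfl, h⟩) fun h => ⟨2, Or.inr rfl, h⟩
      have e0 : √goldenRatio * ((a 0 : ℝ) + b 0 * goldenRatio) = 0 := congrArg Prod.fst h0
      have e1 := wLat_zero 0 ((mul_eq_zero.1 e0).resolve_left (Real.sqrt_pos.2 goldenRatio_pos).ne')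
      have e2 := wLat_zero (a := a) (b := b) (Fin.succ 1) (congrArg (fun p => p.2.im) h0)
      rw [h3, h4] at e1 e2
      exact wPlane_tab j hc ⟨e1.1, e1.2, e2.1, e2.2⟩)
  refine ⟨x.val, fun c hc v hv => ?_⟩
  rw [wLor_I1]
  refine hx _ ⟨v, ?_, rfl⟩
  rcases hc with rfl | rfl
  exacts [Or.inl hv, Or.inr hv]

theorem wQuad : ∃ x : Hyp (Euc m), ∀ c, ∃ v ∈ wS m c, lor (lift x) v = 0 := by
  have hs := Real.sq_sqrt goldenRatio_pos.le
  have hx := wIn_I1 (m := m) (√goldenRatio : ℝ)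
  have h1 : (lift (Hyp.mk (I1 m (√goldenRatio : ℝ)))).1 = goldenRatio := by
    simp only [lift, Hyp.val_mk, wNorm_I1, Complex.norm_real, Real.norm_eq_abs, sq_abs, hs]
    rw [add_comm, ← goldenRatio_sq, Real.sqrt_sq goldenRatio_pos.le]
  refine ⟨Hyp.mk (I1 m (√goldenRatio : ℝ)), fun c => ?_⟩
  fin_cases c
  · refine ⟨_, wH_mem 0, ?_⟩
    simp only [wLor_in hx, wH, lat]
    generalize √goldenRatio = s
    simp [wV, wHa, wHb, I1]
  · exact ⟨_, wS_w1, hx 0⟩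
  · refine ⟨_, wH_mem 1, ?_⟩
    simp only [wLor_in hx, wH, lat, h1]
    generalize √goldenRatio = s
    simp [wV, wHa, wHb, I1]
    ring
  · exact ⟨_, wS_w3, hx 1⟩

end Pool.Agent.MP_39b1da_gt

end
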