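import Pool.Agent.MP_39b1da_gt.Defs

section

/-!
Working definitions: the comparison inequality, the hyperboloid model, the Lorentz group, the
branched models, wall systems and the branched cover.
-/

set_option autoImplicit false
set_option linter.unusedSectionVars false

namespace Pool.Agent.MP_39b1da_gt

open Filter Topology Set Real
open scoped ENNReal NNReal ContDiff InnerProductSpace

section Metric

/-- `x` lies between `y` and `z`. -/
def Btw {X : Type} [MetricSpace X] (y x z : X) : Prop := dist y x + dist x z = dist y z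

/-- Every intermediate distance from `y` is realised by a point between `y` and `z`. -/
def HasBtw {X : Type} [MetricSpace X] (y z : X) : Prop :=
  ∀ s : ℝ, 0 ≤ s → s ≤ dist y z → ∃ x, dist y x = s ∧ Btw y x z

/-- The curvature `-1` comparison inequality for a point `x` between `y` and `z`, seen from `p`. -/
def KIneq {X : Type} [MetricSpace X] (p y x z : X) : Prop :=
  sinh (dist y z) * cosh (dist p x) ≤
    sinh (dist x z) * cosh (dist p y) + sinh (dist y x) * cosh (dist p z)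

/-- Curvature at most `-1` at scale `ε`. -/
structure LocK (X : Type) [MetricSpace X] (ε : ℝ) : Prop where
  pos : 0 < ε
  btw : ∀ y z : X, dist y z < ε → HasBtw y z
  k : ∀ p y x z : X, dist p y < ε → dist p z < ε → Btw y x z → KIneq p y x z

/-- Curvature at most `-1` in the large. -/
structure GlobK (X : Type) [MetricSpace X] : Prop where
  btw : ∀ y z : X, HasBtw y z
  k : ∀ p y x z : X, Btw y x z → KIneq p y x z

/-- Unique geodesics that depend continuously on an end point. -/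
structure UGeo (X : Type) [MetricSpace X] (ε : ℝ) : Prop where
  pos : 0 < ε
  btw : ∀ y z : X, HasBtw y z
  uniq : ∀ y x x' z : X, Btw y x z → Btw y x' z → dist y x = dist y x' → x = x'
  close : ∀ (p y z y' z' : X) (t : ℝ), dist y z < ε → Btw p y' y → Btw p z' z →
    dist p y' = t * dist p y → dist p z' = t * dist p z → 0 ≤ t → t ≤ 1 → dist y' z' ≤ dist y z

/-- Length space. -/
def IsLen (X : Type) [PseudoEMetricSpace X] : Prop :=
  ∀ (x y : X) (r : ℝ≥0∞), edist x y < r → ∃ a : Path x y, eVariationOn a univ < r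

/-- `p` maps every ball of radius `ε` isometrically onto the ball of radius `ε`. -/
def BallIso {A B : Type} [MetricSpace A] [MetricSpace B] (p : A → B) (ε : ℝ) : Prop :=
  0 < ε ∧ ∀ a : A, (∀ a' ∈ Metric.ball a ε, ∀ a'' ∈ Metric.ball a ε,
    dist (p a') (p a'') = dist a' a'') ∧ Metric.ball (p a) ε ⊆ p '' Metric.ball a ε

/-- The length distance on the universal cover, lengths being measured through `f`. -/
noncomputable def ulen {M S : Type} [TopologicalSpace M] [PseudoEMetricSpace S] (f : M → S)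
    {m₀ : M} (x y : UCover M m₀) : ℝ≥0∞ :=
  ⨅ (a : Path x.1 y.1) (_ : x.2.trans (Path.Homotopic.Quotient.mk a) = y.2),
    eVariationOn (f ∘ a) univ

theorem udist_eq {M : Type} [PseudoEMetricSpace M] {m₀ : M} (x y : UCover M m₀) :
    udist x y = (ulen id x y).toReal := rfl

/-- A pseudo-distance in which any two points are joined by an almost optimal chain. -/
structure CoarseLen {X : Type} (d : X → X → ℝ) : Prop where
  self : ∀ x, d x x = 0
  symm : ∀ x y, d x y = d y x
  tri : ∀ x y z, d x z ≤ d x y + d y z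
  chain : ∀ x y, ∃ (N : ℕ) (p : ℕ → X), p 0 = x ∧ p N = y ∧ (∀ i < N, d (p i) (p (i + 1)) ≤ 1) ∧
    (N : ℝ) ≤ d x y + 2

/-- A unit speed geodesic ray from `o`. -/
def IsRay {X : Type} [MetricSpace X] (o : X) (c : ℝ → X) : Prop :=
  c 0 = o ∧ ∀ s t : ℝ, 0 ≤ s → 0 ≤ t → dist (c s) (c t) = |s - t|

/-- The visual quasi-distance of two rays. -/
noncomputable def qr {X : Type} [MetricSpace X] (c c' : ℝ → X) : ℝ :=
  sSup {r | ∃ s : ℝ, 0 < s ∧ r = sinh (dist (c s) (c' s) / 2) / sinh s}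

/-- The regularity hypothesis of the Pansu-Bourdon argument, with exponent `s`. -/
def Regular {Ω : Type} [MeasurableSpace Ω] (μ : MeasureTheory.Measure Ω)
    (q : Ω × ℝ → Ω × ℝ → ℝ) (s : ℝ) : Prop :=
  ∀ K : ℝ, ∃ C : ℝ≥0, ∀ a : Ω × ℝ, a.2 ∈ Icc (0 : ℝ) 1 → ∀ r : ℝ, 0 < r → r ≤ 1 →
    ∃ (A : Set Ω) (R : Set (Ω × ℝ)), MeasurableSet A ∧ MeasurableSet R ∧
      (∀ b : Ω × ℝ, b.2 ∈ Icc (0 : ℝ) 1 → q a b ≤ K * r → b.1 ∈ A) ∧
      (∀ b ∈ R, b.2 ∈ Icc (0 : ℝ) 1 ∧ q a b ≤ r) ∧
      μ A ^ s ≤ C * (μ.prod MeasureTheory.volume) R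

end Metric

section Hyperboloid

variable {E : Type} [NormedAddCommGroup E] [InnerProductSpace ℝ E]

/-- The Lorentz form. -/
noncomputable def lor (v w : ℝ × E) : ℝ := -(v.1 * w.1) + ⟪v.2, w.2⟫_ℝ

/-- Hyperbolic space, parametrised by the spatial projection of the upper sheet. -/
def Hyp (E : Type) : Type := E

/-- The point with the given spatial coordinates. -/
def Hyp.mk (x : E) : Hyp E := x

/-- The spatial coordinates. -/
def Hyp.val (x : Hyp E) : E := x

omit [NormedAddCommGroup E] [InnerProductSpace ℝ E] in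
@[simp] theorem Hyp.val_mk (x : E) : (Hyp.mk x).val = x := rfl

omit [NormedAddCommGroup E] [InnerProductSpace ℝ E] in
@[simp] theorem Hyp.mk_val (x : Hyp E) : Hyp.mk x.val = x := rfl

/-- The point of the upper sheet. -/
noncomputable def lift (x : Hyp E) : ℝ × E := (√(1 + ‖x.val‖ ^ 2), x.val)

theorem lor_comm (v w : ℝ × E) : lor v w = lor w v := by
  simp [lor, real_inner_comm, mul_comm]

theorem lor_add_left (u v w : ℝ × E) : lor (u + v) w = lor u w + lor v w := by
  simp [lor, inner_add_left]; ring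

theorem lor_smul_left (t : ℝ) (v w : ℝ × E) : lor (t • v) w = t * lor v w := by
  simp [lor, inner_smul_left]; ring

theorem lor_add_right (u v w : ℝ × E) : lor u (v + w) = lor u v + lor u w := by
  simp [lor, inner_add_right]; ring

theorem lor_smul_right (t : ℝ) (v w : ℝ × E) : lor v (t • w) = t * lor v w := by
  simp [lor, inner_smul_right]; ring

theorem lor_neg_left (v w : ℝ × E) : lor (-v) w = -lor v w := by
  simp [lor]; ring

theorem lor_neg_right (v w : ℝ × E) : lor v (-w) = -lor v w := by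
  simp [lor]; ring

theorem lor_sub_left (u v w : ℝ × E) : lor (u - v) w = lor u w - lor v w := by
  simp [lor, inner_sub_left]; ring

theorem lor_sub_right (u v w : ℝ × E) : lor u (v - w) = lor u v - lor u w := by
  simp [lor, inner_sub_right]; ring

theorem lift_fst_sq (x : Hyp E) : (lift x).1 ^ 2 = 1 + ‖x.val‖ ^ 2 :=
  Real.sq_sqrt (by positivity)

theorem one_le_lift_fst (x : Hyp E) : 1 ≤ (lift x).1 :=
  Real.one_le_sqrt.2 (by nlinarith [sq_nonneg ‖x.val‖])

theorem lor_lift_self (x : Hyp E) : lor (lift x) (lift x) = -1 := by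
  have := lift_fst_sq x
  have h2 : (lift x).2 = x.val := rfl
  simp only [lor, h2, real_inner_self_eq_norm_sq]; nlinarith

theorem lift_eq {v : ℝ × E} (h : lor v v = -1) (h0 : 0 < v.1) : lift (Hyp.mk v.2) = v := by
  refine Prod.ext ?_ rfl
  have : 1 + ‖v.2‖ ^ 2 = v.1 ^ 2 := by
    simp only [lor, real_inner_self_eq_norm_sq] at h; nlinarith
  simp only [lift, Hyp.val_mk, this, Real.sqrt_sq h0.le]

theorem lor_self_nonneg {y u : ℝ × E} (hy : lor y y = -1) (h : lor u y = 0) : 0 ≤ lor u u := by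
  simp only [lor, real_inner_self_eq_norm_sq] at *
  have h1 : ⟪u.2, y.2⟫_ℝ ^ 2 ≤ (‖u.2‖ * ‖y.2‖) ^ 2 :=
    sq_le_sq' (by have := abs_le.1 (abs_real_inner_le_norm u.2 y.2); linarith)
      (real_inner_le_norm _ _)
  have h2 : ⟪u.2, y.2⟫_ℝ = u.1 * y.1 := by linarith
  rw [h2] at h1
  have h3 : y.1 ^ 2 = 1 + ‖y.2‖ ^ 2 := by nlinarith
  have h4 : u.1 ^ 2 * (1 + ‖y.2‖ ^ 2) ≤ ‖u.2‖ ^ 2 * ‖y.2‖ ^ 2 := by
    rw [← h3]; nlinarith
  by_contra hc
  have h5 : ‖u.2‖ ^ 2 < u.1 ^ 2 := by nlinarith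
  nlinarith [sq_nonneg ‖y.2‖, sq_nonneg ‖u.2‖]

theorem lor_cs {y u w : ℝ × E} (hy : lor y y = -1) (hu : lor u y = 0) (hw : lor w y = 0) :
    lor u w ^ 2 ≤ lor u u * lor w w := by
  have h : ∀ t : ℝ, 0 ≤ lor u u * (t * t) + 2 * lor u w * t + lor w w := by
    intro t
    have := lor_self_nonneg (u := t • u + w) hy (by rw [lor_add_left, lor_smul_left, hu, hw]; ring)
    simp only [lor_add_left, lor_add_right, lor_smul_left, lor_smul_right, lor_comm w u] at this
    linarith
  have := discrim_le_zero h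
  simp only [discrim] at this
  nlinarith

theorem one_le_lor (x y : Hyp E) : 1 ≤ -lor (lift x) (lift y) := by
  have hx := lift_fst_sq x
  have hy := lift_fst_sq y
  have hx1 := one_le_lift_fst x
  have hy1 := one_le_lift_fst y
  have h1 : ⟪x.val, y.val⟫_ℝ ≤ ‖x.val‖ * ‖y.val‖ := real_inner_le_norm _ _
  have h2 : 1 + ‖x.val‖ * ‖y.val‖ ≤ (lift x).1 * (lift y).1 := by
    refine abs_le_of_sq_le_sq' ?_ (by positivity) |>.2
    rw [mul_pow, hx, hy]
    nlinarith [sq_nonneg (‖x.val‖ - ‖y.val‖)]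
  have h3 : lor (lift x) (lift y) = -((lift x).1 * (lift y).1) + ⟪x.val, y.val⟫_ℝ := rfl
  linarith

theorem lor_tri (x y z : Hyp E) : arcosh (-lor (lift x) (lift z)) ≤
    arcosh (-lor (lift x) (lift y)) + arcosh (-lor (lift y) (lift z)) := by
  have ha := one_le_lor x y
  have hb := one_le_lor y z
  have hc := one_le_lor x z
  have hY := lor_lift_self y
  have key := lor_cs (u := lift x + lor (lift x) (lift y) • lift y)
    (w := lift z + lor (lift y) (lift z) • lift y) hY
    (by rw [lor_add_left, lor_smul_left, hY]; ring)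
    (by rw [lor_add_left, lor_smul_left, hY, lor_comm]; ring)
  simp only [lor_add_left, lor_add_right, lor_smul_left, lor_smul_right, hY, lor_lift_self,
    lor_comm (lift y) (lift x), lor_comm (lift z) (lift y)] at key
  set a := -lor (lift x) (lift y) with ha'
  set b := -lor (lift y) (lift z) with hb'
  set c := -lor (lift x) (lift z) with hc'
  have e1 : lor (lift x) (lift y) = -a := by simp [ha']
  have e2 : lor (lift y) (lift z) = -b := by simp [hb']
  have e3 : lor (lift x) (lift z) = -c := by simp [hc']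
  rw [e1, e2, e3] at key
  have h1 : (c - a * b) ^ 2 ≤ (√(a ^ 2 - 1) * √(b ^ 2 - 1)) ^ 2 := by
    rw [mul_pow, Real.sq_sqrt (by nlinarith), Real.sq_sqrt (by nlinarith)]
    nlinarith
  have h2 := (abs_le_of_sq_le_sq' h1 (by positivity)).2
  have h3 : c ≤ cosh (arcosh a + arcosh b) := by
    rw [cosh_add, cosh_arcosh ha, cosh_arcosh hb, sinh_arcosh ha, sinh_arcosh hb]; linarith
  have h4 := add_nonneg (arcosh_nonneg ha) (arcosh_nonneg hb)
  rw [← arcosh_cosh h4, arcosh_le_arcosh (by linarith) (cosh_pos _)]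
  exact h3

theorem norm_sub_sq_eq (x y : Hyp E) : ‖x.val - y.val‖ ^ 2 =
    ((lift x).1 - (lift y).1) ^ 2 + 2 * (-lor (lift x) (lift y) - 1) := by
  have hx := lift_fst_sq x
  have hy := lift_fst_sq y
  have h3 : lor (lift x) (lift y) = -((lift x).1 * (lift y).1) + ⟪x.val, y.val⟫_ℝ := rfl
  rw [norm_sub_sq_real, h3]; nlinarith

/-- The hyperbolic metric, before its topology is identified. -/
@[reducible] noncomputable def hypAux : MetricSpace (Hyp E) where
  dist x y := arcosh (-lor (lift x) (lift y))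
  dist_self x := by simp [lor_lift_self]
  dist_comm x y := by rw [lor_comm]
  dist_triangle := lor_tri
  eq_of_dist_eq_zero := by
    intro x y h
    have h1 : -lor (lift x) (lift y) = 1 := (arcosh_eq_zero_iff (one_le_lor x y)).1 h
    have h2 := lor_tri (Hyp.mk 0) x y
    have h3 := lor_tri (Hyp.mk 0) y x
    rw [lor_comm (lift y) (lift x)] at h3
    rw [h1, arcosh_zero, add_zero] at h2 h3
    have h4 : ∀ z : Hyp E, -lor (lift (Hyp.mk 0)) (lift z) = (lift z).1 := by
      intro z; simp [lor, lift]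
    rw [h4, h4] at h2 h3
    have h5 : (lift x).1 = (lift y).1 :=
      arcosh_injOn (one_le_lift_fst x) (one_le_lift_fst y) (le_antisymm h3 h2)
    have h6 := norm_sub_sq_eq x y
    rw [h1, h5] at h6
    have : x.val - y.val = 0 := by simpa using h6
    exact (sub_eq_zero.1 this : x.val = y.val)

theorem hypAux_top : (inferInstance : TopologicalSpace E) =
    (hypAux (E := E)).toUniformSpace.toTopologicalSpace := by
  let _ := hypAux (E := E)
  have hd : ∀ x y : Hyp E, cosh (dist x y) = -lor (lift x) (lift y) := fun x y =>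
    cosh_arcosh (one_le_lor x y)
  have c1 : Continuous (Hyp.mk : E → Hyp E) := by
    refine continuous_iff_continuousAt.2 fun x => tendsto_iff_dist_tendsto_zero.2 ?_
    have : Continuous fun y : E => arcosh (-lor (lift (Hyp.mk y)) (lift (Hyp.mk x))) := by
      refine continuousOn_arcosh.comp_continuous ?_ fun y => one_le_lor _ _
      simp only [lor, lift, Hyp.val_mk]
      fun_prop
    have h2 := this.tendsto x
    rw [lor_lift_self, neg_neg, arcosh_zero] at h2
    exact h2
  have c2 : Continuous (Hyp.val : Hyp E → E) := by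
    refine continuous_iff_continuousAt.2 fun x => tendsto_iff_norm_sub_tendsto_zero.2 ?_
    have h4 : ∀ z : Hyp E, (lift z).1 = cosh (dist (Hyp.mk 0) z) := by
      intro z; rw [hd]; simp [lor, lift]
    have h5 : ∀ y : Hyp E, ‖y.val - x.val‖ = √((cosh (dist (Hyp.mk 0) y) -
        cosh (dist (Hyp.mk 0) x)) ^ 2 + 2 * (cosh (dist y x) - 1)) := by
      intro y
      rw [← h4, ← h4, hd, ← norm_sub_sq_eq, Real.sqrt_sq (norm_nonneg _)]
    simp only [h5]
    have : Continuous fun y : Hyp E => √((cosh (dist (Hyp.mk 0) y) -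
        cosh (dist (Hyp.mk 0) x)) ^ 2 + 2 * (cosh (dist y x) - 1)) := by fun_prop
    simpa using this.tendsto x
  exact le_antisymm (continuous_id_iff_le.1 c1) (continuous_id_iff_le.1 c2)

noncomputable instance hypMetric : MetricSpace (Hyp E) :=
  @MetricSpace.replaceTopology (Hyp E) (inferInstance : TopologicalSpace E) hypAux hypAux_top

theorem cosh_dist (x y : Hyp E) : cosh (dist x y) = -lor (lift x) (lift y) :=
  cosh_arcosh (one_le_lor x y)

@[fun_prop] theorem continuous_mk : Continuous (Hyp.mk : E → Hyp E) := continuous_id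

@[fun_prop] theorem continuous_val : Continuous (Hyp.val : Hyp E → E) := continuous_id

@[fun_prop] theorem continuous_lift : Continuous (lift : Hyp E → ℝ × E) := by
  unfold lift; fun_prop

/-- The orthochronous Lorentz group. -/
def Lor (E : Type) [NormedAddCommGroup E] [InnerProductSpace ℝ E] :
    Subgroup ((ℝ × E) ≃L[ℝ] (ℝ × E)) where
  carrier := {g | (∀ v w, lor (g v) (g w) = lor v w) ∧
    ∀ v, lor v v = -1 → 0 < v.1 → 0 < (g v).1}
  one_mem' := ⟨fun _ _ => rfl, fun _ _ h => h⟩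
  mul_mem' := by
    rintro g h ⟨g1, g2⟩ ⟨h1, h2⟩
    exact ⟨fun v w => (g1 (h v) (h w)).trans (h1 v w),
      fun v hv h0 => g2 (h v) ((h1 v v).trans hv) (h2 v hv h0)⟩
  inv_mem' := by
    rintro g ⟨g1, g2⟩
    have e : ∀ v, g (g⁻¹ v) = v := fun v => g.apply_symm_apply v
    have h1 : ∀ v w, lor (g⁻¹ v) (g⁻¹ w) = lor v w := fun v w => by rw [← g1, e, e]
    refine ⟨h1, fun v hv h0 => ?_⟩
    have h2 : lor (g⁻¹ v) (g⁻¹ v) = -1 := (h1 v v).trans hv
    rcases lt_trichotomy (g⁻¹ v).1 0 with h | h | h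
    · have := g2 (-g⁻¹ v) (by rw [lor_neg_left, lor_neg_right, h2]; ring) (by simpa using h)
      rw [map_neg, e] at this
      simp at this; linarith
    · simp only [lor, h, real_inner_self_eq_norm_sq] at h2
      nlinarith [sq_nonneg ‖(g⁻¹ v).2‖]
    · exact h

theorem lift_act (g : Lor E) (x : Hyp E) : lift (Hyp.mk (g.1 (lift x)).2) = g.1 (lift x) :=
  lift_eq ((g.2.1 _ _).trans (lor_lift_self x))
    (g.2.2 _ (lor_lift_self x) (by linarith [one_le_lift_fst x]))

noncomputable instance lorAction : MulAction (Lor E) (Hyp E) where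
  smul g x := Hyp.mk (g.1 (lift x)).2
  one_smul _ := rfl
  mul_smul g h x := by
    change Hyp.mk (g.1 (h.1 (lift x))).2 = Hyp.mk (g.1 (lift (Hyp.mk (h.1 (lift x)).2))).2
    rw [lift_act]

theorem lift_smul (g : Lor E) (x : Hyp E) : lift (g • x) = g.1 (lift x) := lift_act g x

theorem val_smul (g : Lor E) (x : Hyp E) : (g • x).val = (g.1 (lift x)).2 := rfl

theorem dist_smul_lor (g : Lor E) (x y : Hyp E) : dist (g • x) (g • y) = dist x y := by
  change arcosh (-lor (lift (g • x)) (lift (g • y))) = arcosh (-lor (lift x) (lift y))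
  rw [lift_smul, lift_smul, g.2.1]

instance : IsIsometricSMul (Lor E) (Hyp E) :=
  ⟨fun g => Isometry.of_dist_eq (dist_smul_lor g)⟩

/-- The hyperbolic metric tensor in spatial coordinates. -/
noncomputable def Gh (x u v : E) : ℝ := ⟪u, v⟫_ℝ - ⟪x, u⟫_ℝ * ⟪x, v⟫_ℝ / (1 + ‖x‖ ^ 2)

/-- Polar coordinates in the hyperbolic plane. -/
noncomputable def pol (a θ : ℝ) : Hyp ℂ := Hyp.mk ((sinh a : ℝ) * Complex.exp (θ * Complex.I))

end Hyperboloid

section Model

/-- The model vector space, of dimension `m + 4`. -/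
abbrev Euc (m : ℕ) : Type := EuclideanSpace ℝ (Fin (m + 4))

variable {m : ℕ}

/-- The first complex coordinate. -/
noncomputable def Z1 (x : Euc m) : ℂ := ⟨x 0, x 1⟩

/-- The second complex coordinate. -/
noncomputable def Z2 (x : Euc m) : ℂ := ⟨x 2, x 3⟩

/-- The first coordinate plane. -/
noncomputable def I1 (m : ℕ) (w : ℂ) : Euc m :=
  EuclideanSpace.single 0 w.re + EuclideanSpace.single 1 w.im

/-- The second coordinate plane. -/
noncomputable def I2 (m : ℕ) (w : ℂ) : Euc m :=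
  EuclideanSpace.single 2 w.re + EuclideanSpace.single 3 w.im

/-- The `k`-fold branched covering of the plane that keeps the modulus. -/
noncomputable def beta (k : ℕ) (z : ℂ) : ℂ := z ^ k / (‖z‖ : ℂ) ^ (k - 1)

/-- The branched covering of the model. -/
noncomputable def pr (k₁ k₂ : ℕ) (x : Euc m) : Euc m :=
  x + I1 m (beta k₁ (Z1 x) - Z1 x) + I2 m (beta k₂ (Z2 x) - Z2 x)

/-- The angular form `x₀ dx₁ - x₁ dx₀`. -/
noncomputable def om1 (x u : Euc m) : ℝ := x 0 * u 1 - x 1 * u 0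

/-- The angular form `x₂ dx₃ - x₃ dx₂`. -/
noncomputable def om2 (x u : Euc m) : ℝ := x 2 * u 3 - x 3 * u 2

/-- The smoothed model metric tensor. -/
noncomputable def Gm (l₁ l₂ : ℝ → ℝ) (x u v : Euc m) : ℝ :=
  Gh x u v + l₁ (x 0 ^ 2 + x 1 ^ 2) * (om1 x u * om1 x v) +
    l₂ (x 2 ^ 2 + x 3 ^ 2) * (om2 x u * om2 x v)

/-- Admissible warping corrections. -/
structure Adm (l : ℝ → ℝ) : Prop where
  smooth : ∀ t, 0 ≤ t → ContDiffAt ℝ ∞ l t
  nonneg : ∀ t, 0 ≤ t → 0 ≤ l t
  p_nonneg : ∀ t, 0 ≤ t → 0 ≤ 2 * l t + t * deriv l t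
  q_ge : ∀ t, 0 ≤ t → 0 ≤ t * (2 * l t + t * deriv l t) * (1 + t * l t) +
    (1 + t) * (3 * (1 + t * l t) * (l t + t * deriv l t) +
      2 * t * (1 + t * l t) * (2 * deriv l t + t * deriv (deriv l) t) -
      t * (l t + t * deriv l t) ^ 2)

/-- The lattice vector with coordinates `a i + b i φ`, for the form `-φ x₀² + Σ xᵢ²`. -/
noncomputable def lat (a b : Fin (m + 4 + 1) → ℤ) : ℝ × Euc m :=
  (√goldenRatio * (a 0 + b 0 * goldenRatio),
    WithLp.toLp 2 fun i => (a i.succ : ℝ) + b i.succ * goldenRatio)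

/-- `g` is congruent to the identity modulo `4` on the lattice. -/
def Cong4 (g : Lor (Euc m)) : Prop :=
  ∀ a b : Fin (m + 4 + 1) → ℤ, ∃ a' b' : Fin (m + 4 + 1) → ℤ,
    g.1 (lat a b) = lat (a + 4 • a') (b + 4 • b')

/-- The principal congruence subgroup of level `4`. -/
def Gam4 (m : ℕ) : Subgroup (Lor (Euc m)) where
  carrier := {g | Cong4 g ∧ Cong4 g⁻¹}
  one_mem' := by
    have : Cong4 (1 : Lor (Euc m)) := fun a b =>
      ⟨0, 0, by simp only [smul_zero, add_zero]; rfl⟩
    exact ⟨this, by rwa [inv_one]⟩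
  mul_mem' := by
    have key : ∀ g h : Lor (Euc m), Cong4 g → Cong4 h → Cong4 (g * h) := by
      intro g h hg hh a b
      obtain ⟨a', b', e1⟩ := hh a b
      obtain ⟨a'', b'', e2⟩ := hg (a + 4 • a') (b + 4 • b')
      refine ⟨a' + a'', b' + b'', ?_⟩
      change g.1 (h.1 (lat a b)) = _
      rw [e1, e2, smul_add, smul_add, add_assoc a, add_assoc b]
    rintro g h ⟨g1, g2⟩ ⟨h1, h2⟩
    exact ⟨key _ _ g1 h1, by rw [mul_inv_rev]; exact key _ _ h2 g2⟩
  inv_mem' := by
    rintro g ⟨g1, g2⟩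
    exact ⟨g2, by rwa [inv_inv]⟩

/-- A free, properly discontinuous and cocompact group of Lorentz transformations. -/
structure IsUnif {E : Type} [NormedAddCommGroup E] [InnerProductSpace ℝ E]
    (Γ : Subgroup (Lor E)) : Prop where
  free : ∀ g ∈ Γ, ∀ x : Hyp E, g • x = x → g = 1
  proper : ∀ (x : Hyp E) (R : ℝ), {g | g ∈ Γ ∧ dist (g • x) x ≤ R}.Finite
  cocpt : ∃ R : ℝ, ∀ x : Hyp E, ∃ g ∈ Γ, dist (g • x) (Hyp.mk 0) ≤ R

/-- A uniform lattice with four invariant families of walls; colours `0, 2` cut the plane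
`I1 ℂ`, which lies in a wall of colour `1` and in a wall of colour `3`. -/
structure Walls (m : ℕ) where
  Γ : Subgroup (Lor (Euc m))
  S : Fin 4 → Set (ℝ × Euc m)
  unif : IsUnif Γ
  unit : ∀ c, ∀ v ∈ S c, lor v v = 1
  neg : ∀ c, ∀ v ∈ S c, -v ∈ S c
  same : ∀ c, ∀ v ∈ S c, ∀ w ∈ S c, w = v ∨ w = -v ∨ 3 / 2 ≤ |lor v w|
  diff : ∀ c c', c ≠ c' → ∀ v ∈ S c, ∀ w ∈ S c', lor v w = 0 ∨ 3 / 2 ≤ |lor v w|
  fin : ∀ (c) (x : Hyp (Euc m)) (R : ℝ), {v | v ∈ S c ∧ |lor (lift x) v| ≤ R}.Finite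
  inv : ∀ g ∈ Γ, ∀ c, ∀ v ∈ S c, g.1 v ∈ S c
  w1 : ((0 : ℝ), EuclideanSpace.single 2 (1 : ℝ)) ∈ S 1
  w3 : ((0 : ℝ), EuclideanSpace.single 3 (1 : ℝ)) ∈ S 3
  gen0 : ∀ c, c = 0 ∨ c = 2 → ∀ v ∈ S c, v.1 ≠ 0
  gen : ∃ x : Hyp (Euc m), ∀ c, ∀ v ∈ S c, lor (lift x) v ≠ 0
  quad : ∃ x : Hyp (Euc m), ∀ c, ∃ v ∈ S c, lor (lift x) v = 0
  dense : ∃ C : ℝ, ∀ x y : ℂ, C ≤ dist (Hyp.mk (I1 m x)) (Hyp.mk (I1 m y)) →
    ∃ c, (c = 0 ∨ c = 2) ∧ ∃ v ∈ S c,
      0 ≤ lor (lift (Hyp.mk (I1 m x))) v ∧ lor (lift (Hyp.mk (I1 m y))) v < 0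

/-- Walls together with invariant signed truncated wall functions. -/
structure Branch (m : ℕ) extends Walls m where
  f : Fin 4 → Hyp (Euc m) → ℝ
  f_cont : ∀ c, Continuous (f c)
  f_inv : ∀ g ∈ Γ, ∀ c x, f c (g • x) = f c x
  f_le : ∀ c x, |f c x| ≤ 1 / 4
  f_near : ∀ c x, |f c x| < 1 / 4 → ∃ v ∈ S c, ∀ᶠ y in 𝓝 x, f c y = lor (lift y) v
  f_abs : ∀ c x, ∀ v ∈ S c, |lor (lift x) v| ≤ 1 / 4 → |f c x| = |lor (lift x) v|
  f_sign : ∀ c, c = 0 ∨ c = 2 → ∀ x, f c x =
    (-1) ^ {v | v ∈ S c ∧ v.1 < 0 ∧ lor (lift x) v < 0}.ncard * |f c x|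
  ufin : ∀ R : ℝ, ∃ N : ℕ, ∀ c x, {v | v ∈ S c ∧ |lor (lift x) v| ≤ R}.ncard ≤ N

/-- The quotient manifold and the two complex functions whose roots are adjoined. -/
structure Setup (m : ℕ) extends Branch m where
  N : Type
  [met : MetricSpace N]
  [cpt : CompactSpace N]
  q : Hyp (Euc m) → N
  q_surj : Function.Surjective q
  q_eq : ∀ x y, q x = q y ↔ ∃ g ∈ Γ, g • x = y
  q_lip : ∀ x y, dist (q x) (q y) ≤ dist x y
  q_iso : ∃ ε, BallIso q ε
  F1 : N → ℂ
  F2 : N → ℂ
  F1_cont : Continuous F1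
  F2_cont : Continuous F2
  F1_q : ∀ x, F1 (q x) = ⟨f 0 x, f 1 x⟩
  F2_q : ∀ x, F2 (q x) = ⟨f 2 x, f 3 x⟩

attribute [instance] Setup.met Setup.cpt

/-- The branched cover. -/
def BM (D : Setup m) (k : ℕ) : Type :=
  {p : D.N × ℂ × ℂ // beta k p.2.1 = D.F1 p.1 ∧ beta k p.2.2 = D.F2 p.1}

noncomputable instance (D : Setup m) (k : ℕ) : TopologicalSpace (BM D k) :=
  inferInstanceAs (TopologicalSpace
    {p : D.N × ℂ × ℂ // beta k p.2.1 = D.F1 p.1 ∧ beta k p.2.2 = D.F2 p.1})

instance (D : Setup m) (k : ℕ) : T2Space (BM D k) :=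
  inferInstanceAs (T2Space
    {p : D.N × ℂ × ℂ // beta k p.2.1 = D.F1 p.1 ∧ beta k p.2.2 = D.F2 p.1})

/-- An adapted chart of the branched cover. -/
structure BChart (D : Setup m) (k : ℕ) where
  e : OpenPartialHomeomorph (BM D k) (Euc m)
  b1 : Bool
  b2 : Bool
  Φ : Lor (Euc m)
  base : ∀ x ∈ e.target, (e.symm x).1.1 =
    D.q (Φ⁻¹ • Hyp.mk (pr (cond b1 k 1) (cond b2 k 1) x))
  br1 : b1 = true → ∀ x ∈ e.target, (e.symm x).1.2.1 = Z1 x ∧
    ∀ᶠ y in 𝓝 (Hyp.mk (pr (cond b1 k 1) (cond b2 k 1) x)), D.F1 (D.q (Φ⁻¹ • y)) = Z1 y.val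
  br2 : b2 = true → ∀ x ∈ e.target, (e.symm x).1.2.2 = Z2 x ∧
    ∀ᶠ y in 𝓝 (Hyp.mk (pr (cond b1 k 1) (cond b2 k 1) x)), D.F2 (D.q (Φ⁻¹ • y)) = Z2 y.val
  un1 : b1 = false → ∀ x ∈ e.target, 1 / 16 < ‖(e.symm x).1.2.1‖
  un2 : b2 = false → ∀ x ∈ e.target, 1 / 16 < ‖(e.symm x).1.2.2‖

/-- The walls of colour `0` or `2`, oriented positively at the origin. -/
def Lines (B : Branch m) : Type :=
  {p : Fin 4 × (ℝ × Euc m) // (p.1 = 0 ∨ p.1 = 2) ∧ p.2 ∈ B.S p.1 ∧ p.2.1 < 0}

/-- The wall function of a line on the plane. -/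
noncomputable def Lines.h {B : Branch m} (l : Lines B) (x : Hyp ℂ) : ℝ :=
  lor (lift (Hyp.mk (I1 m x.val))) l.1.2

/-- A family of isometrically embedded hyperbolic planes through `x₀` branching along lines. -/
structure Apts (B : Branch m) (k : ℕ) (X : Type) [MetricSpace X] (x₀ : X) where
  σ : (Lines B → Fin k) → Hyp ℂ → X
  base : ∀ w, σ w (Hyp.mk 0) = x₀
  iso : ∀ w x y, dist (σ w x) (σ w y) = dist x y
  agree : ∀ w w' x, (∀ l : Lines B, l.h x < 0 → w l = w' l) → σ w x = σ w' x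
  mis : ∃ ε > 0, ∀ w w' (θ θ' T : ℝ), 0 ≤ T →
    (∀ t, 0 ≤ t → t ≤ T → dist (σ w (pol t θ)) (σ w' (pol t θ')) ≤ ε) →
    ∀ l : Lines B, l.h (pol T θ') ≤ -(1 / 8) → w l = w' l

end Model

end Pool.Agent.MP_39b1da_gt

end

section

set_option autoImplicit false
set_option linter.unusedSectionVars false

namespace Pool.Agent.MP_39b1da_gt

open Filter Topology Set Real
open scoped ENNReal NNReal ContDiff InnerProductSpace

section
variable {E : Type} [NormedAddCommGroup E] [InnerProductSpace ℝ E]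

theorem hypA_lor_zero_left (w : ℝ × E) : lor 0 w = 0 := by simp [lor]

theorem hypA_lor_zero_right (w : ℝ × E) : lor w 0 = 0 := by simp [lor]

theorem hypA_lor_lift (x y : Hyp E) : lor (lift x) (lift y) = -cosh (dist x y) := by
  rw [cosh_dist]; ring

theorem hypA_nondeg {v : ℝ × E} (h : ∀ w, lor w v = 0) : v = 0 := by
  have h1 := h (1, 0)
  have h2 := h (0, v.2)
  simp only [lor, one_mul, inner_zero_left, add_zero, neg_eq_zero, zero_mul, neg_zero, zero_add,
    inner_self_eq_zero] at h1 h2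
  exact Prod.ext h1 h2

/-- A null vector orthogonal to a timelike vector vanishes. -/
theorem hypA_eq_zero {y u : ℝ × E} (hy : lor y y = -1) (h : lor u y = 0) (h0 : lor u u ≤ 0) :
    u = 0 := by
  apply hypA_nondeg
  intro w
  have hw : lor (w + lor w y • y) y = 0 := by rw [lor_add_left, lor_smul_left, hy]; ring
  have h1 := lor_cs hy h hw
  have h2 := lor_self_nonneg hy h
  have h3 : lor u u = 0 := le_antisymm h0 h2
  rw [h3, zero_mul, lor_add_right, lor_smul_right, h, mul_zero, add_zero] at h1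
  rw [lor_comm]
  exact pow_eq_zero_iff (n := 2) (by norm_num) |>.1 (le_antisymm h1 (sq_nonneg _))

theorem hypA_lift_inj {x y : Hyp E} (h : lift x = lift y) : x = y :=
  (congrArg Prod.snd h : x.val = y.val)

theorem hypA_lift_zero : lift (Hyp.mk (0 : E)) = (1, 0) := by simp [lift]

theorem hypA_dist_eq {x y : Hyp E} {s : ℝ} (hs : 0 ≤ s) (h : lor (lift x) (lift y) = -cosh s) :
    dist x y = s := by
  have h1 : cosh (dist x y) = cosh s := by rw [cosh_dist, h]; ring
  have h2 := cosh_le_cosh.1 h1.le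
  have h3 := cosh_le_cosh.1 h1.ge
  rw [abs_of_nonneg dist_nonneg, abs_of_nonneg hs] at h2 h3
  exact le_antisymm h2 h3

/-- The hyperbolic linear relation between three points on a segment. -/
theorem hypA_btw_lift {y x z : Hyp E} (h : Btw y x z) :
    sinh (dist y z) • lift x = sinh (dist x z) • lift y + sinh (dist y x) • lift z := by
  have hD : dist y z = dist y x + dist x z := (h : dist y x + dist x z = dist y z).symm
  have e1 := hypA_lor_lift x y
  have e2 := hypA_lor_lift x z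
  have e3 := hypA_lor_lift y z
  rw [dist_comm] at e1
  rw [hD] at e3 ⊢
  set s := dist y x
  set t := dist x z
  rw [← sub_eq_zero]
  have c1 := cosh_sq s
  have c2 := cosh_sq t
  apply hypA_eq_zero (lor_lift_self x)
  · simp only [lor_sub_left, lor_add_left, lor_smul_left, lor_lift_self, lor_comm (lift y) (lift x),
      lor_comm (lift z) (lift x), e1, e2, sinh_add]
    ring
  · simp only [lor_sub_left, lor_add_left, lor_smul_left, lor_sub_right, lor_add_right,
      lor_smul_right, lor_lift_self, lor_comm (lift y) (lift x),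
      lor_comm (lift z) (lift x), lor_comm (lift z) (lift y), e1, e2, e3, sinh_add, cosh_add]
    apply le_of_eq
    linear_combination (sinh t ^ 2) * c1 + (sinh s ^ 2) * c2

theorem globK_hyp : GlobK (Hyp E) := by
  constructor
  · intro y z s hs0 hs
    rcases eq_or_lt_of_le (dist_nonneg : 0 ≤ dist y z) with hD | hD
    · refine ⟨y, ?_, ?_⟩
      · rw [dist_self]; linarith
      · simp [Btw]
    · have e3 := hypA_lor_lift y z
      obtain ⟨t, ht⟩ : ∃ t, t = dist y z - s := ⟨_, rfl⟩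
      have ht0 : 0 ≤ t := by linarith
      have hDe : dist y z = s + t := by linarith
      have hS : 0 < sinh (s + t) := by rw [← hDe]; exact sinh_pos_iff.2 hD
      rw [hDe] at e3
      have c1 := cosh_sq s
      have c2 := cosh_sq t
      set X : ℝ × E := (sinh (s + t))⁻¹ • (sinh t • lift y + sinh s • lift z) with hX
      have hXX : lor X X = -1 := by
        simp only [hX, lor_add_left, lor_smul_left, lor_add_right,
          lor_smul_right, lor_lift_self, lor_comm (lift z) (lift y), e3]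
        field_simp
        simp only [sinh_add, cosh_add]
        linear_combination (sinh t ^ 2) * c1 + (sinh s ^ 2) * c2
      have hXy : lor X (lift y) = -cosh s := by
        simp only [hX, lor_add_left, lor_smul_left, lor_lift_self, lor_comm (lift z) (lift y), e3]
        field_simp
        simp only [sinh_add, cosh_add]
        linear_combination (sinh t) * c1
      have hXz : lor X (lift z) = -cosh t := by
        simp only [hX, lor_add_left, lor_smul_left, lor_lift_self, e3]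
        field_simp
        simp only [sinh_add, cosh_add]
        linear_combination (sinh s) * c2
      have hX0 : 0 < X.1 := by
        have h1 := one_le_lift_fst y
        have h2 := one_le_lift_fst z
        have h3 : 0 ≤ sinh s := sinh_nonneg_iff.2 hs0
        have h4 : 0 ≤ sinh t := sinh_nonneg_iff.2 ht0
        have h5 : 0 < sinh s + sinh t := by
          by_contra hc
          have a1 : sinh s = 0 := by linarith
          have a2 : sinh t = 0 := by linarith
          rw [sinh_add, a1, a2] at hS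
          simp at hS
        simp only [hX, Prod.smul_fst, Prod.fst_add, smul_eq_mul]
        apply mul_pos (inv_pos.2 hS)
        nlinarith
      have hl := lift_eq hXX hX0
      have d1 : dist y (Hyp.mk X.2) = s := hypA_dist_eq hs0 (by rw [hl, lor_comm, hXy])
      have d2 : dist (Hyp.mk X.2) z = t := hypA_dist_eq ht0 (by rw [hl, hXz])
      exact ⟨Hyp.mk X.2, d1, by rw [Btw, d1, d2, hDe]⟩
  · intro p y x z h
    have h1 := congrArg (lor (lift p)) (hypA_btw_lift h)
    simp only [lor_add_right, lor_smul_right, hypA_lor_lift] at h1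
    unfold KIneq
    linarith

theorem hypA_cosh_zero (z : Hyp E) : cosh (dist (Hyp.mk 0) z) = (lift z).1 := by
  rw [cosh_dist]; simp [lor, lift]

theorem proper_hyp [FiniteDimensional ℝ E] : ProperSpace (Hyp E) := by
  have : ProperSpace E := FiniteDimensional.proper_real E
  refine ProperSpace.of_isCompact_closedBall_of_le 0 fun x r _ => ?_
  have h1 : IsCompact (Hyp.mk '' Metric.closedBall (0 : E) (cosh (dist (Hyp.mk 0) x + r))) :=
    (isCompact_closedBall _ _).image continuous_mk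
  refine h1.of_isClosed_subset Metric.isClosed_closedBall fun y hy => ⟨y.val, ?_, rfl⟩
  rw [Metric.mem_closedBall] at hy
  rw [mem_closedBall_zero_iff]
  have h2 : dist (Hyp.mk 0) y ≤ dist (Hyp.mk 0) x + r := by
    have := dist_triangle (Hyp.mk 0) x y
    rw [dist_comm x y] at this
    linarith
  have h3 : cosh (dist (Hyp.mk 0) y) ≤ cosh (dist (Hyp.mk 0) x + r) := by
    rw [cosh_le_cosh, abs_of_nonneg dist_nonneg]
    exact h2.trans (le_abs_self _)
  rw [hypA_cosh_zero] at h3
  have h4 := lift_fst_sq y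
  have h5 := one_le_lift_fst y
  have h6 : ‖y.val‖ ≤ (lift y).1 := by
    exact (abs_le_of_sq_le_sq' (by nlinarith) (by linarith)).2
  linarith

/-- Two unit timelike vectors on the same sheet iff their product is negative. -/
theorem hypA_fst_pos {v w : ℝ × E} (hv : lor v v = -1) (hw : lor w w = -1) (h0 : 0 < w.1)
    (h : lor v w < 0) : 0 < v.1 := by
  rcases lt_trichotomy v.1 0 with h1 | h1 | h1
  · have e1 := lift_eq (v := -v) (by rw [lor_neg_left, lor_neg_right, hv]; ring) (by simpa using h1)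
    have e2 := lift_eq hw h0
    have := one_le_lor (Hyp.mk (-v).2) (Hyp.mk w.2)
    rw [e1, e2, lor_neg_left] at this
    linarith
  · simp only [lor, h1, real_inner_self_eq_norm_sq] at hv
    nlinarith [sq_nonneg ‖v.2‖]
  · exact h1

theorem mem_lor {g : (ℝ × E) ≃L[ℝ] (ℝ × E)} (h : ∀ v w, lor (g v) (g w) = lor v w)
    (h0 : 0 < (g (1, 0)).1) : g ∈ Lor E := by
  refine ⟨h, fun v hv hv0 => ?_⟩
  refine hypA_fst_pos ((h v v).trans hv) ((h _ _).trans (by simp [lor])) h0 ?_
  rw [h]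
  simpa [lor] using hv0

/-- The Lorentz form in the first variable, as a continuous linear map. -/
noncomputable def hypA_lorL (u : ℝ × E) : (ℝ × E) →L[ℝ] ℝ :=
  -(u.1 • ContinuousLinearMap.fst ℝ ℝ E) + (innerSL ℝ u.2).comp (ContinuousLinearMap.snd ℝ ℝ E)

theorem hypA_lorL_apply (u v : ℝ × E) : hypA_lorL u v = lor v u := by
  simp [hypA_lorL, lor, real_inner_comm, mul_comm]

/-- The reflection in a unit spacelike vector. -/
theorem exists_refl {u : ℝ × E} (hu : lor u u = 1) :
    ∃ g : Lor E, ∀ v, g.1 v = v - (2 * lor v u) • u := by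
  let f : (ℝ × E) →L[ℝ] (ℝ × E) :=
    ContinuousLinearMap.id ℝ _ - ((2 : ℝ) • hypA_lorL u).smulRight u
  have hf : ∀ v, f v = v - (2 * lor v u) • u := by
    intro v; simp [f, hypA_lorL_apply]
  have hff : ∀ v, f (f v) = v := by
    intro v
    rw [hf, hf, lor_sub_left, lor_smul_left, hu]
    module
  let g : (ℝ × E) ≃L[ℝ] (ℝ × E) := ContinuousLinearEquiv.equivOfInverse f f hff hff
  have hg : ∀ v, g v = v - (2 * lor v u) • u := hf
  refine ⟨⟨g, mem_lor ?_ ?_⟩, hg⟩
  · intro v w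
    rw [hg, hg]
    simp only [lor_sub_left, lor_sub_right, lor_smul_left, lor_smul_right, hu, lor_comm u w]
    ring
  · rw [hg]
    simp only [lor, one_mul, inner_zero_left, add_zero, Prod.fst_sub, Prod.smul_fst, smul_eq_mul]
    nlinarith [sq_nonneg u.1]

/-- The boost taking `x` to the origin; it fixes what is orthogonal to both. -/
theorem exists_boost (x : Hyp E) : ∃ g : Lor E, g • x = Hyp.mk 0 ∧
    ∀ w : E, ⟪x.val, w⟫_ℝ = 0 → g.1 (0, w) = (0, w) := by
  rcases eq_or_lt_of_le (one_le_lift_fst x) with h1 | h1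
  · refine ⟨1, ?_, fun w _ => rfl⟩
    have h2 := lift_fst_sq x
    rw [← h1] at h2
    have h3 : ‖x.val‖ = 0 := pow_eq_zero_iff (n := 2) (by norm_num) |>.1 (by linarith)
    rw [one_smul]
    exact (norm_eq_zero.1 h3 : x.val = 0)
  · obtain ⟨c, hc⟩ : ∃ c : ℝ, c = √(2 * ((lift x).1 - 1)) := ⟨_, rfl⟩
    have hc0 : 0 < c := by rw [hc]; exact Real.sqrt_pos.2 (by linarith)
    have hc2 : c ^ 2 = 2 * ((lift x).1 - 1) := by rw [hc]; exact Real.sq_sqrt (by linarith)
    have e1 : lor (lift x) ((1 : ℝ), (0 : E)) = -(lift x).1 := by simp [lor]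
    have e2 : lor ((1 : ℝ), (0 : E)) (lift x) = -(lift x).1 := by simp [lor]
    have e3 : lor ((1 : ℝ), (0 : E)) ((1 : ℝ), (0 : E)) = -1 := by simp [lor]
    have hu : lor (c⁻¹ • (lift x - ((1 : ℝ), (0 : E)))) (c⁻¹ • (lift x - ((1 : ℝ), (0 : E)))) = 1 := by
      simp only [lor_smul_left, lor_smul_right, lor_sub_left, lor_sub_right, e1, e2, e3,
        lor_lift_self]
      field_simp
      linarith
    obtain ⟨g, hg⟩ := exists_refl hu
    refine ⟨g, hypA_lift_inj ?_, fun w hw => ?_⟩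
    · rw [lift_smul, hg, hypA_lift_zero]
      simp only [lor_smul_right, lor_sub_right, e1, lor_lift_self, smul_smul]
      have : 2 * (c⁻¹ * (-1 - -(lift x).1)) * c⁻¹ = 1 := by
        field_simp
        linarith
      rw [this]
      simp
    · rw [hg]
      have : lor ((0 : ℝ), w) (c⁻¹ • (lift x - ((1 : ℝ), (0 : E)))) = 0 := by
        rw [lor_smul_right]
        have h2 : (lift x).2 = x.val := rfl
        have h3 : ⟪w, x.val⟫_ℝ = 0 := by rw [real_inner_comm]; exact hw
        simp [lor, h2, h3]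
      rw [this]
      simp

theorem hypA_hasFDerivAt_lift (x : E) :
    HasFDerivAt (fun y : E => lift (Hyp.mk y))
      ((((√(1 + ‖x‖ ^ 2))⁻¹ • innerSL ℝ x)).prod (ContinuousLinearMap.id ℝ E)) x := by
  have h1 := (hasStrictFDerivAt_norm_sq x).hasFDerivAt.const_add 1
  have h2 := h1.sqrt (by positivity)
  refine HasFDerivAt.prodMk (h2.congr_fderiv ?_) (hasFDerivAt_id x)
  ext u
  have : 0 < √(1 + ‖x‖ ^ 2) := by positivity
  simp only [smul_apply, smul_eq_mul, innerSL_apply_apply, nsmul_eq_mul]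
  field_simp
  simp

theorem hypA_contDiff_lift : ContDiff ℝ ∞ fun y : E => lift (Hyp.mk y) := by
  refine ContDiff.prodMk ?_ contDiff_id
  exact (contDiff_const.add (contDiff_norm_sq ℝ)).sqrt fun x => by positivity

/-- The differential of the lift. -/
noncomputable def hypA_D (x u : E) : ℝ × E := ((√(1 + ‖x‖ ^ 2))⁻¹ * ⟪x, u⟫_ℝ, u)

theorem hypA_fderiv_lift (x u : E) :
    fderiv ℝ (fun y : E => lift (Hyp.mk y)) x u = hypA_D x u := by
  rw [(hypA_hasFDerivAt_lift x).fderiv]
  simp [hypA_D]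

theorem hypA_Gh_eq (x u v : E) : Gh x u v = lor (hypA_D x u) (hypA_D x v) := by
  have h : 0 < √(1 + ‖x‖ ^ 2) := by positivity
  have h2 : √(1 + ‖x‖ ^ 2) ^ 2 = 1 + ‖x‖ ^ 2 := Real.sq_sqrt (by positivity)
  simp only [Gh, lor, hypA_D]
  generalize √(1 + ‖x‖ ^ 2) = c at h h2
  rw [← h2]
  field_simp
  ring

theorem hypA_D_orth (x u : E) : lor (hypA_D x u) (lift (Hyp.mk x)) = 0 := by
  have h : 0 < √(1 + ‖x‖ ^ 2) := by positivity
  simp only [lor, hypA_D, lift, Hyp.val_mk, real_inner_comm x u]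
  field_simp
  ring

theorem eq_zero_of_eventually {x : Hyp E} {v : ℝ × E}
    (h : ∀ᶠ y in 𝓝 x, lor (lift y) v = 0) : v = 0 := by
  have h0 : lor (lift x) v = 0 := h.self_of_nhds
  have h1 : (fun y : E => hypA_lorL v (lift (Hyp.mk y))) =ᶠ[𝓝 x.val] fun _ => 0 := by
    have : ∀ᶠ y in 𝓝 x.val, lor (lift (Hyp.mk y)) v = 0 := h
    filter_upwards [this] with y hy
    rw [hypA_lorL_apply, hy]
  have h2 := (hypA_lorL v).hasFDerivAt.comp x.val (hypA_hasFDerivAt_lift x.val)
  have h3 : HasFDerivAt (fun y : E => hypA_lorL v (lift (Hyp.mk y))) (0 : E →L[ℝ] ℝ) x.val :=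
    (hasFDerivAt_const (0 : ℝ) x.val).congr_of_eventuallyEq h1
  have h4 := h2.unique h3
  have h5 : ∀ u, lor (hypA_D x.val u) v = 0 := by
    intro u
    have := congrArg (fun L : E →L[ℝ] ℝ => L u) h4
    simpa [hypA_lorL_apply, hypA_D] using this
  -- `v` is orthogonal to `lift x`, hence tangent
  have hp : 0 < √(1 + ‖x.val‖ ^ 2) := by positivity
  have h6 : v = hypA_D x.val v.2 := by
    refine Prod.ext ?_ rfl
    simp only [lor, lift] at h0
    simp only [hypA_D]
    field_simp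
    linarith
  refine hypA_eq_zero (lor_lift_self x) (by rw [lor_comm]; exact h0) ?_
  have := h5 v.2
  rw [← h6] at this
  exact this.le

theorem arsinh_lor_lip {v : ℝ × E} (hv : lor v v = 1) (x y : Hyp E) :
    |arsinh (lor (lift x) v) - arsinh (lor (lift y) v)| ≤ dist x y := by
  set a := lor (lift x) v with ha
  set b := lor (lift y) v with hb
  have hA : 0 < √(1 + a ^ 2) := by positivity
  have hB : 0 < √(1 + b ^ 2) := by positivity
  have hA2 : √(1 + a ^ 2) ^ 2 = 1 + a ^ 2 := Real.sq_sqrt (by positivity)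
  have hB2 : √(1 + b ^ 2) ^ 2 = 1 + b ^ 2 := Real.sq_sqrt (by positivity)
  -- the normalised projections
  have key : ∀ z : Hyp E, ∃ z' : Hyp E, lift z' =
      (√(1 + lor (lift z) v ^ 2))⁻¹ • (lift z - lor (lift z) v • v) := by
    intro z
    have hC : 0 < √(1 + lor (lift z) v ^ 2) := by positivity
    have hC2 : √(1 + lor (lift z) v ^ 2) ^ 2 = 1 + lor (lift z) v ^ 2 :=
      Real.sq_sqrt (by positivity)
    have e1 : lor ((√(1 + lor (lift z) v ^ 2))⁻¹ • (lift z - lor (lift z) v • v))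
        ((√(1 + lor (lift z) v ^ 2))⁻¹ • (lift z - lor (lift z) v • v)) = -1 := by
      simp only [lor_smul_left, lor_smul_right, lor_sub_left, lor_sub_right, hv, lor_lift_self,
        lor_comm v (lift z)]
      field_simp
      linarith
    refine ⟨_, lift_eq e1 (hypA_fst_pos e1 (lor_lift_self z)
      (by linarith [one_le_lift_fst z]) ?_)⟩
    simp only [lor_smul_left, lor_sub_left, lor_lift_self, lor_comm v (lift z)]
    apply mul_neg_of_pos_of_neg (inv_pos.2 hC)
    nlinarith [sq_nonneg (lor (lift z) v)]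
  obtain ⟨x', hx'⟩ := key x
  obtain ⟨y', hy'⟩ := key y
  have h1 := one_le_lor x' y'
  rw [hx', hy'] at h1
  simp only [lor_smul_left, lor_smul_right, lor_sub_left, lor_sub_right, hv,
    lor_comm v (lift y), ← ha, ← hb, hypA_lor_lift] at h1
  have h2 : √(1 + a ^ 2) * √(1 + b ^ 2) ≤ cosh (dist x y) + a * b := by
    have h3 : -((√(1 + b ^ 2))⁻¹ * ((√(1 + a ^ 2))⁻¹ * (-cosh (dist x y) - a * b) -
        b * ((√(1 + a ^ 2))⁻¹ * (a - a * 1)))) =
        (cosh (dist x y) + a * b) / (√(1 + a ^ 2) * √(1 + b ^ 2)) := by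
      field_simp
      ring
    rw [h3, one_le_div (by positivity)] at h1
    exact h1
  have h4 : cosh (arsinh a - arsinh b) ≤ cosh (dist x y) := by
    rw [cosh_sub, cosh_arsinh, cosh_arsinh, sinh_arsinh, sinh_arsinh]
    linarith
  rwa [cosh_le_cosh, abs_of_nonneg (dist_nonneg (x := x) (y := y))] at h4

theorem abs_lor_lt {x : Hyp E} {v w : ℝ × E} (hv : lor v v = 1) (hw : lor w w = 1)
    (h1 : |lor (lift x) v| < 1 / 2) (h2 : |lor (lift x) w| < 1 / 2) : |lor v w| < 3 / 2 := by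
  have key := lor_cs (u := v + lor (lift x) v • lift x) (w := w + lor (lift x) w • lift x)
    (lor_lift_self x)
    (by rw [lor_add_left, lor_smul_left, lor_lift_self, lor_comm v]; ring)
    (by rw [lor_add_left, lor_smul_left, lor_lift_self, lor_comm w]; ring)
  simp only [lor_add_left, lor_add_right, lor_smul_left, lor_smul_right, lor_lift_self, hv, hw,
    lor_comm v (lift x), lor_comm w (lift x)] at key
  set a := lor (lift x) v
  set b := lor (lift x) w
  set c := lor v w
  obtain ⟨a1, a2⟩ := abs_lt.1 h1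
  obtain ⟨b1, b2⟩ := abs_lt.1 h2
  have a3 : a ^ 2 < 1 / 4 := by nlinarith
  have b3 : b ^ 2 < 1 / 4 := by nlinarith
  have k2 : (c + a * b) ^ 2 < (5 / 4) ^ 2 := by
    have : (1 + a ^ 2) * (1 + b ^ 2) < (5 / 4) * (5 / 4) :=
      mul_lt_mul'' (by linarith) (by linarith) (by positivity) (by positivity)
    nlinarith
  obtain ⟨k3, k4⟩ := abs_lt_of_sq_lt_sq' k2 (by norm_num)
  have ab1 : a * b < 1 / 4 := by nlinarith [sq_nonneg (a - b)]
  have ab2 : -(1 / 4) < a * b := by nlinarith [sq_nonneg (a + b)]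
  rw [abs_lt]
  constructor <;> linarith

theorem contDiff_smul (g : Lor E) : ContDiff ℝ ∞ fun x : E => (g • Hyp.mk x).val :=
  contDiff_snd.comp (g.1.contDiff.comp hypA_contDiff_lift)

theorem Gh_smul (g : Lor E) (x u v : E) :
    Gh (g • Hyp.mk x).val (fderiv ℝ (fun y : E => (g • Hyp.mk y).val) x u)
      (fderiv ℝ (fun y : E => (g • Hyp.mk y).val) x v) = Gh x u v := by
  have hF : HasFDerivAt (fun y : E => (g • Hyp.mk y).val)
      (fderiv ℝ (fun y : E => (g • Hyp.mk y).val) x) x :=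
    ((contDiff_smul g).differentiable (by simp) x).hasFDerivAt
  have h1 := HasFDerivAt.comp (f := fun y : E => (g • Hyp.mk y).val) x
    (hypA_hasFDerivAt_lift (g • Hyp.mk x).val) hF
  have h2 := (g.1 : (ℝ × E) →L[ℝ] (ℝ × E)).hasFDerivAt.comp x (hypA_hasFDerivAt_lift x)
  have h3 : ((fun y : E => lift (Hyp.mk y)) ∘ fun y : E => (g • Hyp.mk y).val) =
      (g.1 : (ℝ × E) →L[ℝ] (ℝ × E)) ∘ fun y : E => lift (Hyp.mk y) := by
    funext y
    exact lift_smul g (Hyp.mk y)
  rw [h3] at h1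
  have h4 := h1.unique h2
  have h5 : ∀ w, hypA_D (g • Hyp.mk x).val (fderiv ℝ (fun y : E => (g • Hyp.mk y).val) x w) =
      g.1 (hypA_D x w) := by
    intro w
    have := congrArg (fun L : E →L[ℝ] (ℝ × E) => L w) h4
    simpa [hypA_D] using this
  rw [hypA_Gh_eq, hypA_Gh_eq, h5, h5, g.2.1]

theorem Gh_pos (x : E) {u : E} (hu : u ≠ 0) : 0 < Gh x u u := by
  rw [hypA_Gh_eq]
  by_contra hc
  have := hypA_eq_zero (lor_lift_self (Hyp.mk x)) (hypA_D_orth x u) (not_lt.1 hc)
  exact hu (congrArg Prod.snd this)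

theorem Gh_cs (x u v : E) : Gh x u v ^ 2 ≤ Gh x u u * Gh x v v := by
  rw [hypA_Gh_eq, hypA_Gh_eq, hypA_Gh_eq]
  exact lor_cs (lor_lift_self (Hyp.mk x)) (hypA_D_orth x u) (hypA_D_orth x v)

end

theorem lift_pol (a θ : ℝ) :
    lift (pol a θ) = (cosh a, ((sinh a : ℝ) : ℂ) * Complex.exp (θ * Complex.I)) := by
  refine Prod.ext ?_ rfl
  simp only [lift, pol, Hyp.val_mk, norm_mul, Complex.norm_exp_ofReal_mul_I, mul_one,
    Complex.norm_real, Real.norm_eq_abs, sq_abs]
  rw [← cosh_sq', Real.sqrt_sq (cosh_pos a).le]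

theorem cosh_dist_pol (a b θ θ' : ℝ) :
    cosh (dist (pol a θ) (pol b θ')) = cosh a * cosh b - sinh a * sinh b * cos (θ - θ') := by
  rw [cosh_dist, lift_pol, lift_pol]
  simp only [lor, Complex.inner, Complex.mul_re, Complex.mul_im, Complex.conj_re, Complex.conj_im,
    Complex.ofReal_re, Complex.ofReal_im, Complex.exp_ofReal_mul_I_re, Complex.exp_ofReal_mul_I_im,
    cos_sub]
  ring

theorem hypA_inner_I1 (m : ℕ) (x y : ℂ) : ⟪I1 m x, I1 m y⟫_ℝ = ⟪x, y⟫_ℝ := by
  have h01 : (0 : Fin (m + 4)) ≠ 1 := by simp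
  simp [I1, inner_add_left, inner_add_right, EuclideanSpace.inner_single_left, h01, h01.symm,
    Complex.inner]
  ring

theorem dist_I1 (m : ℕ) (x y : Hyp ℂ) :
    dist (Hyp.mk (I1 m x.val)) (Hyp.mk (I1 m y.val)) = dist x y := by
  have hn : ∀ z : ℂ, ‖I1 m z‖ ^ 2 = ‖z‖ ^ 2 := fun z => by
    rw [← real_inner_self_eq_norm_sq, ← real_inner_self_eq_norm_sq, hypA_inner_I1]
  apply hypA_dist_eq dist_nonneg
  rw [cosh_dist, neg_neg]
  simp only [lor, lift, Hyp.val_mk, hn, hypA_inner_I1]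

theorem hypA_lor_sum_left {E : Type} [NormedAddCommGroup E] [InnerProductSpace ℝ E] {ι : Type}
    (s : Finset ι) (f : ι → ℝ × E) (w : ℝ × E) :
    lor (∑ i ∈ s, f i) w = ∑ i ∈ s, lor (f i) w := by
  simp only [← hypA_lorL_apply, map_sum]

/-- A point on finitely many pairwise orthogonal walls. -/
theorem hypA_exists_point {E : Type} [NormedAddCommGroup E] [InnerProductSpace ℝ E] {ι : Type}
    (s : Finset ι) (v : ι → ℝ × E) (h1 : ∀ i ∈ s, lor (v i) (v i) = 1)
    (h0 : ∀ i ∈ s, ∀ j ∈ s, i ≠ j → lor (v i) (v j) = 0) :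
    ∃ x : Hyp E, ∀ i ∈ s, lor (lift x) (v i) = 0 := by
  classical
  obtain ⟨e, he⟩ : ∃ e : ℝ × E, e = lift (Hyp.mk 0) := ⟨_, rfl⟩
  have hee : lor e e = -1 := he ▸ lor_lift_self _
  obtain ⟨w, hw⟩ : ∃ w : ℝ × E, w = e - ∑ i ∈ s, lor e (v i) • v i := ⟨_, rfl⟩
  have hwv : ∀ j ∈ s, lor w (v j) = 0 := by
    intro j hj
    rw [hw, lor_sub_left, hypA_lor_sum_left, Finset.sum_eq_single j]
    · rw [lor_smul_left, h1 j hj]; ring
    · intro i hi hij
      rw [lor_smul_left, h0 i hi j hj hij, mul_zero]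
    · intro h; exact absurd hj h
  have hwe : lor w e = -(1 + ∑ i ∈ s, lor e (v i) ^ 2) := by
    rw [hw, lor_sub_left, hypA_lor_sum_left, hee]
    simp only [lor_smul_left, lor_comm (v _) e, ← sq]
    ring
  have hww : lor w w = -(1 + ∑ i ∈ s, lor e (v i) ^ 2) := by
    rw [← hwe]
    conv_lhs => rw [lor_comm]; congr; rw [hw]
    rw [lor_sub_left, hypA_lor_sum_left, Finset.sum_eq_zero, lor_comm, sub_zero]
    intro i hi
    rw [lor_smul_left, lor_comm (v i), hwv i hi, mul_zero]
  have hS : 0 ≤ ∑ i ∈ s, lor e (v i) ^ 2 := Finset.sum_nonneg fun i _ => sq_nonneg _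
  obtain ⟨c, hc⟩ : ∃ c : ℝ, c = √(1 + ∑ i ∈ s, lor e (v i) ^ 2) := ⟨_, rfl⟩
  have hc0 : 0 < c := by rw [hc]; positivity
  have hc2 : c ^ 2 = 1 + ∑ i ∈ s, lor e (v i) ^ 2 := by
    rw [hc]; exact Real.sq_sqrt (by positivity)
  have e1 : lor (c⁻¹ • w) (c⁻¹ • w) = -1 := by
    rw [lor_smul_left, lor_smul_right, hww, ← hc2]
    field_simp
  have e2 : 0 < (c⁻¹ • w).1 := by
    refine hypA_fst_pos e1 hee (by rw [he]; linarith [one_le_lift_fst (Hyp.mk (0 : E))]) ?_
    rw [lor_smul_left, hwe]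
    exact mul_neg_of_pos_of_neg (inv_pos.2 hc0) (by linarith)
  refine ⟨Hyp.mk (c⁻¹ • w).2, fun i hi => ?_⟩
  rw [lift_eq e1 e2, lor_smul_left, hwv i hi, mul_zero]

/-- A linear isometry of space as a Lorentz transformation. -/
theorem hypA_exists_rot {E : Type} [NormedAddCommGroup E] [InnerProductSpace ℝ E]
    (U : E ≃ₗᵢ[ℝ] E) : ∃ g : Lor E, ∀ v, g.1 v = (v.1, U v.2) := by
  refine ⟨⟨(ContinuousLinearEquiv.refl ℝ ℝ).prodCongr U.toContinuousLinearEquiv,
    mem_lor (fun v w => ?_) (by simp)⟩, fun v => rfl⟩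
  change -(v.1 * w.1) + ⟪U v.2, U w.2⟫_ℝ = lor v w
  rw [U.inner_map_map]
  rfl

/-- Adapted frames. -/
theorem exists_frame {m : ℕ} (T : Set (Fin 4)) (v : Fin 4 → ℝ × Euc m)
    (h1 : ∀ i ∈ T, lor (v i) (v i) = 1) (h0 : ∀ i ∈ T, ∀ j ∈ T, i ≠ j → lor (v i) (v j) = 0) :
    ∃ Φ : Lor (Euc m), ∀ i ∈ T,
      Φ.1 (v i) = (0, EuclideanSpace.single (![0, 1, 2, 3] i) 1) := by
  classical
  obtain ⟨x, hx⟩ := hypA_exists_point (Set.toFinite T).toFinset v
    (fun i hi => h1 i ((Set.Finite.mem_toFinset _).1 hi))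
    (fun i hi j hj => h0 i ((Set.Finite.mem_toFinset _).1 hi) j ((Set.Finite.mem_toFinset _).1 hj))
  simp only [Set.Finite.mem_toFinset] at hx
  obtain ⟨g, hg, -⟩ := exists_boost x
  have hg1 : g.1 (lift x) = (1, 0) := by rw [← lift_smul, hg, hypA_lift_zero]
  have hf : ∀ i ∈ T, (g.1 (v i)).1 = 0 := by
    intro i hi
    have := g.2.1 (lift x) (v i)
    rw [hx i hi, hg1] at this
    simpa [lor] using this
  have hin : ∀ i ∈ T, ∀ j ∈ T, ⟪(g.1 (v i)).2, (g.1 (v j)).2⟫_ℝ = lor (v i) (v j) := by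
    intro i hi j _
    rw [← g.2.1 (v i) (v j), lor, hf i hi]
    ring
  let ι : Fin 4 → Fin (m + 4) := fun i => ![0, 1, 2, 3] i
  have hι : ∀ i, (ι i : ℕ) = i := by
    intro i
    have h2 : 2 % (m + 4) = 2 := Nat.mod_eq_of_lt (by omega)
    have h3 : 3 % (m + 4) = 3 := Nat.mod_eq_of_lt (by omega)
    fin_cases i <;> simp [ι, h2, h3]
  have hinj : Function.Injective ι := by
    intro i j h
    exact Fin.ext (by rw [← hι, ← hι, h])
  let u : Fin (m + 4) → Euc m := Function.extend ι (fun i => (g.1 (v i)).2) 0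
  have hu : ∀ i, u (ι i) = (g.1 (v i)).2 := fun i => hinj.extend_apply _ _ i
  have hon : Orthonormal ℝ ((ι '' T).domRestrict u) := by
    rw [orthonormal_iff_ite]
    rintro ⟨_, i, hi, rfl⟩ ⟨_, j, hj, rfl⟩
    change ⟪u (ι i), u (ι j)⟫_ℝ = _
    rw [hu, hu, hin i hi j hj]
    split_ifs with h
    · rw [← hinj (congrArg Subtype.val h), h1 i hi]
    · exact h0 i hi j hj fun hij => h (Subtype.ext (congrArg ι hij))
  obtain ⟨b, hb⟩ := hon.exists_orthonormalBasis_extension_of_card_eq (ι := Fin (m + 4)) (by simp)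
  obtain ⟨r, hr⟩ := hypA_exists_rot b.repr
  refine ⟨r * g, fun i hi => ?_⟩
  change r.1 (g.1 (v i)) = _
  rw [hr, hf i hi, ← hu, ← hb (ι i) ⟨i, hi, rfl⟩, OrthonormalBasis.repr_self]

end Pool.Agent.MP_39b1da_gt

end

section

set_option autoImplicit false

namespace Pool.Agent.MP_39b1da_gt

open Filter Topology Set Real
open scoped ENNReal NNReal ContDiff InnerProductSpace

/-- A continuous function that is midpoint convex for small steps lies below its chord. -/
theorem loc_convex_of_midpoint {f : ℝ → ℝ} {a b η : ℝ} (hη : 0 < η) (hab : a ≤ b)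
    (hf : ContinuousOn f (Icc a b))
    (hm : ∀ x h, 0 < h → h ≤ η → a ≤ x - h → x + h ≤ b → f x ≤ (f (x - h) + f (x + h)) / 2)
    {t : ℝ} (ht : t ∈ Icc (0 : ℝ) 1) : f ((1 - t) * a + t * b) ≤ (1 - t) * f a + t * f b := by
  rcases hab.eq_or_lt with rfl | hlt
  · rw [show (1 - t) * a + t * a = a by ring]; linarith
  have hd : 0 < b - a := by linarith
  set g : ℝ → ℝ := fun x => (b - a) * f x - ((b - x) * f a + (x - a) * f b) with hg
  have gc : ContinuousOn g (Icc a b) := (continuousOn_const.mul hf).sub (by fun_prop)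
  obtain ⟨x0, hx0, hM⟩ := isCompact_Icc.exists_isMaxOn (nonempty_Icc.2 hab) gc
  have hK : IsCompact (Icc a b ∩ g ⁻¹' {g x0}) :=
    isCompact_Icc.of_isClosed_subset
      (gc.preimage_isClosed_of_isClosed isClosed_Icc isClosed_singleton) inter_subset_left
  obtain ⟨x, ⟨hx, hx1⟩, hx2⟩ := hK.exists_isLeast ⟨x0, hx0, rfl⟩
  have hx3 : g x = g x0 := hx1
  have key : g x0 ≤ 0 := by
    by_contra h0
    have h1 : a < x := hx.1.lt_of_ne fun e => h0 (by rw [← hx3, ← e]; simp [hg])
    have h2 : x < b := hx.2.lt_of_ne fun e => h0 (by rw [← hx3, e]; simp [hg])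
    obtain ⟨h, p0, p1, p2, p3⟩ : ∃ h, 0 < h ∧ h ≤ η ∧ h ≤ x - a ∧ h ≤ b - x :=
      ⟨min η (min (x - a) (b - x)), lt_min hη (lt_min (by linarith) (by linarith)),
        min_le_left _ _, (min_le_right _ _).trans (min_le_left _ _),
        (min_le_right _ _).trans (min_le_right _ _)⟩
    have m1 : x - h ∈ Icc a b := ⟨by linarith, by linarith⟩
    have m2 : x + h ∈ Icc a b := ⟨by linarith, by linarith⟩
    have h3 : g (x - h) < g x0 := (hM m1).lt_of_ne fun e => by
      have := hx2 ⟨m1, e⟩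
      linarith
    have h4 : g (x + h) ≤ g x0 := hM m2
    have h5 := mul_le_mul_of_nonneg_left (hm x h p0 p1 m1.1 m2.2) hd.le
    simp only [hg] at h3 h4 hx3
    linarith
  have h6 : g ((1 - t) * a + t * b) ≤ g x0 := hM ⟨by nlinarith [ht.1], by nlinarith [ht.2]⟩
  refine le_of_mul_le_mul_left ?_ hd
  simp only [hg] at h6 key
  linarith

theorem loc_sinh_add {a b : ℝ} (ha : 0 ≤ a) (hb : 0 ≤ b) : sinh a + sinh b ≤ sinh (a + b) := by
  rw [sinh_add]
  nlinarith [one_le_cosh a, one_le_cosh b, sinh_nonneg_iff.2 ha, sinh_nonneg_iff.2 hb]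

theorem loc_le_of_cosh {a b : ℝ} (hb : 0 ≤ b) (h : cosh a ≤ cosh b) : a ≤ b :=
  (le_abs_self a).trans ((cosh_le_cosh.1 h).trans_eq (abs_of_nonneg hb))

theorem loc_tri {a b w : ℝ} (hw : 0 ≤ w) (h1 : w ≤ a + b) (h2 : a ≤ b + w) (h3 : b ≤ a + w) :
    cosh a ^ 2 + cosh b ^ 2 + cosh w ^ 2 - 1 ≤ 2 * cosh a * cosh b * cosh w := by
  have e1 : cosh w ≤ cosh (a + b) := cosh_le_cosh.2 (abs_le_abs h1 (by linarith))
  have e2 : cosh (a - b) ≤ cosh w :=
    cosh_le_cosh.2 ((abs_le.2 ⟨by linarith, by linarith⟩).trans (le_abs_self w))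
  rw [cosh_add] at e1
  rw [cosh_sub] at e2
  have e3 := mul_nonneg (sub_nonneg.2 e1) (sub_nonneg.2 e2)
  have e4 := cosh_sq a
  have e5 := cosh_sq b
  have e6 : (sinh a * sinh b) ^ 2 = (cosh a ^ 2 - 1) * (cosh b ^ 2 - 1) := by
    rw [mul_pow, e4, e5]; ring
  nlinarith

section
variable {X : Type} [MetricSpace X] {ε : ℝ}

theorem Btw.loc_symm {y x z : X} (h : Btw y x z) : Btw z x y := by
  unfold Btw at *
  rw [dist_comm z x, dist_comm x y, dist_comm z y]; linarith

theorem Btw.loc_le {y x z : X} (h : Btw y x z) : dist y x ≤ dist y z ∧ dist x z ≤ dist y z := by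
  unfold Btw at h
  constructor <;> linarith [dist_nonneg (x := y) (y := x), dist_nonneg (x := x) (y := z)]

theorem GlobK.locK (h : GlobK X) (hε : 0 < ε) : LocK X ε :=
  ⟨hε, fun y z _ => h.btw y z, fun p y x z _ _ => h.k p y x z⟩

theorem LocK.btw_unique (h : LocK X ε) {y x x' z : X} (hyz : dist y z < ε) (h1 : Btw y x z)
    (h2 : Btw y x' z) (e : dist y x = dist y x') : x = x' := by
  have h3 := h.k x' y x z (by rw [dist_comm]; exact h2.loc_le.1.trans_lt hyz)
    (h2.loc_le.2.trans_lt hyz) h1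
  rcases (dist_nonneg (x := y) (y := z)).eq_or_lt with h0 | h0
  · have e1 : dist y x = 0 := le_antisymm (h0 ▸ h1.loc_le.1) dist_nonneg
    exact (dist_eq_zero.1 e1).symm.trans (dist_eq_zero.1 (e.symm.trans e1))
  unfold KIneq Btw at *
  have e2 : dist x' z = dist x z := by linarith
  have e3 : sinh (dist y z) = sinh (dist x z) * cosh (dist y x) + sinh (dist y x) * cosh (dist x z)
      := by rw [← h1, sinh_add]; ring
  rw [dist_comm x' y, ← e, e2, ← e3] at h3
  have h4 : cosh (dist x' x) ≤ cosh 0 := by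
    rw [cosh_zero]
    exact le_of_mul_le_mul_left (by linarith) (sinh_pos_iff.2 h0)
  exact (dist_le_zero.1 (loc_le_of_cosh le_rfl h4)).symm

theorem LocK.exists_geod (h : LocK X ε) {y z : X} (hyz : dist y z < ε) :
    ∃ c : ℝ → X, c 0 = y ∧ c 1 = z ∧
      ∀ s ∈ Icc (0 : ℝ) 1, ∀ t ∈ Icc (0 : ℝ) 1, dist (c s) (c t) = |s - t| * dist y z := by
  have hD := dist_nonneg (x := y) (y := z)
  have h1 : ∀ t : ℝ, ∃ x, t ∈ Icc (0 : ℝ) 1 → dist y x = t * dist y z ∧ Btw y x z := fun t => by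
    by_cases ht : t ∈ Icc (0 : ℝ) 1
    · obtain ⟨x, hx⟩ := h.btw y z hyz (t * dist y z) (mul_nonneg ht.1 hD)
        (mul_le_of_le_one_left hD ht.2)
      exact ⟨x, fun _ => hx⟩
    · exact ⟨y, fun h => absurd h ht⟩
  choose c hc using h1
  have key : ∀ s ∈ Icc (0 : ℝ) 1, ∀ t ∈ Icc (0 : ℝ) 1, s ≤ t →
      dist (c s) (c t) = (t - s) * dist y z := by
    intro s hs t ht hst
    obtain ⟨e1, b1⟩ := hc t ht
    obtain ⟨e2, b2⟩ := hc s hs
    obtain ⟨w, e3, b3⟩ := h.btw y (c t) (b1.loc_le.1.trans_lt hyz) (s * dist y z)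
      (mul_nonneg hs.1 hD) (e1 ▸ mul_le_mul_of_nonneg_right hst hD)
    have b4 : Btw y w z := by
      unfold Btw at *
      linarith [dist_triangle y w z, dist_triangle w (c t) z]
    rw [h.btw_unique hyz b2 b4 (e2.trans e3.symm)]
    unfold Btw at b3
    linarith
  refine ⟨c, (dist_eq_zero.1 ?_).symm, dist_eq_zero.1 ?_, fun s hs t ht => ?_⟩
  · simpa using (hc 0 ⟨le_rfl, zero_le_one⟩).1
  · obtain ⟨e1, b1⟩ := hc 1 ⟨zero_le_one, le_rfl⟩
    unfold Btw at b1
    linarith
  · rcases le_total s t with hst | hst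
    · rw [key s hs t ht hst, abs_sub_comm, abs_of_nonneg (sub_nonneg.2 hst)]
    · rw [dist_comm, key t ht s hs hst, abs_of_nonneg (sub_nonneg.2 hst)]

/-- Small balls are convex. -/
theorem LocK.ball_convex (h : LocK X ε) {p y x z : X} {r : ℝ} (hr : r ≤ ε) (hy : dist p y < r)
    (hz : dist p z < r) (b : Btw y x z) : dist p x < r := by
  have h3 := h.k p y x z (hy.trans_le hr) (hz.trans_le hr) b
  rcases (dist_nonneg (x := y) (y := z)).eq_or_lt with h0 | h0
  · have e1 : dist y x = 0 := le_antisymm (h0 ▸ b.loc_le.1) dist_nonneg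
    rwa [← dist_eq_zero.1 e1]
  refine lt_of_le_of_lt (loc_le_of_cosh (le_max_of_le_left dist_nonneg) ?_) (max_lt hy hz)
  have c1 : cosh (dist p y) ≤ cosh (max (dist p y) (dist p z)) :=
    cosh_le_cosh.2 (abs_le_abs_of_nonneg dist_nonneg (le_max_left _ _))
  have c2 : cosh (dist p z) ≤ cosh (max (dist p y) (dist p z)) :=
    cosh_le_cosh.2 (abs_le_abs_of_nonneg dist_nonneg (le_max_right _ _))
  have c3 := loc_sinh_add (dist_nonneg (x := y) (y := x)) (dist_nonneg (x := x) (y := z))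
  unfold KIneq Btw at *
  rw [b] at c3
  refine le_of_mul_le_mul_left (h3.trans ?_) (sinh_pos_iff.2 h0)
  have s1 := sinh_nonneg_iff.2 (dist_nonneg (x := y) (y := x))
  have s2 := sinh_nonneg_iff.2 (dist_nonneg (x := x) (y := z))
  nlinarith [cosh_pos (max (dist p y) (dist p z))]

theorem LocK.mid (h : LocK X ε) {q y m z : X} (hy : dist q y < ε) (hz : dist q z < ε)
    (b : Btw y m z) (e : dist y m = dist m z) :
    2 * cosh (dist y m) * cosh (dist q m) ≤ cosh (dist q y) + cosh (dist q z) := by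
  have h3 := h.k q y m z hy hz b
  rcases (dist_nonneg (x := y) (y := m)).eq_or_lt with h0 | h0
  · rw [← h0, ← dist_eq_zero.1 (e.symm.trans h0.symm), dist_eq_zero.1 h0.symm, cosh_zero]
    linarith
  unfold KIneq Btw at *
  rw [← b, ← e, sinh_add] at h3
  refine le_of_mul_le_mul_left ?_ (sinh_pos_iff.2 h0)
  linarith

theorem LocK.half (h : LocK X ε) {p y z m n : X} (hy : dist p y < ε / 2) (hz : dist p z < ε / 2)
    (b : Btw p m y) (e : dist p m = dist m y) (b' : Btw p n z) (e' : dist p n = dist n z) :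
    dist m n ≤ dist y z / 2 := by
  have t1 := dist_triangle_left y z p
  have t2 := dist_triangle_left n y p
  have t3 := dist_triangle p y z
  have t4 := dist_triangle_right p y z
  have l1 := b'.loc_le.1
  have h1 := h.mid (q := n) (by rw [dist_comm]; linarith [h.pos]) (by linarith) b e
  have h2 := h.mid (q := y) (by rw [dist_comm]; linarith [h.pos]) (by linarith) b' e'
  unfold Btw at b b'
  have h3 := loc_tri (a := dist p m) (b := dist p n) (w := dist y z / 2) (by positivity)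
    (by linarith) (by linarith) (by linarith)
  have e1 : cosh (dist y p) = 2 * cosh (dist p m) ^ 2 - 1 := by
    rw [dist_comm, ← b, ← e, ← two_mul, cosh_two_mul, sinh_sq]; ring
  have e2 : cosh (dist y z) = 2 * cosh (dist y z / 2) ^ 2 - 1 := by
    rw [show dist y z = 2 * (dist y z / 2) by ring, cosh_two_mul, sinh_sq]; ring_nf
  rw [e1, e2, dist_comm y n] at h2
  rw [dist_comm n m, dist_comm n p] at h1
  refine loc_le_of_cosh (by positivity) ?_
  have p1 := cosh_pos (dist p m)
  have p2 := cosh_pos (dist p n)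
  refine le_of_mul_le_mul_left ?_ (show 0 < 4 * cosh (dist p m) * cosh (dist p n) by positivity)
  have h4 := mul_le_mul_of_nonneg_left h1 (show 0 ≤ 2 * cosh (dist p n) by positivity)
  nlinarith

theorem LocK.mid_convex (h : LocK X ε) {p y z m y' z' m' : X} (hy : dist p y < ε / 4)
    (hz : dist p z < ε / 4) (hy' : dist p y' < ε / 4) (hz' : dist p z' < ε / 4) (b : Btw y m z)
    (e : dist y m = dist m z) (b' : Btw y' m' z') (e' : dist y' m' = dist m' z') :
    dist m m' ≤ (dist y y' + dist z z') / 2 := by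
  have t1 := dist_triangle_left y z p
  have t2 := dist_triangle_left y z' p
  have t3 := dist_triangle_left z' y' p
  obtain ⟨n, e1, b1⟩ := h.btw y z' (by linarith [h.pos]) (dist y z' / 2) (by positivity)
    (by linarith [dist_nonneg (x := y) (y := z')])
  have e2 : dist y n = dist n z' := by unfold Btw at b1; linarith
  have h1 := h.half (by linarith) (by linarith) b e b1 e2
  have h2 := h.half (by rw [dist_comm]; linarith) (by linarith) b1.loc_symm
    (by rw [dist_comm, ← e2, dist_comm]) b'.loc_symm (by rw [dist_comm, ← e', dist_comm])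
  linarith [dist_triangle m n m']

theorem loc_geod_btw {c : ℝ → X} {D : ℝ}
    (hc : ∀ s ∈ Icc (0 : ℝ) 1, ∀ t ∈ Icc (0 : ℝ) 1, dist (c s) (c t) = |s - t| * D) {r s t : ℝ}
    (hr : 0 ≤ r) (hs : r ≤ s) (ht : s ≤ t) (h1 : t ≤ 1) : Btw (c r) (c s) (c t) := by
  unfold Btw
  rw [hc r ⟨hr, by linarith⟩ s ⟨by linarith, by linarith⟩,
    hc s ⟨by linarith, by linarith⟩ t ⟨by linarith, h1⟩, hc r ⟨hr, by linarith⟩ t ⟨by linarith, h1⟩,
    abs_of_nonpos (by linarith), abs_of_nonpos (by linarith), abs_of_nonpos (by linarith)]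
  ring

theorem loc_geod_lip {c : ℝ → X} {y z : X}
    (hc : ∀ s ∈ Icc (0 : ℝ) 1, ∀ t ∈ Icc (0 : ℝ) 1, dist (c s) (c t) = |s - t| * dist y z) :
    LipschitzOnWith (nndist y z) c (Icc 0 1) :=
  LipschitzOnWith.of_dist_le_mul fun s hs t ht => by
    rw [hc s hs t ht, mul_comm]; rfl

/-- Convexity of the metric at small scale. -/
theorem LocK.convex (h : LocK X ε) {p y z x y' z' x' : X} {t : ℝ} (ht : t ∈ Icc (0 : ℝ) 1)
    (hy : dist p y < ε / 4) (hz : dist p z < ε / 4) (hy' : dist p y' < ε / 4)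
    (hz' : dist p z' < ε / 4) (b : Btw y x z) (b' : Btw y' x' z') (e : dist y x = t * dist y z)
    (e' : dist y' x' = t * dist y' z') : dist x x' ≤ (1 - t) * dist y y' + t * dist z z' := by
  have hε := h.pos
  have key : ∀ {y x z : X}, dist p y < ε / 4 → dist p z < ε / 4 → Btw y x z →
      dist y x = t * dist y z → ∃ c : ℝ → X, c 0 = y ∧ c 1 = z ∧ c t = x ∧
        ContinuousOn c (Icc 0 1) ∧ (∀ s ∈ Icc (0 : ℝ) 1, dist p (c s) < ε / 4) ∧
        ∀ s k, 0 < k → 0 ≤ s - k → s + k ≤ 1 → Btw (c (s - k)) (c s) (c (s + k)) ∧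
          dist (c (s - k)) (c s) = dist (c s) (c (s + k)) := by
    intro y x z hy hz b e
    have h1 : dist y z < ε := by linarith [dist_triangle_left y z p]
    obtain ⟨c, c0, c1, hc⟩ := h.exists_geod h1
    have h2 : ∀ s ∈ Icc (0 : ℝ) 1, Btw y (c s) z := fun s hs =>
      c0 ▸ c1 ▸ loc_geod_btw hc le_rfl hs.1 hs.2 le_rfl
    refine ⟨c, c0, c1, h.btw_unique h1 (h2 t ht) b ?_, (loc_geod_lip hc).continuousOn,
      fun s hs => h.ball_convex (by linarith) hy hz (h2 s hs), fun s k k0 k1 k2 =>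
        ⟨loc_geod_btw hc k1 (by linarith) (by linarith) k2, ?_⟩⟩
    · have h3 := hc 0 ⟨le_rfl, zero_le_one⟩ t ht
      rwa [c0, zero_sub, abs_neg, abs_of_nonneg ht.1, ← e] at h3
    · rw [hc _ ⟨k1, by linarith⟩ _ ⟨by linarith, by linarith⟩,
        hc _ ⟨by linarith, by linarith⟩ _ ⟨by linarith, k2⟩]
      congr 2; ring
  obtain ⟨c, rfl, rfl, rfl, a1, a2, a3⟩ := key hy hz b e
  obtain ⟨c', rfl, rfl, rfl, a1', a2', a3'⟩ := key hy' hz' b' e'
  have h3 := loc_convex_of_midpoint (f := fun s => dist (c s) (c' s)) one_pos zero_le_one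
    (continuous_dist.comp_continuousOn (a1.prodMk a1')) (fun s k k0 _ k1 k2 =>
      h.mid_convex (a2 _ ⟨k1, by linarith⟩) (a2 _ ⟨by linarith, k2⟩) (a2' _ ⟨k1, by linarith⟩)
        (a2' _ ⟨by linarith, k2⟩) (a3 s k k0 k1 k2).1 (a3 s k k0 k1 k2).2 (a3' s k k0 k1 k2).1
        (a3' s k k0 k1 k2).2) ht
  simpa using h3

/-- A short geodesic path. -/
theorem LocK.exists_path (h : LocK X ε) {y z : X} (hyz : dist y z < ε) :
    ∃ a : Path y z, (∀ s t, dist (a s) (a t) = |(s : ℝ) - t| * dist y z) ∧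
      eVariationOn a univ = edist y z := by
  obtain ⟨c, c0, c1, hc⟩ := h.exists_geod hyz
  have hl := loc_geod_lip hc
  refine ⟨⟨⟨fun s => c s, hl.continuousOn.comp_continuous continuous_subtype_val fun s => s.2⟩,
    c0, c1⟩, fun s t => hc s s.2 t t.2, le_antisymm ?_ ?_⟩
  · have h1 := hl.comp_eVariationOn_le (g := (Subtype.val : unitInterval → ℝ)) (s := univ)
      fun s _ => s.2
    have h2 := (show MonotoneOn (Subtype.val : unitInterval → ℝ) univ from
      fun _ _ _ _ h => h).eVariationOn_eq (mem_univ 0) (mem_univ 1)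
    rw [show (univ : Set unitInterval) ∩ Icc 0 1 = univ from
      eq_univ_of_forall fun s => ⟨trivial, s.2⟩] at h2
    refine h1.trans_eq ?_
    rw [h2, edist_nndist]
    simp
  · exact (congrArg₂ edist c0 c1).symm.trans_le
      (eVariationOn.edist_le (fun s : unitInterval => c s) (mem_univ 0) (mem_univ 1))

theorem LocK.locallyPathConnected (h : LocK X ε) : LocallyPathConnectedSpace X := by
  refine .of_bases (p := fun _ r => 0 < r ∧ r ≤ ε) (s := fun x r => Metric.ball x r)
    (fun x => Metric.nhds_basis_ball.to_hasBasis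
      (fun r hr => ⟨min r ε, ⟨lt_min hr h.pos, min_le_right _ _⟩,
        Metric.ball_subset_ball (min_le_left _ _)⟩) fun r hr => ⟨r, hr.1, subset_rfl⟩)
    fun x r hr => ⟨x, Metric.mem_ball_self hr.1, fun y hy => ?_⟩
  rw [Metric.mem_ball, dist_comm] at hy
  obtain ⟨a, ha, -⟩ := h.exists_path (hy.trans_le hr.2)
  refine ⟨a, fun t => ?_⟩
  have h1 := ha t 0
  rw [a.source, Icc.coe_zero, sub_zero, abs_of_nonneg t.2.1] at h1
  exact (h1.trans_le (mul_le_of_le_one_left dist_nonneg t.2.2)).trans_lt hy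

theorem LocK.homotopic (h : LocK X ε) {p x y : X} (a b : Path x y)
    (ha : ∀ t, dist p (a t) < ε / 4) (hb : ∀ t, dist p (b t) < ε / 4) : a.Homotopic b := by
  have hε := h.pos
  have h1 : ∀ t, dist (a t) (b t) < ε := fun t => by
    linarith [dist_triangle_left (a t) (b t) p, ha t, hb t]
  choose c c0 c1 hc using fun t => h.exists_geod (h1 t)
  have h2 : ∀ t, ∀ s ∈ Icc (0 : ℝ) 1, Btw (a t) (c t s) (b t) ∧
      dist (a t) (c t s) = s * dist (a t) (b t) := fun t s hs =>
    ⟨c0 t ▸ c1 t ▸ loc_geod_btw (hc t) le_rfl hs.1 hs.2 le_rfl, by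
      have h3 := hc t 0 ⟨le_rfl, zero_le_one⟩ s hs
      rwa [c0, zero_sub, abs_neg, abs_of_nonneg hs.1] at h3⟩
  have h3 : Continuous fun q : unitInterval × unitInterval => c q.2 q.1 := by
    refine continuous_iff_continuousAt.2 fun q => tendsto_iff_dist_tendsto_zero.2 ?_
    have h4 : Continuous fun r : unitInterval × unitInterval =>
        (1 - (r.1 : ℝ)) * dist (a r.2) (a q.2) + r.1 * dist (b r.2) (b q.2) +
          |(r.1 : ℝ) - q.1| * dist (a q.2) (b q.2) := by fun_prop
    refine squeeze_zero (fun _ => dist_nonneg) (fun r => ?_) (by simpa using h4.tendsto q)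
    refine (dist_triangle _ (c q.2 r.1) _).trans (add_le_add ?_ (hc _ _ r.1.2 _ q.1.2).le)
    exact h.convex r.1.2 (ha _) (hb _) (ha _) (hb _) (h2 _ _ r.1.2).1 (h2 _ _ r.1.2).1
      (h2 _ _ r.1.2).2 (h2 _ _ r.1.2).2
  refine ⟨⟨⟨⟨_, h3⟩, fun t => c0 t, fun t => c1 t⟩, fun s t ht => ?_⟩⟩
  have h5 := (h2 t s s.2).2
  have h6 : dist (a t) (b t) = 0 := by
    rcases ht with rfl | rfl <;> simp
  rw [h6, mul_zero, dist_eq_zero] at h5
  exact h5.symm

theorem GlobK.isLen (h : GlobK X) : IsLen X := fun x y r hr => by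
  obtain ⟨a, -, ha⟩ := (h.locK (ε := dist x y + 1) (by positivity)).exists_path (lt_add_one _)
  exact ⟨a, ha ▸ hr⟩

theorem BallIso.dist_eq {A : Type} [MetricSpace A] {p : A → X} {δ : ℝ} (hp : BallIso p δ)
    {a a' : A} (h : dist a' a < δ) : dist (p a') (p a) = dist a' a :=
  (hp.2 a).1 a' h a (Metric.mem_ball_self hp.1)

theorem BallIso.lift {A : Type} [MetricSpace A] {p : A → X} {δ : ℝ} (hp : BallIso p δ) {a : A}
    {x : X} (h : dist x (p a) < δ) : ∃ a', p a' = x ∧ dist a' a = dist x (p a) := by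
  obtain ⟨a', h1, rfl⟩ := (hp.2 a).2 h
  exact ⟨a', rfl, (hp.dist_eq h1).symm⟩

theorem BallIso.locK {A : Type} [MetricSpace A] {p : A → X} {δ : ℝ} (hp : BallIso p δ)
    (h : LocK X ε) : LocK A (min δ ε / 2) := by
  have m0 := lt_min hp.1 h.pos
  have m1 := min_le_left δ ε
  have m2 := min_le_right δ ε
  refine ⟨by linarith, fun y z hyz s s0 s1 => ?_, fun q y x z hy hz b => ?_⟩
  · have e1 := hp.dist_eq (a := z) (a' := y) (by linarith)
    obtain ⟨w, e2, b⟩ := h.btw (p y) (p z) (by linarith) s s0 (by linarith)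
    obtain ⟨x, rfl, e3⟩ := hp.lift (a := y) (x := w) (by rw [dist_comm]; linarith)
    rw [dist_comm (p x), dist_comm x, e2] at e3
    refine ⟨x, e3, ?_⟩
    have e4 := (hp.2 y).1 x (Metric.mem_ball'.2 (by linarith)) z (Metric.mem_ball'.2 (by linarith))
    unfold Btw at *
    linarith
  · have q0 := Metric.mem_ball_self (x := q) hp.1
    have qy : y ∈ Metric.ball q δ := Metric.mem_ball'.2 (by linarith)
    have qz : z ∈ Metric.ball q δ := Metric.mem_ball'.2 (by linarith)
    have qx : x ∈ Metric.ball q δ := Metric.mem_ball'.2 (by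
      unfold Btw at b
      linarith [dist_triangle q y x, dist_triangle_right q x z, dist_triangle_left y z q])
    have e := (hp.2 q).1
    have h1 := h.k (p q) (p y) (p x) (p z) (by rw [e q q0 y qy]; linarith)
      (by rw [e q q0 z qz]; linarith) (by unfold Btw; rwa [e y qy x qx, e x qx z qz, e y qy z qz])
    unfold KIneq at *
    rwa [e y qy x qx, e x qx z qz, e y qy z qz, e q q0 x qx, e q q0 y qy, e q q0 z qz] at h1

theorem BallIso.continuous {A : Type} [MetricSpace A] {p : A → X} {δ : ℝ} (hp : BallIso p δ) :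
    Continuous p :=
  Metric.continuous_iff.2 fun _ r hr => ⟨min δ r, lt_min hp.1 hr, fun _ h => by
    rw [hp.dist_eq (h.trans_le (min_le_left _ _))]; exact h.trans_le (min_le_right _ _)⟩

theorem BallIso.isOpenMap {A : Type} [MetricSpace A] {p : A → X} {δ : ℝ} (hp : BallIso p δ) :
    IsOpenMap p := by
  intro U hU
  rw [Metric.isOpen_iff] at hU ⊢
  rintro _ ⟨a, ha, rfl⟩
  obtain ⟨r, hr, h1⟩ := hU a ha
  refine ⟨min δ r, lt_min hp.1 hr, fun x hx => ?_⟩
  obtain ⟨a', h2, h3⟩ := hp.lift (a := a) (x := x) (lt_of_lt_of_le hx (min_le_left _ _))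
  exact ⟨a', h1 (h3.trans_lt (lt_of_lt_of_le hx (min_le_right _ _))), h2⟩

theorem BallIso.isCoveringMap {A : Type} [MetricSpace A] {p : A → X} {δ : ℝ}
    (hp : BallIso p δ) : IsCoveringMap p := by
  intro b
  have h0 := hp.1
  have sep : Pairwise fun a a' : p ⁻¹' {b} => δ ≤ dist a a' := fun a a' hne => by
    by_contra h1
    have h2 := hp.dist_eq (a := a'.1) (a' := a.1) (not_le.1 h1)
    rw [show p a = b from a.2, show p a' = b from a'.2, dist_self] at h2
    exact hne (Subtype.ext (dist_eq_zero.1 h2.symm))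
  have : DiscreteTopology (p ⁻¹' {b}) := .of_forall_le_dist h0 sep
  have ex : p ⁻¹' Metric.ball b (δ / 2) ⊆ ⋃ a : p ⁻¹' {b}, Metric.ball a.1 (δ / 2) := by
    intro a' ha'
    have h1 : dist b (p a') < δ / 2 := Metric.mem_ball'.1 ha'
    obtain ⟨a, h2, h3⟩ := hp.lift (a := a') (x := b) (by linarith)
    exact mem_iUnion.2 ⟨⟨a, h2⟩, Metric.mem_ball'.2 (h3.trans_lt h1)⟩
  cases isEmpty_or_nonempty (p ⁻¹' {b})
  · exact .of_preimage_eq_empty _ (Metric.ball_mem_nhds b (half_pos h0)) (by simpa using ex)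
  have : Nonempty A := ⟨Classical.arbitrary (p ⁻¹' {b})⟩
  have surj : ∀ a : p ⁻¹' {b}, SurjOn p (Metric.ball a.1 (δ / 2)) (Metric.ball b (δ / 2)) := by
    intro a x hx
    have h1 : dist x (p a) < δ / 2 := by rw [show p a = b from a.2]; exact hx
    obtain ⟨a', h2, h3⟩ := hp.lift (a := a.1) (x := x) (by linarith)
    exact ⟨a', h3.trans_lt h1, h2⟩
  refine .of_trivialization (t := Metric.isOpen_ball.trivializationDiscrete
    (fun a : p ⁻¹' {b} => Metric.ball a.1 (δ / 2)) _ (fun a W hW => ⟨fun h =>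
      (h.preimage hp.continuous).inter Metric.isOpen_ball, fun h => ?_⟩) (fun a => ?_) surj
    (fun a a' hne => Metric.ball_disjoint_ball ((add_halves δ).trans_le (sep hne))) ex)
    (Metric.mem_ball_self (half_pos h0))
  · have h1 := hp.isOpenMap _ h
    rwa [image_preimage_inter, inter_eq_left.2 (hW.trans (surj a))] at h1
  · intro x hx y hy e
    have h1 := (hp.2 a.1).1 x (Metric.ball_subset_ball (half_le_self h0.le) hx) y
      (Metric.ball_subset_ball (half_le_self h0.le) hy)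
    rw [e, dist_self] at h1
    exact dist_eq_zero.1 h1.symm

end

theorem edist_le_var {A B : Type} [PseudoEMetricSpace A] [PseudoEMetricSpace B]
    (u : unitInterval → A) (w : unitInterval → B)
    (h : ∀ t, ∀ᶠ s in 𝓝 t, edist (u t) (u s) ≤ edist (w t) (w s)) :
    edist (u 0) (u 1) ≤ eVariationOn w univ := by
  set S := {t | edist (u 0) (u t) ≤ eVariationOn w (univ ∩ Icc 0 t)} with hS
  have step : ∀ s ∈ S, ∀ t, s ≤ t → edist (u s) (u t) ≤ edist (w s) (w t) → t ∈ S := by
    intro s hs t hst h1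
    refine (edist_triangle _ (u s) _).trans ?_
    rw [← eVariationOn.Icc_add_Icc w (show 0 ≤ s from s.2.1) hst (mem_univ s)]
    exact add_le_add hs (h1.trans (eVariationOn.edist_le w ⟨trivial, le_rfl, hst⟩
      ⟨trivial, hst, le_rfl⟩))
  have h0 : (0 : unitInterval) ∈ S := by simp [hS]
  have h1 : sSup S ∈ S := by
    obtain ⟨s, h2, h3⟩ := mem_closure_iff_nhds.1 (sSup_mem_closure ⟨0, h0⟩) _ (h (sSup S))
    exact step s h3 _ (le_sSup h3) (by rw [edist_comm, edist_comm (w s)]; exact h2)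
  have h2 : sSup S = 1 := by
    by_contra h3
    have h4 : sSup S < 1 := lt_of_le_of_ne (sSup S).2.2 h3
    have := nhdsGT_neBot_of_exists_gt ⟨1, h4⟩
    obtain ⟨t, h5, h6⟩ := (((h (sSup S)).filter_mono nhdsWithin_le_nhds).and
      (self_mem_nhdsWithin (s := Ioi (sSup S)))).exists
    exact absurd (le_sSup (step _ h1 t (le_of_lt h6) h5)) (not_le.2 h6)
  rw [h2] at h1
  exact le_trans h1 (eVariationOn.mono w inter_subset_left)

theorem IsLen.lip {A B : Type} [PseudoEMetricSpace A] [PseudoEMetricSpace B] (h : IsLen A)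
    (f : A → B) (hf : ∀ x, ∀ᶠ y in 𝓝 x, edist (f x) (f y) ≤ edist x y) (x y : A) :
    edist (f x) (f y) ≤ edist x y := by
  refine le_of_forall_gt_imp_ge_of_dense fun r hr => ?_
  obtain ⟨a, ha⟩ := h x y r hr
  have h1 := edist_le_var (f ∘ a) a fun t => (a.continuous.tendsto t).eventually (hf (a t))
  simp only [Function.comp, a.source, a.target] at h1
  exact h1.trans ha.le

theorem eVariationOn_trans {A B : Type} [TopologicalSpace A] [PseudoEMetricSpace B] (f : A → B)
    {x y z : A} (a : Path x y) (b : Path y z) : eVariationOn (f ∘ a.trans b) univ =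
      eVariationOn (f ∘ a) univ + eVariationOn (f ∘ b) univ := by
  let m : unitInterval := ⟨1 / 2, by norm_num, by norm_num⟩
  have h0 := eVariationOn.Icc_add_Icc (f ∘ a.trans b) (show 0 ≤ m from m.2.1)
    (show m ≤ 1 from m.2.2) (mem_univ m)
  rw [show (univ : Set unitInterval) ∩ Icc 0 1 = univ from
    eq_univ_of_forall fun s => ⟨trivial, s.2⟩] at h0
  rw [← h0]
  congr 1
  · have h1 := eVariationOn.comp_eq_of_monotoneOn (f ∘ a) (t := univ ∩ Icc 0 m)
      (fun t : unitInterval => projIcc (0 : ℝ) 1 zero_le_one (2 * t))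
      fun s _ t _ hst => monotone_projIcc _ (by have : (s : ℝ) ≤ t := hst; linarith)
    rw [show (fun t : unitInterval => projIcc (0 : ℝ) 1 zero_le_one (2 * t)) '' (univ ∩ Icc 0 m) =
      univ from eq_univ_of_forall fun s => ⟨⟨s / 2, by linarith [s.2.1], by linarith [s.2.2]⟩,
        ⟨trivial, by change (0 : ℝ) ≤ s / 2; linarith [s.2.1],
          by change (s : ℝ) / 2 ≤ 1 / 2; linarith [s.2.2]⟩, by
        simp only [mul_div_cancel₀ (s : ℝ) two_ne_zero, projIcc_val]⟩] at h1
    rw [← h1]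
    refine eVariationOn.eq_of_eqOn fun t ht => congrArg f ?_
    exact if_pos (show (t : ℝ) ≤ 1 / 2 from ht.2.2)
  · have h1 := eVariationOn.comp_eq_of_monotoneOn (f ∘ b) (t := univ ∩ Icc m 1)
      (fun t : unitInterval => projIcc (0 : ℝ) 1 zero_le_one (2 * t - 1))
      fun s _ t _ hst => monotone_projIcc _ (by have : (s : ℝ) ≤ t := hst; linarith)
    rw [show (fun t : unitInterval => projIcc (0 : ℝ) 1 zero_le_one (2 * t - 1)) ''
      (univ ∩ Icc m 1) = univ from eq_univ_of_forall fun s =>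
        ⟨⟨(s + 1) / 2, by linarith [s.2.1], by linarith [s.2.2]⟩,
        ⟨trivial, by change (1 : ℝ) / 2 ≤ (s + 1) / 2; linarith [s.2.1],
          by change ((s : ℝ) + 1) / 2 ≤ 1; linarith [s.2.2]⟩, by
        simp only [mul_div_cancel₀ ((s : ℝ) + 1) two_ne_zero, add_sub_cancel_right,
          projIcc_val]⟩] at h1
    rw [← h1]
    refine eVariationOn.eq_of_eqOn fun t ht => congrArg f ?_
    change (if (t : ℝ) ≤ 1 / 2 then a.extend (2 * t) else b.extend (2 * t - 1)) =
      b.extend (2 * t - 1)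
    split_ifs with h2
    · have h3 : (t : ℝ) = 1 / 2 := le_antisymm h2 ht.2.1
      rw [h3]; norm_num
    · rfl

theorem eVariationOn_symm {A B : Type} [TopologicalSpace A] [PseudoEMetricSpace B] (f : A → B)
    {x y : A} (a : Path x y) : eVariationOn (f ∘ a.symm) univ = eVariationOn (f ∘ a) univ := by
  have h1 := eVariationOn.comp_eq_of_antitoneOn (f ∘ a) (t := univ) unitInterval.symm
    fun s _ t _ hst => unitInterval.symm_le_symm.2 hst
  rw [image_univ, unitInterval.symm_bijective.surjective.range_eq] at h1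
  exact h1

end Pool.Agent.MP_39b1da_gt

end

section

set_option autoImplicit false
set_option linter.unusedSectionVars false
set_option linter.style.haveILetI false

namespace Pool.Agent.MP_39b1da_gt

open Filter Topology Set Real
open scoped ENNReal NNReal ContDiff InnerProductSpace unitInterval

section Basic

variable {M S : Type} [TopologicalSpace M] {m₀ : M}

open Path

theorem uc_mk_eq {m m₁ m₂ : M} (q : Homotopic.Quotient m₀ m) (b : Path m m₁) (b' : Path m m₂)
    (h : ∀ t, b t = b' t) :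
    (⟨m₁, q.trans (Homotopic.Quotient.mk b)⟩ : UCover M m₀) = ⟨m₂, q.trans (Homotopic.Quotient.mk b')⟩ := by
  obtain rfl : m₁ = m₂ := by rw [← b.target, ← b'.target]; exact h 1
  obtain rfl : b = b' := Path.ext (funext h)
  rfl

theorem uc_snd_eq {y : UCover M m₀} {q : Homotopic.Quotient m₀ y.1} (h : (⟨y.1, q⟩ : UCover M m₀) = y) :
    q = y.2 := by
  obtain ⟨m, q'⟩ := y
  exact eq_of_heq (Sigma.mk.inj h).2

/-- The explicit lift of a path to the universal cover. -/
noncomputable def ucLift (x : UCover M m₀) {m : M} (a : Path x.1 m) (t : I) : UCover M m₀ :=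
  ⟨a t, x.2.trans (Homotopic.Quotient.mk ((a.subpath 0 t).cast a.source.symm rfl))⟩

theorem ucLift_fst (x : UCover M m₀) {m : M} (a : Path x.1 m) (t : I) :
    (ucLift x a t).1 = a t := rfl

theorem ucLift_zero (x : UCover M m₀) {m : M} (a : Path x.1 m) : ucLift x a 0 = x := by
  have h := uc_mk_eq x.2 ((a.subpath 0 0).cast a.source.symm rfl) (Path.refl x.1)
    (fun t => by simp)
  rw [Homotopic.Quotient.mk_refl, Homotopic.Quotient.trans_refl] at h
  exact h

theorem ucLift_one (x : UCover M m₀) {m : M} (a : Path x.1 m) :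
    ucLift x a 1 = ⟨m, x.2.trans (Homotopic.Quotient.mk a)⟩ :=
  uc_mk_eq x.2 _ a (fun t => by simp)

theorem ucLift_step (x : UCover M m₀) {m : M} (a : Path x.1 m) (s t : I) :
    (ucLift x a s).2.trans (Homotopic.Quotient.mk (a.subpath s t)) = (ucLift x a t).2 := by
  change (x.2.trans _).trans _ = x.2.trans _
  rw [Homotopic.Quotient.trans_assoc]
  congr 1
  exact Quotient.sound ⟨Path.Homotopy.subpathTransSubpath a 0 s t⟩

theorem uc_exists_path (x y : UCover M m₀) :
    ∃ a : Path x.1 y.1, x.2.trans (Homotopic.Quotient.mk a) = y.2 := by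
  obtain ⟨a, ha⟩ := Quotient.exists_rep (x.2.symm.trans y.2)
  refine ⟨a, ?_⟩
  have : Homotopic.Quotient.mk a = x.2.symm.trans y.2 := ha
  rw [this, ← Homotopic.Quotient.trans_assoc, Homotopic.Quotient.trans_symm, Homotopic.Quotient.refl_trans]

theorem uc_cancel {x : UCover M m₀} {m : M} {q q' : Homotopic.Quotient x.1 m}
    (h : x.2.trans q = x.2.trans q') : q = q' := by
  have := congrArg (fun r => x.2.symm.trans r) h
  simpa only [← Homotopic.Quotient.trans_assoc, Homotopic.Quotient.symm_trans, Homotopic.Quotient.refl_trans] using this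

variable [PseudoEMetricSpace S] (f : M → S)

theorem ulen_le {x y : UCover M m₀} (a : Path x.1 y.1) (ha : x.2.trans (Homotopic.Quotient.mk a) = y.2) :
    ulen f x y ≤ eVariationOn (f ∘ a) univ :=
  iInf₂_le a ha

theorem ulen_lt {x y : UCover M m₀} {r : ℝ≥0∞} (h : ulen f x y < r) :
    ∃ a : Path x.1 y.1, x.2.trans (Homotopic.Quotient.mk a) = y.2 ∧ eVariationOn (f ∘ a) univ < r := by
  simpa only [ulen, iInf_lt_iff, exists_prop] using h

theorem ulen_self (x : UCover M m₀) : ulen f x x = 0 := by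
  refine le_antisymm ((ulen_le f (Path.refl x.1) (Homotopic.Quotient.trans_refl _)).trans ?_) zero_le
  refine (eVariationOn.constant_on ?_).le
  rintro _ ⟨s, -, rfl⟩ _ ⟨t, -, rfl⟩
  rfl

theorem ulen_symm_le (x y : UCover M m₀) : ulen f y x ≤ ulen f x y := by
  refine le_iInf₂ fun a ha => ?_
  rw [← eVariationOn_symm]
  refine ulen_le f a.symm ?_
  rw [← ha, Homotopic.Quotient.mk_symm, Homotopic.Quotient.trans_assoc, Homotopic.Quotient.trans_symm, Homotopic.Quotient.trans_refl]

theorem ulen_symm (x y : UCover M m₀) : ulen f x y = ulen f y x :=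
  le_antisymm (ulen_symm_le f y x) (ulen_symm_le f x y)

theorem ulen_tri (x y z : UCover M m₀) : ulen f x z ≤ ulen f x y + ulen f y z := by
  unfold ulen
  refine ENNReal.le_iInf₂_add_iInf₂ fun a ha b hb => ?_
  rw [← eVariationOn_trans]
  refine ulen_le f (a.trans b) ?_
  rw [Homotopic.Quotient.mk_trans, ← Homotopic.Quotient.trans_assoc, ha, hb]

theorem edist_le_ulen (x y : UCover M m₀) : edist (f x.1) (f y.1) ≤ ulen f x y := by
  refine le_iInf₂ fun a _ => ?_
  simpa using eVariationOn.edist_le (f ∘ a) (mem_univ 0) (mem_univ 1)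

theorem ulen_ucLift_le (x : UCover M m₀) {m : M} (a : Path x.1 m) {s t : I} (hst : s ≤ t) :
    ulen f (ucLift x a s) (ucLift x a t) ≤ eVariationOn (f ∘ a) (Icc s t) := by
  refine (ulen_le f (x := ucLift x a s) (y := ucLift x a t) (a.subpath s t)
    (ucLift_step x a s t)).trans ?_
  refine eVariationOn.comp_le_of_monotoneOn (f ∘ a) (Icc.convexComb s t) ?_ ?_
  · intro u _ v _ huv
    have h1 : (u : ℝ) ≤ v := huv
    have h2 : (s : ℝ) ≤ t := hst
    change ((1 - u) * s + u * t : ℝ) ≤ (1 - v) * s + v * t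
    nlinarith
  · intro u _
    have := Path.range_subpathAux s t
    rw [uIcc_of_le hst] at this
    exact this ▸ mem_range_self u

end Basic

section Local

variable {M S : Type} [TopologicalSpace M] [MetricSpace S] {m₀ : M} (f : M ≃ₜ S) {ε : ℝ}

open Path

theorem uc_homotopic (h : LocK S ε) {p : S} {x y : M} (a b : Path x y)
    (ha : ∀ t, dist p (f (a t)) < ε / 4) (hb : ∀ t, dist p (f (b t)) < ε / 4) :
    Homotopic.Quotient.mk a = Homotopic.Quotient.mk b := by
  have h1 := h.homotopic (a.map f.continuous) (b.map f.continuous) ha hb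
  have h2 := ContinuousMap.HomotopicRel.comp_continuousMap h1 (f.symm : C(S, M))
  have e : ∀ c : Path x y, (f.symm : C(S, M)).comp (c.map f.continuous).toContinuousMap =
      c.toContinuousMap := fun c => by ext t; simp
  rw [e, e] at h2
  exact Quotient.sound h2

theorem uc_geod (h : LocK S ε) {x y : M} (hxy : dist (f x) (f y) < ε) :
    ∃ a : Path x y, (∀ t, dist (f x) (f (a t)) ≤ dist (f x) (f y)) ∧
      eVariationOn (f ∘ a) univ = edist (f x) (f y) := by
  obtain ⟨c, hc1, hc2⟩ := h.exists_path hxy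
  refine ⟨⟨⟨fun t => f.symm (c t), by fun_prop⟩, by simp, by simp⟩, fun t => ?_, ?_⟩
  · have := hc1 0 t
    simp only [Path.source, Icc.coe_zero, zero_sub, abs_neg] at this
    change dist (f x) (f (f.symm (c t))) ≤ _
    rw [f.apply_symm_apply, this, abs_of_nonneg t.2.1]
    exact mul_le_of_le_one_left dist_nonneg t.2.2
  · rw [← hc2]
    congr 1
    funext t
    exact f.apply_symm_apply _

theorem ulen_eq_of_small (h : LocK S ε) {p : S} {x y : UCover M m₀} (a : Path x.1 y.1)
    (ha : x.2.trans (Homotopic.Quotient.mk a) = y.2) (hp : ∀ t, dist p (f (a t)) < ε / 16) :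
    ulen f x y = edist (f x.1) (f y.1) := by
  have h0 := hp 0
  have h1 := hp 1
  rw [a.source] at h0
  rw [a.target] at h1
  have hε := h.pos
  have hxy : dist (f x.1) (f y.1) < ε / 8 := by
    have := dist_triangle_left (f x.1) (f y.1) p
    linarith
  obtain ⟨c, hc1, hc2⟩ := uc_geod f h (x := x.1) (y := y.1) (by linarith)
  refine le_antisymm ?_ (edist_le_ulen f x y)
  rw [← hc2]
  refine ulen_le f c ?_
  rw [← ha, uc_homotopic f h (p := p) c a (fun t => ?_) (fun t => by linarith [hp t])]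
  have := dist_triangle p (f x.1) (f (c t))
  linarith [hc1 t]

theorem uc_short {x y : M} (a : Path x y) {r : ℝ}
    (ha : eVariationOn (f ∘ a) univ < ENNReal.ofReal r) (t : I) : dist (f x) (f (a t)) < r := by
  have := (eVariationOn.edist_le (f ∘ a) (mem_univ 0) (mem_univ t)).trans_lt ha
  rw [edist_lt_ofReal] at this
  simpa using this

theorem ulen_eq_of_near (h : LocK S ε) {x y z : UCover M m₀}
    (hy : ulen f x y < ENNReal.ofReal (ε / 16)) (hz : ulen f x z < ENNReal.ofReal (ε / 16)) :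
    ulen f y z = edist (f y.1) (f z.1) := by
  obtain ⟨a, ha1, ha2⟩ := ulen_lt f hy
  obtain ⟨b, hb1, hb2⟩ := ulen_lt f hz
  refine ulen_eq_of_small f h (p := f x.1) (a.symm.trans b) ?_ fun t => ?_
  · rw [← ha1, ← hb1, Homotopic.Quotient.mk_trans, Homotopic.Quotient.mk_symm, Homotopic.Quotient.trans_assoc,
      ← Homotopic.Quotient.trans_assoc (Homotopic.Quotient.mk a), Homotopic.Quotient.trans_symm, Homotopic.Quotient.refl_trans]
  · have : (a.symm.trans b) t ∈ range a.symm ∪ range b := by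
      rw [← Path.trans_range]; exact mem_range_self t
    rw [Path.symm_range] at this
    rcases this with ⟨s, hs⟩ | ⟨s, hs⟩
    · rw [← hs]; exact uc_short f a ha2 s
    · rw [← hs]; exact uc_short f b hb2 s

theorem eq_of_ulen_eq_zero (h : LocK S ε) {x y : UCover M m₀} (hxy : ulen f x y = 0) : x = y := by
  have hε := h.pos
  have h1 : x.1 = y.1 := f.injective (edist_le_zero.1 (hxy ▸ edist_le_ulen f x y))
  obtain ⟨a, ha1, ha2⟩ := ulen_lt f (r := ENNReal.ofReal (ε / 4)) (x := x) (y := y)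
    (by rw [hxy]; simpa using hε)
  obtain ⟨m, q⟩ := x
  obtain ⟨m', q'⟩ := y
  obtain rfl : m = m' := h1
  have := uc_homotopic f h (p := f m) a (Path.refl m) (uc_short f a ha2) (fun t => by simpa using hε)
  rw [this, Homotopic.Quotient.mk_refl, Homotopic.Quotient.trans_refl] at ha1
  exact congrArg (Sigma.mk m) ha1

/-- The lifted length distance as an extended metric. -/
@[reducible] noncomputable def ucEMetric (h : LocK S ε) (m₀ : M) : EMetricSpace (UCover M m₀) where
  edist := ulen f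
  edist_self := ulen_self f
  edist_comm := ulen_symm f
  edist_triangle := ulen_tri f
  eq_of_edist_eq_zero := eq_of_ulen_eq_zero f h

theorem ucLift_local (h : LocK S ε) (x : UCover M m₀) {m : M} (a : Path x.1 m) (s : I) :
    ∀ᶠ t in 𝓝 s, ulen f (ucLift x a t) (ucLift x a s) = edist (f (a t)) (f (a s)) := by
  have hε := h.pos
  have hc : Continuous fun t => f (a t) := by fun_prop
  obtain ⟨η, hη, hball⟩ := Metric.continuous_iff.1 hc s (ε / 16) (by linarith)
  filter_upwards [Metric.ball_mem_nhds s hη] with t ht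
  refine ulen_eq_of_small f h (p := f (a s)) (x := ucLift x a t) (y := ucLift x a s)
    (a.subpath t s) (ucLift_step x a t s) fun u => ?_
  have : (a.subpath t s) u ∈ a '' uIcc t s := by
    rw [← Path.range_subpath]; exact mem_range_self u
  obtain ⟨v, hv, hv'⟩ := this
  change dist (f (a s)) (f ((a.subpath t s) u)) < _
  rw [← hv', dist_comm]
  refine hball v (lt_of_le_of_lt ?_ ht)
  have hv2 : (v : ℝ) ∈ uIcc (t : ℝ) s := by
    rcases le_total t s with hts | hts
    · rw [uIcc_of_le hts] at hv; exact Icc_subset_uIcc hv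
    · rw [uIcc_of_ge hts] at hv; exact Icc_subset_uIcc' hv
  exact Real.dist_right_le_of_mem_uIcc hv2

theorem ucLift_continuous (h : LocK S ε) (x : UCover M m₀) {m : M} (a : Path x.1 m) :
    letI := ucEMetric f h m₀
    Continuous (ucLift x a) := by
  letI := ucEMetric f h m₀
  refine continuous_iff_continuousAt.2 fun s => ?_
  rw [ContinuousAt, tendsto_iff_edist_tendsto_0]
  have hc : Continuous fun t => edist (f (a t)) (f (a s)) := by fun_prop
  have := hc.tendsto s
  rw [edist_self] at this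
  exact this.congr' ((ucLift_local f h x a s).mono fun t ht => ht.symm)

theorem ulen_ne_top (h : LocK S ε) (x y : UCover M m₀) : ulen f x y ≠ ⊤ := by
  letI := ucEMetric f h m₀
  obtain ⟨a, ha⟩ := uc_exists_path x y
  have hc := ucLift_continuous f h x a
  have hcl : IsClopen (ucLift x a ⁻¹' Metric.eball x ⊤) :=
    ⟨Metric.isClosed_eball_top.preimage hc, Metric.isOpen_eball.preimage hc⟩
  have h0 : (0 : I) ∈ ucLift x a ⁻¹' Metric.eball x ⊤ := by
    simp [ucLift_zero]
  have h1 : (1 : I) ∈ ucLift x a ⁻¹' Metric.eball x ⊤ := by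
    rw [hcl.eq_univ ⟨0, h0⟩]; trivial
  rw [mem_preimage, ucLift_one, ha, Metric.mem_eball'] at h1
  exact h1.ne

/-- The lifted length metric. -/
@[reducible] noncomputable def ucMetric (h : LocK S ε) (m₀ : M) : MetricSpace (UCover M m₀) :=
  @EMetricSpace.toMetricSpace _ (ucEMetric f h m₀) (ulen_ne_top f h)

theorem uc_ballIso (h : LocK S ε) (m₀ : M) :
    letI := ucMetric f h m₀
    BallIso (fun x : UCover M m₀ => f x.1) (ε / 16) := by
  letI := ucMetric f h m₀
  have hε := h.pos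
  have he : ∀ x y : UCover M m₀, edist x y = ulen f x y := fun _ _ => rfl
  refine ⟨by linarith, fun x => ⟨fun y hy z hz => ?_, fun s hs => ?_⟩⟩
  · rw [Metric.mem_ball', ← edist_lt_ofReal, he] at hy hz
    rw [dist_edist, dist_edist, he, ulen_eq_of_near f h hy hz]
  · rw [Metric.mem_ball'] at hs
    obtain ⟨s, rfl⟩ := f.surjective s
    obtain ⟨c, -, hc⟩ := uc_geod f h (x := x.1) (y := s) (by linarith)
    refine ⟨⟨s, x.2.trans (Homotopic.Quotient.mk c)⟩, ?_, rfl⟩
    rw [Metric.mem_ball', ← edist_lt_ofReal, he]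
    refine (ulen_le f (y := ⟨s, x.2.trans (Homotopic.Quotient.mk c)⟩) c rfl).trans_lt ?_
    rw [hc, edist_lt_ofReal]
    exact hs

/-- The explicit lift as a path. -/
noncomputable def ucPath (h : LocK S ε) {x y : UCover M m₀} (a : Path x.1 y.1)
    (ha : x.2.trans (Homotopic.Quotient.mk a) = y.2) :
    letI := ucMetric f h m₀
    Path x y :=
  letI := ucMetric f h m₀
  ⟨⟨ucLift x a, ucLift_continuous f h x a⟩, ucLift_zero x a, by
    change ucLift x a 1 = y
    rw [ucLift_one, ha]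
    rfl⟩

theorem uc_isLen (h : LocK S ε) (m₀ : M) :
    letI := ucMetric f h m₀
    IsLen (UCover M m₀) := by
  letI := ucMetric f h m₀
  intro x y r hr
  obtain ⟨a, ha1, ha2⟩ := ulen_lt f hr
  refine ⟨ucPath f h a ha1, lt_of_le_of_lt (iSup_le ?_) ha2⟩
  rintro ⟨n, u, hu, -⟩
  calc ∑ i ∈ Finset.range n, edist (ucLift x a (u (i + 1))) (ucLift x a (u i))
      ≤ ∑ i ∈ Finset.range n, eVariationOn (f ∘ a) (Icc (u i) (u (i + 1))) := by
        refine Finset.sum_le_sum fun i _ => ?_
        rw [edist_comm]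
        exact ulen_ucLift_le f x a (hu (Nat.le_succ i))
    _ = eVariationOn (f ∘ a) (Icc (u 0) (u n)) := eVariationOn.sum' _ hu
    _ ≤ eVariationOn (f ∘ a) univ := eVariationOn.mono _ (subset_univ _)

theorem uc_complete_of_ballIso {A : Type} [MetricSpace A] [CompleteSpace S] {p : A → S} {δ : ℝ}
    (hp : BallIso p δ) : CompleteSpace A := by
  refine Metric.complete_of_cauchySeq_tendsto fun u hu => ?_
  obtain ⟨N, hN⟩ := Metric.cauchySeq_iff'.1 hu (δ / 2) (by linarith [hp.1])
  have hb : ∀ n ≥ N, u n ∈ Metric.ball (u N) δ := fun n hn =>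
    Metric.mem_ball.2 (by linarith [hN n hn, hp.1])
  have hcs : CauchySeq fun n => p (u n) := by
    refine Metric.cauchySeq_iff.2 fun η hη => ?_
    obtain ⟨K, hK⟩ := Metric.cauchySeq_iff.1 hu η hη
    refine ⟨max K N, fun m hm n hn => ?_⟩
    rw [(hp.2 (u N)).1 _ (hb m (le_of_max_le_right hm)) _ (hb n (le_of_max_le_right hn))]
    exact hK m (le_of_max_le_left hm) n (le_of_max_le_left hn)
  obtain ⟨s, hs⟩ := cauchySeq_tendsto_of_complete hcs
  have hsN : dist s (p (u N)) ≤ δ / 2 := by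
    refine le_of_tendsto (hs.dist tendsto_const_nhds) ?_
    filter_upwards [eventually_ge_atTop N] with n hn
    rw [(hp.2 (u N)).1 _ (hb n hn) _ (hb N le_rfl)]
    exact (hN n hn).le
  obtain ⟨y, hy, rfl⟩ := (hp.2 (u N)).2 (Metric.mem_ball.2 (by linarith [hp.1] : dist s _ < δ))
  refine ⟨y, tendsto_iff_dist_tendsto_zero.2 ?_⟩
  refine (tendsto_iff_dist_tendsto_zero.1 hs).congr' ?_
  filter_upwards [eventually_ge_atTop N] with n hn
  exact (hp.2 (u N)).1 _ (hb n hn) _ hy

theorem uc_simplyConnected (h : LocK S ε) (m₀ : M) :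
    letI := ucMetric f h m₀
    SimplyConnectedSpace (UCover M m₀) := by
  letI := ucMetric f h m₀
  have cov := (uc_ballIso f h m₀).isCoveringMap
  have hfst : Continuous fun x : UCover M m₀ => x.1 := by
    have := f.symm.continuous.comp cov.continuous
    simpa [Function.comp_def] using this
  rw [simply_connected_iff_paths_homotopic]
  refine ⟨⟨⟨ubase m₀⟩, fun x y => ?_⟩, fun x y => ⟨?_⟩⟩
  · obtain ⟨a, ha⟩ := uc_exists_path x y
    exact ⟨ucPath f h a ha⟩
  · have key : ∀ g : Path x y, x.2.trans (Homotopic.Quotient.mk (g.map hfst)) = y.2 := by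
      intro g
      have e : ucLift x (g.map hfst) = g :=
        cov.eq_of_comp_eq (ucLift_continuous f h x _) g.continuous rfl 0
          (by rw [ucLift_zero, g.source])
      have e1 := congrFun e 1
      rw [ucLift_one, g.target] at e1
      exact uc_snd_eq e1
    intro g g'
    apply cov.injective_path_homotopic_map x y
    induction g using Homotopic.Quotient.ind with | mk g =>
    induction g' using Homotopic.Quotient.ind with | mk g' =>
    have e := uc_cancel ((key g).trans (key g').symm)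
    exact congrArg (fun q => Homotopic.Quotient.map q (f : C(M, S))) e

end Local

/-- The universal cover with the lifted length metric. -/
theorem ucover_space {M S : Type} [TopologicalSpace M] [MetricSpace S] [CompactSpace S]
    [ConnectedSpace S] (f : M ≃ₜ S) {ε : ℝ} (h : LocK S ε) (m₀ : M) :
    ∃ _ : MetricSpace (UCover M m₀), (∀ x y : UCover M m₀, edist x y = ulen f x y) ∧
      CompleteSpace (UCover M m₀) ∧ SimplyConnectedSpace (UCover M m₀) ∧ IsLen (UCover M m₀) ∧
      ∃ δ, BallIso (fun x : UCover M m₀ => f x.1) δ :=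
  letI := ucMetric f h m₀
  ⟨this, fun _ _ => rfl, uc_complete_of_ballIso (uc_ballIso f h m₀), uc_simplyConnected f h m₀,
    uc_isLen f h m₀, _, uc_ballIso f h m₀⟩

end Pool.Agent.MP_39b1da_gt

end

section

set_option autoImplicit false

namespace Pool.Agent.MP_39b1da_gt

open Filter Topology Set Real
open scoped ENNReal NNReal ContDiff InnerProductSpace

theorem QR_cosh_le {x : ℝ} (hx : 0 ≤ x) : cosh x ≤ 1 + sinh x := by
  have h := cosh_sub_sinh x
  have h2 : exp (-x) ≤ 1 := exp_le_one_iff.2 (by linarith)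
  linarith

theorem QR_exp_mul_sinh_le {t u : ℝ} (hu : 0 ≤ u) : exp u * sinh t ≤ sinh (t + u) := by
  rw [sinh_add, ← cosh_add_sinh u]
  have h1 : sinh t ≤ cosh t := (sinh_lt_cosh t).le
  have h2 : 0 ≤ sinh u := sinh_nonneg_iff.2 hu
  nlinarith

theorem QR_sinh_add_le {a b x : ℝ} (ha : 0 ≤ a) (hb : 0 ≤ b) (h1 : sinh a ≤ x) (h2 : sinh b ≤ x)
    (hx : x ≤ 1) : sinh (a + b) ≤ 4 * x := by
  rw [sinh_add]
  have h3 := QR_cosh_le ha
  have h4 := QR_cosh_le hb
  have h5 : 0 ≤ sinh a := sinh_nonneg_iff.2 ha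
  have h6 : 0 ≤ sinh b := sinh_nonneg_iff.2 hb
  have h7 : sinh a * cosh b ≤ x * 2 :=
    mul_le_mul h1 (by linarith) (cosh_pos b).le (by linarith)
  have h8 : cosh a * sinh b ≤ 2 * x :=
    mul_le_mul (by linarith) h2 h6 (by norm_num)
  linarith

section
variable {X : Type} [MetricSpace X] {o : X} {c c' c'' : ℝ → X}

theorem QR_dist_le (h : IsRay o c) (h' : IsRay o c') {s t : ℝ} (ht : 0 ≤ t) (hts : t ≤ s) :
    dist (c s) (c' s) ≤ dist (c t) (c' t) + 2 * (s - t) := by
  have h1 := h.2 s t (by linarith) ht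
  have h2 := h'.2 t s ht (by linarith)
  rw [abs_of_nonneg (by linarith)] at h1
  rw [abs_of_nonpos (by linarith)] at h2
  have := dist_triangle4 (c s) (c t) (c' t) (c' s)
  linarith

theorem QR_sinh_le (h : IsRay o c) (h' : IsRay o c') {s : ℝ} (hs : 0 < s) :
    sinh (dist (c s) (c' s) / 2) ≤ 1 * sinh s := by
  have h1 := QR_dist_le h h' le_rfl hs.le
  rw [h.1, h'.1, dist_self] at h1
  rw [one_mul]
  exact sinh_le_sinh.2 (by linarith)

theorem qr_ge (h : IsRay o c) (h' : IsRay o c') {s : ℝ} (hs : 0 < s) :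
    sinh (dist (c s) (c' s) / 2) ≤ qr c c' * sinh s := by
  have hb : BddAbove {r | ∃ s : ℝ, 0 < s ∧ r = sinh (dist (c s) (c' s) / 2) / sinh s} := by
    refine ⟨1, ?_⟩
    rintro r ⟨t, ht, rfl⟩
    exact (div_le_iff₀ (sinh_pos_iff.2 ht)).2 (QR_sinh_le h h' ht)
  exact (div_le_iff₀ (sinh_pos_iff.2 hs)).1 (le_csSup hb ⟨s, hs, rfl⟩)

theorem qr_le {r : ℝ} (hr : ∀ s, 0 < s → sinh (dist (c s) (c' s) / 2) ≤ r * sinh s) :
    qr c c' ≤ r := by
  refine csSup_le ⟨_, 1, one_pos, rfl⟩ ?_
  rintro r ⟨t, ht, rfl⟩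
  exact (div_le_iff₀ (sinh_pos_iff.2 ht)).2 (hr t ht)

theorem qr_nonneg (h : IsRay o c) (h' : IsRay o c') : 0 ≤ qr c c' := by
  have h1 := qr_ge h h' one_pos
  have h2 : 0 ≤ sinh (dist (c 1) (c' 1) / 2) := sinh_nonneg_iff.2 (by positivity)
  have h3 : 0 < sinh (1 : ℝ) := sinh_pos_iff.2 one_pos
  exact nonneg_of_mul_nonneg_left (h2.trans h1) h3

theorem qr_le_one (h : IsRay o c) (h' : IsRay o c') : qr c c' ≤ 1 :=
  qr_le fun _ hs => QR_sinh_le h h' hs

theorem qr_self (c : ℝ → X) : qr c c = 0 := by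
  have : {r | ∃ s : ℝ, 0 < s ∧ r = sinh (dist (c s) (c s) / 2) / sinh s} = {0} := by
    ext r
    simp only [dist_self, zero_div, sinh_zero, mem_ofPred_eq, mem_singleton_iff]
    exact ⟨fun ⟨_, _, h⟩ => h, fun h => ⟨1, one_pos, h⟩⟩
  rw [qr, this, csSup_singleton]

theorem qr_comm (c c' : ℝ → X) : qr c c' = qr c' c := by
  simp only [qr, dist_comm]

theorem qr_tri (h : IsRay o c) (h' : IsRay o c') (h'' : IsRay o c'') :
    qr c c'' ≤ 10 * max (qr c c') (qr c' c'') := by
  set r := max (qr c c') (qr c' c'') with hr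
  have hr0 : 0 ≤ r := (qr_nonneg h h').trans (le_max_left _ _)
  have key : ∀ s, 0 < s → r * sinh s ≤ 1 →
      sinh (dist (c s) (c'' s) / 2) ≤ 4 * (r * sinh s) := by
    intro s hs h1
    have hp : 0 ≤ sinh s := (sinh_pos_iff.2 hs).le
    have a1 := (qr_ge h h' hs).trans (mul_le_mul_of_nonneg_right (le_max_left _ (qr c' c'')) hp)
    have a2 := (qr_ge h' h'' hs).trans (mul_le_mul_of_nonneg_right (le_max_right (qr c c') _) hp)
    refine le_trans (sinh_le_sinh.2 ?_)
      (QR_sinh_add_le (by positivity) (by positivity) a1 a2 h1)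
    have := dist_triangle (c s) (c' s) (c'' s)
    linarith
  refine qr_le fun s hs => ?_
  have hp : 0 < sinh s := sinh_pos_iff.2 hs
  by_cases h1 : r * sinh s ≤ 1
  · have := key s hs h1
    have h2 : 0 ≤ r * sinh s := by positivity
    linarith
  · push Not at h1
    have hr1 : 0 < r := by
      rcases hr0.lt_or_eq with h2 | h2
      · exact h2
      · rw [← h2] at h1; linarith
    obtain ⟨T, hT⟩ : ∃ T, sinh T = r⁻¹ := ⟨arsinh r⁻¹, sinh_arsinh _⟩
    have hT0 : 0 < T := sinh_pos_iff.1 (by rw [hT]; positivity)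
    have hT1 : r * sinh T = 1 := by rw [hT]; field_simp
    have hTs : T ≤ s := sinh_le_sinh.1 (le_of_mul_le_mul_left (by linarith) hr1)
    have b1 := key T hT0 hT1.le
    rw [hT1] at b1
    have b2 := QR_dist_le h h'' hT0.le hTs
    set D := dist (c T) (c'' T) / 2 with hD
    have hD0 : 0 ≤ D := by positivity
    have b3 : exp D ≤ 9 := by
      have := QR_cosh_le hD0
      rw [← cosh_add_sinh]; linarith
    have b4 : sinh (dist (c s) (c'' s) / 2) ≤ exp (D + (s - T)) := by
      have e1 : sinh (dist (c s) (c'' s) / 2) ≤ sinh (D + (s - T)) :=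
        sinh_le_sinh.2 (by linarith)
      have e2 := cosh_add_sinh (D + (s - T))
      have e3 := cosh_pos (D + (s - T))
      linarith
    have b5 := QR_exp_mul_sinh_le (t := T) (u := s - T) (by linarith)
    rw [add_sub_cancel] at b5
    have b6 : exp (s - T) ≤ r * sinh s := by
      have := mul_le_mul_of_nonneg_left b5 hr0
      calc exp (s - T) = exp (s - T) * (r * sinh T) := by rw [hT1, mul_one]
        _ = r * (exp (s - T) * sinh T) := by ring
        _ ≤ _ := this
    rw [exp_add] at b4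
    have b7 : exp D * exp (s - T) ≤ 9 * (r * sinh s) :=
      mul_le_mul b3 b6 (exp_pos _).le (by norm_num)
    linarith

theorem qr_le_exp (h : IsRay o c) (h' : IsRay o c') {T : ℝ}
    (e : ∀ t, 0 ≤ t → t ≤ T → c t = c' t) : qr c c' ≤ exp (-T) := by
  rcases le_total T 0 with hT | hT
  · exact (qr_le_one h h').trans (one_le_exp (by linarith))
  refine qr_le fun s hs => ?_
  have hp : 0 < sinh s := sinh_pos_iff.2 hs
  rcases le_total s T with h1 | h1
  · rw [e s hs.le h1, dist_self, zero_div, sinh_zero]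
    positivity
  · have b2 := QR_dist_le h h' hT h1
    rw [e T hT le_rfl, dist_self] at b2
    have b5 := QR_exp_mul_sinh_le (t := s - T) hT
    rw [sub_add_cancel] at b5
    have b6 : sinh (dist (c s) (c' s) / 2) ≤ sinh (s - T) := sinh_le_sinh.2 (by linarith)
    have b7 : exp (-T) * exp T = 1 := by rw [← exp_add]; simp
    calc _ ≤ sinh (s - T) := b6
      _ = exp (-T) * (exp T * sinh (s - T)) := by rw [← mul_assoc, b7, one_mul]
      _ ≤ _ := mul_le_mul_of_nonneg_left b5 (exp_pos _).le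

end

end Pool.Agent.MP_39b1da_gt

end

section

set_option autoImplicit false

namespace Pool.Agent.MP_39b1da_gt

open Filter Topology Set Real
open scoped ENNReal NNReal ContDiff InnerProductSpace

open MeasureTheory in
/-- A space of small dimension has countable covers with small sums of powers of diameters. -/
lemma pansu_cover {Z : Type} [MetricSpace Z] {Q : ℝ} (hQ : 0 < Q)
    (h : dimH (univ : Set Z) < ENNReal.ofReal Q) {η : ℝ≥0∞} (hη : 0 < η) :
    ∃ t : ℕ → Set Z, (∀ z, ∃ n, z ∈ t n) ∧ (∀ n, Metric.ediam (t n) ≤ 1) ∧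
      ∑' n, Metric.ediam (t n) ^ Q ≤ η := by
  borelize Z
  have h0 : Measure.hausdorffMeasure (Q.toNNReal : ℝ) (univ : Set Z) = 0 :=
    hausdorffMeasure_of_dimH_lt h
  rw [Real.coe_toNNReal Q hQ.le, Measure.hausdorffMeasure_apply] at h0
  simp only [ENNReal.iSup_eq_zero] at h0
  have h1 := (h0 1 one_pos).trans_lt hη
  simp only [iInf_lt_iff] at h1
  obtain ⟨t, h2, h3, h4⟩ := h1
  refine ⟨t, fun z => mem_iUnion.1 (h2 (mem_univ z)), h3, le_trans ?_ h4.le⟩
  refine ENNReal.tsum_le_tsum fun n => ?_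
  rcases (t n).eq_empty_or_nonempty with he | he
  · simp [he, hQ]
  · exact le_iSup (fun _ : (t n).Nonempty => Metric.ediam (t n) ^ Q) he

open MeasureTheory in
lemma pansu_holder {p s : ℝ} (h : p.HolderConjugate s) (x y : ℕ → ℝ≥0∞) :
    ∑' n, x n * y n ≤ (∑' n, x n ^ p) ^ (1 / p) * (∑' n, y n ^ s) ^ (1 / s) := by
  have := ENNReal.lintegral_mul_le_Lp_mul_Lq (Measure.count : Measure ℕ) h
    (f := x) (g := y) (measurable_from_nat).aemeasurable (measurable_from_nat).aemeasurable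
  simpa only [lintegral_count, Pi.mul_apply] using this

/-- The covering step: a disjoint subfamily of quasi-balls whose enlargements cover. -/
lemma pansu_vitali {Ω Z : Type} [Nonempty Ω] [MetricSpace Z] (Φ : Ω × ℝ → Z)
    (q : Ω × ℝ → Ω × ℝ → ℝ) {K₀ : ℝ}
    (q0 : ∀ a b, 0 ≤ q a b) (q1 : ∀ a b, q a b ≤ 1) (qs : ∀ a, q a a = 0)
    (qc : ∀ a b, q a b = q b a) (qt : ∀ a b c, q a c ≤ K₀ * max (q a b) (q b c))
    (hqs : ∀ K : ℝ, ∃ H : ℝ, ∀ a b c, q a b ≤ K * q a c → dist (Φ a) (Φ b) ≤ H * dist (Φ a) (Φ c)) :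
    ∃ K H : ℝ, 0 ≤ H ∧ ∀ t : ℕ → Set Z, (∀ z, ∃ n, z ∈ t n) → (∀ n, Metric.ediam (t n) ≤ 1) →
      ∃ (a : ℕ → Ω × ℝ) (r : ℕ → ℝ) (u : Set ℕ),
        (∀ j ∈ u, (a j).2 ∈ Icc (0 : ℝ) 1 ∧ 0 < r j ∧ r j ≤ 1) ∧
        (u.PairwiseDisjoint fun j => {b : Ω × ℝ | b.2 ∈ Icc (0 : ℝ) 1 ∧ q (a j) b ≤ r j}) ∧
        ∀ b : Ω × ℝ, b.2 ∈ Icc (0 : ℝ) 1 → (∃ i, Φ b = Φ (a i)) ∨
          ∃ j ∈ u, q (a j) b ≤ K * r j ∧
            dist (Φ (a j)) (Φ b) ≤ H * (Metric.ediam (t j)).toReal := by
  obtain ⟨K1, hK1⟩ : ∃ K1, K1 = max K₀ 1 := ⟨_, rfl⟩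
  have hK11 : 1 ≤ K1 := hK1 ▸ le_max_right _ _
  have qt' : ∀ a b c (m : ℝ), q a b ≤ m → q b c ≤ m → q a c ≤ K1 * m := by
    intro a b c m h1 h2
    refine (qt a b c).trans (mul_le_mul (hK1 ▸ le_max_left _ _) (max_le h1 h2) ?_ (by linarith))
    exact le_max_of_le_left (q0 a b)
  obtain ⟨H0, hH0⟩ := hqs 0
  obtain ⟨H, hH⟩ := hqs (2 * (2 * K1 ^ 2))
  refine ⟨2 * K1 ^ 2, max H 0, le_max_right _ _, fun t ht hdiam => ?_⟩
  set P : ℕ → Set (Ω × ℝ) := fun n => {b | b.2 ∈ Icc (0 : ℝ) 1 ∧ Φ b ∈ t n} with hP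
  choose! a ha using fun n (h : (P n).Nonempty) => h
  set r : ℕ → ℝ := fun n => sSup (q (a n) '' P n) with hr
  have hbdd : ∀ n, BddAbove (q (a n) '' P n) := fun n => ⟨1, by
    rintro _ ⟨b, -, rfl⟩; exact q1 _ _⟩
  have hle : ∀ n, ∀ b ∈ P n, q (a n) b ≤ r n := fun n b hb => le_csSup (hbdd n) ⟨b, hb, rfl⟩
  have hr1 : ∀ n, (P n).Nonempty → r n ≤ 1 := fun n hn => csSup_le (hn.image _) (by
    rintro _ ⟨b, -, rfl⟩; exact q1 _ _)
  obtain ⟨u, hu, hdisj, hcov⟩ := Vitali.exists_disjoint_subfamily_covering_enlargement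
    (fun j => {b : Ω × ℝ | b.2 ∈ Icc (0 : ℝ) 1 ∧ q (a j) b ≤ r j})
    {n | (P n).Nonempty ∧ 0 < r n} r 2 one_lt_two (fun n hn => hn.2.le) 1
    (fun n hn => hr1 n hn.1)
    (fun n hn => ⟨a n, (ha n hn.1).1, by rw [qs]; exact hn.2.le⟩)
  refine ⟨a, r, u, fun j hj => ⟨(ha j (hu hj).1).1, (hu hj).2, hr1 j (hu hj).1⟩, hdisj,
    fun b hb => ?_⟩
  obtain ⟨i, hi⟩ := ht (Φ b)
  have hbP : b ∈ P i := ⟨hb, hi⟩
  by_cases hri : 0 < r i
  · right
    obtain ⟨j, hj, ⟨x, hxi, hxj⟩, hij⟩ := hcov i ⟨⟨b, hbP⟩, hri⟩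
    have hrj : 0 < r j := (hu hj).2
    have h1 : q x b ≤ K1 * r i := qt' x (a i) b _ (by rw [qc]; exact hxi.2) (hle i b hbP)
    have h2 : K1 * r i ≤ K1 * (2 * r j) := mul_le_mul_of_nonneg_left hij (by linarith)
    have h3 : r j ≤ K1 * (2 * r j) := by nlinarith
    have h4 : q (a j) b ≤ 2 * K1 ^ 2 * r j := by
      have := qt' (a j) x b _ (hxj.2.trans h3) (h1.trans h2)
      linarith
    refine ⟨j, hj, h4, ?_⟩
    obtain ⟨_, ⟨c, hc, rfl⟩, hc2⟩ := exists_lt_of_lt_csSup ((hu hj).1.image (q (a j)))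
      (show r j / 2 < sSup (q (a j) '' P j) from half_lt_self hrj)
    have h5 : q (a j) b ≤ 2 * (2 * K1 ^ 2) * q (a j) c := by
      have : 2 * K1 ^ 2 * r j ≤ 2 * K1 ^ 2 * (2 * q (a j) c) :=
        mul_le_mul_of_nonneg_left (by linarith) (by positivity)
      linarith
    have h6 : dist (Φ (a j)) (Φ c) ≤ (Metric.ediam (t j)).toReal := by
      rw [dist_edist]
      exact ENNReal.toReal_mono (ne_top_of_le_ne_top ENNReal.one_ne_top (hdiam j))
        (Metric.edist_le_ediam_of_mem (ha j (hu hj).1).2 hc.2)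
    exact (hH _ _ _ h5).trans (mul_le_mul (le_max_left _ _) h6 dist_nonneg (le_max_right _ _))
  · left
    have h1 : q (a i) b ≤ 0 * q (a i) (a i) := by
      have := hle i b hbP
      linarith [not_lt.1 hri]
    have h2 := hH0 _ _ _ h1
    rw [dist_self, mul_zero] at h2
    exact ⟨i, (dist_le_zero.1 h2).symm⟩

open MeasureTheory in
/-- The Pansu-Bourdon lower bound. -/
theorem pansu {Ω Z : Type} [MeasurableSpace Ω] (μ : Measure Ω) [IsProbabilityMeasure μ]
    [MetricSpace Z] (Φ : Ω × ℝ → Z) (q : Ω × ℝ → Ω × ℝ → ℝ) {K₀ s c₀ : ℝ} (hs : 1 < s)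
    (q0 : ∀ a b, 0 ≤ q a b) (q1 : ∀ a b, q a b ≤ 1) (qs : ∀ a, q a a = 0)
    (qc : ∀ a b, q a b = q b a) (qt : ∀ a b c, q a c ≤ K₀ * max (q a b) (q b c))
    (hqs : ∀ K : ℝ, ∃ H : ℝ, ∀ a b c, q a b ≤ K * q a c → dist (Φ a) (Φ b) ≤ H * dist (Φ a) (Φ c))
    (hc : ∀ w, Continuous fun θ : ℝ => Φ (w, θ)) (hc₀ : 0 < c₀)
    (hd : ∀ w, c₀ ≤ dist (Φ (w, 0)) (Φ (w, 1))) (hr : Regular μ q s) :
    ENNReal.ofReal (s / (s - 1)) ≤ dimH (univ : Set Z) := by
  classical
  by_contra hlt
  rw [not_le] at hlt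
  have : Nonempty Ω := nonempty_of_isProbabilityMeasure μ
  have hconj : (s / (s - 1)).HolderConjugate s := (Real.HolderConjugate.conjExponent hs).symm
  obtain ⟨Q, hQd⟩ : ∃ Q, Q = s / (s - 1) := ⟨_, rfl⟩
  rw [← hQd] at hlt hconj
  have hQ : 0 < Q := hconj.pos
  have hs0 : 0 < s := by linarith
  obtain ⟨K, H, hH, hvit⟩ := pansu_vitali Φ q q0 q1 qs qc qt hqs
  obtain ⟨C, hC⟩ := hr K
  have hM : ENNReal.ofReal (2 * H) * (C : ℝ≥0∞) ^ (1 / s) ≠ ⊤ :=
    ENNReal.mul_ne_top ENNReal.ofReal_ne_top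
      (ENNReal.rpow_ne_top_of_nonneg (by positivity) ENNReal.coe_ne_top)
  obtain ⟨ε, hε, hεlt⟩ := ENNReal.exists_nnreal_pos_mul_lt hM
    (show ENNReal.ofReal c₀ ≠ 0 by simpa using hc₀)
  obtain ⟨t, ht, hdiam, hsum⟩ := pansu_cover hQ hlt (η := (ε : ℝ≥0∞) ^ Q)
    (ENNReal.rpow_pos (by exact_mod_cast hε) ENNReal.coe_ne_top)
  obtain ⟨a, r, u, hu, hdisj, hcov⟩ := hvit t ht hdiam
  have hAR : ∀ j, ∃ (A : Set Ω) (R : Set (Ω × ℝ)), MeasurableSet A ∧ MeasurableSet R ∧
      (j ∈ u → ∀ b : Ω × ℝ, b.2 ∈ Icc (0 : ℝ) 1 → q (a j) b ≤ K * r j → b.1 ∈ A) ∧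
      (∀ b ∈ R, j ∈ u ∧ b.2 ∈ Icc (0 : ℝ) 1 ∧ q (a j) b ≤ r j) ∧
      μ A ^ s ≤ C * (μ.prod volume) R := by
    intro j
    by_cases hj : j ∈ u
    · obtain ⟨A, R, h1, h2, h3, h4, h5⟩ := hC (a j) (hu j hj).1 (r j) (hu j hj).2.1 (hu j hj).2.2
      exact ⟨A, R, h1, h2, fun _ => h3, fun b hb => ⟨hj, h4 b hb⟩, h5⟩
    · exact ⟨∅, ∅, MeasurableSet.empty, MeasurableSet.empty, fun h => absurd h hj, by simp,
        by simp [hs0]⟩
  choose A R hA hR hA2 hR2 hAR using hAR
  have hfin : ∀ j, Metric.ediam (t j) ≠ ⊤ := fun j =>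
    ne_top_of_le_ne_top ENNReal.one_ne_top (hdiam j)
  have key : ∀ w, ENNReal.ofReal c₀ ≤
      ∑' j, (A j).indicator (fun _ => ENNReal.ofReal (2 * H) * Metric.ediam (t j)) w := by
    intro w
    have hf : Continuous fun θ : ℝ => dist (Φ (w, 0)) (Φ (w, θ)) := continuous_const.dist (hc w)
    have hsub : Icc 0 c₀ ⊆ (range fun i => dist (Φ (w, 0)) (Φ (a i))) ∪
        ⋃ j, {y | w ∈ A j ∧ y ∈ Metric.closedBall (dist (Φ (w, 0)) (Φ (a j)))
          (H * (Metric.ediam (t j)).toReal)} := by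
      intro y hy
      have h1 := intermediate_value_Icc (zero_le_one' ℝ) hf.continuousOn
      obtain ⟨θ, hθ, rfl⟩ := h1 (show y ∈ Icc _ _ from ⟨by simpa using hy.1, hy.2.trans (hd w)⟩)
      rcases hcov (w, θ) hθ with ⟨i, hi⟩ | ⟨j, hj, h2, h3⟩
      · exact Or.inl ⟨i, by simp only [hi]⟩
      · refine Or.inr (mem_iUnion.2 ⟨j, hA2 j hj (w, θ) hθ h2, ?_⟩)
        rw [Metric.mem_closedBall]
        refine le_trans ?_ h3
        rw [dist_comm (Φ (a j))]
        exact dist_dist_dist_le_right _ _ _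
    have h2 := measure_mono (μ := volume) hsub
    rw [Real.volume_Icc, sub_zero] at h2
    refine h2.trans ((measure_union_le _ _).trans ?_)
    rw [(countable_range _).measure_zero, zero_add]
    refine (measure_iUnion_le _).trans (ENNReal.tsum_le_tsum fun j => ?_)
    by_cases hw : w ∈ A j
    · simp only [hw, true_and, indicator_of_mem, ofPred_mem_eq, Real.volume_closedBall]
      rw [← mul_assoc, ENNReal.ofReal_mul (by positivity), ENNReal.ofReal_toReal (hfin j)]
    · simp [hw]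
  have h1 : ENNReal.ofReal c₀ ≤ ∑' j, ENNReal.ofReal (2 * H) * Metric.ediam (t j) * μ (A j) := by
    have h2 := lintegral_mono (μ := μ) key
    rw [lintegral_const, measure_univ, mul_one,
      lintegral_tsum fun j => (measurable_const.indicator (hA j)).aemeasurable] at h2
    simpa only [lintegral_indicator_const (hA _)] using h2
  have h2 : ∑' j, μ (A j) ^ s ≤ C := by
    refine (ENNReal.tsum_le_tsum hAR).trans ?_
    have hd2 : Pairwise (Function.onFun Disjoint R) := by
      intro i j hij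
      rw [Function.onFun, Set.disjoint_left]
      intro b hbi hbj
      exact Set.disjoint_left.1 (hdisj (hR2 i b hbi).1 (hR2 j b hbj).1 hij) (hR2 i b hbi).2
        (hR2 j b hbj).2
    rw [ENNReal.tsum_mul_left, ← measure_iUnion hd2 hR]
    have h3 : (⋃ j, R j) ⊆ (univ : Set Ω) ×ˢ Icc (0 : ℝ) 1 := by
      intro b hb
      obtain ⟨j, hj⟩ := mem_iUnion.1 hb
      exact ⟨mem_univ _, (hR2 j b hj).2.1⟩
    have h4 := measure_mono (μ := μ.prod volume) h3
    rw [Measure.prod_prod, measure_univ, Real.volume_Icc, sub_zero, ENNReal.ofReal_one,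
      mul_one] at h4
    exact mul_le_of_le_one_right' h4
  have h3 := pansu_holder hconj (fun j => Metric.ediam (t j)) fun j => μ (A j)
  have h4 : (∑' j, Metric.ediam (t j) ^ Q) ^ (1 / Q) ≤ ε := by
    refine (ENNReal.rpow_le_rpow hsum (by positivity)).trans ?_
    rw [← ENNReal.rpow_mul, mul_one_div_cancel hQ.ne', ENNReal.rpow_one]
  have h5 : (∑' j, μ (A j) ^ s) ^ (1 / s) ≤ (C : ℝ≥0∞) ^ (1 / s) :=
    ENNReal.rpow_le_rpow h2 (by positivity)
  simp only [mul_assoc] at h1
  rw [ENNReal.tsum_mul_left] at h1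
  have h6 : ENNReal.ofReal c₀ ≤ ε * (ENNReal.ofReal (2 * H) * (C : ℝ≥0∞) ^ (1 / s)) := by
    refine h1.trans ?_
    rw [mul_left_comm]
    exact mul_le_mul_right (h3.trans (mul_le_mul' h4 h5)) _
  exact hεlt.not_ge h6

end Pool.Agent.MP_39b1da_gt

end

section

set_option autoImplicit false

namespace Pool.Agent.MP_39b1da_gt

open Filter Topology Set Real
open scoped ENNReal NNReal ContDiff InnerProductSpace

section
variable {M N : Type} [TopologicalSpace M] [MetricSpace N]

/-- The pulled back length distance. -/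
noncomputable def singD (pj : M → N) (x y : M) : ℝ≥0∞ :=
  ⨅ a : Path x y, eVariationOn (pj ∘ a) univ

theorem singD_le (pj : M → N) {x y : M} (a : Path x y) :
    singD pj x y ≤ eVariationOn (pj ∘ a) univ := iInf_le _ a

theorem singD_self (pj : M → N) (x : M) : singD pj x x = 0 := by
  refine le_antisymm ((singD_le pj (Path.refl x)).trans (le_of_eq ?_)) bot_le
  refine eVariationOn.constant_on ?_
  rintro _ ⟨s, _, rfl⟩ _ ⟨t, _, rfl⟩
  simp

theorem singD_comm (pj : M → N) (x y : M) : singD pj x y = singD pj y x := by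
  have : ∀ x y : M, singD pj x y ≤ singD pj y x := fun x y =>
    le_iInf fun a => (singD_le pj a.symm).trans (eVariationOn_symm pj a).le
  exact le_antisymm (this x y) (this y x)

theorem singD_tri (pj : M → N) (x y z : M) : singD pj x z ≤ singD pj x y + singD pj y z :=
  ENNReal.le_iInf_add_iInf fun a b => (singD_le pj (a.trans b)).trans (eVariationOn_trans pj a b).le

theorem edist_le_singD (pj : M → N) (x y : M) : edist (pj x) (pj y) ≤ singD pj x y :=
  le_iInf fun a => by
    simpa using eVariationOn.edist_le (pj ∘ a) (mem_univ (0 : unitInterval)) (mem_univ 1)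

theorem singD_chart_le (pj : M → N) {Z : Type} [MetricSpace Z] (e : OpenPartialHomeomorph M Z)
    (hK : GlobK Z)
    (hlip : ∀ z ∈ e.target, ∀ z' ∈ e.target, dist (pj (e.symm z)) (pj (e.symm z')) ≤ dist z z')
    {z0 : Z} {r : ℝ} (hr : Metric.ball z0 (3 * r) ⊆ e.target) {z z' : Z}
    (hz : z ∈ Metric.ball z0 r) (hz' : z' ∈ Metric.ball z0 r) :
    singD pj (e.symm z) (e.symm z') ≤ edist z z' := by
  obtain ⟨c, hc, hc'⟩ := (hK.locK (ε := dist z z' + 1) (by positivity)).exists_path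
    (y := z) (z := z') (by linarith)
  have hct : ∀ t, c t ∈ e.target := by
    intro t
    refine hr ?_
    have h1 := hc 0 t
    rw [c.source] at h1
    have h2 : |((0 : unitInterval) : ℝ) - t| ≤ 1 := by
      have := t.2.1; have := t.2.2
      rw [abs_le]; constructor <;> simp <;> linarith
    have h3 : dist z (c t) ≤ dist z z' := by
      rw [h1]; exact mul_le_of_le_one_left dist_nonneg h2
    have h4 := dist_triangle_right z z' z0
    have h5 := dist_triangle_left (c t) z0 z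
    rw [Metric.mem_ball] at *
    linarith
  let a : Path (e.symm z) (e.symm z') :=
    { toFun := fun t => e.symm (c t)
      continuous_toFun := e.continuousOn_symm.comp_continuous c.continuous hct
      source' := by simp
      target' := by simp }
  refine (singD_le pj a).trans ?_
  have hL : LipschitzOnWith 1 (fun w => pj (e.symm w)) e.target :=
    LipschitzOnWith.of_dist_le_mul fun w hw w' hw' => by simpa using hlip w hw w' hw'
  have := hL.comp_eVariationOn_le (g := c) (s := univ) (fun t _ => hct t)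
  rw [hc', ENNReal.coe_one, one_mul] at this
  exact this

theorem singD_chart_ge [T2Space M] (pj : M → N) {Z : Type} [MetricSpace Z]
    (e : OpenPartialHomeomorph M Z)
    (hiso : ∀ z ∈ e.target, ∀ᶠ z' in 𝓝 z, dist (pj (e.symm z)) (pj (e.symm z')) = dist z z')
    {z0 : Z} {r : ℝ} (hr : Metric.ball z0 (3 * r) ⊆ e.target)
    (hcpt : IsCompact (Metric.closedBall z0 (2 * r))) {z : Z}
    (hz : z ∈ Metric.ball z0 r) {y : M} (hy : singD pj (e.symm z) y < ENNReal.ofReal r) :
    y ∈ e.source ∧ edist z (e y) ≤ singD pj (e.symm z) y := by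
  classical
  have hr0 : 0 < r := Metric.pos_of_mem_ball hz
  have hsub : Metric.closedBall z0 (2 * r) ⊆ Metric.ball z0 (3 * r) :=
    Metric.closedBall_subset_ball (by linarith)
  let K : Set M := e.symm '' Metric.closedBall z0 (2 * r)
  have hK : IsClosed K := (hcpt.image_of_continuousOn
    (e.continuousOn_symm.mono (hsub.trans hr))).isClosed
  let φ : M → ℝ := fun m => if m ∈ K then min (dist z (e m)) r else r
  have hKs : ∀ m ∈ K, m ∈ e.source ∧ e m ∈ Metric.closedBall z0 (2 * r) := by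
    rintro _ ⟨w, hw, rfl⟩
    have := hr (hsub hw)
    exact ⟨e.map_target this, by rwa [e.right_inv this]⟩
  have hφ : ∀ m ∈ e.source, φ m = min (dist z (e m)) r := by
    intro m hm
    simp only [φ]
    split_ifs with h
    · rfl
    · have h1 : e m ∉ Metric.closedBall z0 (2 * r) := fun h' => h ⟨e m, h', e.left_inv hm⟩
      rw [Metric.mem_closedBall, not_le] at h1
      have h2 := dist_triangle_left (e m) z0 z
      rw [Metric.mem_ball] at hz
      exact (min_eq_right (by linarith)).symm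
  have hloc : ∀ m : M, ∀ᶠ m' in 𝓝 m, edist (φ m) (φ m') ≤ edist (pj m) (pj m') := by
    intro m
    by_cases hm : m ∈ e.source
    · have h1 := (e.continuousAt hm).eventually (hiso (e m) (e.map_source hm))
      filter_upwards [h1, e.open_source.mem_nhds hm] with m' h2 h3
      rw [e.left_inv hm, e.left_inv h3] at h2
      rw [edist_dist, edist_dist, h2, hφ m hm, hφ m' h3]
      refine ENNReal.ofReal_le_ofReal ?_
      rw [Real.dist_eq]
      refine (abs_min_sub_min_le_max _ _ _ _).trans (max_le ?_ (by simp))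
      rw [dist_comm z, dist_comm z]
      exact abs_dist_sub_le _ _ _
    · have h1 : m ∉ K := fun h => hm (hKs m h).1
      filter_upwards [hK.isOpen_compl.mem_nhds h1] with m' h2
      have h3 : m' ∉ K := h2
      simp [φ, h1, h3]
  have hzt : z ∈ e.target := hr (Metric.ball_subset_ball (by linarith) hz)
  have h0 : φ (e.symm z) = 0 := by
    rw [hφ _ (e.map_target hzt), e.right_inv hzt, dist_self]
    exact min_eq_left hr0.le
  have hmain : edist (0 : ℝ) (φ y) ≤ singD pj (e.symm z) y := by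
    refine le_iInf fun a => ?_
    have := edist_le_var (φ ∘ a) (pj ∘ a)
      (fun t => (a.continuous.tendsto t).eventually (hloc (a t)))
    simpa [h0] using this
  have hφ0 : 0 ≤ φ y := by
    simp only [φ]; split_ifs
    · exact le_min dist_nonneg hr0.le
    · exact hr0.le
  rw [edist_dist, Real.dist_eq, zero_sub, abs_neg, abs_of_nonneg hφ0] at hmain
  have hlt : φ y < r := (ENNReal.ofReal_lt_ofReal_iff hr0).1 (hmain.trans_lt hy)
  have hyK : y ∈ K := by
    by_contra h
    simp [φ, h] at hlt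
  have hys := (hKs y hyK).1
  refine ⟨hys, ?_⟩
  rw [hφ y hys] at hlt hmain
  have : min (dist z (e y)) r = dist z (e y) := min_eq_left (by
    rcases min_lt_iff.1 hlt with h | h
    · exact h.le
    · exact absurd h (lt_irrefl _))
  rwa [this, ← edist_dist] at hmain

/-- The space with the pulled back length distance. -/
def SingS (_pj : M → N) : Type := M

noncomputable instance singPseudo (pj : M → N) : PseudoEMetricSpace (SingS pj) where
  edist := singD (M := M) pj
  edist_self := singD_self (M := M) pj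
  edist_comm := singD_comm (M := M) pj
  edist_triangle := singD_tri (M := M) pj

/-- The identity map. -/
def singTo (pj : M → N) : M ≃ SingS pj := Equiv.refl M

theorem edist_singTo (pj : M → N) (x y : M) : edist (singTo pj x) (singTo pj y) = singD pj x y :=
  rfl

end

/-- The length metric pulled back along `pj` on a space with singular local models. -/
theorem sing_metric {M N : Type} [TopologicalSpace M] [T2Space M] [CompactSpace M]
    [ConnectedSpace M] [MetricSpace N] (pj : M → N)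
    (hloc : ∀ x : M, ∃ (Z : Type) (_ : MetricSpace Z) (e : OpenPartialHomeomorph M Z),
      x ∈ e.source ∧ GlobK Z ∧ LocallyCompactSpace Z ∧
      (∀ z ∈ e.target, ∀ z' ∈ e.target, dist (pj (e.symm z)) (pj (e.symm z')) ≤ dist z z') ∧
      ∀ z ∈ e.target, ∀ᶠ z' in 𝓝 z, dist (pj (e.symm z)) (pj (e.symm z')) = dist z z') :
    ∃ (S : Type) (_ : MetricSpace S) (f : M ≃ₜ S) (ε : ℝ), LocK S ε ∧
      (∀ x y, dist (pj x) (pj y) ≤ dist (f x) (f y)) ∧
      ∀ (x y : M) (a : Path x y), edist (f x) (f y) ≤ eVariationOn (pj ∘ a) univ := by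
  have hloc' : ∀ x : M, ∃ (Z : Type) (_ : MetricSpace Z) (e : OpenPartialHomeomorph M Z) (r : ℝ),
      0 < r ∧ x ∈ e.source ∧ GlobK Z ∧ Metric.ball (e x) r ⊆ e.target ∧
      (∀ z ∈ Metric.ball (e x) r, ∀ z' ∈ Metric.ball (e x) r,
        singD pj (e.symm z) (e.symm z') = edist z z') ∧
      ∀ y, singD pj x y = 0 → y = x := by
    intro x
    obtain ⟨Z, _, e, hx, hK, hlc, hlip, hiso⟩ := hloc x
    obtain ⟨C, hC, hCt, hCc⟩ := local_compact_nhds (e.open_target.mem_nhds (e.map_source hx))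
    obtain ⟨ρ, hρ, hρC⟩ := Metric.mem_nhds_iff.1 hC
    have h1 : Metric.ball (e x) (3 * (ρ / 3)) ⊆ e.target := by
      rw [show 3 * (ρ / 3) = ρ by ring]; exact hρC.trans hCt
    have h2 : IsCompact (Metric.closedBall (e x) (2 * (ρ / 3))) :=
      hCc.of_isClosed_subset Metric.isClosed_closedBall
        ((Metric.closedBall_subset_ball (by linarith)).trans hρC)
    have h3 : Metric.ball (e x) (ρ / 6) ⊆ Metric.ball (e x) (ρ / 3) :=
      Metric.ball_subset_ball (by linarith)
    have h4 : Metric.ball (e x) (ρ / 6) ⊆ e.target :=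
      (Metric.ball_subset_ball (by linarith)).trans h1
    refine ⟨Z, inferInstance, e, ρ / 6, by linarith, hx, hK, h4, fun z hz z' hz' => ?_,
      fun y hy => ?_⟩
    · have h5 := singD_chart_le pj e hK hlip h1 (h3 hz) (h3 hz')
      refine le_antisymm h5 ?_
      have h6 : edist z z' < ENNReal.ofReal (ρ / 3) := by
        rw [edist_dist, ENNReal.ofReal_lt_ofReal_iff (by linarith)]
        have := dist_triangle_right z z' (e x)
        rw [Metric.mem_ball] at hz hz'
        linarith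
      have := (singD_chart_ge pj e hiso h1 h2 (h3 hz) (h5.trans_lt h6)).2
      rwa [e.right_inv (h4 hz')] at this
    · have := singD_chart_ge pj e hiso h1 h2 (z := e x) (Metric.mem_ball_self (by linarith))
        (y := y) (by rw [e.left_inv hx, hy]; simpa using hρ)
      rw [e.left_inv hx, hy, nonpos_iff_eq_zero, edist_eq_zero] at this
      exact (e.injOn hx this.1 this.2).symm
  choose Z mZ e r hr hx hK hball hD hsep using hloc'
  have hV : ∀ x, ∀ ρ, IsOpen ((e x).source ∩ e x ⁻¹' Metric.ball (e x x) ρ) := fun x ρ =>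
    (e x).isOpen_inter_preimage Metric.isOpen_ball
  have hDV : ∀ x, ∀ y ∈ (e x).source, e x y ∈ Metric.ball (e x x) (r x) →
      ∀ y' ∈ (e x).source, e x y' ∈ Metric.ball (e x x) (r x) →
      singD pj y y' = edist (e x y) (e x y') := by
    intro x y hy h1 y' hy' h2
    rw [← hD x _ h1 _ h2, (e x).left_inv hy, (e x).left_inv hy']
  have hcont : Continuous (singTo pj) := by
    refine continuous_iff_continuousAt.2 fun x => ?_
    rw [ContinuousAt, EMetric.tendsto_nhds]
    intro ε hε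
    have h1 := EMetric.tendsto_nhds.1 ((e x).continuousAt (hx x)) ε hε
    filter_upwards [h1, (hV x (r x)).mem_nhds ⟨hx x, Metric.mem_ball_self (hr x)⟩] with y h2 h3
    rw [edist_singTo, hDV x y h3.1 h3.2 x (hx x) (Metric.mem_ball_self (hr x))]
    exact h2
  let mE : EMetricSpace (SingS pj) :=
    { singPseudo pj with eq_of_edist_eq_zero := fun {x y} h => (hsep x y h).symm }
  have hfin : ∀ x y : SingS pj, edist x y ≠ ⊤ := by
    intro x y
    have : ConnectedSpace (SingS pj) := (singTo pj).surjective.connectedSpace hcont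
    have h1 : IsClopen (Metric.eball y ⊤) := ⟨Metric.isClosed_eball_top, Metric.isOpen_eball⟩
    have h2 := h1.eq_univ ⟨y, Metric.mem_eball_self (by simp)⟩
    have h3 : x ∈ Metric.eball y ⊤ := h2 ▸ mem_univ x
    exact (Metric.mem_eball.1 h3).ne
  let mS : MetricSpace (SingS pj) := EMetricSpace.toMetricSpace hfin
  let f : M ≃ₜ SingS pj := Continuous.homeoOfEquivCompactToT2 (f := singTo pj) hcont
  have hf : ∀ x y, edist (f x) (f y) = singD pj x y := fun x y => rfl
  have hdist : ∀ x, ∀ y ∈ (e x).source, e x y ∈ Metric.ball (e x x) (r x) →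
      ∀ y' ∈ (e x).source, e x y' ∈ Metric.ball (e x x) (r x) →
      dist (f y) (f y') = dist (e x y) (e x y') := by
    intro x y hy h1 y' hy' h2
    rw [dist_edist, dist_edist, hf, hDV x y hy h1 y' hy' h2]
  have : CompactSpace (SingS pj) := f.compactSpace
  obtain ⟨δ, hδ, hδ'⟩ := lebesgue_number_lemma_of_metric (s := (univ : Set (SingS pj)))
    (c := fun x : M => f '' ((e x).source ∩ e x ⁻¹' Metric.ball (e x x) (r x / 4)))
    isCompact_univ (fun x => f.isOpenMap _ (hV x _)) (fun p _ => by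
      obtain ⟨x, rfl⟩ := f.surjective p
      exact mem_iUnion.2 ⟨x, x, ⟨hx x, Metric.mem_ball_self (by linarith [hr x])⟩, rfl⟩)
  have hδ2 : ∀ p : M, ∃ x, ∀ y, dist (f p) (f y) < δ →
      y ∈ (e x).source ∧ e x y ∈ Metric.ball (e x x) (r x / 4) := by
    intro p
    obtain ⟨x, hx'⟩ := hδ' (f p) (mem_univ _)
    refine ⟨x, fun y hy => ?_⟩
    obtain ⟨y', hy', h⟩ := hx' (Metric.mem_ball'.2 hy)
    rwa [← f.injective h]
  have hsm : ∀ x, Metric.ball (e x x) (r x / 4) ⊆ Metric.ball (e x x) (r x) := fun x =>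
    Metric.ball_subset_ball (by linarith [hr x])
  refine ⟨SingS pj, mS, f, δ / 3, ⟨by linarith, fun y z hyz s hs hs' => ?_,
    fun p y w z h1 h2 hb => ?_⟩, fun x y => ?_, fun x y a => (hf x y).le.trans (singD_le pj a)⟩
  · obtain ⟨y, rfl⟩ := f.surjective y
    obtain ⟨z, rfl⟩ := f.surjective z
    obtain ⟨x, hx'⟩ := hδ2 y
    obtain ⟨hy1, hy2⟩ := hx' y (by simpa using hδ)
    obtain ⟨hz1, hz2⟩ := hx' z (by linarith)
    have hd := hdist x y hy1 (hsm x hy2) z hz1 (hsm x hz2)
    obtain ⟨w, hw1, hw2⟩ := (hK x).btw (e x y) (e x z) s hs (hd ▸ hs')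
    have hw : w ∈ Metric.ball (e x x) (r x) := by
      have h1 := dist_triangle_right (e x y) (e x z) (e x x)
      have h2 := dist_triangle_left w (e x x) (e x y)
      rw [Metric.mem_ball] at *
      linarith [hr x]
    have hwt := hball x hw
    have hw' : e x ((e x).symm w) ∈ Metric.ball (e x x) (r x) := by rwa [(e x).right_inv hwt]
    have e1 := hdist x y hy1 (hsm x hy2) _ ((e x).map_target hwt) hw'
    have e2 := hdist x _ ((e x).map_target hwt) hw' z hz1 (hsm x hz2)
    rw [(e x).right_inv hwt] at e1 e2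
    exact ⟨f ((e x).symm w), e1.trans hw1, by unfold Btw at *; rw [e1, e2, hd, hw2]⟩
  · obtain ⟨p, rfl⟩ := f.surjective p
    obtain ⟨y, rfl⟩ := f.surjective y
    obtain ⟨z, rfl⟩ := f.surjective z
    obtain ⟨w, rfl⟩ := f.surjective w
    obtain ⟨x, hx'⟩ := hδ2 p
    obtain ⟨hp1, hp2⟩ := hx' p (by simpa using hδ)
    obtain ⟨hy1, hy2⟩ := hx' y (by linarith)
    obtain ⟨hz1, hz2⟩ := hx' z (by linarith)
    obtain ⟨hw1, hw2⟩ := hx' w (by
      have h3 := dist_triangle_left (f y) (f z) (f p)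
      have h4 := dist_triangle (f p) (f y) (f w)
      have h5 := dist_nonneg (x := f w) (y := f z)
      unfold Btw at hb
      linarith)
    have hp3 := hsm x hp2
    have hy3 := hsm x hy2
    have hz3 := hsm x hz2
    have hw3 := hsm x hw2
    unfold Btw at hb
    unfold KIneq
    rw [hdist x y hy1 hy3 w hw1 hw3, hdist x w hw1 hw3 z hz1 hz3,
      hdist x y hy1 hy3 z hz1 hz3] at *
    rw [hdist x p hp1 hp3 w hw1 hw3, hdist x p hp1 hp3 y hy1 hy3, hdist x p hp1 hp3 z hz1 hz3]
    exact (hK x).k _ _ _ _ hb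
  · rw [dist_edist, dist_edist]
    exact ENNReal.toReal_mono (hfin _ _) (edist_le_singD pj x y)

end Pool.Agent.MP_39b1da_gt

end

section

set_option autoImplicit false

namespace Pool.Agent.MP_39b1da_gt

open Filter Topology Set Real
open scoped ENNReal NNReal ContDiff InnerProductSpace

open Manifold Bundle in
theorem isLen_of_riemannian (E : Type) [NormedAddCommGroup E] [NormedSpace ℝ E] (M : Type)
    [EMetricSpace M] [ChartedSpace E M] [RiemannianBundle (fun x : M => TangentSpace 𝓘(ℝ, E) x)]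
    (h : IsRiemannianManifold 𝓘(ℝ, E) M) : IsLen M := by
  intro x y r hr
  rw [h.out] at hr
  obtain ⟨γ, h0, h1, hs, hl⟩ := exists_lt_of_riemannianEDist_lt hr
  let a : Path x y :=
    ⟨⟨fun t => γ t, hs.continuousOn.comp_continuous continuous_subtype_val fun t => t.2⟩, h0, h1⟩
  refine ⟨a, lt_of_le_of_lt ?_ hl⟩
  unfold eVariationOn
  refine iSup_le ?_
  rintro ⟨n, u, hu, -⟩
  have key : ∀ n : ℕ, ∑ i ∈ Finset.range n, edist (γ (u (i + 1))) (γ (u i)) ≤
      pathELength 𝓘(ℝ, E) γ (u 0) (u n) := by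
    intro n
    induction n with
    | zero => simp
    | succ n ih =>
      have a1 : ((u 0 : unitInterval) : ℝ) ≤ u n := hu (Nat.zero_le n)
      have a2 : ((u n : unitInterval) : ℝ) ≤ u (n + 1) := hu (Nat.le_succ n)
      rw [Finset.sum_range_succ, ← pathELength_add a1 a2]
      refine add_le_add ih ?_
      rw [edist_comm, h.out]
      exact riemannianEDist_le_pathELength
        (hs.mono (Icc_subset_Icc (u n).2.1 (u (n + 1)).2.2)) rfl rfl a2
  exact (key n).trans (pathELength_mono (u 0).2.1 (u n).2.2)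

/-- A symmetric form, linear in the first slot, as a continuous bilinear map. -/
theorem Pack.exists_bilin {E : Type} [NormedAddCommGroup E] [NormedSpace ℝ E]
    [FiniteDimensional ℝ E] (g : E → E → ℝ) (symm : ∀ u v, g u v = g v u)
    (lin : ∀ v, IsLinearMap ℝ fun u => g u v) :
    ∃ B : E →L[ℝ] E →L[ℝ] ℝ, ∀ u v, B u v = g u v := by
  let b : E →ₗ[ℝ] E →ₗ[ℝ] ℝ := LinearMap.mk₂ ℝ g
    (fun u u' v => (lin v).map_add u u') (fun c u v => (lin v).map_smul c u)
    (fun u v v' => by rw [symm u, symm u, symm u]; exact (lin u).map_add v v')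
    (fun c u v => by rw [symm u, symm u]; exact (lin u).map_smul c v)
  exact ⟨LinearMap.toContinuousLinearMap
    ((LinearMap.toContinuousLinearMap (𝕜 := ℝ) (E := E) (F' := ℝ)).toLinearMap ∘ₗ b),
    fun u v => rfl⟩

/-- The unit ball of a positive definite form in finite dimension is bounded. -/
theorem Pack.bounded {E : Type} [NormedAddCommGroup E] [NormedSpace ℝ E]
    [FiniteDimensional ℝ E] (B : E →L[ℝ] E →L[ℝ] ℝ) (pos : ∀ u, u ≠ 0 → 0 < B u u) :
    Bornology.IsVonNBounded ℝ {v : E | B v v < 1} := by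
  have : ProperSpace E := FiniteDimensional.proper_real E
  have hc : Continuous fun v : E => B v v := by fun_prop
  obtain ⟨c, hc0, hcl⟩ : ∃ c : ℝ, 0 < c ∧ ∀ v : E, c * ‖v‖ ^ 2 ≤ B v v := by
    rcases (Metric.sphere (0 : E) 1).eq_empty_or_nonempty with he | hne
    · refine ⟨1, one_pos, fun v => ?_⟩
      by_cases hv : v = 0
      · simp [hv]
      · exfalso
        have : ‖v‖⁻¹ • v ∈ Metric.sphere (0 : E) 1 := by
          simp [norm_smul, hv]
        rw [he] at this
        exact this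
    · obtain ⟨w, hw, hmin⟩ := (isCompact_sphere (0 : E) 1).exists_isMinOn hne hc.continuousOn
      have hw0 : w ≠ 0 := by
        rintro rfl
        simp at hw
      refine ⟨B w w, pos w hw0, fun v => ?_⟩
      by_cases hv : v = 0
      · simp [hv]
      · have hn : 0 < ‖v‖ := norm_pos_iff.2 hv
        have h1 : ‖v‖⁻¹ • v ∈ Metric.sphere (0 : E) 1 := by
          simp [norm_smul, hv]
        have h2 : B w w ≤ B (‖v‖⁻¹ • v) (‖v‖⁻¹ • v) := hmin h1
        simp only [map_smul, smul_apply, smul_eq_mul] at h2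
        calc B w w * ‖v‖ ^ 2 ≤ (‖v‖⁻¹ * (‖v‖⁻¹ * B v v)) * ‖v‖ ^ 2 := by gcongr
          _ = B v v := by field_simp
  refine (NormedSpace.isVonNBounded_ball ℝ E (1 + c⁻¹)).subset fun v hv => ?_
  have h1 : c * ‖v‖ ^ 2 < 1 := (hcl v).trans_lt hv
  have h2 : ‖v‖ ^ 2 < c⁻¹ := by
    rw [← one_div, lt_div_iff₀ hc0]; linarith
  rw [Metric.mem_ball, dist_zero_right]
  nlinarith [sq_nonneg (‖v‖ - 1), inv_pos.2 hc0]

set_option backward.isDefEq.respectTransparency false in
open Manifold Bundle in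
/-- An atlas with compatible negatively curved metric tensors. -/
theorem package {E M ι : Type} [NormedAddCommGroup E] [NormedSpace ℝ E] [FiniteDimensional ℝ E]
    [TopologicalSpace M] [T2Space M] [CompactSpace M] [ConnectedSpace M]
    (e : ι → OpenPartialHomeomorph M E) (G : ι → E → E → E → ℝ)
    (cover : ∀ x, ∃ i, x ∈ (e i).source)
    (smooth : ∀ i u v, ContDiff ℝ ∞ fun x => G i x u v)
    (symm : ∀ i x u v, G i x u v = G i x v u)
    (lin : ∀ i x v, IsLinearMap ℝ fun u => G i x u v)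
    (pos : ∀ i x u, u ≠ 0 → 0 < G i x u u)
    (trans : ∀ i j, ∀ x ∈ (e i).target, (e i).symm x ∈ (e j).source →
      ContDiffAt ℝ ∞ (e j ∘ (e i).symm) x ∧ ∀ u v, G j (e j ((e i).symm x))
        (fderiv ℝ (e j ∘ (e i).symm) x u) (fderiv ℝ (e j ∘ (e i).symm) x v) = G i x u v)
    (neg : ∀ i, ∃ Γ, IsChristoffel univ (G i) Γ ∧
      ∀ x u v : E, LinearIndependent ℝ ![u, v] → G i x (curv Γ x u v v) u < 0) :
    ∃ (M' : Type) (_ : EMetricSpace M') (_ : ChartedSpace E M')
      (_ : RiemannianBundle (fun x : M' => TangentSpace 𝓘(ℝ, E) x)),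
      IsClosedNegCurved E M' ∧ Nonempty (M' ≃ₜ M) := by
  choose ix hix using cover
  choose B hB using fun i x => Pack.exists_bilin (G i x) (symm i x) (lin i x)
  have hBs : ∀ i, ContDiff ℝ ∞ (B i) := by
    intro i
    rw [contDiff_clm_apply_iff]
    intro u
    rw [contDiff_clm_apply_iff]
    intro v
    simpa only [hB] using smooth i u v
  let cs : ChartedSpace E M :=
    { atlas := range e
      chartAt := fun x => e (ix x)
      mem_chart_source := hix
      chart_mem_atlas := fun x => ⟨ix x, rfl⟩ }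
  have hch : ∀ x : M, chartAt E x = e (ix x) := fun _ => rfl
  have im : IsManifold 𝓘(ℝ, E) ∞ M := by
    refine isManifold_of_contDiffOn _ _ _ ?_
    rintro _ _ ⟨i, rfl⟩ ⟨j, rfl⟩ x hx
    simp only [mfld_simps] at hx ⊢
    exact (trans i j x hx.1 hx.2).1.contDiffWithinAt
  let g : ContMDiffRiemannianMetric 𝓘(ℝ, E) ∞ E (fun x : M => TangentSpace 𝓘(ℝ, E) x) :=
    { inner := fun x => (B (ix x) (e (ix x) x) : E →L[ℝ] E →L[ℝ] ℝ)
      symm := fun x v w => (hB _ _ v w).trans ((symm _ _ v w).trans (hB _ _ w v).symm)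
      pos := fun x v hv => (pos _ _ v hv).trans_eq (hB _ _ v v).symm
      isVonNBounded := fun x => Pack.bounded (B (ix x) (e (ix x) x))
        fun v hv => (pos _ _ v hv).trans_eq (hB _ _ v v).symm
      contMDiff := by
        intro x₀
        rw [contMDiffAt_section]
        have h1 : ContMDiffAt 𝓘(ℝ, E) 𝓘(ℝ, E →L[ℝ] E →L[ℝ] ℝ) ∞
            (fun x => B (ix x₀) (chartAt E x₀ x)) x₀ :=
          ((hBs (ix x₀)).contMDiff.contMDiffAt).comp x₀
            (contMDiffOn_chart.contMDiffAt (chart_source_mem_nhds E x₀))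
        refine h1.congr_of_eventuallyEq ?_
        filter_upwards [chart_source_mem_nhds E x₀] with x hx
        ext v w
        rw [hom_trivializationAt_apply]
        dsimp only
        rw [inCoordinates_apply_eq₂ hx hx (mem_univ _)]
        have h2 : ∀ z : E, (trivializationAt E (TangentSpace 𝓘(ℝ, E)) x₀).symm x z =
            fderiv ℝ (e (ix x) ∘ (e (ix x₀)).symm) (e (ix x₀) x) z := by
          intro z
          have h3 := TangentBundle.symmL_trivializationAt_eq_core (I := 𝓘(ℝ, E)) hx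
          rw [tangentBundleCore_coordChange_achart] at h3
          have h4 := congrArg (fun L => L z) h3
          simp only [mfld_simps, fderivWithin_univ] at h4
          rw [Trivialization.symmL_apply _ hx] at h4
          exact h4
        have h5 := (trans (ix x₀) (ix x) (e (ix x₀) x) ((e (ix x₀)).map_source hx)
          (by rw [(e (ix x₀)).left_inv hx]; exact hix x)).2 v w
        rw [(e (ix x₀)).left_inv hx] at h5
        rw [h2, h2]
        simp only [Trivial.fiberBundle_trivializationAt', Trivial.linearMapAt_trivialization,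
          LinearMap.id_coe, id_eq]
        exact (hB _ _ _ _).trans (h5.trans (hB _ _ v w).symm) }
  let rb : RiemannianBundle (fun x : M => TangentSpace 𝓘(ℝ, E) x) := ⟨g.toRiemannianMetric⟩
  have hsm : IsContMDiffRiemannianBundle 𝓘(ℝ, E) ∞ E (fun x : M => TangentSpace 𝓘(ℝ, E) x) :=
    ⟨g.inner, g.contMDiff, fun _ _ _ => rfl⟩
  have hct : IsContinuousRiemannianBundle E (fun x : M => TangentSpace 𝓘(ℝ, E) x) :=
    ⟨g.inner, g.contMDiff.continuous, fun _ _ _ => rfl⟩
  have hneg : NegCurved E M := by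
    rintro _ ⟨k, rfl⟩
    have hcm : ∀ y ∈ (e k).target, ∀ u v, chartMetric (e k) y u v = G k y u v := by
      intro y hy u v
      have hd : MDifferentiableAt 𝓘(ℝ, E) 𝓘(ℝ, E) (e k).symm y :=
        mdifferentiableAt_atlas_symm (show e k ∈ range e from ⟨k, rfl⟩) hy
      have h1 : mfderiv 𝓘(ℝ, E) 𝓘(ℝ, E) (e k).symm y =
          fderiv ℝ (e (ix ((e k).symm y)) ∘ (e k).symm) y := by
        rw [hd.mfderiv]
        simp only [mfld_simps, fderivWithin_univ]
        rfl
      have h2 := (trans k (ix ((e k).symm y)) y hy (hix _)).2 u v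
      unfold chartMetric tinner chartVec
      rw [h1]
      exact (hB _ _ _ _).trans h2
    obtain ⟨Γ, hΓ, hn⟩ := neg k
    refine ⟨Γ, fun x hx u v w => ?_, fun y hy u v huv => ?_⟩
    · have hf : ∀ a b : E, fderiv ℝ (fun y => chartMetric (e k) y a b) x =
          fderiv ℝ (fun y => G k y a b) x := by
        intro a b
        refine Filter.EventuallyEq.fderiv_eq ?_
        filter_upwards [(e k).open_target.mem_nhds hx] with y hy using hcm y hy a b
      rw [hf, hf, hf, hcm x hx]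
      exact hΓ x (mem_univ x) u v w
    · rw [hcm y hy]
      exact hn y u v huv
  refine ⟨M, EMetricSpace.ofRiemannianMetric 𝓘(ℝ, E) M, cs, rb,
    ⟨im, ‹CompactSpace M›, ‹ConnectedSpace M›, hsm, ?_, hneg⟩, ⟨Homeomorph.refl M⟩⟩
  exact @IsRiemannianManifold.mk E _ _ E _ _ M (_) (_) (_) (_) fun _ _ => rfl

end Pool.Agent.MP_39b1da_gt

end
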