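import Pool.Agent.Mg.F39b1da.G324722

section

/-! Local geodesics in a space that is locally of curvature at most `-1`. -/

set_option autoImplicit false

namespace Pool.Agent.MP_39b1da_gt

open Filter Topology Set Real

/-- A continuous function that is midpoint convex at small scale lies below its chord. -/
theorem ch_convex {f : ℝ → ℝ} {a b η : ℝ} (hη : 0 < η) (hf : ContinuousOn f (Icc a b))
    (hm : ∀ t h, 0 < h → h ≤ η → a ≤ t - h → t + h ≤ b → 2 * f t ≤ f (t - h) + f (t + h))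
    {t : ℝ} (ht : t ∈ Icc a b) : (b - a) * f t ≤ (b - t) * f a + (t - a) * f b := by
  set g : ℝ → ℝ := fun t => (b - a) * f t - ((b - t) * f a + (t - a) * f b) with hg
  have hgc : ContinuousOn g (Icc a b) := by
    refine (continuousOn_const.mul hf).sub ?_
    fun_prop
  obtain ⟨u, hu, hmax⟩ := isCompact_Icc.exists_isMaxOn ⟨t, ht⟩ hgc
  have hK : IsCompact (Icc a b ∩ g ⁻¹' {g u}) :=
    isCompact_Icc.of_isClosed_subset
      (hgc.preimage_isClosed_of_isClosed isClosed_Icc isClosed_singleton) inter_subset_left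
  obtain ⟨w, ⟨hw, hwu⟩, hmin⟩ := hK.exists_isLeast ⟨u, hu, rfl⟩
  have hwu' : g w = g u := hwu
  by_contra hc
  have h0 : 0 < g u := lt_of_lt_of_le (by simp only [hg]; linarith) (hmax ht)
  have ha : a < w := lt_of_le_of_ne hw.1 (by
    rintro rfl
    simp only [hg] at hwu' h0
    nlinarith)
  have hb : w < b := lt_of_le_of_ne hw.2 (by
    rintro rfl
    simp only [hg] at hwu' h0
    nlinarith)
  set h := min η (min (w - a) (b - w)) with hh
  have h1 : 0 < h := lt_min hη (lt_min (by linarith) (by linarith))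
  have h2 : h ≤ η := min_le_left _ _
  have h3 : h ≤ w - a := (min_le_right _ _).trans (min_le_left _ _)
  have h4 : h ≤ b - w := (min_le_right _ _).trans (min_le_right _ _)
  have m1 : w - h ∈ Icc a b := ⟨by linarith, by linarith⟩
  have m2 : w + h ∈ Icc a b := ⟨by linarith, by linarith⟩
  have l1 : g (w - h) < g u := lt_of_le_of_ne (hmax m1) fun e => by
    have := hmin ⟨m1, e⟩
    linarith
  have l2 : g (w + h) ≤ g u := hmax m2
  have l3 := mul_le_mul_of_nonneg_left (hm w h h1 h2 m1.1 m2.2) (show 0 ≤ b - a by linarith)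
  simp only [hg] at l1 l2 hwu' 
  nlinarith

variable {X : Type} [MetricSpace X] {ε : ℝ}

/-- A local geodesic on `[a, b]` of speed `v`. -/
def ChLG (c : ℝ → X) (a b v : ℝ) : Prop :=
  0 ≤ v ∧ ∃ η > 0, ∀ s ∈ Icc a b, ∀ t ∈ Icc a b, |s - t| ≤ η → dist (c s) (c t) = |s - t| * v

variable {c c' : ℝ → X} {a b v v' : ℝ}

theorem ChLG.mono (h : ChLG c a b v) {a' b' : ℝ} (ha : a ≤ a') (hb : b' ≤ b) : ChLG c a' b' v :=
  let ⟨h0, η, hη, H⟩ := h
  ⟨h0, η, hη, fun s hs t ht => H s (Icc_subset_Icc ha hb hs) t (Icc_subset_Icc ha hb ht)⟩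

theorem ChLG.congr (h : ChLG c a b v) (e : ∀ t ∈ Icc a b, c' t = c t) : ChLG c' a b v :=
  let ⟨h0, η, hη, H⟩ := h
  ⟨h0, η, hη, fun s hs t ht hst => by rw [e s hs, e t ht]; exact H s hs t ht hst⟩

theorem ChLG.lip (h : ChLG c a b v) {s t : ℝ} (hs : s ∈ Icc a b) (ht : t ∈ Icc a b) :
    dist (c s) (c t) ≤ |s - t| * v := by
  obtain ⟨h0, η, hη, H⟩ := h
  have key : ∀ n : ℕ, ∀ s ∈ Icc a b, ∀ t ∈ Icc a b, s ≤ t → t - s ≤ n * η →
      dist (c s) (c t) ≤ (t - s) * v := by
    intro n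
    induction n with
    | zero =>
      intro s _ t _ h1 h2
      obtain rfl : s = t := by simp at h2; linarith
      simp
    | succ n ih =>
      intro s hs t ht h1 h2
      by_cases h3 : t - s ≤ η
      · rw [H s hs t ht (by rw [abs_sub_comm, abs_of_nonneg (by linarith)]; exact h3), abs_sub_comm,
          abs_of_nonneg (by linarith)]
      · have hm : s + η ∈ Icc a b := ⟨by linarith [hs.1], by linarith [ht.2]⟩
        have e1 := H s hs _ hm (by simp [abs_of_pos hη])
        have e2 := ih _ hm t ht (by linarith) (by push_cast at h2; linarith)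
        have e3 := dist_triangle (c s) (c (s + η)) (c t)
        simp only [sub_add_cancel_left, abs_neg, abs_of_pos hη] at e1
        nlinarith
  wlog hst : s ≤ t generalizing s t
  · rw [dist_comm, abs_sub_comm]
    exact this ht hs (by linarith)
  obtain ⟨n, hn⟩ := exists_nat_ge ((t - s) / η)
  rw [abs_sub_comm, abs_of_nonneg (by linarith)]
  exact key n s hs t ht hst ((div_le_iff₀ hη).1 hn)

theorem ChLG.cont (h : ChLG c a b v) : ContinuousOn c (Icc a b) :=
  (LipschitzOnWith.of_dist_le_mul (K := ⟨v, h.1⟩) fun s hs t ht => by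
    have := h.lip hs ht
    rwa [mul_comm] at this).continuousOn

/-- Convexity of the distance of two close local geodesics. -/
theorem ChLG.convex (hK : LocK X ε) (h : ChLG c a b v) (h' : ChLG c' a b v')
    (hd : ∀ t ∈ Icc a b, dist (c t) (c' t) < ε / 8) {t : ℝ} (ht : t ∈ Icc a b) :
    (b - a) * dist (c t) (c' t) ≤ (b - t) * dist (c a) (c' a) + (t - a) * dist (c b) (c' b) := by
  have hc := h.cont
  have hc' := h'.cont
  obtain ⟨h0, η, hη, H⟩ := h
  obtain ⟨h0', η', hη', H'⟩ := h'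
  have hε := hK.pos
  refine ch_convex (f := fun t => dist (c t) (c' t))
    (η := min (min (η / 2) (η' / 2)) (ε / (16 * (v + v' + 1)))) (by positivity)
    (continuous_dist.comp_continuousOn (hc.prodMk hc')) (fun t r hr hr' h1 h2 => ?_) ht
  have r1 : r ≤ η / 2 := hr'.trans ((min_le_left _ _).trans (min_le_left _ _))
  have r2 : r ≤ η' / 2 := hr'.trans ((min_le_left _ _).trans (min_le_right _ _))
  have r3 : r * (16 * (v + v' + 1)) ≤ ε :=
    (le_div_iff₀ (by positivity)).1 (hr'.trans (min_le_right _ _))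
  have m0 : t ∈ Icc a b := ⟨by linarith, by linarith⟩
  have m1 : t - r ∈ Icc a b := ⟨by linarith, by linarith⟩
  have m2 : t + r ∈ Icc a b := ⟨by linarith, by linarith⟩
  have a1 : |t - r - t| = r := by rw [abs_of_nonpos] <;> linarith
  have a2 : |t - (t + r)| = r := by rw [abs_of_nonpos] <;> linarith
  have a3 : |t - r - (t + r)| = 2 * r := by rw [abs_of_nonpos] <;> linarith
  have e1 := H _ m1 _ m0 (by linarith)
  have e2 := H _ m0 _ m2 (by linarith)
  have e3 := H _ m1 _ m2 (by linarith)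
  have f1 := H' _ m1 _ m0 (by linarith)
  have f2 := H' _ m0 _ m2 (by linarith)
  have f3 := H' _ m1 _ m2 (by linarith)
  rw [a1] at e1 f1
  rw [a2] at e2 f2
  rw [a3] at e3 f3
  have p1 : 0 ≤ r * v := by positivity
  have p2 : 0 ≤ r * v' := by positivity
  have d0 := hd t m0
  have t1 := dist_triangle_right (c t) (c' (t - r)) (c' t)
  have t2 := dist_triangle (c t) (c' t) (c' (t + r))
  have := hK.convex (p := c t) (y := c (t - r)) (z := c (t + r)) (x := c t) (y' := c' (t - r))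
    (z' := c' (t + r)) (x' := c' t) (t := 1 / 2) ⟨by norm_num, by norm_num⟩
    (by rw [dist_comm]; nlinarith) (by nlinarith) (by nlinarith) (by nlinarith)
    (by unfold Btw; linarith) (by unfold Btw; linarith) (by linarith) (by linarith)
  linarith

theorem ChLG.glue {a₀ b₀ : ℝ} (h : ChLG c a b₀ v) (h' : ChLG c' a₀ b v') (h1 : a ≤ a₀)
    (h2 : a₀ < b₀) (h3 : b₀ ≤ b) (e : ∀ t ∈ Icc a₀ b₀, c t = c' t) :
    ChLG (fun t => if t ≤ b₀ then c t else c' t) a b v := by
  obtain ⟨h0, η, hη, H⟩ := h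
  obtain ⟨h0', η', hη', H'⟩ := h'
  set r := min (min η η') (b₀ - a₀) with hr
  have r0 : 0 < r := lt_min (lt_min hη hη') (by linarith)
  have r1 : r ≤ η := (min_le_left _ _).trans (min_le_left _ _)
  have r2 : r ≤ η' := (min_le_left _ _).trans (min_le_right _ _)
  have r3 : r ≤ b₀ - a₀ := min_le_right _ _
  have hv : v = v' := by
    have a1 : |a₀ - (a₀ + r)| = r := by rw [abs_of_nonpos] <;> linarith
    have e1 := H a₀ ⟨h1, h2.le⟩ (a₀ + r) ⟨by linarith, by linarith⟩ (by linarith)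
    have e2 := H' a₀ ⟨le_rfl, by linarith⟩ (a₀ + r) ⟨by linarith, by linarith⟩ (by linarith)
    rw [e a₀ ⟨le_rfl, h2.le⟩, e (a₀ + r) ⟨by linarith, by linarith⟩, e2, a1] at e1
    exact (mul_left_cancel₀ r0.ne' e1).symm
  have e' : ∀ t, a₀ ≤ t → (if t ≤ b₀ then c t else c' t) = c' t := by
    intro t ht
    split_ifs with h
    · exact e t ⟨ht, h⟩
    · rfl
  refine ⟨h0, r, r0, fun s hs t ht hst => ?_⟩
  have hst' := abs_le.1 hst
  by_cases hb : s ≤ b₀ ∧ t ≤ b₀
  · simp only [if_pos hb.1, if_pos hb.2]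
    exact H s ⟨hs.1, hb.1⟩ t ⟨ht.1, hb.2⟩ (by linarith)
  · have : a₀ ≤ s ∧ a₀ ≤ t := by
      rw [not_and_or, not_le, not_le] at hb
      rcases hb with hb | hb <;> constructor <;> linarith
    simp only [e' s this.1, e' t this.2, hv]
    exact H' s ⟨this.1, hs.2⟩ t ⟨this.2, ht.2⟩ (by linarith)

/-- End points can be moved on subintervals of length at most `A`. -/
def ChP (c : ℝ → X) (α β r A : ℝ) : Prop :=
  ∀ a b, α ≤ a → a < b → b ≤ β → b - a ≤ A → ∀ p q, dist (c a) p ≤ r → dist (c b) q ≤ r →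
    ∃ g w, ChLG g a b w ∧ g a = p ∧ g b = q ∧ ∀ t ∈ Icc a b, dist (c t) (g t) ≤ r

theorem ch_base (hK : LocK X ε) (h : ChLG c a b v) {r : ℝ} (hr : r ≤ ε / 64) :
    ∃ A > 0, ChP c a b r A := by
  have hε := hK.pos
  have h0 := h.1
  refine ⟨ε / (64 * (v + 1)), by positivity, fun a' b' h1 h2 h3 h4 p q hp hq => ?_⟩
  have h' := h.mono h1 h3
  have h5 : (b' - a') * (64 * (v + 1)) ≤ ε := (le_div_iff₀ (by positivity)).1 h4
  have h6 : ∀ t ∈ Icc a' b', dist (c a') (c t) ≤ ε / 64 := fun t ht => by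
    have := h'.lip (left_mem_Icc.2 h2.le) ht
    rw [abs_sub_comm, abs_of_nonneg (by linarith [ht.1])] at this
    nlinarith [ht.1, ht.2]
  have h7 : dist p q ≤ 3 * (ε / 64) := by
    have := dist_triangle4 p (c a') (c b') q
    rw [dist_comm p (c a')] at this
    linarith [h6 b' (right_mem_Icc.2 h2.le)]
  obtain ⟨g, g0, g1, hg⟩ := hK.exists_geod (y := p) (z := q) (by linarith)
  have hba : 0 < b' - a' := by linarith
  have hm : ∀ t ∈ Icc a' b', (t - a') / (b' - a') ∈ Icc (0 : ℝ) 1 := fun t ht =>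
    ⟨div_nonneg (by linarith [ht.1]) hba.le, (div_le_one hba).2 (by linarith [ht.2])⟩
  have hG : ChLG (fun t => g ((t - a') / (b' - a'))) a' b' (dist p q / (b' - a')) := by
    refine ⟨by positivity, 1, one_pos, fun s hs t ht _ => ?_⟩
    rw [hg _ (hm s hs) _ (hm t ht), ← sub_div, abs_div, abs_of_pos hba]
    simp only [sub_sub_sub_cancel_right]
    ring
  have ea : g ((a' - a') / (b' - a')) = p := by simp [g0]
  have eb : g ((b' - a') / (b' - a')) = q := by rw [div_self hba.ne', g1]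
  refine ⟨_, _, hG, ea, eb, fun t ht => ?_⟩
  have := h'.convex hK hG (fun t ht => by
    have e1 := hg 0 (left_mem_Icc.2 zero_le_one) _ (hm t ht)
    rw [g0, zero_sub, abs_neg, abs_of_nonneg (hm t ht).1] at e1
    have e2 := dist_triangle4 (c t) (c a') p (g ((t - a') / (b' - a')))
    rw [dist_comm (c t) (c a')] at e2
    have e3 := mul_le_of_le_one_left (dist_nonneg (x := p) (y := q)) (hm t ht).2
    linarith [h6 t ht]) ht
  rw [ea, eb] at this
  have e1 := mul_le_mul_of_nonneg_left hp (show 0 ≤ b' - t by linarith [ht.2])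
  have e2 := mul_le_mul_of_nonneg_left hq (show 0 ≤ t - a' by linarith [ht.1])
  refine le_of_mul_le_mul_left ?_ hba
  nlinarith

theorem ch_step [CompleteSpace X] (hK : LocK X ε) {α β r A : ℝ} (hr0 : 0 ≤ r) (hr : r ≤ ε / 64)
    (hP : ChP c α β r A) : ChP c α β r (3 / 2 * A) := by
  intro a b h1 h2 h3 h4 p q hp hq
  have hε := hK.pos
  set a₀ := (2 * a + b) / 3 with ha₀
  set b₀ := (a + 2 * b) / 3 with hb₀
  have i1 : a < a₀ := by linarith
  have i2 : a₀ < b₀ := by linarith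
  have i3 : b₀ < b := by linarith
  choose g w hg ga gb gd using fun y : Metric.closedBall (c b₀) r =>
    hP a b₀ h1 (by linarith) (by linarith) (by linarith) p y hp (Metric.mem_closedBall'.1 y.2)
  choose g' w' hg' ga' gb' gd' using fun x : Metric.closedBall (c a₀) r =>
    hP a₀ b (by linarith) (by linarith) h3 (by linarith) x q (Metric.mem_closedBall'.1 x.2) hq
  have near : ∀ (t : ℝ) (x y : X), dist (c t) x ≤ r → dist (c t) y ≤ r → dist x y < ε / 8 :=
    fun t x y hx hy => by linarith [dist_triangle_left x y (c t)]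
  let Φ : Metric.closedBall (c a₀) r × Metric.closedBall (c b₀) r →
      Metric.closedBall (c a₀) r × Metric.closedBall (c b₀) r := fun z =>
    (⟨g z.2 a₀, Metric.mem_closedBall'.2 (gd z.2 a₀ ⟨i1.le, i2.le⟩)⟩,
      ⟨g' z.1 b₀, Metric.mem_closedBall'.2 (gd' z.1 b₀ ⟨i2.le, i3.le⟩)⟩)
  have hΦ : ContractingWith (1 / 2) Φ := by
    refine ⟨by norm_num, LipschitzWith.of_dist_le_mul fun z z' => ?_⟩
    have e1 := (hg z.2).convex hK (hg z'.2)
      (fun t ht => near t _ _ (gd _ t ht) (gd _ t ht)) (t := a₀) ⟨i1.le, i2.le⟩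
    have e2 := (hg' z.1).convex hK (hg' z'.1)
      (fun t ht => near t _ _ (gd' _ t ht) (gd' _ t ht)) (t := b₀) ⟨i2.le, i3.le⟩
    rw [ga, ga, gb, gb, dist_self] at e1
    rw [ga', ga', gb', gb', dist_self] at e2
    have e3 : dist (z.2 : X) z'.2 ≤ dist z z' := le_max_right _ _
    have e4 : dist (z.1 : X) z'.1 ≤ dist z z' := le_max_left _ _
    have hba : 0 < b - a := by linarith
    have f1 : b₀ - a = 2 / 3 * (b - a) := by linarith
    have f2 : a₀ - a = 1 / 3 * (b - a) := by linarith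
    have f3 : b - a₀ = 2 / 3 * (b - a) := by linarith
    have f4 : b - b₀ = 1 / 3 * (b - a) := by linarith
    rw [f1, f2] at e1
    rw [f3, f4] at e2
    refine max_le ?_ ?_
    · change dist (g z.2 a₀) (g z'.2 a₀) ≤ _
      push_cast
      refine le_of_mul_le_mul_left ?_ hba
      nlinarith
    · change dist (g' z.1 b₀) (g' z'.1 b₀) ≤ _
      push_cast
      refine le_of_mul_le_mul_left ?_ hba
      nlinarith
  have := (Metric.isClosed_closedBall (x := c a₀) (ε := r)).completeSpace_coe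
  have := (Metric.isClosed_closedBall (x := c b₀) (ε := r)).completeSpace_coe
  obtain ⟨⟨x, y⟩, hz, -⟩ := hΦ.exists_fixedPoint
    (⟨c a₀, Metric.mem_closedBall_self hr0⟩, ⟨c b₀, Metric.mem_closedBall_self hr0⟩)
    (edist_ne_top _ _)
  have e1 : g y a₀ = x := congrArg (fun z => (z.1 : X)) hz
  have e2 : g' x b₀ = y := congrArg (fun z => (z.2 : X)) hz
  have e : ∀ t ∈ Icc a₀ b₀, g y t = g' x t := fun t ht => by
    have := ((hg y).mono i1.le le_rfl).convex hK ((hg' x).mono le_rfl i3.le)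
      (fun t ht => near t _ _ (gd _ t ⟨by linarith [ht.1], ht.2⟩)
        (gd' _ t ⟨ht.1, by linarith [ht.2]⟩)) ht
    rw [e1, ga', gb, e2, dist_self, dist_self, mul_zero, mul_zero, add_zero] at this
    refine dist_le_zero.1 (le_of_mul_le_mul_left ?_ (show 0 < b₀ - a₀ by linarith))
    rwa [mul_zero]
  refine ⟨_, _, (hg y).glue (hg' x) i1.le i2 i3.le e, ?_, ?_, fun t ht => ?_⟩
  · rw [if_pos (by linarith), ga]
  · rw [if_neg (by linarith), gb']
  · split_ifs with h
    · exact gd y t ⟨ht.1, h⟩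
    · exact gd' x t ⟨by linarith, ht.2⟩

/-- The end points of a local geodesic can be moved. -/
theorem ChLG.move [CompleteSpace X] (hK : LocK X ε) (h : ChLG c a b v) (hab : a < b) {r : ℝ}
    (hr : r ≤ ε / 64) {p q : X} (hp : dist (c a) p ≤ r) (hq : dist (c b) q ≤ r) :
    ∃ g w, ChLG g a b w ∧ g a = p ∧ g b = q ∧ ∀ t ∈ Icc a b, dist (c t) (g t) ≤ r := by
  obtain ⟨A, hA, hP⟩ := ch_base hK h hr
  have key : ∀ n : ℕ, ChP c a b r ((3 / 2) ^ n * A) := by
    intro n
    induction n with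
    | zero => simpa using hP
    | succ n ih =>
      have := ch_step hK (dist_nonneg.trans hp) hr ih
      rwa [← mul_assoc, ← pow_succ'] at this
  obtain ⟨n, hn⟩ := pow_unbounded_of_one_lt ((b - a) / A) (show (1 : ℝ) < 3 / 2 by norm_num)
  exact key n a b le_rfl hab le_rfl ((div_le_iff₀ hA).1 hn.le) p q hp hq

end Pool.Agent.MP_39b1da_gt

end

section

set_option autoImplicit false

namespace Pool.Agent.MP_39b1da_gt

open Filter Topology Set Real
open scoped ENNReal NNReal ContDiff InnerProductSpace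

section

variable {X : Type} [MetricSpace X] {ε : ℝ}

/-- The space of local geodesics from `x`. -/
def ChG (x : X) : Type :=
  {g : C(unitInterval, X) // g 0 = x ∧ ∃ v, ChLG (IccExtend zero_le_one g) 0 1 v}

noncomputable instance (x : X) : MetricSpace (ChG x) :=
  inferInstanceAs (MetricSpace
    {g : C(unitInterval, X) // g 0 = x ∧ ∃ v, ChLG (IccExtend zero_le_one g) 0 1 v})

/-- A local geodesic as a point of the space of local geodesics. -/
noncomputable def ChG.mk {c : ℝ → X} {v : ℝ} (h : ChLG c 0 1 v) {x : X} (h0 : c 0 = x) : ChG x :=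
  ⟨⟨fun t => c t, h.cont.domRestrict⟩, h0, v, h.congr fun _ ht => IccExtend_of_mem _ _ ht⟩

theorem ChG.dist_le {x : X} (g g' : ChG x) (t : unitInterval) :
    dist (g.1 t) (g'.1 t) ≤ dist g g' := ContinuousMap.dist_apply_le_dist t

theorem ch_convex_zero (hK : LocK X ε) {c c' : ℝ → X} {v v' : ℝ} (h : ChLG c 0 1 v)
    (h' : ChLG c' 0 1 v') (h0 : c 0 = c' 0)
    (hd : ∀ t ∈ Icc (0 : ℝ) 1, dist (c t) (c' t) < ε / 8) {t : ℝ} (ht : t ∈ Icc (0 : ℝ) 1) :
    dist (c t) (c' t) ≤ t * dist (c 1) (c' 1) := by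
  simpa [h0] using h.convex hK h' hd ht

theorem ChG.convex (hK : LocK X ε) {x : X} (g g' : ChG x) (hd : dist g g' < ε / 8)
    (t : unitInterval) : dist (g.1 t) (g'.1 t) ≤ t * dist (g.1 1) (g'.1 1) := by
  obtain ⟨v, hv⟩ := g.2.2
  obtain ⟨v', hv'⟩ := g'.2.2
  have := ch_convex_zero hK hv hv'
    (by rw [IccExtend_left, IccExtend_left]; exact g.2.1.trans g'.2.1.symm)
    (fun t ht => by
      rw [IccExtend_of_mem _ _ ht, IccExtend_of_mem _ _ ht]
      exact (g.dist_le g' _).trans_lt hd) t.2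
  rwa [IccExtend_val, IccExtend_val, IccExtend_right, IccExtend_right] at this

theorem ch_ballIso [CompleteSpace X] (hK : LocK X ε) (x : X) :
    BallIso (fun g : ChG x => g.1 1) (ε / 64) := by
  have hε := hK.pos
  refine ⟨by positivity, fun g => ⟨fun g' hg' g'' hg'' => ?_, fun y hy => ?_⟩⟩
  · refine le_antisymm (g'.dist_le g'' 1) ((ContinuousMap.dist_le dist_nonneg).2 fun t => ?_)
    refine (g'.convex hK g'' ?_ t).trans (mul_le_of_le_one_left dist_nonneg t.2.2)
    have := dist_triangle_right g' g'' g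
    rw [Metric.mem_ball] at hg' hg''
    linarith
  · obtain ⟨v, hv⟩ := g.2.2
    rw [Metric.mem_ball'] at hy
    obtain ⟨c, w, hc, c0, c1, hd⟩ := hv.move hK one_pos hy.le (p := x) (q := y)
      (by rw [IccExtend_left]; exact (dist_eq_zero.2 g.2.1).le.trans dist_nonneg)
      (by rw [IccExtend_right]; exact le_rfl)
    refine ⟨ChG.mk hc c0, Metric.mem_ball'.2 (lt_of_le_of_lt ?_ hy), c1⟩
    refine (ContinuousMap.dist_le dist_nonneg).2 fun t => ?_
    have := hd t t.2
    rwa [IccExtend_val] at this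

theorem ch_bijective [CompleteSpace X] [SimplyConnectedSpace X] (hK : LocK X ε) (x : X) :
    ∃ s : C(X, ChG x), (∀ y, (s y).1 1 = y) ∧ ∀ g : ChG x, s (g.1 1) = g := by
  have hcov := (ch_ballIso hK x).isCoveringMap
  have := hK.locallyPathConnected
  have hx : ChLG (fun _ : ℝ => x) 0 1 0 := ⟨le_rfl, 1, one_pos, by simp⟩
  obtain ⟨s, ⟨s0, hs⟩, -⟩ := hcov.existsUnique_continuousMap_lifts (ContinuousMap.id X) x
    (ChG.mk hx rfl) rfl
  have hs' : ∀ y, (s y).1 1 = y := congrFun hs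
  refine ⟨s, hs', fun g => ?_⟩
  let H : C(unitInterval × unitInterval, X) := g.1.comp ⟨fun z => z.1 * z.2, by fun_prop⟩
  have hH : ∀ t : unitInterval, H.curry t 0 = x ∧
      ∃ v, ChLG (IccExtend zero_le_one (H.curry t)) 0 1 v := fun t => by
    obtain ⟨v, h0, η, hη, hv⟩ := g.2.2
    refine ⟨(congrArg g.1 (mul_zero t)).trans g.2.1, t * v, mul_nonneg t.2.1 h0, η, hη,
      fun a ha b hb hab => ?_⟩
    have e : |(t : ℝ) * a - t * b| = t * |a - b| := by
      rw [← mul_sub, abs_mul, abs_of_nonneg t.2.1]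
    have := hv _ (t * ⟨a, ha⟩).2 _ (t * ⟨b, hb⟩).2 (by
      change |(t : ℝ) * a - t * b| ≤ η
      rw [e]
      exact (mul_le_of_le_one_left (abs_nonneg _) t.2.2).trans hab)
    rw [IccExtend_val, IccExtend_val] at this
    rw [IccExtend_of_mem _ _ ha, IccExtend_of_mem _ _ hb]
    refine this.trans ?_
    change |(t : ℝ) * a - t * b| * v = _
    rw [e]
    ring
  let Γ : unitInterval → ChG x := fun t => ⟨H.curry t, hH t⟩
  have hΓ : Continuous Γ := H.curry.continuous.subtype_mk _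
  have key := hcov.eq_of_comp_eq (g₁ := fun t => s (g.1 t)) (g₂ := Γ)
    (s.continuous.comp g.1.continuous) hΓ
    (funext fun t => (hs' _).trans (congrArg g.1 (mul_one t).symm)) 0 (by
      rw [g.2.1, s0]
      exact Subtype.ext (ContinuousMap.ext fun u =>
        ((congrArg g.1 (zero_mul u)).trans g.2.1).symm))
  exact (congrFun key 1).trans
    (Subtype.ext (ContinuousMap.ext fun u => congrArg g.1 (one_mul u)))

theorem ch_unique [CompleteSpace X] [SimplyConnectedSpace X] (hK : LocK X ε) {c c' : ℝ → X}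
    {v v' : ℝ} (h : ChLG c 0 1 v) (h' : ChLG c' 0 1 v') (h0 : c 0 = c' 0) (h1 : c 1 = c' 1)
    {t : ℝ} (ht : t ∈ Icc (0 : ℝ) 1) : c t = c' t := by
  obtain ⟨s, -, hs⟩ := ch_bijective hK (c 0)
  have e : ChG.mk h rfl = ChG.mk h' h0.symm := by
    rw [← hs (ChG.mk h rfl), ← hs (ChG.mk h' h0.symm)]
    exact congrArg s h1
  exact congrArg (fun g : ChG (c 0) => g.1 ⟨t, ht⟩) e

theorem ch_speed (hK : LocK X ε) {c c' : ℝ → X} {v v' : ℝ} (h : ChLG c 0 1 v)
    (h' : ChLG c' 0 1 v') (h0 : c 0 = c' 0)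
    (hd : ∀ t ∈ Icc (0 : ℝ) 1, dist (c t) (c' t) < ε / 8) : v' ≤ v + dist (c 1) (c' 1) := by
  obtain ⟨η, hη, H⟩ := h'.2
  have h1 : 0 < min η 1 := lt_min hη one_pos
  have ht : min η 1 ∈ Icc (0 : ℝ) 1 := ⟨h1.le, min_le_right _ _⟩
  have a : |0 - min η 1| = min η 1 := by rw [zero_sub, abs_neg, abs_of_pos h1]
  have e1 := H 0 (left_mem_Icc.2 zero_le_one) _ ht (by rw [a]; exact min_le_left _ _)
  have e2 := h.lip (left_mem_Icc.2 zero_le_one) ht
  have e3 := ch_convex_zero hK h h' h0 hd ht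
  have e4 := dist_triangle (c 0) (c (min η 1)) (c' (min η 1))
  rw [a] at e1 e2
  rw [← h0] at e1
  refine le_of_mul_le_mul_left ?_ h1
  linarith

theorem ch_exists [CompleteSpace X] [SimplyConnectedSpace X] (hK : LocK X ε) (hl : IsLen X)
    (x y : X) : ∃ c : ℝ → X, c 0 = x ∧ c 1 = y ∧
      ∀ s ∈ Icc (0 : ℝ) 1, ∀ t ∈ Icc (0 : ℝ) 1, dist (c s) (c t) = |s - t| * dist x y := by
  have hε := hK.pos
  obtain ⟨s, hs, -⟩ := ch_bijective hK x
  choose v hv using fun y => (s y).2.2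
  have c0 : ∀ y, IccExtend zero_le_one (s y).1 0 = x := fun y => by
    rw [IccExtend_left]; exact (s y).2.1
  have c1 : ∀ y, IccExtend zero_le_one (s y).1 1 = y := fun y => by
    rw [IccExtend_right]; exact hs y
  have hx : ChLG (fun _ : ℝ => x) 0 1 0 := ⟨le_rfl, 1, one_pos, by simp⟩
  have v0 : v x ≤ 0 := by
    have := ch_speed hK hx (hv x) (c0 x).symm fun t ht => by
      rw [← ch_unique hK hx (hv x) (c0 x).symm (c1 x).symm ht, dist_self]
      positivity
    rwa [c1, dist_self, add_zero] at this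
  have loc : ∀ y z, dist (s y) (s z) < ε / 8 → v z ≤ v y + dist y z := fun y z hyz => by
    have := ch_speed hK (hv y) (hv z) ((c0 y).trans (c0 z).symm) fun t ht => by
      rw [IccExtend_of_mem _ _ ht, IccExtend_of_mem _ _ ht]
      exact ((s y).dist_le (s z) _).trans_lt hyz
    rwa [c1, c1] at this
  have lip := hl.lip v (fun y => by
    have : ∀ᶠ z in 𝓝 y, dist (s z) (s y) < ε / 8 :=
      Metric.tendsto_nhds.1 (s.continuous.tendsto y) _ (by positivity)
    filter_upwards [this] with z hz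
    rw [edist_dist, edist_dist]
    refine ENNReal.ofReal_le_ofReal ?_
    rw [Real.dist_eq, abs_le]
    have e1 := loc z y hz
    have e2 := loc y z (by rwa [dist_comm])
    rw [dist_comm] at e1
    constructor <;> linarith) x y
  rw [edist_dist, edist_dist, ENNReal.ofReal_le_ofReal_iff dist_nonneg, Real.dist_eq,
    abs_le] at lip
  have h0 := left_mem_Icc.2 (zero_le_one (α := ℝ))
  have h1 := right_mem_Icc.2 (zero_le_one (α := ℝ))
  have e : v y = dist x y := by
    have := (hv y).lip h0 h1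
    rw [c0, c1] at this
    norm_num at this
    linarith [lip.1]
  refine ⟨_, c0 y, c1 y, fun a ha b hb => ?_⟩
  wlog hab : a ≤ b generalizing a b
  · rw [dist_comm, abs_sub_comm]
    exact this b hb a ha (by linarith)
  have e1 := (hv y).lip h0 ha
  have e2 := (hv y).lip ha hb
  have e3 := (hv y).lip hb h1
  have e4 := dist_triangle4 x (IccExtend zero_le_one (s y).1 a) (IccExtend zero_le_one (s y).1 b) y
  rw [c0, zero_sub, abs_neg, abs_of_nonneg ha.1] at e1
  rw [c1, abs_of_nonpos (by linarith [hb.2])] at e3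
  rw [abs_of_nonpos (by linarith)] at e2 ⊢
  rw [e] at e1 e2 e3
  linarith

/-- A geodesic through a given point between two points. -/
theorem ch_through (hg : ∀ x y : X, ∃ c : ℝ → X, c 0 = x ∧ c 1 = y ∧
      ∀ s ∈ Icc (0 : ℝ) 1, ∀ t ∈ Icc (0 : ℝ) 1, dist (c s) (c t) = |s - t| * dist x y)
    {y x z : X} (b : Btw y x z) {θ : ℝ} (hθ : θ ∈ Icc (0 : ℝ) 1) (e : dist y x = θ * dist y z) :
    ∃ c : ℝ → X, ChLG c 0 1 (dist y z) ∧ c 0 = y ∧ c 1 = z ∧ c θ = x := by
  have unit : ∀ x y : X, ∃ c : ℝ → X, c 0 = x ∧ c (dist x y) = y ∧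
      ∀ s ∈ Icc 0 (dist x y), ∀ t ∈ Icc 0 (dist x y), dist (c s) (c t) = |s - t| := by
    intro x y
    rcases eq_or_ne x y with rfl | hne
    · refine ⟨fun _ => x, rfl, rfl, fun s hs t ht => ?_⟩
      simp only [dist_self, Icc_self, mem_singleton_iff] at hs ht
      simp [hs, ht]
    obtain ⟨c, c0, c1, hc⟩ := hg x y
    have hd := dist_pos.2 hne
    refine ⟨fun t => c (t / dist x y), by simpa using c0, by simpa [hd.ne'] using c1,
      fun s hs t ht => ?_⟩
    rw [hc _ ⟨div_nonneg hs.1 hd.le, (div_le_one hd).2 hs.2⟩ _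
      ⟨div_nonneg ht.1 hd.le, (div_le_one hd).2 ht.2⟩, ← sub_div, abs_div, abs_of_pos hd]
    field_simp
  obtain ⟨c, c0, c1, hc⟩ := unit y x
  obtain ⟨c', c0', c1', hc'⟩ := unit x z
  unfold Btw at b
  have d1 := dist_nonneg (x := y) (y := x)
  have d2 := dist_nonneg (x := x) (y := z)
  have key : ∀ s ∈ Icc 0 (dist y z), ∀ t ∈ Icc 0 (dist y z), s ≤ t →
      dist (if s ≤ dist y x then c s else c' (s - dist y x))
        (if t ≤ dist y x then c t else c' (t - dist y x)) = t - s := by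
    intro s hs t ht hst
    by_cases h1 : t ≤ dist y x
    · rw [if_pos h1, if_pos (hst.trans h1), hc s ⟨hs.1, hst.trans h1⟩ t ⟨ht.1, h1⟩,
        abs_of_nonpos (by linarith), neg_sub]
    have mt : t - dist y x ∈ Icc 0 (dist x z) := ⟨by linarith, by linarith [ht.2]⟩
    by_cases h2 : s ≤ dist y x
    · rw [if_neg h1, if_pos h2]
      have e1 := hc 0 ⟨le_rfl, d1⟩ s ⟨hs.1, h2⟩
      have e2 := hc s ⟨hs.1, h2⟩ _ ⟨d1, le_rfl⟩
      have e3 := hc' 0 ⟨le_rfl, d2⟩ _ mt
      have e4 := hc' _ mt _ ⟨d2, le_rfl⟩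
      rw [c0, abs_of_nonpos (by linarith [hs.1])] at e1
      rw [c1, abs_of_nonpos (by linarith)] at e2
      rw [c0', abs_of_nonpos (by linarith)] at e3
      rw [c1', abs_of_nonpos (by linarith [mt.2])] at e4
      have t1 := dist_triangle (c s) x (c' (t - dist y x))
      have t2 := dist_triangle4 y (c s) (c' (t - dist y x)) z
      linarith
    · rw [if_neg h1, if_neg h2, hc' _ ⟨by linarith, by linarith [hs.2]⟩ _ mt,
        abs_of_nonpos (by linarith)]
      ring
  have hD := dist_nonneg (x := y) (y := z)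
  have m : ∀ s ∈ Icc (0 : ℝ) 1, s * dist y z ∈ Icc 0 (dist y z) := fun s hs =>
    ⟨mul_nonneg hs.1 hD, mul_le_of_le_one_left hD hs.2⟩
  refine ⟨fun t => if t * dist y z ≤ dist y x then c (t * dist y z)
    else c' (t * dist y z - dist y x), ⟨hD, 1, one_pos, fun s hs t ht _ => ?_⟩, ?_, ?_, ?_⟩
  · rcases le_total s t with h | h
    · rw [key _ (m s hs) _ (m t ht) (mul_le_mul_of_nonneg_right h hD), abs_of_nonpos (by linarith)]
      ring
    · rw [dist_comm, key _ (m t ht) _ (m s hs) (mul_le_mul_of_nonneg_right h hD),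
        abs_of_nonneg (by linarith)]
      ring
  · simp [c0]
  · simp only [one_mul]
    split_ifs with h
    · have h1 : dist x z = 0 := by linarith
      have h2 : dist y z = dist y x := by linarith
      rw [h2, c1]
      exact dist_eq_zero.1 h1
    · rw [show dist y z - dist y x = dist x z by linarith, c1']
  · simp only [← e, le_refl, if_true, c1]

end

/-- The Cartan-Hadamard theorem for metric spaces. -/
theorem ugeo_of_simplyConnected {X : Type} [MetricSpace X] [CompleteSpace X]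
    [SimplyConnectedSpace X] {ε : ℝ} (h : LocK X ε) (hl : IsLen X) : ∃ δ, UGeo X δ := by
  have hε := h.pos
  have hg := ch_exists h hl
  refine ⟨ε / 64, by positivity, fun y z s h0 h1 => ?_, fun y x x' z b b' e => ?_,
    fun p y z y' z' t hyz b b' e e' t0 t1 => ?_⟩
  · rcases eq_or_ne y z with rfl | hne
    · exact ⟨y, by rw [dist_self] at h1 ⊢; linarith, by simp [Btw]⟩
    obtain ⟨c, c0, c1, hc⟩ := hg y z
    have hd := dist_pos.2 hne
    have m : s / dist y z ∈ Icc (0 : ℝ) 1 := ⟨div_nonneg h0 hd.le, (div_le_one hd).2 h1⟩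
    have e1 := hc 0 ⟨le_rfl, zero_le_one⟩ _ m
    have e2 := hc _ m 1 ⟨zero_le_one, le_rfl⟩
    rw [c0, abs_of_nonpos (by linarith [m.1])] at e1
    rw [c1, abs_of_nonpos (by linarith [m.2])] at e2
    refine ⟨c (s / dist y z), ?_, ?_⟩
    · rw [e1]
      field_simp
      ring
    · unfold Btw
      linarith
  · rcases eq_or_ne y z with rfl | hne
    · unfold Btw at b b'
      rw [dist_self, dist_comm x y] at b
      rw [dist_self, dist_comm x' y] at b'
      exact (dist_eq_zero.1 (show dist y x = 0 by linarith)).symm.trans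
        (dist_eq_zero.1 (by linarith))
    have hd := dist_pos.2 hne
    have m : dist y x / dist y z ∈ Icc (0 : ℝ) 1 := ⟨by positivity, (div_le_one hd).2 (by
      unfold Btw at b
      linarith [dist_nonneg (x := x) (y := z)])⟩
    obtain ⟨c, hc, c0, c1, cx⟩ := ch_through hg b m (by field_simp)
    obtain ⟨c', hc', c0', c1', cx'⟩ := ch_through hg b' m (by rw [← e]; field_simp)
    rw [← cx, ← cx']
    exact ch_unique h hc hc' (c0.trans c0'.symm) (c1.trans c1'.symm) m
  · obtain ⟨c, hc, c0, c1, cx⟩ := ch_through hg b ⟨t0, t1⟩ e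
    obtain ⟨c', hc', c0', c1', cx'⟩ := ch_through hg b' ⟨t0, t1⟩ e'
    obtain ⟨g, w, hg, g0, g1, hd⟩ := hc.move h one_pos hyz.le (p := p) (q := z)
      (by rw [c0, dist_self]; exact dist_nonneg) (by rw [c1])
    have := ch_convex_zero h hc hg (c0.trans g0.symm)
      (fun t ht => by linarith [hd t ht]) ⟨t0, t1⟩
    rw [ch_unique h hg hc' (g0.trans c0'.symm) (g1.trans c1'.symm) ⟨t0, t1⟩, cx, cx', c1,
      g1] at this
    exact this.trans (mul_le_of_le_one_left dist_nonneg t1)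

end Pool.Agent.MP_39b1da_gt

end

section

set_option autoImplicit false

namespace Pool.Agent.MP_39b1da_gt

open Filter Topology Set Real
open scoped ENNReal NNReal ContDiff InnerProductSpace

theorem adm_zero : Adm 0 where
  smooth := fun _ _ => contDiffAt_const
  nonneg := fun _ _ => le_rfl
  p_nonneg := fun t _ => by simp
  q_ge := fun t _ => by simp

/-- Admissibility in terms of the square root `a` of `1 + t l`. -/
theorem AdmEx_of {l a a1 a2 : ℝ → ℝ} (hs : ∀ t, 0 ≤ t → ContDiffAt ℝ ∞ l t) (h0 : 0 ≤ l 0)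
    (hl : ∀ t, 0 < t → l t = (a t ^ 2 - 1) / t)
    (ha : ∀ t, 0 < t → HasDerivAt a (a1 t) t) (ha1 : ∀ t, 0 < t → HasDerivAt a1 (a2 t) t)
    (h1 : ∀ t, 0 < t → 1 ≤ a t) (h2 : ∀ t, 0 < t → 1 ≤ a t + 2 * t * a1 t)
    (h3 : ∀ t, 0 < t →
      1 ≤ a t + 2 * t * a1 t + 2 * (1 + t) * (3 * a1 t + 2 * t * a2 t)) : Adm l := by
  have d1 : ∀ t, 0 < t → deriv l t = (2 * a t * a1 t * t - (a t ^ 2 - 1)) / t ^ 2 := by
    intro t ht
    have e : l =ᶠ[𝓝 t] fun s => (a s ^ 2 - 1) / s := by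
      filter_upwards [lt_mem_nhds ht] with s hs using hl s hs
    rw [e.deriv_eq]
    have := ((((ha t ht).pow 2).sub_const 1).div (hasDerivAt_id' t) ht.ne').deriv
    refine this.trans ?_
    simp
  have d2 : ∀ t, 0 < t → deriv (deriv l) t =
      ((2 * a1 t * a1 t + 2 * a t * a2 t) * t ^ 3 -
        (2 * a t * a1 t * t - (a t ^ 2 - 1)) * (2 * t)) / t ^ 4 := by
    intro t ht
    have e : deriv l =ᶠ[𝓝 t] fun s => (2 * a s * a1 s * s - (a s ^ 2 - 1)) / s ^ 2 := by
      filter_upwards [lt_mem_nhds ht] with s hs using d1 s hs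
    rw [e.deriv_eq]
    have := (((((((ha t ht).const_mul 2).mul (ha1 t ht)).mul (hasDerivAt_id' t)).sub
      (((ha t ht).pow 2).sub_const 1))).div ((hasDerivAt_id' t).pow 2)
        (pow_pos ht 2).ne').deriv
    refine this.trans ?_
    simp only [Pi.mul_apply, Pi.pow_apply, Pi.sub_apply]
    field_simp
    ring
  refine ⟨hs, fun t ht => ?_, fun t ht => ?_, fun t ht => ?_⟩
  · rcases ht.eq_or_lt with rfl | ht
    · exact h0
    · rw [hl t ht]
      exact div_nonneg (by nlinarith [h1 t ht]) ht.le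
  · rcases ht.eq_or_lt with rfl | ht
    · linarith
    · have e : 2 * l t + t * deriv l t = (a t * (a t + 2 * t * a1 t) - 1) / t := by
        rw [hl t ht, d1 t ht]; field_simp; ring
      rw [e]
      exact div_nonneg (by nlinarith [h1 t ht, h2 t ht]) ht.le
  · rcases ht.eq_or_lt with rfl | ht
    · linarith
    · have e : t * (2 * l t + t * deriv l t) * (1 + t * l t) +
          (1 + t) * (3 * (1 + t * l t) * (l t + t * deriv l t) +
            2 * t * (1 + t * l t) * (2 * deriv l t + t * deriv (deriv l) t) -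
            t * (l t + t * deriv l t) ^ 2) = a t ^ 2 *
          (a t * (a t + 2 * t * a1 t + 2 * (1 + t) * (3 * a1 t + 2 * t * a2 t)) - 1) := by
        rw [hl t ht, d1 t ht, d2 t ht]; field_simp; ring
      rw [e]
      exact mul_nonneg (sq_nonneg _) (by nlinarith [h1 t ht, h3 t ht])

/-- The cutoff function. -/
noncomputable def AdmExQ (t : ℝ) : ℝ := Real.smoothTransition ((4 - 1024 * t) / 3)

theorem AdmExQ_smooth : ContDiff ℝ ∞ AdmExQ :=
  Real.smoothTransition.contDiff.comp (by fun_prop)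

theorem AdmExQ_one {t : ℝ} (h : t ≤ 1 / 1024) : AdmExQ t = 1 :=
  Real.smoothTransition.one_of_one_le (by linarith)

theorem AdmExQ_zero {t : ℝ} (h : 1 / 256 ≤ t) : AdmExQ t = 0 :=
  Real.smoothTransition.zero_of_nonpos (by linarith)

theorem AdmExQ_smooth1 : ContDiff ℝ ∞ (deriv AdmExQ) :=
  (contDiff_infty_iff_deriv.1 AdmExQ_smooth).2

theorem AdmExQ_smooth2 : ContDiff ℝ ∞ (deriv (deriv AdmExQ)) :=
  (contDiff_infty_iff_deriv.1 AdmExQ_smooth1).2

theorem AdmEx_const {f : ℝ → ℝ} {U : Set ℝ} (hU : IsOpen U) {c : ℝ} (h : ∀ t ∈ U, f t = c) :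
    ∀ t ∈ U, deriv f t = 0 := by
  intro t ht
  have e : f =ᶠ[𝓝 t] fun _ => c := by
    filter_upwards [hU.mem_nhds ht] with s hs using h s hs
  rw [e.deriv_eq, deriv_const]

theorem AdmExQ_bound : ∃ M : ℝ, 0 ≤ M ∧ ∀ t ∈ Icc (0 : ℝ) 1,
    |deriv AdmExQ t| ≤ M ∧ |deriv (deriv AdmExQ) t| ≤ M := by
  obtain ⟨M1, h1⟩ := isCompact_Icc.exists_bound_of_continuousOn
    (AdmExQ_smooth1.continuous.continuousOn (s := Icc (0 : ℝ) 1))
  obtain ⟨M2, h2⟩ := isCompact_Icc.exists_bound_of_continuousOn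
    (AdmExQ_smooth2.continuous.continuousOn (s := Icc (0 : ℝ) 1))
  refine ⟨max (max M1 M2) 0, le_max_right _ _, fun t ht => ⟨?_, ?_⟩⟩
  · exact (h1 t ht).trans ((le_max_left _ _).trans (le_max_left _ _))
  · exact (h2 t ht).trans ((le_max_right _ _).trans (le_max_left _ _))

/-- The function `(d² + t)^(-1/2)`. -/
noncomputable def AdmExV (d t : ℝ) : ℝ := (√(d ^ 2 + t))⁻¹

theorem AdmExV_pos {d t : ℝ} (h : 0 < d ^ 2 + t) : 0 < AdmExV d t :=
  inv_pos.2 (Real.sqrt_pos.2 h)

theorem AdmExV_sq {d t : ℝ} (h : 0 < d ^ 2 + t) : AdmExV d t ^ 2 * (d ^ 2 + t) = 1 := by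
  rw [AdmExV, inv_pow, Real.sq_sqrt h.le, inv_mul_cancel₀ h.ne']

theorem AdmExV_deriv {d t : ℝ} (h : 0 < d ^ 2 + t) :
    HasDerivAt (AdmExV d) (-(AdmExV d t ^ 3 / 2)) t := by
  have h1 : 0 < √(d ^ 2 + t) := Real.sqrt_pos.2 h
  have := (((hasDerivAt_id' t).const_add (d ^ 2)).sqrt h.ne').inv h1.ne'
  refine this.congr_deriv ?_
  simp only [AdmExV]
  field_simp

theorem AdmExV_smooth {d t : ℝ} (h : 0 < d ^ 2 + t) : ContDiffAt ℝ ∞ (AdmExV d) t :=
  ((contDiffAt_const.add contDiffAt_id).sqrt h.ne').inv (Real.sqrt_pos.2 h).ne'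

theorem AdmEx_mid {M v q q1 q2 : ℝ} (hM : 0 ≤ M) (hv : 0 < v) (hv1 : v ≤ 32)
    (hq : 0 ≤ q) (hq' : q ≤ 1) (hq1 : |q1| ≤ M) (hq2 : |q2| ≤ M) :
    q * v ≤ 2 ^ 25 * (M + 1) ∧ q1 * v - q * v ^ 3 / 2 ≤ 2 ^ 25 * (M + 1) ∧
      q2 * v - q1 * v ^ 3 + 3 / 4 * q * v ^ 5 ≤ 2 ^ 25 * (M + 1) := by
  have h3 : v ^ 3 ≤ 32 ^ 3 := pow_le_pow_left₀ hv.le hv1 3
  have h5 : v ^ 5 ≤ 32 ^ 5 := pow_le_pow_left₀ hv.le hv1 5
  have h3' : 0 < v ^ 3 := by positivity
  have h5' : 0 < v ^ 5 := by positivity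
  have a1 := abs_le.1 hq1
  have a2 := abs_le.1 hq2
  have b0 : q * v ≤ 32 := by nlinarith
  have b1 : q1 * v ≤ M * 32 := by nlinarith
  have b2 : q2 * v ≤ M * 32 := by nlinarith
  have b3 : -q1 * v ^ 3 ≤ M * 32 ^ 3 := by nlinarith
  have b4 : q * v ^ 5 ≤ 32 ^ 5 := by nlinarith
  have b5 : 0 ≤ q * v ^ 3 := by positivity
  refine ⟨by nlinarith, by nlinarith, by nlinarith⟩

/-- The profile `c = 1 - d Q (d² + t)^(-1/2)` and its differential inequalities. -/
theorem AdmEx_ineq : ∃ d : ℝ, 0 < d ∧ ∀ t, 0 < t → ∀ c c1 c2 : ℝ,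
    c = 1 - d * (AdmExQ t * AdmExV d t) →
    c1 = -(d * (deriv AdmExQ t * AdmExV d t - AdmExQ t * AdmExV d t ^ 3 / 2)) →
    c2 = -(d * (deriv (deriv AdmExQ) t * AdmExV d t - deriv AdmExQ t * AdmExV d t ^ 3 +
      3 / 4 * AdmExQ t * AdmExV d t ^ 5)) →
    0 ≤ c ∧ 0 ≤ c + 2 * t * c1 ∧ 0 ≤ c + 2 * t * c1 + 2 * (1 + t) * (3 * c1 + 2 * t * c2) := by
  obtain ⟨M, hM, hb⟩ := AdmExQ_bound
  have hB : (0 : ℝ) < 2 ^ 25 * (M + 1) := by positivity
  refine ⟨1 / (32 * (2 ^ 25 * (M + 1))), by positivity, ?_⟩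
  set d : ℝ := 1 / (32 * (2 ^ 25 * (M + 1))) with hd
  have hd0 : 0 < d := by positivity
  have hdB : d * (2 ^ 25 * (M + 1)) = 1 / 32 := by rw [hd]; field_simp
  intro t ht c c1 c2 hc hc1 hc2
  have hp : 0 < d ^ 2 + t := by positivity
  have hv := AdmExV_pos hp
  have hv2 := AdmExV_sq hp
  set v := AdmExV d t with hvdef
  rcases lt_or_ge t (1 / 1024) with h | h
  · have e1 := AdmEx_const (f := AdmExQ) isOpen_Iio (c := 1)
      (fun s (hs : s ∈ Iio (1 / 1024 : ℝ)) => AdmExQ_one (le_of_lt hs))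
    have e2 := AdmEx_const isOpen_Iio e1 t h
    rw [AdmExQ_one h.le] at hc hc1 hc2
    rw [e1 t h] at hc1 hc2
    rw [e2] at hc2
    have b0 : d * v ≤ 1 := by
      have : (d * v) ^ 2 ≤ 1 := by nlinarith [mul_pos ht (pow_pos hv 2)]
      exact (abs_le_one_iff_mul_self_le_one.2 (by nlinarith)).trans' (le_abs_self _)
    have b1 : 0 ≤ c := by rw [hc]; linarith
    have b2 : 0 ≤ c1 := by
      have : 0 ≤ d * v ^ 3 := by positivity
      rw [hc1]; linarith
    have b3 : 3 * c1 + 2 * t * c2 = 3 / 2 * d ^ 3 * v ^ 5 := by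
      rw [hc1, hc2]; linear_combination (-(3 / 2) * d * v ^ 3) * hv2
    have b4 : 0 ≤ 2 * t * c1 := by positivity
    have b5 : 0 ≤ 2 * (1 + t) * (3 / 2 * d ^ 3 * v ^ 5) := by positivity
    rw [b3]
    exact ⟨b1, by linarith, by linarith⟩
  rcases le_or_gt t (1 / 256) with h' | h'
  · have hv1 : v ≤ 32 := by
      by_contra hc
      push Not at hc
      nlinarith [mul_pos hv hv, sq_nonneg d, mul_nonneg (sq_nonneg d) (sq_nonneg v)]
    obtain ⟨m0, m1, m2⟩ := AdmEx_mid hM hv hv1 (q := AdmExQ t)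
      (Real.smoothTransition.nonneg _) (Real.smoothTransition.le_one _)
      (hb t ⟨ht.le, by linarith⟩).1 (hb t ⟨ht.le, by linarith⟩).2
    have n0 := mul_le_mul_of_nonneg_left m0 hd0.le
    have n1 := mul_le_mul_of_nonneg_left m1 hd0.le
    have n2 := mul_le_mul_of_nonneg_left m2 hd0.le
    rw [hdB] at n0 n1 n2
    have o0 : 31 / 32 ≤ c := by rw [hc]; linarith
    have o1 : -(1 / 32) ≤ c1 := by rw [hc1]; linarith
    have o2 : -(1 / 32) ≤ c2 := by rw [hc2]; linarith
    have o3 : -(1 / 32) ≤ t * c1 := by nlinarith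
    have o4 : -(1 / 32) ≤ t * c2 := by nlinarith
    have o5 : -(5 / 32) ≤ 3 * c1 + 2 * t * c2 := by linarith
    have o6 : -(10 / 32) ≤ (1 + t) * (3 * c1 + 2 * t * c2) := by nlinarith
    exact ⟨by linarith, by linarith, by linarith⟩
  · have e1 := AdmEx_const (f := AdmExQ) isOpen_Ioi (c := 0)
      (fun s (hs : s ∈ Ioi (1 / 256 : ℝ)) => AdmExQ_zero (le_of_lt hs))
    have e2 := AdmEx_const isOpen_Ioi e1 t h'
    rw [AdmExQ_zero h'.le] at hc hc1 hc2
    rw [e1 t h'] at hc1 hc2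
    rw [e2] at hc2
    rw [hc, hc1, hc2]
    norm_num

theorem exists_adm {k : ℝ} (hk : 1 ≤ k) :
    ∃ l, Adm l ∧ ∀ t, 1 / 256 ≤ t → l t = (k ^ 2 - 1) / t := by
  obtain ⟨d, hd, H⟩ := AdmEx_ineq
  have hk' : 0 ≤ k - 1 := by linarith
  have hQ : ∀ t, HasDerivAt AdmExQ (deriv AdmExQ t) t := fun t =>
    (AdmExQ_smooth.differentiable (by simp) t).hasDerivAt
  have hQ1 : ∀ t, HasDerivAt (deriv AdmExQ) (deriv (deriv AdmExQ) t) t := fun t =>
    (AdmExQ_smooth1.differentiable (by simp) t).hasDerivAt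
  let c : ℝ → ℝ := fun t => 1 - d * (AdmExQ t * AdmExV d t)
  let c1 : ℝ → ℝ := fun t =>
    -(d * (deriv AdmExQ t * AdmExV d t - AdmExQ t * AdmExV d t ^ 3 / 2))
  let c2 : ℝ → ℝ := fun t =>
    -(d * (deriv (deriv AdmExQ) t * AdmExV d t - deriv AdmExQ t * AdmExV d t ^ 3 +
      3 / 4 * AdmExQ t * AdmExV d t ^ 5))
  let r : ℝ → ℝ := fun t => d * AdmExV d t * ((1 - AdmExQ t) / t)
  let l : ℝ → ℝ := fun t =>
    (2 + (k - 1) * c t) * (k - 1) * (AdmExV d t ^ 2 / (1 + d * AdmExV d t) + r t)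
  have hp : ∀ t, 0 ≤ t → 0 < d ^ 2 + t := fun t ht => by positivity
  have hl : ∀ t, 0 < t → l t = ((1 + (k - 1) * c t) ^ 2 - 1) / t := by
    intro t ht
    have hv := AdmExV_pos (hp t ht.le)
    have hv2 := AdmExV_sq (hp t ht.le)
    have e : AdmExV d t ^ 2 / (1 + d * AdmExV d t) + r t = c t / t := by
      have : AdmExV d t ^ 2 / (1 + d * AdmExV d t) = (1 - d * AdmExV d t) / t := by
        rw [div_eq_div_iff (by positivity) ht.ne']
        linear_combination hv2
      rw [this]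
      simp only [r, c]
      field_simp
      ring
    simp only [l]
    rw [e]
    field_simp
    ring
  have hc : ∀ t, 0 < t → HasDerivAt c (c1 t) t := by
    intro t ht
    refine ((((hQ t).mul (AdmExV_deriv (hp t ht.le))).const_mul d).const_sub 1).congr_deriv ?_
    simp only [c1]
    ring
  have hc1 : ∀ t, 0 < t → HasDerivAt c1 (c2 t) t := by
    intro t ht
    have hv := AdmExV_deriv (hp t ht.le)
    refine (((((hQ1 t).mul hv).sub (((hQ t).mul (hv.pow 3)).div_const 2)).const_mul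
      d).neg).congr_deriv ?_
    simp only [c2, Pi.pow_apply, Nat.cast_ofNat, Nat.add_one_sub_one]
    ring
  have hr : ∀ t, 0 ≤ t → ContDiffAt ℝ ∞ r t := by
    intro t ht
    refine (contDiffAt_const.mul (AdmExV_smooth (hp t ht))).mul ?_
    rcases ht.eq_or_lt with rfl | ht
    · refine (contDiffAt_const (c := (0 : ℝ))).congr_of_eventuallyEq ?_
      filter_upwards [gt_mem_nhds (show (0 : ℝ) < 1 / 1024 by norm_num)] with s hs
      rw [AdmExQ_one hs.le, sub_self, zero_div]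
    · exact (contDiffAt_const.sub AdmExQ_smooth.contDiffAt).div contDiffAt_id ht.ne'
  refine ⟨l, AdmEx_of (a := fun t => 1 + (k - 1) * c t) (a1 := fun t => (k - 1) * c1 t)
    (a2 := fun t => (k - 1) * c2 t) ?_ ?_ hl ?_ ?_ ?_ ?_ ?_, ?_⟩
  · intro t ht
    have hv := AdmExV_pos (hp t ht)
    have hV := AdmExV_smooth (hp t ht)
    refine ((contDiffAt_const.add (contDiffAt_const.mul (contDiffAt_const.sub
      (contDiffAt_const.mul (AdmExQ_smooth.contDiffAt.mul hV))))).mul contDiffAt_const).mul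
      (((hV.pow 2).div (contDiffAt_const.add (contDiffAt_const.mul hV)) ?_).add (hr t ht))
    positivity
  · have hv := AdmExV_pos (hp 0 le_rfl)
    have hv2 := AdmExV_sq (hp 0 le_rfl)
    have e : d * AdmExV d 0 = 1 := by
      have : (d * AdmExV d 0 - 1) * (d * AdmExV d 0 + 1) = 0 := by linear_combination hv2
      rcases mul_eq_zero.1 this with h | h
      · linarith
      · nlinarith [mul_pos hd hv]
    have e1 : c 0 = 0 := by
      simp only [c]
      rw [AdmExQ_one (by norm_num), one_mul, e, sub_self]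
    have e2 : r 0 = 0 := by simp [r]
    simp only [l]
    rw [e1, e2]
    positivity
  · exact fun t ht => ((hc t ht).const_mul _).const_add 1
  · exact fun t ht => (hc1 t ht).const_mul _
  · intro t ht
    have := mul_nonneg hk' (H t ht (c t) (c1 t) (c2 t) rfl rfl rfl).1
    linarith
  · intro t ht
    have := mul_nonneg hk' (H t ht (c t) (c1 t) (c2 t) rfl rfl rfl).2.1
    linarith
  · intro t ht
    have := mul_nonneg hk' (H t ht (c t) (c1 t) (c2 t) rfl rfl rfl).2.2
    linarith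
  · intro t ht
    rw [hl t (by linarith)]
    simp only [c]
    rw [AdmExQ_zero ht]
    ring

end Pool.Agent.MP_39b1da_gt

end
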