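import Pool.Agent.Mg.F39b1da.G324722

section

set_option autoImplicit false

namespace Pool.Agent.MP_39b1da_gt

open Filter Topology Set Real
open scoped ENNReal NNReal ContDiff InnerProductSpace

/-- The hyperbolic law of cosines. -/
noncomputable def patchH (s t θ : ℝ) : ℝ := cosh s * cosh t - sinh s * sinh t * cos θ

theorem patchH_comm (s t θ : ℝ) : patchH s t θ = patchH t s θ := by
  unfold patchH; ring

theorem patchH_zero (t θ : ℝ) : patchH 0 t θ = cosh t := by
  simp [patchH]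

theorem patchH_pi (s t : ℝ) : patchH s t π = cosh (s + t) := by
  simp [patchH, cosh_add]

theorem patchH_mono {s t θ θ' : ℝ} (hs : 0 ≤ s) (ht : 0 ≤ t) (h0 : 0 ≤ θ) (h : θ ≤ θ')
    (h1 : θ' ≤ π) : patchH s t θ ≤ patchH s t θ' := by
  have h2 := cos_le_cos_of_nonneg_of_le_pi h0 h1 h
  have h3 : 0 ≤ sinh s * sinh t := mul_nonneg (sinh_nonneg_iff.2 hs) (sinh_nonneg_iff.2 ht)
  unfold patchH
  nlinarith

theorem patchH_le_inv {s t θ θ' : ℝ} (hs : 0 < s) (ht : 0 < t) (h0 : 0 ≤ θ') (h1 : θ ≤ π)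
    (h : patchH s t θ ≤ patchH s t θ') : θ ≤ θ' := by
  by_contra hc
  have hlt : θ' < θ := lt_of_not_ge hc
  have h2 := cos_lt_cos_of_nonneg_of_le_pi h0 h1 hlt
  have h3 : 0 < sinh s * sinh t := mul_pos (sinh_pos_iff.2 hs) (sinh_pos_iff.2 ht)
  unfold patchH at h
  nlinarith

theorem patchH_aff (s a b θ : ℝ) :
    sinh a * patchH s b θ = sinh (a - s) * cosh b + sinh s * patchH a b θ := by
  unfold patchH
  rw [sinh_sub]; ring

theorem one_le_patchH {s t : ℝ} (θ : ℝ) (hs : 0 ≤ s) (ht : 0 ≤ t) : 1 ≤ patchH s t θ := by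
  have h3 : 0 ≤ sinh s * sinh t := mul_nonneg (sinh_nonneg_iff.2 hs) (sinh_nonneg_iff.2 ht)
  have h1 := one_le_cosh (s - t)
  have h2 := cos_le_one θ
  rw [cosh_sub] at h1
  unfold patchH
  nlinarith

theorem patch_cosh_arsinh {X Y : ℝ} (hX : 0 ≤ X) (h : X ^ 2 = 1 + Y ^ 2) :
    cosh (arsinh Y) = X := by
  rw [cosh_arsinh, ← h, Real.sqrt_sq hX]

/-- The segment of a hinge of angle `a + b` meets the ray of angle `a`. -/
theorem patch_mid {s t a b : ℝ} (hs : 0 ≤ s) (ht : 0 ≤ t) (ha : 0 ≤ a) (hb : 0 ≤ b)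
    (hab : a + b < π) : ∃ u α β : ℝ, 0 ≤ u ∧ u ≤ max s t ∧ 0 ≤ α ∧ 0 ≤ β ∧
      cosh α = patchH s u a ∧ cosh β = patchH u t b ∧ cosh (α + β) = patchH s t (a + b) := by
  rcases hs.eq_or_lt with rfl | hs
  · exact ⟨0, 0, t, le_rfl, le_max_left _ _, le_rfl, ht, by simp [patchH], by simp [patchH],
      by simp [patchH]⟩
  rcases ht.eq_or_lt with rfl | ht
  · exact ⟨0, s, 0, le_rfl, le_max_right _ _, hs.le, le_rfl, by simp [patchH], by simp [patchH],
      by simp [patchH]⟩
  rcases ha.eq_or_lt with rfl | ha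
  · have h1 := one_le_patchH b hs.le ht.le
    refine ⟨s, 0, arcosh (patchH s t b), hs.le, le_max_left _ _, le_rfl, arcosh_nonneg h1, ?_,
      cosh_arcosh h1, by rw [zero_add, zero_add, cosh_arcosh h1]⟩
    have := cosh_sq s
    simp only [patchH, cos_zero, cosh_zero]; nlinarith
  have hsa : 0 < sin a := sin_pos_of_pos_of_lt_pi ha (by linarith)
  have hsb : 0 ≤ sin b := sin_nonneg_of_nonneg_of_le_pi hb (by linarith)
  have hsab : 0 ≤ sin (a + b) := sin_nonneg_of_nonneg_of_le_pi (by linarith) hab.le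
  have hS := sinh_pos_iff.2 hs
  have hT := sinh_pos_iff.2 ht
  have hC := one_le_patchH (a + b) hs.le ht.le
  obtain ⟨C, hCdef⟩ : ∃ C, C = patchH s t (a + b) := ⟨_, rfl⟩
  rw [← hCdef] at hC ⊢
  obtain ⟨l, hl⟩ : ∃ l, l = sinh t * sin b := ⟨_, rfl⟩
  obtain ⟨m, hm⟩ : ∃ m, m = sinh s * sin a := ⟨_, rfl⟩
  have hl0 : 0 ≤ l := hl ▸ mul_nonneg hT.le hsb
  have hm0 : 0 < m := hm ▸ mul_pos hS hsa
  have hlm : 0 ≤ l * m := mul_nonneg hl0 hm0.le
  have hN : (l + m) ^ 2 ≤ l ^ 2 + m ^ 2 + 2 * l * m * C := by nlinarith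
  obtain ⟨n, hn⟩ : ∃ n, n = √(l ^ 2 + m ^ 2 + 2 * l * m * C) := ⟨_, rfl⟩
  have hn2 : n ^ 2 = l ^ 2 + m ^ 2 + 2 * l * m * C := by
    rw [hn, Real.sq_sqrt (le_trans (sq_nonneg _) hN)]
  have hn1 : l + m ≤ n := hn ▸ Real.le_sqrt_of_sq_le hN
  have hn0 : 0 < n := by linarith
  obtain ⟨S, hSd⟩ : ∃ S, S = √(C ^ 2 - 1) := ⟨_, rfl⟩
  have hS2 : S ^ 2 = C ^ 2 - 1 := by rw [hSd, Real.sq_sqrt (by nlinarith)]
  have hS0 : 0 ≤ S := hSd ▸ Real.sqrt_nonneg _
  have cs := cosh_sq s
  have ct := cosh_sq t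
  have cps := cosh_pos s
  have cpt := cosh_pos t
  have e1 : sin (a + b) ^ 2 = sin a ^ 2 + sin b ^ 2 + 2 * sin a * sin b * cos (a + b) := by
    rw [sin_add, cos_add]
    have h1 := sin_sq_add_cos_sq a
    have h2 := sin_sq_add_cos_sq b
    linear_combination (sin a) ^ 2 * h2 + (sin b) ^ 2 * h1
  have e2 : sin b = sin (a + b) * cos a - cos (a + b) * sin a := by
    rw [← sin_sub]; ring_nf
  have e3 : sin a = sin (a + b) * cos b - cos (a + b) * sin b := by
    rw [← sin_sub]; ring_nf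
  have hC' : C = cosh s * cosh t - sinh s * sinh t * cos (a + b) := hCdef
  have hu : cosh (arsinh (sinh s * sinh t * sin (a + b) / n)) =
      (l * cosh s + m * cosh t) / n := by
    refine patch_cosh_arsinh (by positivity) ?_
    field_simp
    rw [hn2, hC', e1, hl, hm]
    linear_combination (sinh t * sin b) ^ 2 * cs + (sinh s * sin a) ^ 2 * ct
  have hα : cosh (arsinh (m * S / n)) = (l + m * C) / n := by
    refine patch_cosh_arsinh (by positivity) ?_
    field_simp
    rw [hn2, hS2]; ring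
  have hβ : cosh (arsinh (l * S / n)) = (m + l * C) / n := by
    refine patch_cosh_arsinh (by positivity) ?_
    field_simp
    rw [hn2, hS2]; ring
  refine ⟨arsinh (sinh s * sinh t * sin (a + b) / n), arsinh (m * S / n), arsinh (l * S / n),
    arsinh_nonneg_iff.2 (by positivity), ?_, arsinh_nonneg_iff.2 (by positivity),
    arsinh_nonneg_iff.2 (by positivity), ?_, ?_, ?_⟩
  · have h1 : cosh s ≤ cosh (max s t) := cosh_le_cosh.2 (by
      rw [abs_of_pos hs, abs_of_pos (lt_max_of_lt_left hs)]; exact le_max_left _ _)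
    have h2 : cosh t ≤ cosh (max s t) := cosh_le_cosh.2 (by
      rw [abs_of_pos ht, abs_of_pos (lt_max_of_lt_left hs)]; exact le_max_right _ _)
    have h3 : cosh (arsinh (sinh s * sinh t * sin (a + b) / n)) ≤ cosh (max s t) := by
      rw [hu, div_le_iff₀ hn0]
      have := cosh_pos (max s t)
      nlinarith
    have h4 := cosh_le_cosh.1 h3
    rw [abs_of_pos (lt_max_of_lt_left hs)] at h4
    exact (le_abs_self _).trans h4
  · rw [hα, patchH, hu, sinh_arsinh]
    field_simp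
    rw [hC', hm]
    have : l = sinh t * (sin (a + b) * cos a - cos (a + b) * sin a) := by rw [← e2, hl]
    rw [this]
    linear_combination (-(sinh t * (sin (a + b) * cos a - cos (a + b) * sin a))) * cs
  · rw [hβ, patchH, hu, sinh_arsinh]
    field_simp
    rw [hC', hl]
    have : m = sinh s * (sin (a + b) * cos b - cos (a + b) * sin b) := by rw [← e3, hm]
    rw [this]
    linear_combination (-(sinh s * (sin (a + b) * cos b - cos (a + b) * sin b))) * ct
  · rw [cosh_add, hα, hβ, sinh_arsinh, sinh_arsinh]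
    field_simp
    rw [hn2, hS2]; ring

section
variable {X : Type} [MetricSpace X]

theorem patch_cosh_le {a b : ℝ} (ha : 0 ≤ a) (h : a ≤ b) : cosh a ≤ cosh b :=
  cosh_le_cosh.2 (by rw [abs_of_nonneg ha, abs_of_nonneg (ha.trans h)]; exact h)

theorem patch_le_of_cosh {a b : ℝ} (hb : 0 ≤ b) (h : cosh a ≤ cosh b) : a ≤ b := by
  have := cosh_le_cosh.1 h
  rw [abs_of_nonneg hb] at this
  exact (le_abs_self _).trans this

theorem Btw.patch_symm {y x z : X} (h : Btw y x z) : Btw z x y := by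
  unfold Btw at *
  rw [dist_comm z x, dist_comm x y, dist_comm z y]; linarith

theorem Btw.patch_trans {p w y z : X} (h1 : Btw p w y) (h2 : Btw p y z) : Btw p w z := by
  unfold Btw at *
  have := dist_triangle p w z
  have := dist_triangle w y z
  linarith

theorem Btw.patch_self {p w : X} (h : Btw p w p) : w = p := by
  unfold Btw at h
  rw [dist_self, dist_comm p w] at h
  exact dist_eq_zero.1 (by linarith)

theorem Btw.patch_le {p w y : X} (h : Btw p w y) : dist p w ≤ dist p y := by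
  unfold Btw at h
  have := dist_nonneg (x := w) (y := y)
  linarith

/-- The comparison angle at `p`. -/
noncomputable def patchAng (p y z : X) : ℝ :=
  arccos ((cosh (dist p y) * cosh (dist p z) - cosh (dist y z)) /
    (sinh (dist p y) * sinh (dist p z)))

theorem patchAng_comm (p y z : X) : patchAng p y z = patchAng p z y := by
  unfold patchAng
  rw [dist_comm z y, mul_comm (cosh (dist p y)), mul_comm (sinh (dist p y))]

theorem patchAng_nonneg (p y z : X) : 0 ≤ patchAng p y z := arccos_nonneg _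

theorem patchAng_le (p y z : X) : patchAng p y z ≤ π := arccos_le_pi _

theorem patchH_ang (p y z : X) :
    patchH (dist p y) (dist p z) (patchAng p y z) = cosh (dist y z) := by
  by_cases hy : y = p
  · subst hy; rw [dist_self, patchH_zero]
  by_cases hz : z = p
  · subst hz; rw [dist_self, patchH_comm, patchH_zero, dist_comm]
  have ha := sinh_pos_iff.2 (dist_pos.2 (Ne.symm hy))
  have hb := sinh_pos_iff.2 (dist_pos.2 (Ne.symm hz))
  have hab := mul_pos ha hb
  have h1 : cosh (dist y z) ≤ cosh (dist p y + dist p z) :=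
    patch_cosh_le dist_nonneg (dist_triangle_left _ _ _)
  have h2 : cosh (dist p y - dist p z) ≤ cosh (dist y z) := cosh_le_cosh.2 (by
    rw [abs_of_nonneg (dist_nonneg (x := y) (y := z)), dist_comm p y, dist_comm p z]
    exact abs_dist_sub_le _ _ _)
  rw [cosh_add] at h1
  rw [cosh_sub] at h2
  unfold patchH patchAng
  rw [cos_arccos (by rw [le_div_iff₀ hab]; linarith) (by rw [div_le_iff₀ hab]; linarith)]
  field_simp
  ring

/-- The angle at `p` between the directions to `y` and `z` is at most `θ`. -/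
def PatchLe (p y z : X) (θ : ℝ) : Prop :=
  ∃ η : ℝ, 0 < η ∧ ∀ y' z' : X, Btw p y' y → Btw p z' z → dist p y' ≤ η → dist p z' ≤ η →
    cosh (dist y' z') ≤ patchH (dist p y') (dist p z') θ

theorem PatchLe.symm {p y z : X} {θ : ℝ} (h : PatchLe p y z θ) : PatchLe p z y θ := by
  obtain ⟨η, h0, h⟩ := h
  refine ⟨η, h0, fun y' z' b1 b2 d1 d2 => ?_⟩
  rw [dist_comm y' z', patchH_comm]
  exact h z' y' b2 b1 d2 d1

theorem PatchLe.mono {p y z : X} {θ θ' : ℝ} (h : PatchLe p y z θ) (h0 : 0 ≤ θ) (h1 : θ ≤ θ')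
    (h2 : θ' ≤ π) : PatchLe p y z θ' := by
  obtain ⟨η, hη, h⟩ := h
  exact ⟨η, hη, fun y' z' b1 b2 d1 d2 =>
    (h y' z' b1 b2 d1 d2).trans (patchH_mono dist_nonneg dist_nonneg h0 h1 h2)⟩

theorem patchLe_self (p z : X) (θ : ℝ) : PatchLe p p z θ := by
  refine ⟨1, one_pos, fun y' z' b1 _ _ _ => ?_⟩
  rw [b1.patch_self, dist_self, patchH_zero]

theorem patchLe_pi (p y z : X) : PatchLe p y z π := by
  refine ⟨1, one_pos, fun y' z' _ _ _ _ => ?_⟩
  rw [patchH_pi]
  exact patch_cosh_le dist_nonneg (dist_triangle_left _ _ _)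

theorem PatchLe.add {p y x z : X} {a b : ℝ} (hb : HasBtw p x) (hx : x ≠ p)
    (h1 : PatchLe p y x a) (h2 : PatchLe p x z b) (ha0 : 0 ≤ a) (hb0 : 0 ≤ b)
    (hab : a + b < π) : PatchLe p y z (a + b) := by
  obtain ⟨η1, e1, h1⟩ := h1
  obtain ⟨η2, e2, h2⟩ := h2
  have hd : 0 < dist p x := dist_pos.2 hx.symm
  refine ⟨min (min η1 η2) (dist p x), by positivity, fun y' z' b1 b2 d1 d2 => ?_⟩
  obtain ⟨u, α, β, u0, u1, α0, β0, c1, c2, c3⟩ :=
    patch_mid (dist_nonneg (x := p) (y := y')) (dist_nonneg (x := p) (y := z')) ha0 hb0 hab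
  have u2 : u ≤ min (min η1 η2) (dist p x) := u1.trans (max_le d1 d2)
  simp only [le_min_iff] at d1 d2 u2
  obtain ⟨x', dx, bx⟩ := hb u u0 u2.2
  have k1 := h1 y' x' b1 bx d1.1.1 (dx ▸ u2.1.1)
  have k2 := h2 x' z' bx b2 (dx ▸ u2.1.2) d2.1.2
  rw [dx, ← c1] at k1
  rw [dx, ← c2] at k2
  rw [← c3]
  exact patch_cosh_le dist_nonneg ((dist_triangle y' x' z').trans
    (add_le_add (patch_le_of_cosh α0 k1) (patch_le_of_cosh β0 k2)))

theorem PatchLe.pi_le {y x z : X} {θ : ℝ} (hb : ∀ u v : X, HasBtw u v) (b : Btw y x z)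
    (hy : y ≠ x) (hz : z ≠ x) (h : PatchLe x y z θ) (h0 : 0 ≤ θ) : π ≤ θ := by
  obtain ⟨η, e, h⟩ := h
  have d1 : 0 < dist x y := dist_pos.2 hy.symm
  have d2 : 0 < dist x z := dist_pos.2 hz.symm
  have hs : 0 < min η (min (dist x y) (dist x z)) := by positivity
  obtain ⟨s, hsd⟩ : ∃ s, s = min η (min (dist x y) (dist x z)) := ⟨_, rfl⟩
  have s1 : s ≤ η := hsd ▸ min_le_left _ _
  have s2 : s ≤ dist x y := hsd ▸ (min_le_right _ _).trans (min_le_left _ _)
  have s3 : s ≤ dist x z := hsd ▸ (min_le_right _ _).trans (min_le_right _ _)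
  rw [← hsd] at hs
  obtain ⟨y', dy, by'⟩ := hb x y s hs.le s2
  obtain ⟨z', dz, bz'⟩ := hb x z s hs.le s3
  have k := h y' z' by' bz' (dy ▸ s1) (dz ▸ s1)
  rw [dy, dz] at k
  refine patchH_le_inv hs hs h0 le_rfl (le_trans ?_ k)
  rw [patchH_pi]
  refine patch_cosh_le (by linarith) ?_
  unfold Btw at b by' bz'
  have t1 := dist_triangle4 y y' z' z
  rw [dist_comm y x] at b
  rw [dist_comm y y'] at t1
  linarith

/-- The angle at `p` is at most the comparison angle. -/
def PatchA (p y z : X) : Prop := PatchLe p y z (patchAng p y z)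

theorem PatchA.symm {p y z : X} (h : PatchA p y z) : PatchA p z y := by
  unfold PatchA at *
  rw [patchAng_comm]; exact h.symm

theorem patchA_self (p z : X) : PatchA p p z := patchLe_self _ _ _

theorem patch_sum_ge {p y x z : X} (hb : ∀ u v : X, HasBtw u v) (b : Btw y x z)
    (hy : y ≠ x) (hz : z ≠ x) (hp : p ≠ x) (h1 : PatchA x y p) (h2 : PatchA x p z) :
    π ≤ patchAng x y p + patchAng x p z := by
  by_contra hc
  have hlt := lt_of_not_ge hc
  have a0 := patchAng_nonneg x y p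
  have b0 := patchAng_nonneg x p z
  exact hc ((PatchLe.add (hb x p) hp h1 h2 a0 b0 hlt).pi_le hb b hy hz (add_nonneg a0 b0))

theorem patch_k {p y x z : X} (hb : ∀ u v : X, HasBtw u v) (b : Btw y x z)
    (h1 : PatchA x y p) (h2 : PatchA x p z) : KIneq p y x z := by
  unfold KIneq
  by_cases hy : y = x
  · subst hy; simp
  by_cases hz : z = x
  · subst hz; simp
  have b' : dist y z = dist x y + dist x z := by
    unfold Btw at b; rw [dist_comm x y]; exact b.symm
  by_cases hp : p = x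
  · subst hp
    rw [b', sinh_add, dist_comm y p, dist_self, cosh_zero]; linarith
  have h := patch_sum_ge hb b hy hz hp h1 h2
  have hc : cos (patchAng x y p) ≤ -cos (patchAng x p z) := by
    rw [← cos_pi_sub]
    exact cos_le_cos_of_nonneg_of_le_pi (by linarith [patchAng_le x p z]) (patchAng_le _ _ _)
      (by linarith)
  have e1 := patchH_ang x y p
  have e2 := patchH_ang x p z
  rw [dist_comm y p] at e1
  rw [← e1, ← e2, b', sinh_add, dist_comm y x, dist_comm p x]
  unfold patchH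
  have s1 := sinh_nonneg_iff.2 (dist_nonneg (x := x) (y := y))
  have s2 := sinh_nonneg_iff.2 (dist_nonneg (x := x) (y := z))
  have s3 := sinh_nonneg_iff.2 (dist_nonneg (x := x) (y := p))
  have := mul_nonneg (mul_nonneg (mul_nonneg s1 s2) s3) (sub_nonneg.2 hc)
  nlinarith

theorem patch_k_le {p y w z : X} (b : Btw p w y) (k : KIneq z p w y) :
    cosh (dist w z) ≤ patchH (dist p w) (dist p z) (patchAng p y z) := by
  by_cases hy : y = p
  · subst hy
    rw [b.patch_self, dist_self, patchH_zero]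
  have ha := sinh_pos_iff.2 (dist_pos.2 (Ne.symm hy))
  refine le_of_mul_le_mul_left ?_ ha
  rw [patchH_aff, patchH_ang]
  unfold KIneq at k
  unfold Btw at b
  have e : dist p y - dist p w = dist w y := by linarith
  rw [e, dist_comm w z, dist_comm p z, dist_comm y z]
  exact k

theorem patch_small {ε : ℝ} (h : LocK X ε) {p y z : X} (hy : dist p y < ε / 2)
    (hz : dist p z < ε / 2) : PatchA p y z := by
  by_cases hzp : z = p
  · subst hzp; exact (patchA_self _ _).symm
  refine ⟨1, one_pos, fun y' z' b1 b2 _ _ => ?_⟩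
  have e0 := h.pos
  have l1 := b1.patch_le
  have k1 := patch_k_le b1 (h.k z p y' y (by rw [dist_comm]; linarith)
    (by linarith [dist_triangle_left z y p]) b1)
  have k2 := h.k y' p z' z (by rw [dist_comm]; linarith)
    (by linarith [dist_triangle_left y' z p]) b2
  have ha := sinh_pos_iff.2 (dist_pos.2 (Ne.symm hzp))
  refine le_of_mul_le_mul_left ?_ ha
  rw [patchH_comm, patchH_aff, patchH_comm]
  unfold KIneq at k2
  unfold Btw at b2
  have e : dist p z - dist p z' = dist z' z := by linarith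
  have s1 := sinh_nonneg_iff.2 (dist_nonneg (x := p) (y := z'))
  rw [e, dist_comm p y']
  rw [dist_comm p y'] at k1
  nlinarith

theorem patch_ext {δ : ℝ} (hg : UGeo X δ) {y w p z : X} (b : Btw y w p) (hw : w ≠ y)
    (h : PatchA y w z) (k : KIneq z y w p) : PatchA y p z := by
  by_cases hz : z = y
  · subst hz; exact (patchA_self _ _).symm
  have d1 : 0 < dist y w := dist_pos.2 hw.symm
  have d2 : 0 < dist y z := dist_pos.2 (Ne.symm hz)
  have h1 : patchAng y w z ≤ patchAng y p z := by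
    refine patchH_le_inv d1 d2 (patchAng_nonneg _ _ _) (patchAng_le _ _ _) ?_
    rw [patchH_ang]
    exact patch_k_le b k
  refine PatchLe.mono ?_ (patchAng_nonneg y w z) h1 (patchAng_le _ _ _)
  obtain ⟨η, e, h⟩ := h
  refine ⟨min η (dist y w), by positivity, fun y' z' b1 b2 l1 l2 => ?_⟩
  rw [le_min_iff] at l1 l2
  obtain ⟨w', dw, bw⟩ := hg.btw y w (dist y y') dist_nonneg l1.2
  have : y' = w' := hg.uniq y y' w' p b1 (bw.patch_trans b) dw.symm
  exact h y' z' (this ▸ bw) b2 l1.1 l2.1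

theorem patch_two {q p w : X} (hp : p ≠ q) (hw : w ≠ q) (hpw : p ≠ w) :
    patchAng q p w + patchAng w p q ≤ π := by
  have e1 := patchH_ang q p w
  have e2 := patchH_ang w p q
  rw [dist_comm w p, dist_comm w q, dist_comm p q] at e2
  have a0 : 0 < dist q p := dist_pos.2 hp.symm
  have h0 : 0 < dist q w := dist_pos.2 hw.symm
  have c0 : 0 < dist p w := dist_pos.2 hpw
  have h2 : cosh (dist q p - dist p w) ≤ cosh (dist q w) := cosh_le_cosh.2 (by
    rw [abs_of_pos h0, dist_comm p w]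
    exact abs_dist_sub_le _ _ _)
  generalize dist q p = a at *
  generalize dist q w = h at *
  generalize dist p w = e at *
  have sa := sinh_pos_iff.2 a0
  have sh := sinh_pos_iff.2 h0
  have se := sinh_pos_iff.2 c0
  have sae := sinh_pos_iff.2 (add_pos a0 c0)
  by_contra hc
  have hlt : π - patchAng w p q < patchAng q p w := by linarith [lt_of_not_ge hc]
  have h3 := cos_lt_cos_of_nonneg_of_le_pi (by linarith [patchAng_le w p q])
    (patchAng_le q p w) hlt
  rw [cos_pi_sub] at h3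
  unfold patchH at e1 e2
  have h4 := mul_pos (mul_pos (mul_pos sa sh) se) (sub_pos.2 h3)
  have h5 := mul_le_mul_of_nonneg_left h2 sae.le
  rw [sinh_add, cosh_sub] at h5
  have ca := cosh_sq a
  have ce := cosh_sq e
  have h6 : (sinh a * cosh e + cosh a * sinh e) * (cosh a * cosh e - sinh a * sinh e) =
      sinh a * cosh a + sinh e * cosh e := by
    linear_combination (sinh a * cosh a) * ce + (sinh e * cosh e) * ca
  have h7 : sinh a * sinh h * sinh e * (-cos (patchAng w p q) - cos (patchAng q p w)) =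
      sinh a * cosh a + sinh e * cosh e - (sinh a * cosh e + cosh a * sinh e) * cosh h := by
    linear_combination sinh a * e2 + sinh e * e1
  linarith

theorem patch_apex {q p w z : X} (hb : ∀ u v : X, HasBtw u v) (b : Btw p w z)
    (h1 : PatchA q p w) (h2 : PatchA q w z) (h3 : PatchA w p q) (h4 : PatchA w q z) :
    PatchA q p z := by
  by_cases hp : p = q
  · subst hp; exact patchA_self _ _
  by_cases hz : z = q
  · subst hz; exact (patchA_self _ _).symm
  by_cases hpw : p = w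
  · subst hpw; exact h2
  by_cases hzw : z = w
  · subst hzw; exact h1
  have d1 : 0 < dist q p := dist_pos.2 (Ne.symm hp)
  have d2 : 0 < dist q z := dist_pos.2 (Ne.symm hz)
  by_cases hw : w = q
  · subst hw
    refine (patchLe_pi w p z).mono pi_pos.le ?_ (patchAng_le _ _ _)
    refine patchH_le_inv d1 d2 (patchAng_nonneg _ _ _) le_rfl ?_
    unfold Btw at b
    rw [patchH_pi, patchH_ang, dist_comm w p, b]
  have s1 := patch_sum_ge hb b hpw hzw (Ne.symm hw) h3 h4
  have s2 := patch_two hp hw hpw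
  have s3 := patch_two hz hw hzw
  rw [patchAng_comm q z w, patchAng_comm w z q] at s3
  have a0 := patchAng_nonneg q p w
  have b0 := patchAng_nonneg q w z
  have s4 : patchAng q p w + patchAng q w z ≤ π := by linarith
  have s5 : patchAng q p w + patchAng q w z ≤ patchAng q p z := by
    refine patchH_le_inv d1 d2 (patchAng_nonneg _ _ _) s4 ?_
    have t := dist_triangle (pol (dist q p) 0) (pol (dist q w) (-patchAng q p w))
      (pol (dist q z) (-(patchAng q p w + patchAng q w z)))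
    have c1 := cosh_dist_pol (dist q p) (dist q w) 0 (-patchAng q p w)
    have c2 := cosh_dist_pol (dist q w) (dist q z) (-patchAng q p w)
      (-(patchAng q p w + patchAng q w z))
    have c3 := cosh_dist_pol (dist q p) (dist q z) 0 (-(patchAng q p w + patchAng q w z))
    rw [zero_sub, neg_neg] at c1 c3
    rw [show -patchAng q p w - -(patchAng q p w + patchAng q w z) = patchAng q w z by ring] at c2
    have f1 := patch_le_of_cosh dist_nonneg (c1.trans (patchH_ang q p w)).le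
    have f2 := patch_le_of_cosh dist_nonneg (c2.trans (patchH_ang q w z)).le
    rw [patchH_ang]
    unfold Btw at b
    exact c3.ge.trans (patch_cosh_le dist_nonneg (by linarith))
  rcases s4.eq_or_lt with e | s4
  · exact (patchLe_pi q p z).mono pi_pos.le (e ▸ s5) (patchAng_le _ _ _)
  · exact (PatchLe.add (hb q w) hw h1 h2 a0 b0 s4).mono (add_nonneg a0 b0) s5 (patchAng_le _ _ _)

theorem patch_thin {ε δ η : ℝ} (h : LocK X ε) (hg : UGeo X δ) (h0 : 0 < η) (h1 : η ≤ δ)
    (h2 : η ≤ ε / 4) (n : ℕ) : ∀ p y z : X, dist y z < η → dist p y ≤ n * η →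
      dist p z ≤ n * η → PatchA y p z := by
  induction n with
  | zero =>
    intro p y z _ hy _
    have : p = y := dist_le_zero.1 (by simpa using hy)
    subst this; exact patchA_self _ _
  | succ n ih =>
    intro p y z hyz hy hz
    by_cases hpy : p = y
    · subst hpy; exact patchA_self _ _
    have n0 : (0 : ℝ) < n + 1 := by positivity
    have t0 : (0 : ℝ) ≤ n / (n + 1) := by positivity
    have t1 : (n : ℝ) / (n + 1) < 1 := by rw [div_lt_one n0]; linarith
    have key : ∀ d : ℝ, 0 ≤ d → d ≤ (n + 1 : ℕ) * η → 0 ≤ n / (n + 1) * d ∧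
        n / (n + 1) * d ≤ d ∧ n / (n + 1) * d ≤ n * η ∧ d - n / (n + 1) * d ≤ η := by
      intro d d0 d1
      push_cast at d1
      refine ⟨by positivity, by nlinarith, ?_, ?_⟩
      · rw [div_mul_eq_mul_div, div_le_iff₀ n0]
        have : (0 : ℝ) ≤ n := by positivity
        nlinarith
      · have : d - n / (n + 1) * d = d / (n + 1) := by field_simp; ring
        rw [this, div_le_iff₀ n0]; linarith
    obtain ⟨y0, y1, y2, y3⟩ := key _ dist_nonneg hy
    obtain ⟨z0, z1, z2, z3⟩ := key _ dist_nonneg hz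
    obtain ⟨y', dy, by'⟩ := hg.btw p y _ y0 y1
    obtain ⟨z', dz, bz'⟩ := hg.btw p z _ z0 z1
    have c := hg.close p y z y' z' _ (by linarith) by' bz' dy dz t0 t1.le
    have ey : dist y' y ≤ η := by unfold Btw at by'; linarith
    have ez : dist z' z ≤ η := by unfold Btw at bz'; linarith
    have c' : dist y' z' < η := by linarith
    have tz : dist y' z < ε / 2 := by linarith [dist_triangle y' z' z]
    have A1 : PatchA y' p z := patch_apex hg.btw bz' (ih p y' z' c' (dy ▸ y2) (dz ▸ z2))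
      (patch_small h (by linarith) tz)
      (ih p z' y' (by rwa [dist_comm]) (dz ▸ z2) (dy ▸ y2))
      (patch_small h (by rw [dist_comm]; linarith) (by linarith))
    have K : KIneq z y y' p := patch_k hg.btw by'.patch_symm
      (patch_small h (by linarith) tz) A1.symm
    refine patch_ext hg by'.patch_symm ?_
      (patch_small h (by rw [dist_comm]; linarith) (by linarith)) K
    rintro rfl
    have : 0 < dist p y' := dist_pos.2 hpy
    nlinarith

theorem patch_all {ε δ : ℝ} (h : LocK X ε) (hg : UGeo X δ) (p y z : X) : PatchA y p z := by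
  have e0 := h.pos
  have e1 := hg.pos
  obtain ⟨η, hη⟩ : ∃ η, η = min δ (ε / 4) := ⟨_, rfl⟩
  have h0 : 0 < η := by rw [hη]; positivity
  have thin : ∀ p y z : X, dist y z < η → PatchA y p z := by
    intro p y z hyz
    obtain ⟨n, hn⟩ := exists_nat_ge (max (dist p y) (dist p z) / η)
    rw [div_le_iff₀ h0, max_le_iff] at hn
    exact patch_thin h hg h0 (hη ▸ min_le_left _ _) (hη ▸ min_le_right _ _) n p y z hyz hn.1 hn.2
  have key : ∀ n : ℕ, ∀ y : X, dist y z ≤ n * (η / 2) → PatchA y p z := by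
    intro n
    induction n with
    | zero =>
      intro y hy
      exact thin p y z (by simp only [Nat.cast_zero, zero_mul] at hy; linarith)
    | succ n ih =>
      intro y hy
      by_cases hs : dist y z < η
      · exact thin p y z hs
      have hs' := le_of_not_gt hs
      obtain ⟨w, dw, bw⟩ := hg.btw y z (η / 2) (by linarith) (by linarith)
      have hw : w ≠ y := by
        rintro rfl
        rw [dist_self] at dw; linarith
      have A := ih w (by unfold Btw at bw; push_cast at hy; linarith)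
      have K : KIneq p y w z := patch_k hg.btw bw
        (thin p w y (by rw [dist_comm]; linarith)).symm A
      exact (patch_ext hg bw hw (thin p y w (by linarith)).symm K).symm
  obtain ⟨n, hn⟩ := exists_nat_ge (dist y z / (η / 2))
  rw [div_le_iff₀ (by positivity)] at hn
  exact key n y hn

end

/-- Patchwork: local curvature bound and continuously varying geodesics give the global bound. -/
theorem globK_of_ugeo {X : Type} [MetricSpace X] {ε δ : ℝ} (h : LocK X ε) (hg : UGeo X δ) :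
    GlobK X :=
  ⟨hg.btw, fun p y x z b => patch_k hg.btw b (patch_all h hg p x y).symm (patch_all h hg p x z)⟩

end Pool.Agent.MP_39b1da_gt

end

section

set_option autoImplicit false

namespace Pool.Agent.MP_39b1da_gt

open Filter Topology Set Real
open scoped ENNReal NNReal ContDiff InnerProductSpace

theorem Morse_cosh_half (x : ℝ) : cosh x = 1 + 2 * sinh (x / 2) ^ 2 := by
  have h := cosh_two_mul (x / 2)
  rw [show 2 * (x / 2) = x by ring, cosh_sq'] at h
  linarith

theorem Morse_cosh_sub (u v : ℝ) : cosh (u + v) - cosh (u - v) = 2 * (sinh u * sinh v) := by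
  rw [cosh_add, cosh_sub]; ring

theorem Morse_sinh_mul_le {g a : ℝ} (ha : 0 ≤ a) : sinh g * sinh (a - g) ≤ sinh a / 2 := by
  have h1 := Morse_cosh_sub g (a - g)
  rw [add_sub_cancel] at h1
  have h2 := one_le_cosh (g - (a - g))
  have h3 := cosh_sub_sinh a
  have h4 : exp (-a) ≤ 1 := exp_le_one_iff.2 (by linarith)
  linarith

theorem Morse_sinh_le_exp {s g : ℝ} (h : s ≤ g) : sinh s ≤ exp (s - g) * sinh g := by
  have h1 : exp (g - s) * sinh s ≤ sinh g := by
    have e : sinh g = sinh (s + (g - s)) := by rw [add_sub_cancel]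
    rw [e, sinh_add, ← cosh_add_sinh (g - s)]
    have h1 : sinh s ≤ cosh s := (sinh_lt_cosh s).le
    have h2 : 0 ≤ sinh (g - s) := sinh_nonneg_iff.2 (by linarith)
    nlinarith
  have h2 : exp (s - g) * exp (g - s) = 1 := by rw [← exp_add]; simp
  calc sinh s = exp (s - g) * (exp (g - s) * sinh s) := by rw [← mul_assoc, h2, one_mul]
    _ ≤ _ := mul_le_mul_of_nonneg_left h1 (exp_pos _).le

theorem Morse_le_one {x : ℝ} (hx : 0 ≤ x) (h : cosh x ≤ 3 / 2) : x ≤ 1 := by
  have h1 : (3 / 2 : ℝ) ≤ cosh 1 := by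
    rw [cosh_eq]
    have := exp_one_gt_d9
    have := exp_neg_one_gt_d9
    linarith
  have h2 := cosh_le_cosh.1 (h.trans h1)
  rwa [abs_of_nonneg hx, abs_one] at h2

section
variable {X : Type} [MetricSpace X]

theorem Morse_btw_symm {y x z : X} (h : Btw y x z) : Btw z x y := by
  unfold Btw at *
  rw [dist_comm z x, dist_comm x y, dist_comm z y]; linarith

theorem Morse_key (h : GlobK X) {p y z y' z' : X} (by' : Btw p y' y) (bz' : Btw p z' z)
    (e' : dist p y' = dist p z') :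
    sinh (dist p y) * sinh (dist p z) * (cosh (dist y' z') - 1) ≤
      sinh (dist p y') ^ 2 * (cosh (dist y z) - cosh (dist p y - dist p z)) := by
  have k1 := h.k z p y' y by'
  have k2 := h.k y' p z' z bz'
  unfold KIneq at k1 k2
  have e1 : dist y' y = dist p y - dist p y' := by have := by'; unfold Btw at this; linarith
  have e2 : dist z' z = dist p z - dist p y' := by have := bz'; unfold Btw at this; linarith
  rw [e1, dist_comm z y', dist_comm z p, dist_comm z y, sinh_sub] at k1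
  rw [e2, dist_comm y' p, ← e', sinh_sub] at k2
  rw [cosh_sub]
  have ha : 0 ≤ sinh (dist p y) := sinh_nonneg_iff.2 dist_nonneg
  have hs : 0 ≤ sinh (dist p y') := sinh_nonneg_iff.2 dist_nonneg
  have k3 := mul_le_mul_of_nonneg_left k1 hs
  have k4 := mul_le_mul_of_nonneg_left k2 ha
  have k5 := cosh_sq' (dist p y')
  generalize sinh (dist p y) = sa at *
  generalize cosh (dist p y) = ca at *
  generalize sinh (dist p z) = sb at *
  generalize cosh (dist p z) = cb at *
  generalize sinh (dist p y') = ss at *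
  generalize cosh (dist p y') = cs at *
  generalize cosh (dist y z) = cc at *
  generalize cosh (dist y' z') = cd at *
  generalize cosh (dist y' z) = ce at *
  have k6 : sa * sb * cs ^ 2 = sa * sb * (1 + ss ^ 2) := by rw [k5]
  nlinarith

theorem GlobK.ratio (h : GlobK X) {p y z y' z' : X} (by' : Btw p y' y) (bz' : Btw p z' z)
    (e : dist p y = dist p z) (e' : dist p y' = dist p z') :
    sinh (dist y' z' / 2) * sinh (dist p y) ≤ sinh (dist y z / 2) * sinh (dist p y') := by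
  have k := Morse_key h by' bz' e'
  rw [← e, sub_self, cosh_zero, Morse_cosh_half (dist y' z'), Morse_cosh_half (dist y z)] at k
  have h1 : 0 ≤ sinh (dist y z / 2) * sinh (dist p y') :=
    mul_nonneg (sinh_nonneg_iff.2 (by positivity)) (sinh_nonneg_iff.2 dist_nonneg)
  refine (abs_le_of_sq_le_sq' ?_ h1).2
  nlinarith

theorem GlobK.fellow (h : GlobK X) {p y z y' z' : X} (by' : Btw p y' y) (bz' : Btw p z' z)
    (e' : dist p y' = dist p z') (hs : dist p y' ≤ gp dist p y z) :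
    cosh (dist y' z') ≤ 1 + exp (2 * (dist p y' - gp dist p y z)) / 2 := by
  have k := Morse_key h by' bz' e'
  have hE := exp_pos (2 * (dist p y' - gp dist p y z))
  rcases (dist_nonneg : 0 ≤ dist p y').eq_or_lt with h0 | h0
  · have e1 : p = y' := dist_eq_zero.1 h0.symm
    have e2 : p = z' := dist_eq_zero.1 (e' ▸ h0.symm)
    have e3 : dist y' z' = 0 := by rw [← e1, ← e2, dist_self]
    rw [e3, cosh_zero]
    linarith
  have ha : 0 < dist p y := by
    have := by'; unfold Btw at this; linarith [dist_nonneg (x := y') (y := y)]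
  have hb : 0 < dist p z := by
    have := bz'; unfold Btw at this; linarith [dist_nonneg (x := z') (y := z)]
  set g := gp dist p y z with hg
  have hg' : g = (dist p y + dist p z - dist y z) / 2 := rfl
  have hga : 0 ≤ dist p y - g := by
    have := dist_triangle p y z; linarith
  have hgb : 0 ≤ dist p z - g := by
    have := dist_triangle p z y; rw [dist_comm z y] at this; linarith
  have k1 := Morse_cosh_sub (dist p y - g) (dist p z - g)
  rw [show dist p y - g + (dist p z - g) = dist y z by linarith,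
    show dist p y - g - (dist p z - g) = dist p y - dist p z by ring] at k1
  rw [k1] at k
  have k2 := Morse_sinh_mul_le (g := g) ha.le
  have k3 := Morse_sinh_mul_le (g := g) hb.le
  have k4 := Morse_sinh_le_exp hs
  have p1 : 0 < sinh (dist p y) := sinh_pos_iff.2 ha
  have p2 : 0 < sinh (dist p z) := sinh_pos_iff.2 hb
  have p3 : 0 ≤ sinh (dist p y - g) := sinh_nonneg_iff.2 hga
  have p4 : 0 ≤ sinh (dist p z - g) := sinh_nonneg_iff.2 hgb
  have p5 : 0 ≤ sinh (dist p y') := sinh_nonneg_iff.2 h0.le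
  have p6 : 0 ≤ sinh g := sinh_nonneg_iff.2 (h0.le.trans hs)
  have k5 : sinh (dist p y') ^ 2 ≤ (exp (dist p y' - g) * sinh g) ^ 2 :=
    pow_le_pow_left₀ p5 k4 2
  have k6 : exp (2 * (dist p y' - g)) = exp (dist p y' - g) ^ 2 := by
    rw [two_mul, exp_add, sq]
  have k7 : (sinh g * sinh (dist p y - g)) * (sinh g * sinh (dist p z - g)) ≤
      (sinh (dist p y) / 2) * (sinh (dist p z) / 2) :=
    mul_le_mul k2 k3 (by positivity) (by positivity)
  have k8 : sinh (dist p y) * sinh (dist p z) * (cosh (dist y' z') - 1) ≤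
      sinh (dist p y) * sinh (dist p z) * (exp (2 * (dist p y' - g)) / 2) := by
    calc _ ≤ _ := k
      _ ≤ (exp (dist p y' - g) * sinh g) ^ 2 *
          (2 * (sinh (dist p y - g) * sinh (dist p z - g))) :=
        mul_le_mul_of_nonneg_right k5 (by positivity)
      _ = 2 * exp (dist p y' - g) ^ 2 *
          ((sinh g * sinh (dist p y - g)) * (sinh g * sinh (dist p z - g))) := by ring
      _ ≤ 2 * exp (dist p y' - g) ^ 2 * ((sinh (dist p y) / 2) * (sinh (dist p z) / 2)) :=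
        mul_le_mul_of_nonneg_left k7 (by positivity)
      _ = _ := by rw [k6]; ring
  have := le_of_mul_le_mul_left k8 (by positivity)
  linarith

theorem Morse_fellow_one (h : GlobK X) {p y z y' z' : X} (by' : Btw p y' y) (bz' : Btw p z' z)
    (e' : dist p y' = dist p z') (hs : dist p y' ≤ gp dist p y z) : dist y' z' ≤ 1 := by
  have k := h.fellow by' bz' e' hs
  have h1 : exp (2 * (dist p y' - gp dist p y z)) ≤ 1 := exp_le_one_iff.2 (by linarith)
  exact Morse_le_one dist_nonneg (by linarith)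

theorem Morse_gp_le (p y z : X) : gp dist p y z ≤ dist p z := by
  have := dist_triangle p z y
  rw [dist_comm z y] at this
  unfold gp; linarith

theorem Morse_gp_nonneg (p y z : X) : 0 ≤ gp dist p y z := by
  have := dist_triangle y p z
  rw [dist_comm y p] at this
  unfold gp; linarith

omit [MetricSpace X] in
theorem Morse_gp_comm {d : X → X → ℝ} (hd : ∀ x y, d x y = d y x) (p y z : X) :
    gp d p y z = gp d p z y := by
  unfold gp; rw [hd y z]; ring

/-- A companion point on another side, up to the Gromov product. -/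
theorem Morse_side (h : GlobK X) {p y y' : X} (z : X) (b : Btw p y' y)
    (hs : dist p y' ≤ gp dist p y z) :
    ∃ z', Btw p z' z ∧ dist p z' = dist p y' ∧ dist y' z' ≤ 1 := by
  obtain ⟨u, hu, bu⟩ := h.btw p z (dist p y') dist_nonneg (hs.trans (Morse_gp_le p y z))
  exact ⟨u, bu, hu, Morse_fellow_one h b bu hu.symm hs⟩

/-- Triangles are thin. -/
theorem Morse_thin (h : GlobK X) {x z y : X} (b : Btw x z y) (w : X) :
    ∃ u, (Btw x u w ∨ Btw y u w) ∧ dist z u ≤ 1 := by
  rcases le_total (dist x z) (gp dist x y w) with h1 | h1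
  · obtain ⟨u, bu, -, hu⟩ := Morse_side h w b h1
    exact ⟨u, Or.inl bu, hu⟩
  · obtain ⟨u, bu, -, hu⟩ := Morse_side h w (Morse_btw_symm b) (by
      unfold Btw at b
      unfold gp at h1 ⊢
      rw [dist_comm y z, dist_comm y x]; linarith)
    exact ⟨u, Or.inr bu, hu⟩

/-- A geodesic stays logarithmically close to any chain joining its ends. -/
theorem Morse_log (h : GlobK X) {A : ℝ} (hA : 0 ≤ A) (j : ℕ) : ∀ (p : ℕ → X) (N : ℕ) (z : X),
    N ≤ 2 ^ j → (∀ i < N, dist (p i) (p (i + 1)) ≤ A) → Btw (p 0) z (p N) →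
    ∃ i ≤ N, dist z (p i) ≤ j + A := by
  induction j with
  | zero =>
    intro p N z hN hp b
    refine ⟨0, Nat.zero_le _, ?_⟩
    unfold Btw at b
    have h1 : dist (p 0) (p N) ≤ A := by
      obtain rfl | rfl : N = 0 ∨ N = 1 := by omega
      · rwa [dist_self]
      · exact hp 0 one_pos
    rw [dist_comm]
    have := dist_nonneg (x := z) (y := p N)
    simp only [Nat.cast_zero]; linarith
  | succ j ih =>
    intro p N z hN hp b
    push_cast
    rcases le_total N (2 ^ j) with h1 | h1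
    · obtain ⟨i, hi, e⟩ := ih p N z h1 hp b
      exact ⟨i, hi, by linarith⟩
    obtain ⟨u, bu | bu, hu⟩ := Morse_thin h b (p (2 ^ j))
    · obtain ⟨i, hi, e⟩ := ih p (2 ^ j) u le_rfl (fun i hi => hp i (by omega)) bu
      exact ⟨i, by omega, by linarith [dist_triangle z u (p i)]⟩
    · obtain ⟨i, hi, e⟩ := ih (fun i => p (2 ^ j + i)) (N - 2 ^ j) u (by omega)
        (fun i hi => hp (2 ^ j + i) (by omega)) (by
          have : 2 ^ j + (N - 2 ^ j) = N := by omega
          simp only [this, add_zero]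
          exact Morse_btw_symm bu)
      exact ⟨2 ^ j + i, by omega, by linarith [dist_triangle z u (p (2 ^ j + i))]⟩

theorem Morse_log' (h : GlobK X) {A : ℝ} (hA : 0 ≤ A) (k : ℕ) (p : ℕ → X) (N : ℕ)
    (hp : ∀ i < N, dist (p i) (p (i + 1)) ≤ A) {i j : ℕ} (hi : i ≤ N) (hj : j ≤ N)
    (hij : |(i : ℝ) - j| ≤ 2 ^ k) {z : X} (b : Btw (p i) z (p j)) :
    ∃ l ≤ N, dist z (p l) ≤ k + A := by
  wlog hle : i ≤ j generalizing i j
  · exact this hj hi (by rwa [abs_sub_comm]) (Morse_btw_symm b) (by omega)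
  have h1 : j - i ≤ 2 ^ k := by
    have h2 : ((j - i : ℕ) : ℝ) ≤ ((2 ^ k : ℕ) : ℝ) := by
      push_cast [Nat.cast_sub hle]
      have := (abs_le.1 hij).1
      linarith
    exact_mod_cast h2
  obtain ⟨l, hl, e⟩ := Morse_log h hA k (fun n => p (i + n)) (j - i) z h1
    (fun n hn => hp (i + n) (by omega)) (by
      have : i + (j - i) = j := by omega
      simpa only [this, add_zero] using b)
  exact ⟨i + l, by omega, e⟩

omit [MetricSpace X] in
theorem Morse_chain_le {d : X → X → ℝ} (hd : CoarseLen d) {p : ℕ → X} {N : ℕ}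
    (hp : ∀ i < N, d (p i) (p (i + 1)) ≤ 1) (i n : ℕ) (hn : i + n ≤ N) :
    d (p i) (p (i + n)) ≤ n := by
  induction n with
  | zero => simp [hd.self]
  | succ n ih =>
    have h1 := hd.tri (p i) (p (i + n)) (p (i + n + 1))
    have h2 := hp (i + n) (by omega)
    have h3 := ih (by omega)
    rw [← add_assoc]; push_cast; linarith

omit [MetricSpace X] in
theorem Morse_chain_le' {d : X → X → ℝ} (hd : CoarseLen d) {p : ℕ → X} {N : ℕ}
    (hp : ∀ i < N, d (p i) (p (i + 1)) ≤ 1) {i j : ℕ} (hij : i ≤ j) (hj : j ≤ N) :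
    d (p i) (p j) ≤ j - i := by
  have := Morse_chain_le hd hp i (j - i) (by omega)
  rwa [show i + (j - i) = j by omega, Nat.cast_sub hij] at this

omit [MetricSpace X] in
theorem Morse_chain_ge {d : X → X → ℝ} (hd : CoarseLen d) {p : ℕ → X} {N : ℕ}
    (hp : ∀ i < N, d (p i) (p (i + 1)) ≤ 1) (hN : (N : ℝ) ≤ d (p 0) (p N) + 2) {i j : ℕ}
    (hi : i ≤ N) (hj : j ≤ N) : |(i : ℝ) - j| ≤ d (p i) (p j) + 2 := by
  wlog hle : i ≤ j generalizing i j
  · rw [abs_sub_comm, hd.symm]; exact this hj hi (by omega)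
  have h1 := Morse_chain_le' hd hp (Nat.zero_le i) hi
  have h2 := Morse_chain_le' hd hp hj le_rfl
  have h3 := hd.tri (p 0) (p i) (p N)
  have h4 := hd.tri (p i) (p j) (p N)
  have h5 : (i : ℝ) ≤ j := by exact_mod_cast hle
  rw [abs_of_nonpos (by linarith)]
  simp only [Nat.cast_zero] at h1
  linarith

/-- The point of a geodesic at distance `2 D` before `z`, or its end, with a chain point near. -/
theorem Morse_end (h : GlobK X) {p : ℕ → X} {N : ℕ} {x y z : X} {D : ℝ} (hD : 0 ≤ D)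
    (hx : ∃ i ≤ N, p i = x) (b : Btw x z y)
    (near : ∀ w, Btw x w y → ∃ i ≤ N, dist w (p i) ≤ D + 1)
    (far : ∀ i ≤ N, D - 1 ≤ dist z (p i)) :
    ∃ x', ∃ i ≤ N, Btw x x' z ∧ dist x' z ≤ 2 * D ∧ dist x' (p i) ≤ D + 1 ∧
      D - 1 + dist x' (p i) ≤ dist x' z := by
  rcases le_total (dist x z) (2 * D) with h1 | h1
  · obtain ⟨i, hi, e⟩ := hx
    refine ⟨x, i, hi, by simp [Btw], h1, by rw [e, dist_self]; linarith, ?_⟩
    have := far i hi
    rw [e, dist_comm] at this
    rw [e, dist_self]; linarith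
  · obtain ⟨w, hw, bw⟩ := h.btw x z (dist x z - 2 * D) (by linarith) (by linarith)
    have h2 : dist w z = 2 * D := by unfold Btw at bw; linarith
    obtain ⟨i, hi, e⟩ := near w (by
      unfold Btw at *
      have := dist_triangle x w y
      have := dist_triangle w z y
      linarith)
    exact ⟨w, i, hi, bw, h2.le, e, by linarith⟩

/-- The Morse lemma for chains. -/
theorem Morse_near (h : GlobK X) {d : X → X → ℝ} (hd : CoarseLen d) {L : ℝ} (hL : 0 ≤ L)
    (hq : ∀ x y, dist x y ≤ L * d x y + L ∧ d x y ≤ L * dist x y + L) :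
    ∃ R : ℝ, ∀ (p : ℕ → X) (N : ℕ), (∀ i < N, d (p i) (p (i + 1)) ≤ 1) →
      (N : ℝ) ≤ d (p 0) (p N) + 2 → ∀ z, Btw (p 0) z (p N) → ∃ i ≤ N, dist z (p i) ≤ R := by
  obtain ⟨K, hK⟩ := exists_nat_ge (15 * L + 2)
  refine ⟨2 * (4 + K + 2 * L) + 1, fun p N hp hN => ?_⟩
  have hp' : ∀ i < N, dist (p i) (p (i + 1)) ≤ 2 * L := fun i hi => by
    have h1 := (hq (p i) (p (i + 1))).1
    have h2 := mul_le_mul_of_nonneg_left (hp i hi) hL
    linarith
  set S : Set ℝ := {r | ∃ z, Btw (p 0) z (p N) ∧ ∀ i ≤ N, r ≤ dist z (p i)} with hS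
  have S0 : (0 : ℝ) ∈ S := ⟨p 0, by simp [Btw], fun _ _ => dist_nonneg⟩
  have Sb : BddAbove S := by
    refine ⟨dist (p 0) (p N), ?_⟩
    rintro r ⟨z, b, hz⟩
    have h1 := hz 0 (Nat.zero_le _)
    unfold Btw at b
    rw [dist_comm] at h1
    linarith [dist_nonneg (x := z) (y := p N)]
  set D := sSup S with hD
  have hD0 : 0 ≤ D := le_csSup Sb S0
  have near : ∀ w, Btw (p 0) w (p N) → ∃ i ≤ N, dist w (p i) ≤ D + 1 := by
    intro w b
    by_contra hc
    push Not at hc
    have : D + 1 ≤ D := le_csSup Sb ⟨w, b, fun i hi => (hc i hi).le⟩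
    linarith
  suffices hb : D ≤ 2 * (4 + K + 2 * L) by
    intro z b
    obtain ⟨i, hi, e⟩ := near z b
    exact ⟨i, hi, by linarith⟩
  obtain ⟨r, ⟨z, b, hz⟩, hr⟩ := exists_lt_of_lt_csSup ⟨0, S0⟩ (show D - 1 < D by linarith)
  have far : ∀ i ≤ N, D - 1 ≤ dist z (p i) := fun i hi => hr.le.trans (hz i hi)
  obtain ⟨x', i, hi, bx, x1, x2, x3⟩ := Morse_end h hD0 ⟨0, Nat.zero_le _, rfl⟩ b near far
  obtain ⟨y', j, hj, by', y1, y2, y3⟩ := Morse_end h hD0 ⟨N, le_rfl, rfl⟩ (Morse_btw_symm b)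
    (fun w bw => near w (Morse_btw_symm bw)) far
  have hK0 : (0 : ℝ) ≤ K := Nat.cast_nonneg K
  have b' : Btw x' z y' := by
    unfold Btw at *
    have h1 := dist_triangle4 (p 0) x' y' (p N)
    have h2 := dist_triangle x' z y'
    rw [dist_comm y' z, dist_comm (p N) z] at by'
    rw [dist_comm y' (p N)] at h1
    linarith
  obtain ⟨u, bu | bu, hu⟩ := Morse_thin h b' (p i)
  · unfold Btw at bu
    have h1 := dist_triangle x' u z
    rw [dist_comm u z] at h1
    linarith [dist_nonneg (x := u) (y := p i)]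
  obtain ⟨v, bv | bv, hv⟩ := Morse_thin h bu (p j)
  · unfold Btw at bv
    have h1 := dist_triangle4 y' v u z
    rw [dist_comm u z, dist_comm v u] at h1
    linarith [dist_nonneg (x := v) (y := p j)]
  have c1 : dist (p i) (p j) ≤ 6 * D + 2 := by
    have h1 := dist_triangle4 (p i) x' y' (p j)
    have h2 := dist_triangle x' z y'
    rw [dist_comm z y'] at h2
    rw [dist_comm (p i) x'] at h1
    linarith
  have c2 : |(i : ℝ) - j| ≤ 6 * L * D + (3 * L + 2) := by
    have h1 := Morse_chain_ge hd hp hN hi hj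
    have h2 := (hq (p i) (p j)).2
    have h3 := mul_le_mul_of_nonneg_left c1 hL
    linarith
  have c3 : |(i : ℝ) - j| ≤ 2 ^ (⌈D / 2⌉₊ + K) := by
    have h1 : D / 2 + 1 ≤ 2 ^ ⌈D / 2⌉₊ := by
      have h2 : ((⌈D / 2⌉₊ + 1 : ℕ) : ℝ) ≤ ((2 ^ ⌈D / 2⌉₊ : ℕ) : ℝ) := by
        exact_mod_cast Nat.lt_two_pow_self
      push_cast at h2
      linarith [Nat.le_ceil (D / 2)]
    have h2 : 15 * L + 2 ≤ (2 : ℝ) ^ K := by
      have h3 : ((K : ℕ) : ℝ) ≤ ((2 ^ K : ℕ) : ℝ) := by exact_mod_cast Nat.lt_two_pow_self.le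
      push_cast at h3
      linarith
    have h3 : (D / 2 + 1) * (15 * L + 2) ≤ 2 ^ ⌈D / 2⌉₊ * 2 ^ K :=
      mul_le_mul h1 h2 (by positivity) (by positivity)
    rw [pow_add]
    have h4 : 0 ≤ L * D := by positivity
    nlinarith
  obtain ⟨l, hl, e⟩ := Morse_log' h (by positivity) _ p N hp' hi hj c3 bv
  have c4 := far l hl
  have c5 := dist_triangle4 z u v (p l)
  have c6 : (⌈D / 2⌉₊ : ℝ) < D / 2 + 1 := Nat.ceil_lt_add_one (by positivity)
  push_cast at e
  linarith

theorem morse (h : GlobK X) {d : X → X → ℝ} (hd : CoarseLen d) {L : ℝ}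
    (hq : ∀ x y, d x y ≤ L * dist x y + L ∧ dist x y ≤ L * d x y + L) :
    ∃ C : ℝ, (∀ x z y, Btw x z y → d x z + d z y ≤ d x y + C) ∧
      (∀ o x y w, Btw o w x → dist o w = gp dist o x y → |gp d o x y - d o w| ≤ C) ∧
      ∀ o x y z, min (gp d o x y) (gp d o y z) - C ≤ gp d o x z := by
  rcases isEmpty_or_nonempty X with hX | ⟨⟨x₀⟩⟩
  · exact ⟨0, fun x => isEmptyElim x, fun x => isEmptyElim x, fun x => isEmptyElim x⟩
  have hL : 0 ≤ L := by simpa [hd.self] using (hq x₀ x₀).1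
  obtain ⟨R, hR⟩ := Morse_near h hd hL fun x y => (hq x y).symm
  have one : ∀ {a b : X}, dist a b ≤ 1 → d a b ≤ 2 * L ∧ d b a ≤ 2 * L := by
    intro a b hab
    have h1 := (hq a b).1
    have h2 := mul_le_mul_of_nonneg_left hab hL
    rw [hd.symm b a]
    constructor <;> linarith
  obtain ⟨C, m1⟩ : ∃ C : ℝ, ∀ x z y, Btw x z y → d x z + d z y ≤ d x y + C := by
    refine ⟨2 + 2 * (L * R + L), fun x z y b => ?_⟩
    obtain ⟨N, p, rfl, rfl, hp, hN⟩ := hd.chain x y
    obtain ⟨i, hi, e⟩ := hR p N hp hN z b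
    have h1 := (hq z (p i)).1
    have h2 := mul_le_mul_of_nonneg_left e hL
    have h3 := Morse_chain_le' hd hp (Nat.zero_le i) hi
    have h4 := Morse_chain_le' hd hp hi le_rfl
    have h5 := hd.tri (p 0) (p i) z
    have h6 := hd.tri z (p i) (p N)
    rw [hd.symm (p i) z] at h5
    simp only [Nat.cast_zero] at h3
    linarith
  have hC : 0 ≤ C := by simpa [hd.self] using m1 x₀ x₀ x₀ (by simp [Btw])
  have m2 : ∀ o x y w, Btw o w x → dist o w = gp dist o x y →
      |gp d o x y - d o w| ≤ C + 2 * L := by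
    intro o x y w b e
    obtain ⟨w1, b1, -, e1⟩ := Morse_side h y b e.le
    obtain ⟨w2, b2, -, e2⟩ := Morse_side h y (Morse_btw_symm b) (by
      unfold Btw at b
      unfold gp at e ⊢
      rw [dist_comm x w, dist_comm x o]; linarith)
    have a1 := m1 _ _ _ b
    have a2 := m1 _ _ _ b1
    have a3 := m1 _ _ _ b2
    have a4 := one e1
    have a5 := one e2
    have t1 := hd.tri o w x
    have t2 := hd.tri o w y
    have t3 := hd.tri x w y
    have t4 := hd.tri o w1 w
    have t5 := hd.tri w w1 y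
    have t6 := hd.tri x w2 w
    have t7 := hd.tri w w2 y
    have s1 := hd.symm x w
    unfold gp
    rw [abs_le]
    constructor <;> linarith [a4.1, a4.2, a5.1, a5.2]
  have m3 : ∀ o x y z b, Btw o b y → dist o b ≤ gp dist o y x → dist o b ≤ gp dist o y z →
      d o b - C - 4 * L ≤ gp d o x z := by
    intro o x y z b bb h1 h2
    obtain ⟨a, ba, -, ea⟩ := Morse_side h x bb h1
    obtain ⟨c, bc, -, ec⟩ := Morse_side h z bb h2
    have a1 := m1 _ _ _ ba
    have a2 := m1 _ _ _ bc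
    have a4 := one ea
    have a5 := one ec
    have t1 := hd.tri x a z
    have t2 := hd.tri a b z
    have t3 := hd.tri b c z
    have t4 := hd.tri o a b
    have t5 := hd.tri o c b
    have s1 := hd.symm x a
    unfold gp
    linarith [a4.1, a4.2, a5.1, a5.2]
  refine ⟨2 * C + 6 * L, fun x z y b => by linarith [m1 x z y b],
    fun o x y w b e => by linarith [m2 o x y w b e], fun o x y z => ?_⟩
  have g1 : gp dist o y x ≤ dist o y := by
    rw [Morse_gp_comm dist_comm]; exact Morse_gp_le _ _ _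
  have g2 : gp dist o y z ≤ dist o y := by
    rw [Morse_gp_comm dist_comm]; exact Morse_gp_le _ _ _
  rcases le_total (gp dist o y x) (gp dist o y z) with h1 | h1
  · obtain ⟨b, eb, bb⟩ := h.btw o y _ (Morse_gp_nonneg o y x) g1
    have a1 := m3 o x y z b bb eb.le (eb.le.trans h1)
    have a2 := (abs_le.1 (m2 o y x b bb eb)).2
    rw [Morse_gp_comm hd.symm] at a2
    linarith [min_le_left (gp d o x y) (gp d o y z)]
  · obtain ⟨b, eb, bb⟩ := h.btw o y _ (Morse_gp_nonneg o y z) g2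
    have a1 := m3 o x y z b bb (eb.le.trans h1) eb.le
    have a2 := (abs_le.1 (m2 o y z b bb eb)).2
    linarith [min_le_right (gp d o x y) (gp d o y z)]

end

end Pool.Agent.MP_39b1da_gt

end

section

set_option autoImplicit false

namespace Pool.Agent.MP_39b1da_gt

open Filter Topology Set Real
open scoped ENNReal NNReal ContDiff InnerProductSpace

section Ex

/-- The real number `exp (-ε b)`. -/
noncomputable def bdEx (ε : ℝ) (b : EReal) : ℝ := (EReal.exp (-(ε * b))).toReal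

variable {ε : ℝ}

theorem bdEx_top (hε : 0 < ε) : bdEx ε ⊤ = 0 := by
  simp [bdEx, EReal.coe_mul_top_of_pos hε]

theorem bdEx_coe (t : ℝ) : bdEx ε t = exp (-(ε * t)) := by
  rw [bdEx, ← EReal.coe_mul, ← EReal.coe_neg, EReal.exp_coe, ENNReal.toReal_ofReal (exp_pos _).le]

theorem bdEx_nonneg (b : EReal) : 0 ≤ bdEx ε b := ENNReal.toReal_nonneg

theorem bd_cases {b : EReal} (hb : 0 ≤ b) : b = ⊤ ∨ ∃ t : ℝ, 0 ≤ t ∧ b = t := by
  induction b using EReal.rec with
  | bot => simp at hb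
  | top => exact Or.inl rfl
  | coe t => exact Or.inr ⟨t, by exact_mod_cast hb, rfl⟩

theorem bdEx_ofReal (hε : 0 < ε) {b : EReal} (hb : 0 ≤ b) :
    EReal.exp (-(ε * b)) = ENNReal.ofReal (bdEx ε b) := by
  rcases bd_cases hb with rfl | ⟨t, _, rfl⟩
  · simp [bdEx_top hε, EReal.coe_mul_top_of_pos hε]
  · rw [bdEx_coe, ← EReal.coe_mul, ← EReal.coe_neg, EReal.exp_coe]

theorem bdEx_le (hε : 0 < ε) {b : EReal} {r : ℝ} (h : (r : EReal) ≤ b) :
    bdEx ε b ≤ exp (-(ε * r)) := by
  induction b using EReal.rec with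
  | bot => simp at h
  | top => rw [bdEx_top hε]; exact (exp_pos _).le
  | coe t =>
    have : r ≤ t := by exact_mod_cast h
    rw [bdEx_coe]
    exact exp_le_exp.2 (by nlinarith)

theorem bdEx_ge (hε : 0 < ε) {b : EReal} (hb : 0 ≤ b) {r : ℝ} (h : b ≤ (r : EReal)) :
    exp (-(ε * r)) ≤ bdEx ε b := by
  rcases bd_cases hb with rfl | ⟨t, _, rfl⟩
  · simp at h
  · have : t ≤ r := by exact_mod_cast h
    rw [bdEx_coe]
    exact exp_le_exp.2 (by nlinarith)

theorem bdEx_le_one (hε : 0 < ε) {b : EReal} (hb : 0 ≤ b) : bdEx ε b ≤ 1 := by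
  simpa using bdEx_le hε (r := 0) (by simpa using hb)

theorem bdEx_eq_zero {b : EReal} (hb : 0 ≤ b) (h : bdEx ε b = 0) : b = ⊤ := by
  rcases bd_cases hb with rfl | ⟨t, _, rfl⟩
  · rfl
  · rw [bdEx_coe] at h; exact absurd h (exp_pos _).ne'

theorem bdEx_cmp (hε : 0 < ε) {b b' : EReal} (hb : 0 ≤ b) {A : ℝ}
    (h : ∀ r : ℝ, (r : EReal) < b → ((r - A : ℝ) : EReal) ≤ b') :
    bdEx ε b' ≤ exp (ε * A) * bdEx ε b := by
  rcases bd_cases hb with rfl | ⟨t, _, rfl⟩
  · have : b' = ⊤ := (EReal.eq_top_iff_forall_lt _).2 fun y => by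
      have := h (y + 1 + A) (EReal.coe_lt_top _)
      exact lt_of_lt_of_le (by exact_mod_cast (by linarith)) this
    rw [this, bdEx_top hε, mul_zero]
  · have h1 : ((t - A : ℝ) : EReal) ≤ b' := by
      refine EReal.le_of_forall_lt_iff_le.1 fun z hz => ?_
      by_contra hc
      have h2 : z < t - A := by exact_mod_cast not_le.1 hc
      have h3 := h (z + A) (by exact_mod_cast (by linarith))
      rw [add_sub_cancel_right] at h3
      exact absurd hz (not_lt.2 h3)
    refine (bdEx_le hε h1).trans (le_of_eq ?_)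
    rw [bdEx_coe, ← exp_add]; congr 1; ring

end Ex

section Seq

variable {X : Type} {d : X → X → ℝ} {o : X} {C : ℝ}

/-- The Gromov products of two sequences are eventually at least `r`. -/
def BdGe (d : X → X → ℝ) (o : X) (r : ℝ) (x y : ℕ → X) : Prop :=
  ∃ N : ℕ, ∀ i, N ≤ i → ∀ j, N ≤ j → r ≤ gp d o (x i) (y j)

theorem bd_gp_comm (hd : CoarseLen d) (x y : X) : gp d o x y = gp d o y x := by
  simp only [gp, hd.symm x y]; ring

theorem bd_gp_nonneg (hd : CoarseLen d) (x y : X) : 0 ≤ gp d o x y := by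
  have := hd.tri x o y
  simp only [gp, hd.symm x o] at *
  linarith

theorem bd_nonneg (hd : CoarseLen d) (x y : X) : 0 ≤ d x y := by
  have := hd.tri x y x
  rw [hd.self, hd.symm y x] at this
  linarith

theorem BdGe.symm (hd : CoarseLen d) {r : ℝ} {x y : ℕ → X} (h : BdGe d o r x y) :
    BdGe d o r y x := by
  obtain ⟨N, h⟩ := h
  exact ⟨N, fun i hi j hj => bd_gp_comm hd (x j) (y i) ▸ h j hj i hi⟩

theorem BdGe.trans (h4 : ∀ x y z, min (gp d o x y) (gp d o y z) - C ≤ gp d o x z) {r : ℝ}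
    {x y z : ℕ → X} (h : BdGe d o r x y) (h' : BdGe d o r y z) : BdGe d o (r - C) x z := by
  obtain ⟨N, h⟩ := h
  obtain ⟨N', h'⟩ := h'
  refine ⟨max N N', fun i hi j hj => le_trans ?_ (h4 _ (y (max N N')) _)⟩
  have h1 := h i ((le_max_left _ _).trans hi) _ (le_max_left N N')
  have h2 := h' _ (le_max_right N N') j ((le_max_right _ _).trans hj)
  linarith [le_min h1 h2]

theorem bdGe_iff {r : ℝ} {x y : ℕ → X} :
    BdGe d o r x y ↔ ∀ᶠ p : ℕ × ℕ in atTop, r ≤ gp d o (x p.1) (y p.2) := by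
  rw [eventually_atTop]
  constructor
  · rintro ⟨N, h⟩
    exact ⟨(N, N), fun p hp => h _ hp.1 _ hp.2⟩
  · rintro ⟨⟨a, b⟩, h⟩
    exact ⟨max a b, fun i hi j hj => h (i, j) ⟨(le_max_left _ _).trans hi, (le_max_right _ _).trans hj⟩⟩

theorem bdGe_self (x : InfSeq d o) (r : ℝ) : BdGe d o r x.1 x.1 :=
  bdGe_iff.2 (tendsto_atTop.1 x.2 r)

theorem infRel_iff (h4 : ∀ x y z, min (gp d o x y) (gp d o y z) - C ≤ gp d o x z)
    (x y : InfSeq d o) : InfRel d o x y ↔ ∀ r, BdGe d o r x.1 y.1 := by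
  constructor
  · intro h r
    obtain ⟨N, h1⟩ := bdGe_self x (r + C)
    obtain ⟨N', h2⟩ := eventually_atTop.1 (tendsto_atTop.1 h (r + C))
    refine ⟨max N N', fun i hi j hj => le_trans ?_ (h4 _ (x.1 j) _)⟩
    have h3 := h1 i ((le_max_left _ _).trans hi) j ((le_max_left _ _).trans hj)
    have h5 := h2 j ((le_max_right _ _).trans hj)
    linarith [le_min h3 h5]
  · intro h
    refine tendsto_atTop.2 fun r => ?_
    obtain ⟨N, h1⟩ := h r
    exact eventually_atTop.2 ⟨N, fun i hi => h1 i hi i hi⟩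

theorem bd_mk_iff (hd : CoarseLen d) (h4 : ∀ x y z, min (gp d o x y) (gp d o y z) - C ≤ gp d o x z)
    (x y : InfSeq d o) :
    Quot.mk (InfRel d o) x = Quot.mk (InfRel d o) y ↔ ∀ r, BdGe d o r x.1 y.1 := by
  have : Equivalence (InfRel d o) := ⟨fun x => (infRel_iff h4 x x).2 (bdGe_self x),
    fun {x y} h => (infRel_iff h4 _ _).2 fun r => ((infRel_iff h4 _ _).1 h r).symm hd,
    fun {x y z} h h' => (infRel_iff h4 _ _).2 fun r => by
      simpa using ((infRel_iff h4 _ _).1 h (r + C)).trans h4 ((infRel_iff h4 _ _).1 h' (r + C))⟩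
  rw [Quot.eq, this.eqvGen_iff, infRel_iff h4]

theorem le_bgp {r : ℝ} {x y : InfSeq d o} (h : BdGe d o r x.1 y.1) :
    (r : EReal) ≤ bgp d o (Quot.mk _ x) (Quot.mk _ y) := by
  refine le_iSup_of_le x (le_iSup_of_le y (le_iSup_of_le rfl (le_iSup_of_le rfl ?_)))
  exact le_liminf_of_le (by isBoundedDefault) ((bdGe_iff.1 h).mono fun p hp => by exact_mod_cast hp)

theorem bdGe_of_lt (hd : CoarseLen d) (h4 : ∀ x y z, min (gp d o x y) (gp d o y z) - C ≤ gp d o x z)
    {r : ℝ} {x y : InfSeq d o} (h : (r : EReal) < bgp d o (Quot.mk _ x) (Quot.mk _ y)) :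
    BdGe d o (r - 2 * C) x.1 y.1 := by
  simp only [bgp, lt_iSup_iff] at h
  obtain ⟨x', y', hx, hy, h⟩ := h
  have h1 : BdGe d o r x'.1 y'.1 :=
    bdGe_iff.2 ((eventually_lt_of_lt_liminf h).mono fun p hp => by exact_mod_cast hp.le)
  have h2 := ((bd_mk_iff hd h4 _ _).1 hx.symm r).trans h4 h1
  have h3 := h2.trans h4 ((bd_mk_iff hd h4 _ _).1 hy (r - C))
  rwa [show r - C - C = r - 2 * C by ring] at h3

theorem bgp_nonneg (hd : CoarseLen d) (ξ η : Bdry d o) : 0 ≤ bgp d o ξ η := by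
  induction ξ using Quot.ind
  induction η using Quot.ind
  exact le_bgp (r := 0) ⟨0, fun _ _ _ _ => bd_gp_nonneg hd _ _⟩

theorem bgp_comm (hd : CoarseLen d) (ξ η : Bdry d o) : bgp d o ξ η = bgp d o η ξ := by
  have key : ∀ ξ η : Bdry d o, bgp d o ξ η ≤ bgp d o η ξ := fun ξ η => by
    refine iSup_le fun x => iSup_le fun y => iSup_le fun hx => iSup_le fun hy => ?_
    refine EReal.le_of_forall_lt_iff_le.1 fun z hz => ?_
    by_contra hc
    have h1 : BdGe d o z x.1 y.1 := bdGe_iff.2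
      ((eventually_lt_of_lt_liminf (not_le.1 hc)).mono fun p hp => by exact_mod_cast hp.le)
    have h2 := le_bgp (h1.symm hd)
    rw [hx, hy] at h2
    exact absurd hz (not_lt.2 h2)
  exact le_antisymm (key _ _) (key _ _)

theorem bgp_self (ξ : Bdry d o) : bgp d o ξ ξ = ⊤ := by
  induction ξ using Quot.ind with | mk x =>
  refine (EReal.eq_top_iff_forall_lt _).2 fun y => lt_of_lt_of_le ?_ (le_bgp (bdGe_self x (y + 1)))
  exact_mod_cast lt_add_one y

theorem bd_eq_of_top (hd : CoarseLen d)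
    (h4 : ∀ x y z, min (gp d o x y) (gp d o y z) - C ≤ gp d o x z) {ξ η : Bdry d o}
    (h : bgp d o ξ η = ⊤) : ξ = η := by
  induction ξ using Quot.ind with | mk x =>
  induction η using Quot.ind with | mk y =>
  refine (bd_mk_iff hd h4 x y).2 fun r => ?_
  have := bdGe_of_lt hd h4 (r := r + 2 * C) (x := x) (y := y) (h ▸ EReal.coe_lt_top _)
  rwa [add_sub_cancel_right] at this

theorem bgp_four (hd : CoarseLen d)
    (h4 : ∀ x y z, min (gp d o x y) (gp d o y z) - C ≤ gp d o x z) (a b c e : Bdry d o) (r : ℝ)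
    (h : (r : EReal) < min (bgp d o a b) (min (bgp d o b c) (bgp d o c e))) :
    ((r - 4 * C : ℝ) : EReal) ≤ bgp d o a e := by
  induction a using Quot.ind
  induction b using Quot.ind
  induction c using Quot.ind
  induction e using Quot.ind
  simp only [lt_min_iff] at h
  have hC : 0 ≤ C := by have := h4 o o o; rw [min_self] at this; linarith
  have h1 := (bdGe_of_lt hd h4 h.1).trans h4 (bdGe_of_lt hd h4 h.2.1)
  obtain ⟨N, h2⟩ := bdGe_of_lt hd h4 h.2.2
  have h3 := h1.trans h4 ⟨N, fun i hi j hj => le_trans (by linarith) (h2 i hi j hj)⟩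
  rw [show r - 2 * C - C - C = r - 4 * C by ring] at h3
  exact le_bgp h3

end Seq

theorem exists_visual {X : Type} {d : X → X → ℝ} (hd : CoarseLen d) {C : ℝ} (o : X)
    (h4 : ∀ x y z, min (gp d o x y) (gp d o y z) - C ≤ gp d o x z) :
    ∃ ρ, IsVisual d o ρ := by
  have hC : 0 ≤ C := by have := h4 o o o; rw [min_self] at this; linarith
  have hl : 0 < log 2 := log_pos (by norm_num)
  set ε := log 2 / (4 * C + 1) with hεd
  have hε : 0 < ε := by positivity
  have h2 : exp (ε * (4 * C)) ≤ 2 := by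
    rw [← exp_log (show (0 : ℝ) < 2 by norm_num), exp_le_exp, hεd, div_mul_eq_mul_div,
      div_le_iff₀ (by positivity)]
    nlinarith
  let D : Bdry d o → Bdry d o → ℝ≥0 := fun ξ η => ⟨bdEx ε (bgp d o ξ η), bdEx_nonneg _⟩
  have D0 : ∀ x, D x x = 0 := fun x => NNReal.eq (by
    change bdEx ε _ = 0
    rw [bgp_self, bdEx_top hε])
  have Dc : ∀ x y, D x y = D y x := fun x y => NNReal.eq (by
    change bdEx ε _ = bdEx ε _
    rw [bgp_comm hd])
  have D4 : ∀ a b c e, D a e ≤ 2 * max (D a b) (max (D b c) (D c e)) := fun a b c e => by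
    have h1 := bdEx_cmp hε (le_min (bgp_nonneg hd a b) (le_min (bgp_nonneg hd b c)
      (bgp_nonneg hd c e))) (bgp_four hd h4 a b c e)
    have h3 : bdEx ε (min (bgp d o a b) (min (bgp d o b c) (bgp d o c e))) ≤
        ((max (D a b) (max (D b c) (D c e)) : ℝ≥0) : ℝ) := by
      rw [NNReal.coe_max, NNReal.coe_max]
      rcases min_choice (bgp d o a b) (min (bgp d o b c) (bgp d o c e)) with h | h
      · rw [h]; exact le_max_left _ _
      · rw [h]
        refine le_trans ?_ (le_max_right _ _)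
        rcases min_choice (bgp d o b c) (bgp d o c e) with h | h
        · rw [h]; exact le_max_left _ _
        · rw [h]; exact le_max_right _ _
    rw [← NNReal.coe_le_coe, NNReal.coe_mul, NNReal.coe_two]
    exact h1.trans (mul_le_mul h2 h3 (bdEx_nonneg _) (by norm_num))
  let P := PseudoMetricSpace.ofPreNNDist D D0 Dc
  have hP1 : ∀ x y, P.dist x y ≤ bdEx ε (bgp d o x y) :=
    PseudoMetricSpace.dist_ofPreNNDist_le D D0 Dc
  have hP2 : ∀ x y, bdEx ε (bgp d o x y) ≤ 2 * P.dist x y :=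
    PseudoMetricSpace.le_two_mul_dist_ofPreNNDist D D0 Dc D4
  refine ⟨{ P with
    eq_of_dist_eq_zero := fun {x y} h => bd_eq_of_top hd h4 (bdEx_eq_zero (ε := ε) (bgp_nonneg hd x y)
      (le_antisymm (by have := hP2 x y; rw [show P.dist x y = 0 from h] at this; linarith)
        (bdEx_nonneg _))) }, ε, 1 / 2, 1, hε, by norm_num, fun ξ η => ?_⟩
  rw [bdEx_ofReal hε (bgp_nonneg hd ξ η), ← ENNReal.ofReal_mul (by norm_num),
    ← ENNReal.ofReal_mul (by norm_num)]
  exact ⟨ENNReal.ofReal_le_ofReal (by change _ ≤ P.dist ξ η; linarith [hP2 ξ η]),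
    ENNReal.ofReal_le_ofReal (by change P.dist ξ η ≤ _; linarith [hP1 ξ η])⟩

section QS

variable {Z : Type} {ρ₀ ρ : MetricSpace Z}

theorem bd_dist_nonneg (ρ : MetricSpace Z) (x y : Z) : 0 ≤ ρ.dist x y :=
  @dist_nonneg _ ρ.toPseudoMetricSpace x y

theorem bd_qs_real (h : IsQS ρ₀ ρ) (t : ℝ) : ∃ H : ℝ, 0 ≤ H ∧ ∀ x y z : Z,
    ρ₀.dist x y ≤ t * ρ₀.dist x z → ρ.dist x y ≤ H * ρ.dist x z := by
  obtain ⟨f, hf⟩ := h
  refine ⟨f t.toNNReal, (f _).2, fun x y z h => hf x y z _ (h.trans ?_)⟩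
  exact mul_le_mul_of_nonneg_right (le_coe_toNNReal t) (bd_dist_nonneg ρ₀ _ _)

theorem bd_qs_small (h : IsQS ρ₀ ρ) {M : ℝ} (hM : ∀ x y, ρ₀.dist x y ≤ M) {η : ℝ} (hη : 0 < η) :
    ∃ δ > 0, ∀ x y, ρ₀.dist x y ≤ δ → ρ.dist x y ≤ η := by
  by_cases hs : ∀ x y : Z, x = y
  · exact ⟨1, one_pos, fun x y _ => by rw [hs x y, ρ.dist_self]; exact hη.le⟩
  push Not at hs
  obtain ⟨a, b, hab⟩ := hs
  have hδ : 0 < ρ₀.dist a b :=
    (bd_dist_nonneg ρ₀ a b).lt_of_ne' fun h => hab (ρ₀.eq_of_dist_eq_zero h)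
  obtain ⟨H, hH, h1⟩ := bd_qs_real h (M / ρ₀.dist a b)
  have h2 : ∀ p, ρ.dist a p ≤ H * ρ.dist a b := fun p =>
    h1 a p b (by rw [div_mul_cancel₀ _ hδ.ne']; exact hM _ _)
  have h3 : ∀ p q, ρ.dist p q ≤ 2 * H * ρ.dist a b := fun p q => by
    have := ρ.dist_triangle p a q
    rw [ρ.dist_comm p a] at this
    linarith [h2 p, h2 q]
  obtain ⟨f, hf⟩ := h
  set M' := 2 * H * ρ.dist a b with hM'
  have hM0 : 0 ≤ M' := (bd_dist_nonneg ρ a a).trans (h3 a a)
  let s : ℝ≥0 := ⟨η / (M' + 1), by positivity⟩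
  have hs : 0 < s := by change (0 : ℝ) < η / (M' + 1); positivity
  have ht : 0 < f.symm s := by
    have := f.symm.strictMono hs
    rwa [← bot_eq_zero, f.symm.map_bot, bot_eq_zero] at this
  have ht' : (0 : ℝ) < f.symm s := ht
  refine ⟨f.symm s * (ρ₀.dist a b / 2), by positivity, fun x y hxy => ?_⟩
  have h5 : ∃ q, ρ₀.dist a b / 2 ≤ ρ₀.dist x q := by
    by_contra hc
    push Not at hc
    have := ρ₀.dist_triangle a x b
    rw [ρ₀.dist_comm a x] at this
    linarith [hc a, hc b]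
  obtain ⟨q, hq⟩ := h5
  have h6 := hf x y q (f.symm s) (hxy.trans (mul_le_mul_of_nonneg_left hq ht'.le))
  rw [f.apply_symm_apply] at h6
  refine h6.trans ((mul_le_mul_of_nonneg_left (h3 x q) s.2).trans ?_)
  change η / (M' + 1) * M' ≤ η
  rw [div_mul_eq_mul_div, div_le_iff₀ (by positivity)]
  nlinarith

theorem bd_qs_large (h : IsQS ρ₀ ρ) {M : ℝ} (hM : ∀ x y, ρ₀.dist x y ≤ M) {δ : ℝ} (hδ : 0 < δ) :
    ∃ η > 0, ∀ x y, δ ≤ ρ₀.dist x y → η ≤ ρ.dist x y := by
  by_cases hs : ∀ x y : Z, x = y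
  · exact ⟨1, one_pos, fun x y h => by rw [hs x y, ρ₀.dist_self] at h; exact absurd h (not_le.2 hδ)⟩
  push Not at hs
  obtain ⟨a, b, hab⟩ := hs
  have h0 : 0 < ρ.dist a b :=
    (bd_dist_nonneg ρ a b).lt_of_ne' fun h => hab (ρ.eq_of_dist_eq_zero h)
  have hM0 : 0 ≤ M := (bd_dist_nonneg ρ₀ a a).trans (hM a a)
  obtain ⟨H, hH, h1⟩ := bd_qs_real h (M / δ)
  refine ⟨ρ.dist a b / (2 * H + 1), by positivity, fun x y hxy => ?_⟩
  have h2 : ∀ p, ρ.dist x p ≤ H * ρ.dist x y := fun p => h1 x p y (by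
    refine (hM _ _).trans (le_trans (le_of_eq ?_) (mul_le_mul_of_nonneg_left hxy (by positivity)))
    rw [div_mul_cancel₀ _ hδ.ne'])
  have h3 := ρ.dist_triangle a x b
  rw [ρ.dist_comm a x] at h3
  rw [div_le_iff₀ (by positivity)]
  nlinarith [h2 a, h2 b, bd_dist_nonneg ρ x y]

end QS

section Rays

variable {X : Type} [MetricSpace X] {o : X} {c c' : ℝ → X}

theorem IsRay.bd_dist (h : IsRay o c) {s : ℝ} (hs : 0 ≤ s) : dist o (c s) = s := by
  rw [← h.1, h.2 0 s le_rfl hs, zero_sub, abs_neg, abs_of_nonneg hs]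

theorem IsRay.bd_btw (h : IsRay o c) {s t : ℝ} (hs : 0 ≤ s) (hst : s ≤ t) : Btw o (c s) (c t) := by
  rw [Btw, h.bd_dist hs, h.bd_dist (hs.trans hst), h.2 s t hs (hs.trans hst),
    abs_of_nonpos (by linarith)]
  ring

theorem bd_g_nonneg (x y : X) : 0 ≤ gp dist o x y := by
  have := dist_triangle_left x y o
  simp only [gp]; linarith

theorem bd_g_le (h : IsRay o c) {s : ℝ} (hs : 0 ≤ s) (y : X) : gp dist o (c s) y ≤ s := by
  have := dist_triangle o (c s) y
  simp only [gp, h.bd_dist hs] at *; linarith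

theorem bd_g_mono (h : IsRay o c) (h' : IsRay o c') {s i j : ℝ} (hs : 0 ≤ s) (hi : s ≤ i)
    (hj : s ≤ j) : gp dist o (c s) (c' s) ≤ gp dist o (c i) (c' j) := by
  have h1 := dist_triangle4 (c i) (c s) (c' s) (c' j)
  rw [h.2 i s (hs.trans hi) hs, h'.2 s j hs (hs.trans hj), abs_of_nonneg (by linarith),
    abs_of_nonpos (by linarith)] at h1
  simp only [gp, h.bd_dist hs, h'.bd_dist hs, h.bd_dist (hs.trans hi), h'.bd_dist (hs.trans hj)]
  linarith

theorem bd_g_eq (h : IsRay o c) (h' : IsRay o c') {s : ℝ} (hs : 0 ≤ s) :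
    dist (c s) (c' s) / 2 = s - gp dist o (c s) (c' s) := by
  simp only [gp, h.bd_dist hs, h'.bd_dist hs]; ring

theorem bd_qr_le (hK : GlobK X) (h : IsRay o c) (h' : IsRay o c') {s : ℝ} (hs : 0 ≤ s) :
    qr c c' ≤ exp (-gp dist o (c s) (c' s)) := by
  refine qr_le fun t ht => ?_
  set T := gp dist o (c s) (c' s)
  have hT : 0 ≤ T := bd_g_nonneg _ _
  set a := max s t with ha
  have h0 : 0 < a := ht.trans_le (le_max_right _ _)
  have h1 := hK.ratio (h.bd_btw ht.le (le_max_right s t)) (h'.bd_btw ht.le (le_max_right s t))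
    (by rw [h.bd_dist h0.le, h'.bd_dist h0.le]) (by rw [h.bd_dist ht.le, h'.bd_dist ht.le])
  rw [h.bd_dist h0.le, h.bd_dist ht.le, bd_g_eq h h' h0.le] at h1
  have h2 : T ≤ gp dist o (c a) (c' a) := bd_g_mono h h' hs (le_max_left _ _) (le_max_left _ _)
  have h3 : sinh (a - gp dist o (c a) (c' a)) ≤ exp (-T) * sinh a := by
    refine (sinh_le_sinh.2 (show _ ≤ a - T by linarith)).trans ?_
    have h4 : exp (-T) * exp (-a) ≤ exp (-(a - T)) := by
      rw [← exp_add]; exact exp_le_exp.2 (by linarith)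
    have h5 : exp (-T) * exp a = exp (a - T) := by rw [← exp_add]; congr 1; ring
    rw [sinh_eq, sinh_eq]; linarith
  have h6 : 0 < sinh a := sinh_pos_iff.2 h0
  have h7 : 0 < sinh t := sinh_pos_iff.2 ht
  refine le_of_mul_le_mul_right (h1.trans ?_) h6
  nlinarith

theorem bd_qr_ge (h : IsRay o c) (h' : IsRay o c') {T : ℝ} (hT : 0 ≤ T)
    (hq : qr c c' ≤ exp (-(T + 1))) : T ≤ gp dist o (c (T + 1)) (c' (T + 1)) := by
  by_contra hc
  have h1 := qr_ge h h' (s := T + 1) (by linarith)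
  rw [bd_g_eq h h' (by linarith)] at h1
  have h2 : (1 : ℝ) ≤ sinh (T + 1 - gp dist o (c (T + 1)) (c' (T + 1))) :=
    le_trans (by linarith) (self_le_sinh_iff.2 (by linarith))
  have h3 : sinh (T + 1) ≤ exp (T + 1) / 2 := by
    rw [sinh_eq]; linarith [exp_pos (-(T + 1))]
  have h4 : exp (-(T + 1)) * exp (T + 1) = 1 := by rw [← exp_add]; simp
  have h5 : qr c c' * sinh (T + 1) ≤ exp (-(T + 1)) * (exp (T + 1) / 2) :=
    mul_le_mul hq h3 (sinh_nonneg_iff.2 (by linarith)) (exp_pos _).le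
  linarith

end Rays

theorem boundary_est {X : Type} [MetricSpace X] (h : GlobK X) {d : X → X → ℝ} (hd : CoarseLen d)
    {L : ℝ} (hq : ∀ x y, d x y ≤ L * dist x y + L ∧ dist x y ≤ L * d x y + L) (o : X) :
    ∃ e : {c : ℝ → X // IsRay o c} → Bdry d o, ∀ ρ₀ ρ : MetricSpace (Bdry d o),
      IsVisual d o ρ₀ → IsQS ρ₀ ρ →
      (∀ K : ℝ, ∃ H : ℝ, ∀ c₁ c₂ c₃, qr c₁.1 c₂.1 ≤ K * qr c₁.1 c₃.1 →
        ρ.dist (e c₁) (e c₂) ≤ H * ρ.dist (e c₁) (e c₃)) ∧
      (∀ η > 0, ∃ κ > 0, ∀ c₁ c₂, qr c₁.1 c₂.1 ≤ κ → ρ.dist (e c₁) (e c₂) ≤ η) ∧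
      ∀ κ > 0, ∃ η > 0, ∀ c₁ c₂, κ ≤ qr c₁.1 c₂.1 → η ≤ ρ.dist (e c₁) (e c₂) := by
  obtain ⟨C, M1, M2, M3⟩ := morse h hd hq
  replace M3 := M3 o
  have hL : 0 ≤ L := by simpa using (hq o o).1 |>.trans' (bd_nonneg hd o o)
  -- coarse monotonicity, Lipschitz bound and growth of the `d`-distance along a ray
  have P1 : ∀ {c : ℝ → X}, IsRay o c → ∀ {s t : ℝ}, 0 ≤ s → s ≤ t → d o (c s) ≤ d o (c t) + C :=
    fun {c} hc s t hs hst => by
      linarith [M1 _ _ _ (hc.bd_btw hs hst), bd_nonneg hd (c s) (c t)]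
  have P2 : ∀ {c : ℝ → X}, IsRay o c → ∀ {s t : ℝ}, 0 ≤ s → s ≤ t →
      d o (c t) ≤ d o (c s) + L * (t - s) + L := fun {c} hc s t hs hst => by
    have h1 := (hq (c s) (c t)).1
    rw [hc.2 s t hs (hs.trans hst), abs_of_nonpos (by linarith), neg_sub] at h1
    linarith [hd.tri o (c s) (c t)]
  have P3 : ∀ {c : ℝ → X}, IsRay o c → ∀ {t r : ℝ}, (L + 1) * (|r| + 1) ≤ t → r ≤ d o (c t) :=
    fun {c} hc t r ht => by
      have h0 : 0 ≤ t := le_trans (by positivity) ht
      have h1 := (hq o (c t)).2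
      rw [hc.bd_dist h0] at h1
      by_contra hc
      nlinarith [le_abs_self r, abs_nonneg r, bd_nonneg hd o (c t)]
  have P4 : ∀ {c : ℝ → X}, IsRay o c → ∀ {i : ℝ}, 0 ≤ i → ∀ y,
      |gp d o (c i) y - d o (c (gp dist o (c i) y))| ≤ C := fun hc i hi y =>
    M2 _ _ _ _ (hc.bd_btw (bd_g_nonneg _ _) (bd_g_le hc hi y)) (hc.bd_dist (bd_g_nonneg _ _))
  have B1 : ∀ {c c' : ℝ → X}, IsRay o c → IsRay o c' → ∀ {s T : ℝ}, 0 ≤ s → 0 ≤ T →
      T ≤ gp dist o (c s) (c' s) →
      BdGe d o (d o (c T) - 2 * C) (fun n : ℕ => c n) (fun n : ℕ => c' n) :=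
    fun {c c'} hc hc' s T hs hT hsT => ⟨⌈s⌉₊, fun i hi j hj => by
      have h1 := bd_g_mono hc hc' hs (Nat.ceil_le.1 hi) (Nat.ceil_le.1 hj)
      have h2 := P1 hc hT (hsT.trans h1)
      have h3 := abs_le.1 (P4 hc (Nat.cast_nonneg i) (c' j))
      linarith [h3.1]⟩
  have hI : ∀ c : {c : ℝ → X // IsRay o c}, Tendsto (fun p : ℕ × ℕ =>
      gp d o (c.1 p.1) (c.1 p.2)) atTop atTop := fun c => by
    refine tendsto_atTop.2 fun r => ?_
    have h0 : 0 ≤ (L + 1) * (|r + 2 * C| + 1) := by positivity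
    have h1 := bdGe_iff.1 (B1 c.2 c.2 h0 h0 (by simp [gp, c.2.bd_dist h0]))
    exact h1.mono fun p hp => by linarith [P3 c.2 (r := r + 2 * C) le_rfl]
  let e : {c : ℝ → X // IsRay o c} → Bdry d o := fun c => Quot.mk _ ⟨fun n : ℕ => c.1 n, hI c⟩
  have B1' : ∀ (c c' : {c : ℝ → X // IsRay o c}) {T : ℝ}, 0 ≤ T → qr c.1 c'.1 ≤ exp (-(T + 1)) →
      ((d o (c.1 T) - 2 * C : ℝ) : EReal) ≤ bgp d o (e c) (e c') := fun c c' T hT hq =>
    le_bgp (B1 c.2 c'.2 (by linarith) hT (bd_qr_ge c.2 c'.2 hT hq))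
  have B2 : ∀ (c c' : {c : ℝ → X // IsRay o c}) {r : ℝ}, (r : EReal) < bgp d o (e c) (e c') →
      ∃ T, 0 ≤ T ∧ qr c.1 c'.1 ≤ exp (-T) ∧ r - 3 * C ≤ d o (c.1 T) := fun c c' r hr => by
    obtain ⟨N, hN⟩ := bdGe_of_lt hd M3 hr
    have h1 := hN N le_rfl N le_rfl
    have h2 := abs_le.1 (P4 c.2 (Nat.cast_nonneg N) (c'.1 N))
    exact ⟨_, bd_g_nonneg _ _, bd_qr_le h c.2 c'.2 (Nat.cast_nonneg N), by linarith [h2.2]⟩
  refine ⟨e, fun ρ₀ ρ ⟨ε, a, b, hε, ha, hv⟩ hqs => ?_⟩
  have V1 : ∀ ξ η, a * bdEx ε (bgp d o ξ η) ≤ ρ₀.dist ξ η := fun ξ η => by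
    have := (hv ξ η).1
    rwa [bdEx_ofReal hε (bgp_nonneg hd ξ η), ← ENNReal.ofReal_mul ha.le,
      ENNReal.ofReal_le_ofReal_iff (bd_dist_nonneg ρ₀ _ _)] at this
  have V2 : ∀ ξ η, ρ₀.dist ξ η ≤ (|b| + 1) * bdEx ε (bgp d o ξ η) := fun ξ η => by
    have h1 := (hv ξ η).2.trans (mul_le_mul_left
      (ENNReal.ofReal_le_ofReal (show b ≤ |b| + 1 by linarith [le_abs_self b])) _)
    rwa [bdEx_ofReal hε (bgp_nonneg hd ξ η), ← ENNReal.ofReal_mul (by positivity),
      ENNReal.ofReal_le_ofReal_iff (mul_nonneg (by positivity) (bdEx_nonneg _))] at h1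
  have V3 : ∀ ξ η, ρ₀.dist ξ η ≤ |b| + 1 := fun ξ η => (V2 ξ η).trans
    (mul_le_of_le_one_right (by positivity) (bdEx_le_one hε (bgp_nonneg hd ξ η)))
  refine ⟨fun K => ?_, fun η hη => ?_, fun κ hκ => ?_⟩
  · set A := L * (|K| + 1) + L + 5 * C
    obtain ⟨H, _, hH⟩ := bd_qs_real hqs ((|b| + 1) * exp (ε * A) / a)
    refine ⟨H, fun c₁ c₂ c₃ hK => hH _ _ _ ?_⟩
    have h1 : bdEx ε (bgp d o (e c₁) (e c₂)) ≤ exp (ε * A) * bdEx ε (bgp d o (e c₁) (e c₃)) := by
      refine bdEx_cmp hε (bgp_nonneg hd _ _) fun r hr => ?_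
      obtain ⟨T, hT, h2, h3⟩ := B2 c₁ c₃ hr
      rcases le_total T (|K| + 1) with h4 | h4
      · have h5 := P2 c₁.2 le_rfl hT
        rw [c₁.2.1, hd.self] at h5
        have hC : 0 ≤ C := by have := M3 o o o; rw [min_self] at this; linarith
        refine le_trans ?_ (bgp_nonneg hd _ _)
        have : r - A ≤ 0 := by simp only [A]; nlinarith
        exact_mod_cast this
      · have h5 : qr c₁.1 c₂.1 ≤ exp (-(T - (|K| + 1) + 1)) := by
          have h6 : K ≤ exp |K| := by linarith [add_one_le_exp |K|, le_abs_self K]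
          refine hK.trans ((mul_le_mul h6 h2 (qr_nonneg c₁.2 c₃.2) (exp_pos _).le).trans ?_)
          rw [← exp_add]; exact exp_le_exp.2 (by linarith)
        have h7 := P2 c₁.2 (s := T - (|K| + 1)) (t := T) (by linarith) (by linarith [abs_nonneg K])
        refine le_trans ?_ (B1' c₁ c₂ (by linarith) h5)
        have : r - A ≤ d o (c₁.1 (T - (|K| + 1))) - 2 * C := by
          simp only [A]; rw [sub_sub_cancel] at h7; linarith
        exact_mod_cast this
    refine (V2 _ _).trans ((mul_le_mul_of_nonneg_left h1 (by positivity)).trans ?_)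
    refine le_trans (le_of_eq ?_) (mul_le_mul_of_nonneg_left (V1 _ _) (by positivity))
    field_simp
  · obtain ⟨δ, hδ, h1⟩ := bd_qs_small hqs V3 hη
    set R := (|b| + 1) / δ / ε
    set T := (L + 1) * (|R + 2 * C| + 1)
    refine ⟨exp (-(T + 1)), exp_pos _, fun c₁ c₂ hk => h1 _ _ ((V2 _ _).trans ?_)⟩
    have h2 : (R : EReal) ≤ bgp d o (e c₁) (e c₂) := by
      refine le_trans ?_ (B1' c₁ c₂ (by positivity) hk)
      have : R ≤ d o (c₁.1 T) - 2 * C := by linarith [P3 c₁.2 (r := R + 2 * C) le_rfl]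
      exact_mod_cast this
    refine (mul_le_mul_of_nonneg_left (bdEx_le hε h2) (by positivity)).trans ?_
    have h3 : ε * R = (|b| + 1) / δ := by simp only [R]; field_simp
    have h4 := add_one_le_exp ((|b| + 1) / δ)
    rw [h3, exp_neg, ← div_eq_mul_inv, div_le_iff₀ (exp_pos _)]
    have h5 : δ * ((|b| + 1) / δ) = |b| + 1 := by field_simp
    nlinarith
  · set R := L * |log κ| + L + 3 * C
    obtain ⟨η, hη, h1⟩ := bd_qs_large hqs V3 (δ := a * exp (-(ε * R))) (by positivity)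
    refine ⟨η, hη, fun c₁ c₂ hk => h1 _ _ (le_trans ?_ (V1 _ _))⟩
    refine mul_le_mul_of_nonneg_left (bdEx_ge hε (bgp_nonneg hd _ _) ?_) ha.le
    refine EReal.ge_of_forall_gt_iff_ge.1 fun r hr => ?_
    obtain ⟨T, hT, h2, h3⟩ := B2 c₁ c₂ hr
    have h4 : log κ ≤ -T := (log_le_iff_le_exp hκ).2 (hk.trans h2)
    have h5 := P2 c₁.2 le_rfl hT
    rw [c₁.2.1, hd.self] at h5
    have h6 : T ≤ |log κ| := by linarith [neg_abs_le (log κ)]
    have : r ≤ R := by simp only [R]; nlinarith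
    exact_mod_cast this

end Pool.Agent.MP_39b1da_gt

end
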