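import Pool.Agent.Mg.F39b1da.G324722

section

/-! The quotient of hyperbolic space by a uniform lattice. -/

set_option autoImplicit false

namespace Pool.Agent.MP_39b1da_gt

open Filter Topology Set Real
open scoped ENNReal NNReal ContDiff InnerProductSpace

section
variable {E : Type} [NormedAddCommGroup E] [InnerProductSpace ℝ E]

theorem signs_exists_min {Γ : Subgroup (Lor E)} (h : IsUnif Γ) (x y : Hyp E) :
    ∃ g ∈ Γ, ∀ g' ∈ Γ, dist x (g • y) ≤ dist x (g' • y) := by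
  have hf : {g | g ∈ Γ ∧ dist x (g • y) ≤ dist x y}.Finite := by
    refine (h.proper y (2 * dist x y)).subset ?_
    rintro g ⟨h1, h2⟩
    refine ⟨h1, ?_⟩
    have := dist_triangle_left (g • y) y x
    linarith
  obtain ⟨g, ⟨h1, h2⟩, h3⟩ := Set.exists_min_image _ (fun g : Lor E => dist x (g • y)) hf
    ⟨1, Γ.one_mem, by simp⟩
  refine ⟨g, h1, fun g' hg' => ?_⟩
  by_cases hc : dist x (g' • y) ≤ dist x y
  · exact h3 g' ⟨hg', hc⟩
  · linarith

/-- The distance between orbits. -/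
noncomputable def signsD {Γ : Subgroup (Lor E)} (h : IsUnif Γ) (x y : Hyp E) : ℝ :=
  dist x ((signs_exists_min h x y).choose • y)

theorem signsD_le {Γ : Subgroup (Lor E)} (h : IsUnif Γ) (x y : Hyp E) {g : Lor E} (hg : g ∈ Γ) :
    signsD h x y ≤ dist x (g • y) := (signs_exists_min h x y).choose_spec.2 g hg

theorem signsD_eq {Γ : Subgroup (Lor E)} (h : IsUnif Γ) (x y : Hyp E) :
    ∃ g ∈ Γ, signsD h x y = dist x (g • y) :=
  ⟨_, (signs_exists_min h x y).choose_spec.1, rfl⟩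

theorem signsD_le_of {Γ : Subgroup (Lor E)} (h : IsUnif Γ) (x y : Hyp E) {a b : Lor E}
    (ha : a ∈ Γ) (hb : b ∈ Γ) : signsD h (a • x) (b • y) ≤ signsD h x y := by
  obtain ⟨g, hg, e⟩ := signsD_eq h x y
  have := signsD_le h (a • x) (b • y) (g := a * g * b⁻¹)
    (Γ.mul_mem (Γ.mul_mem ha hg) (Γ.inv_mem hb))
  rw [mul_smul, mul_smul, inv_smul_smul, dist_smul_lor] at this
  rw [e]; exact this

theorem signsD_inv {Γ : Subgroup (Lor E)} (h : IsUnif Γ) (x y : Hyp E) {a b : Lor E}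
    (ha : a ∈ Γ) (hb : b ∈ Γ) : signsD h (a • x) (b • y) = signsD h x y := by
  refine le_antisymm (signsD_le_of h x y ha hb) ?_
  have := signsD_le_of h (a • x) (b • y) (Γ.inv_mem ha) (Γ.inv_mem hb)
  rwa [inv_smul_smul, inv_smul_smul] at this

theorem signsD_comm_le {Γ : Subgroup (Lor E)} (h : IsUnif Γ) (x y : Hyp E) :
    signsD h x y ≤ signsD h y x := by
  obtain ⟨g, hg, e⟩ := signsD_eq h y x
  have := signsD_le h x y (Γ.inv_mem hg)
  rw [← dist_smul_lor g, smul_inv_smul, dist_comm] at this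
  rw [e]; exact this

/-- The orbit relation. -/
def signsRel (Γ : Subgroup (Lor E)) : Setoid (Hyp E) where
  r x y := ∃ g ∈ Γ, g • x = y
  iseqv := ⟨fun x => ⟨1, Γ.one_mem, one_smul _ _⟩,
    fun ⟨g, hg, e⟩ => ⟨g⁻¹, Γ.inv_mem hg, by rw [← e, inv_smul_smul]⟩,
    fun ⟨g, hg, e⟩ ⟨k, hk, e'⟩ => ⟨k * g, Γ.mul_mem hk hg, by rw [mul_smul, e, e']⟩⟩

/-- The orbit space. -/
def SignsQ (Γ : Subgroup (Lor E)) : Type := Quotient (signsRel Γ)

/-- The projection to the orbit space. -/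
def signsq (Γ : Subgroup (Lor E)) (x : Hyp E) : SignsQ Γ := Quotient.mk (signsRel Γ) x

theorem signsq_surj (Γ : Subgroup (Lor E)) : Function.Surjective (signsq Γ) :=
  Quotient.mk_surjective

theorem signsq_eq (Γ : Subgroup (Lor E)) (x y : Hyp E) :
    signsq Γ x = signsq Γ y ↔ ∃ g ∈ Γ, g • x = y := Quotient.eq

/-- The distance of the orbit space. -/
noncomputable def signsDQ {Γ : Subgroup (Lor E)} (h : IsUnif Γ) : SignsQ Γ → SignsQ Γ → ℝ :=
  Quotient.lift₂ (s₁ := signsRel Γ) (s₂ := signsRel Γ) (signsD h) (by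
    rintro x y _ _ ⟨a, ha, rfl⟩ ⟨b, hb, rfl⟩
    exact (signsD_inv h x y ha hb).symm)

/-- The metric of the orbit space. -/
@[reducible] noncomputable def signsMet {Γ : Subgroup (Lor E)} (h : IsUnif Γ) :
    MetricSpace (SignsQ Γ) where
  dist := signsDQ h
  dist_self := by
    intro a
    obtain ⟨x, rfl⟩ := signsq_surj Γ a
    change signsD h x x = 0
    refine le_antisymm ?_ dist_nonneg
    simpa using signsD_le h x x Γ.one_mem
  dist_comm := by
    intro a b
    obtain ⟨x, rfl⟩ := signsq_surj Γ a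
    obtain ⟨y, rfl⟩ := signsq_surj Γ b
    exact le_antisymm (signsD_comm_le h x y) (signsD_comm_le h y x)
  dist_triangle := by
    intro a b c
    obtain ⟨x, rfl⟩ := signsq_surj Γ a
    obtain ⟨y, rfl⟩ := signsq_surj Γ b
    obtain ⟨z, rfl⟩ := signsq_surj Γ c
    change signsD h x z ≤ signsD h x y + signsD h y z
    obtain ⟨g, hg, e⟩ := signsD_eq h x y
    obtain ⟨k, hk, e'⟩ := signsD_eq h y z
    have h1 := signsD_le h x z (Γ.mul_mem hg hk)
    have h2 := dist_triangle x (g • y) ((g * k) • z)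
    rw [mul_smul, dist_smul_lor, ← mul_smul] at h2
    linarith
  eq_of_dist_eq_zero := by
    intro a b hab
    obtain ⟨x, rfl⟩ := signsq_surj Γ a
    obtain ⟨y, rfl⟩ := signsq_surj Γ b
    change signsD h x y = 0 at hab
    obtain ⟨g, hg, e⟩ := signsD_eq h x y
    rw [hab] at e
    exact ((signsq_eq Γ y x).2 ⟨g, hg, (dist_eq_zero.1 e.symm).symm⟩).symm

theorem signs_displacement [FiniteDimensional ℝ E] {Γ : Subgroup (Lor E)} (h : IsUnif Γ) :
    ∃ δ : ℝ, 0 < δ ∧ ∀ g ∈ Γ, g ≠ 1 → ∀ x : Hyp E, δ ≤ dist (g • x) x := by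
  have := proper_hyp (E := E)
  obtain ⟨R, hR⟩ := h.cocpt
  have hf := h.proper (Hyp.mk 0) (2 * R + 1)
  have h1 : ∀ g ∈ {g | g ∈ Γ ∧ dist (g • Hyp.mk (0 : E)) (Hyp.mk 0) ≤ 2 * R + 1},
      ∀ᶠ δ : ℝ in 𝓝[>] 0, g ≠ 1 → ∀ x ∈ Metric.closedBall (Hyp.mk (0 : E)) R,
        δ ≤ dist (g • x) x := by
    rintro g ⟨hg, -⟩
    by_cases hg1 : g = 1
    · exact Eventually.of_forall fun _ hh => absurd hg1 hh
    rcases (Metric.closedBall (Hyp.mk (0 : E)) R).eq_empty_or_nonempty with he | he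
    · exact Eventually.of_forall fun _ _ x hx => by rw [he] at hx; exact hx.elim
    have hc : Continuous fun x : Hyp E => dist (g • x) x :=
      (isometry_smul (Hyp E) g).continuous.dist continuous_id
    obtain ⟨x₀, -, hm⟩ := (isCompact_closedBall (Hyp.mk (0 : E)) R).exists_isMinOn he
      hc.continuousOn
    have hp : 0 < dist (g • x₀) x₀ := dist_pos.2 fun e => hg1 (h.free g hg x₀ e)
    filter_upwards [Ioo_mem_nhdsGT hp] with δ hδ _ x hx
    exact hδ.2.le.trans (hm hx)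
  obtain ⟨δ, ⟨h2, h3⟩, h4⟩ := (((eventually_all_finite hf).2 h1).and
    (Ioo_mem_nhdsGT (zero_lt_one' ℝ))).and self_mem_nhdsWithin |>.exists
  refine ⟨δ, h4, fun g hg hg1 x => ?_⟩
  obtain ⟨k, hk, hx⟩ := hR x
  have e : dist (g • x) x = dist ((k * g * k⁻¹) • k • x) (k • x) := by
    rw [mul_smul, mul_smul, inv_smul_smul, dist_smul_lor]
  have hne : k * g * k⁻¹ ≠ 1 := fun hh => hg1 (by
    have : g = k⁻¹ * (k * g * k⁻¹) * k := by group
    rw [this, hh]; group)
  have hm : k * g * k⁻¹ ∈ Γ := Γ.mul_mem (Γ.mul_mem hk hg) (Γ.inv_mem hk)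
  rw [e]
  by_contra hc
  refine hc (h2 _ ⟨hm, ?_⟩ hne _ hx)
  have t1 := dist_triangle4 ((k * g * k⁻¹) • Hyp.mk (0 : E)) ((k * g * k⁻¹) • k • x) (k • x)
    (Hyp.mk 0)
  rw [dist_smul_lor, dist_comm (Hyp.mk (0 : E))] at t1
  linarith [h3.2, not_le.1 hc]

theorem signs_cont {Γ : Subgroup (Lor E)} (h : IsUnif Γ) (F : SignsQ Γ → ℂ)
    (hF : Continuous fun x => F (signsq Γ x)) :
    @Continuous _ _ (signsMet h).toPseudoMetricSpace.toUniformSpace.toTopologicalSpace _ F := by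
  let _ := signsMet h
  refine Metric.continuous_iff.2 fun b ε hε => ?_
  obtain ⟨x, rfl⟩ := signsq_surj Γ b
  obtain ⟨δ, hδ, h1⟩ := Metric.continuous_iff.1 hF x ε hε
  refine ⟨δ, hδ, fun a ha => ?_⟩
  obtain ⟨y, rfl⟩ := signsq_surj Γ a
  rw [dist_comm] at ha
  change signsD h x y < δ at ha
  obtain ⟨g, hg, e⟩ := signsD_eq h x y
  have := h1 (g • y) (by rw [dist_comm, ← e]; exact ha)
  rwa [← (signsq_eq Γ y (g • y)).2 ⟨g, hg, rfl⟩] at this

end

theorem signs_setup {m : ℕ} (B : Branch m) : Nonempty (Setup m) := by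
  have h := B.unif
  let _ := signsMet h
  have := proper_hyp (E := Euc m)
  have hlip : ∀ x y, dist (signsq B.Γ x) (signsq B.Γ y) ≤ dist x y := fun x y => by
    change signsD h x y ≤ _
    simpa using signsD_le h x y B.Γ.one_mem
  have hq : Continuous (signsq B.Γ) :=
    (LipschitzWith.of_dist_le_mul (K := 1) fun x y => by simpa using hlip x y).continuous
  have : CompactSpace (SignsQ B.Γ) := by
    obtain ⟨R, hR⟩ := h.cocpt
    refine ⟨?_⟩
    have : signsq B.Γ '' Metric.closedBall (Hyp.mk 0) R = univ := by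
      refine eq_univ_of_forall fun a => ?_
      obtain ⟨x, rfl⟩ := signsq_surj B.Γ a
      obtain ⟨g, hg, hx⟩ := hR x
      exact ⟨g • x, hx, ((signsq_eq B.Γ x _).2 ⟨g, hg, rfl⟩).symm⟩
    rw [← this]
    exact (isCompact_closedBall _ _).image hq
  have hc : ∀ c c', Continuous fun x => (⟨B.f c x, B.f c' x⟩ : ℂ) := fun c c' => by
    have : (fun x => (⟨B.f c x, B.f c' x⟩ : ℂ)) =
        fun x => (B.f c x : ℂ) + (B.f c' x : ℂ) * Complex.I := by
      funext x; apply Complex.ext <;> simp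
    rw [this]
    have h1 := B.f_cont c
    have h2 := B.f_cont c'
    fun_prop
  let F : Fin 4 → Fin 4 → SignsQ B.Γ → ℂ := fun c c' =>
    Quotient.lift (s := signsRel B.Γ) (fun x => (⟨B.f c x, B.f c' x⟩ : ℂ)) (by
      rintro x _ ⟨g, hg, rfl⟩
      simp only [B.f_inv g hg])
  obtain ⟨δ, hδ, hd⟩ := signs_displacement h
  refine ⟨{ toBranch := B
            N := SignsQ B.Γ
            q := signsq B.Γ
            q_surj := signsq_surj _
            q_eq := signsq_eq _
            q_lip := hlip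
            q_iso := ⟨δ / 4, by positivity, fun a => ⟨fun a' h1 a'' h2 => ?_, fun b hb => ?_⟩⟩
            F1 := F 0 1
            F2 := F 2 3
            F1_cont := signs_cont h _ (hc 0 1)
            F2_cont := signs_cont h _ (hc 2 3)
            F1_q := fun _ => rfl
            F2_q := fun _ => rfl }⟩
  · refine le_antisymm (hlip _ _) ?_
    change _ ≤ signsD h a' a''
    obtain ⟨g, hg, e⟩ := signsD_eq h a' a''
    rw [e]
    by_cases hg1 : g = 1
    · rw [hg1, one_smul]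
    have t1 := hd g hg hg1 a''
    have t2 := dist_triangle_left (g • a'') a'' a'
    have t3 := dist_triangle_right a' a'' a
    rw [Metric.mem_ball] at h1 h2
    linarith
  · obtain ⟨y, rfl⟩ := signsq_surj B.Γ b
    rw [Metric.mem_ball, dist_comm] at hb
    change signsD h a y < δ / 4 at hb
    obtain ⟨g, hg, e⟩ := signsD_eq h a y
    exact ⟨g • y, by rw [Metric.mem_ball, dist_comm, ← e]; exact hb,
      ((signsq_eq B.Γ y _).2 ⟨g, hg, rfl⟩).symm⟩

end Pool.Agent.MP_39b1da_gt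

end

section

/-! Signed truncated wall functions. -/

set_option autoImplicit false

namespace Pool.Agent.MP_39b1da_gt

open Filter Topology Set Real
open scoped ENNReal NNReal ContDiff InnerProductSpace symmDiff

theorem signs_par {α : Type} {A B : Set α} (hA : A.Finite) (hB : B.Finite) :
    (-1 : ℝ) ^ (A ∆ B).ncard = (-1) ^ A.ncard * (-1) ^ B.ncard := by
  have h1 := Set.ncard_inter_add_ncard_sdiff_eq_ncard A B hA
  have h2 := Set.ncard_inter_add_ncard_sdiff_eq_ncard B A hB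
  have h3 : (A ∆ B).ncard = (A \ B).ncard + (B \ A).ncard := by
    rw [Set.symmDiff_def]
    exact Set.ncard_union_eq disjoint_sdiff_sdiff hA.sdiff hB.sdiff
  rw [inter_comm] at h2
  rw [← pow_add, show A.ncard + B.ncard = (A ∆ B).ncard + 2 * (A ∩ B).ncard by omega, pow_add,
    pow_mul]
  simp

/-- Truncation at height one quarter. -/
noncomputable def signsCl (t : ℝ) : ℝ := max (-(1 / 4)) (min (1 / 4) t)

section
variable {m : ℕ} (W : Walls m)

theorem signs_lor_smul (g : Lor (Euc m)) (x : Hyp (Euc m)) (v : ℝ × Euc m) :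
    lor (lift (g • x)) (g.1 v) = lor (lift x) v := by rw [lift_smul, g.2.1]

theorem signs_apply_inv (g : Lor (Euc m)) (v : ℝ × Euc m) : g.1 ((g⁻¹).1 v) = v :=
  g.1.apply_symm_apply v

/-- The walls separating `p` from `x`, oriented positively at `p`. -/
def signsN (c : Fin 4) (p x : Hyp (Euc m)) : Set (ℝ × Euc m) :=
  {v | v ∈ W.S c ∧ 0 < lor (lift p) v ∧ lor (lift x) v < 0}

theorem signsN_finite (c : Fin 4) (p x : Hyp (Euc m)) : (signsN W c p x).Finite := by
  refine (W.fin c p (sinh (dist p x))).subset ?_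
  rintro v ⟨h1, h2, h3⟩
  refine ⟨h1, ?_⟩
  have h4 := (abs_le.1 (arsinh_lor_lip (W.unit c v h1) p x)).2
  have h5 : arsinh (lor (lift x) v) < 0 := arsinh_neg_iff.2 h3
  rw [abs_of_pos h2, ← sinh_arsinh (lor (lift p) v), sinh_le_sinh]
  linarith

theorem signsN_smul (c : Fin 4) (p x : Hyp (Euc m)) {g : Lor (Euc m)} (hg : g ∈ W.Γ) :
    (signsN W c (g • p) (g • x)).ncard = (signsN W c p x).ncard := by
  have : signsN W c (g • p) (g • x) = g.1 '' signsN W c p x := by
    ext v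
    constructor
    · rintro ⟨h1, h2, h3⟩
      rw [← signs_apply_inv g v, signs_lor_smul] at h2 h3
      exact ⟨_, ⟨W.inv _ (W.Γ.inv_mem hg) c v h1, h2, h3⟩, signs_apply_inv g v⟩
    · rintro ⟨w, ⟨h1, h2, h3⟩, rfl⟩
      exact ⟨W.inv g hg c w h1, by rwa [signs_lor_smul], by rwa [signs_lor_smul]⟩
  rw [this, Set.ncard_image_of_injective _ g.1.injective]

theorem signsN_cocycle (c : Fin 4) {p p' x : Hyp (Euc m)}
    (hp : ∀ v ∈ W.S c, lor (lift p) v ≠ 0) (hp' : ∀ v ∈ W.S c, lor (lift p') v ≠ 0)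
    (hx : ∀ v ∈ W.S c, lor (lift x) v ≠ 0) :
    (-1 : ℝ) ^ (signsN W c p' x).ncard =
      (-1) ^ (signsN W c p x).ncard * (-1) ^ (signsN W c p p').ncard := by
  rw [← signs_par (signsN_finite W c p x) (signsN_finite W c p p')]
  congr 1
  refine Set.ncard_congr (fun w _ => if 0 < lor (lift p) w then w else -w) ?_ ?_ ?_
  · rintro w ⟨h1, h2, h3⟩
    split_ifs with h
    · exact Or.inl ⟨⟨h1, h, h3⟩, fun hh => by linarith [hh.2.2]⟩
    · have h4 : lor (lift p) w < 0 := lt_of_le_of_ne (not_lt.1 h) (hp w h1)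
      refine Or.inr ⟨⟨W.neg c w h1, ?_, ?_⟩, fun hh => ?_⟩
      · rw [lor_neg_right]; linarith
      · rw [lor_neg_right]; linarith
      · have := hh.2.2
        rw [lor_neg_right] at this; linarith
  · rintro a b ⟨-, a2, -⟩ ⟨-, b2, -⟩ h
    split_ifs at h with h1 h2 h2
    · exact h
    · rw [h, lor_neg_right] at a2; linarith
    · rw [← h, lor_neg_right] at b2; linarith
    · exact neg_injective h
  · rintro w (⟨⟨h1, h2, h3⟩, h4⟩ | ⟨⟨h1, h2, h3⟩, h4⟩)
    · refine ⟨w, ⟨h1, ?_, h3⟩, by simp [h2]⟩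
      by_contra hc
      exact h4 ⟨h1, h2, lt_of_le_of_ne (not_lt.1 hc) (hp' w h1)⟩
    · refine ⟨-w, ⟨W.neg c w h1, by rw [lor_neg_right]; linarith, ?_⟩, ?_⟩
      · rw [lor_neg_right, neg_lt_zero]
        by_contra hc
        exact h4 ⟨h1, h2, lt_of_le_of_ne (not_lt.1 hc) (hx w h1)⟩
      · have : ¬ 0 < lor (lift p) (-w) := by rw [lor_neg_right]; linarith
        simp [this]

open Classical in
/-- The truncated height above the nearest wall. -/
noncomputable def signsA (c : Fin 4) (x : Hyp (Euc m)) : ℝ :=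
  if h : ∃ v ∈ W.S c, |lor (lift x) v| ≤ 1 / 4 then |lor (lift x) h.choose| else 1 / 4

theorem signs_uniq (c : Fin 4) {x : Hyp (Euc m)} {v w : ℝ × Euc m} (hv : v ∈ W.S c)
    (hw : w ∈ W.S c) (h1 : |lor (lift x) v| < 1 / 2) (h2 : |lor (lift x) w| < 1 / 2) :
    w = v ∨ w = -v := by
  rcases W.same c v hv w hw with h | h | h
  · exact Or.inl h
  · exact Or.inr h
  · linarith [abs_lor_lt (W.unit c v hv) (W.unit c w hw) h1 h2]

theorem signsA_eq (c : Fin 4) {x : Hyp (Euc m)} {v : ℝ × Euc m} (hv : v ∈ W.S c)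
    (h : |lor (lift x) v| ≤ 1 / 4) : signsA W c x = |lor (lift x) v| := by
  have h0 : ∃ v ∈ W.S c, |lor (lift x) v| ≤ 1 / 4 := ⟨v, hv, h⟩
  rw [signsA, dif_pos h0]
  rcases signs_uniq W c (x := x) hv h0.choose_spec.1 (by linarith)
    (by linarith [h0.choose_spec.2]) with e | e
  · rw [e]
  · rw [e, lor_neg_right, abs_neg]

theorem signsA_far (c : Fin 4) {x : Hyp (Euc m)} (h : ∀ v ∈ W.S c, 1 / 4 < |lor (lift x) v|) :
    signsA W c x = 1 / 4 := by
  rw [signsA, dif_neg]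
  rintro ⟨v, hv, h1⟩
  linarith [h v hv]

theorem signsA_mem (c : Fin 4) (x : Hyp (Euc m)) : 0 ≤ signsA W c x ∧ signsA W c x ≤ 1 / 4 := by
  unfold signsA
  split_ifs with h
  · exact ⟨abs_nonneg _, h.choose_spec.2⟩
  · norm_num

theorem signsA_smul (c : Fin 4) (x : Hyp (Euc m)) {g : Lor (Euc m)} (hg : g ∈ W.Γ) :
    signsA W c (g • x) = signsA W c x := by
  by_cases h : ∃ v ∈ W.S c, |lor (lift x) v| ≤ 1 / 4
  · obtain ⟨v, hv, h⟩ := h
    rw [signsA_eq W c hv h, signsA_eq W c (W.inv g hg c v hv) (by rwa [signs_lor_smul]),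
      signs_lor_smul]
  · push Not at h
    rw [signsA_far W c h, signsA_far]
    intro v hv
    rw [← signs_apply_inv g v, signs_lor_smul]
    exact h _ (W.inv _ (W.Γ.inv_mem hg) c v hv)

/-- The signed truncated wall function with base point `p`. -/
noncomputable def signsF (c : Fin 4) (p x : Hyp (Euc m)) : ℝ :=
  (-1) ^ (signsN W c p x).ncard * signsA W c x

theorem signsF_abs (c : Fin 4) (p x : Hyp (Euc m)) : |signsF W c p x| = signsA W c x := by
  rw [signsF, abs_mul, abs_pow, abs_neg, abs_one, one_pow, one_mul,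
    abs_of_nonneg (signsA_mem W c x).1]

theorem signsF_smul (c : Fin 4) {p : Hyp (Euc m)} (hp : ∀ v ∈ W.S c, lor (lift p) v ≠ 0)
    {g : Lor (Euc m)} (hg : g ∈ W.Γ) :
    ∃ b : Bool, ∀ x, signsF W c p (g • x) = cond b 1 (-1) * signsF W c p x := by
  have hp' : ∀ v ∈ W.S c, lor (lift (g⁻¹ • p)) v ≠ 0 := fun v hv => by
    rw [← signs_lor_smul g, smul_inv_smul]; exact hp _ (W.inv g hg c v hv)
  have key : ∀ x, signsF W c p (g • x) =
      (-1) ^ (signsN W c p (g⁻¹ • p)).ncard * signsF W c p x := by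
    intro x
    have e := signsN_smul W c (g⁻¹ • p) x hg
    rw [smul_inv_smul] at e
    rw [signsF, signsF, signsA_smul W c x hg, e]
    by_cases hx : ∀ v ∈ W.S c, lor (lift x) v ≠ 0
    · rw [signsN_cocycle W c hp hp' hx]; ring
    · push Not at hx
      obtain ⟨v, hv, h⟩ := hx
      rw [signsA_eq W c hv (by rw [h]; norm_num), h]; simp
  rcases neg_one_pow_eq_or ℝ (signsN W c p (g⁻¹ • p)).ncard with h | h
  · exact ⟨true, fun x => by rw [key, h]; rfl⟩
  · exact ⟨false, fun x => by rw [key, h]; rfl⟩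

theorem signs_stable {x : Hyp (Euc m)} : ∀ᶠ y in 𝓝 x, ∀ v : ℝ × Euc m, lor v v = 1 →
    1 / 2 ≤ |lor (lift x) v| → 1 / 4 < |lor (lift y) v| ∧
      (lor (lift y) v < 0 ↔ lor (lift x) v < 0) := by
  have hd : 0 < arsinh (1 / 2) - arsinh (1 / 4) :=
    sub_pos.2 (arsinh_lt_arsinh.2 (by norm_num))
  filter_upwards [Metric.ball_mem_nhds x hd] with y hy v hv h
  rw [Metric.mem_ball] at hy
  have h1 := abs_le.1 (arsinh_lor_lip hv y x)
  rcases le_abs'.1 h with h2 | h2
  · have h3 := arsinh_le_arsinh.2 h2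
    rw [arsinh_neg] at h3
    have h4 : lor (lift y) v < -(1 / 4) := by
      rw [← arsinh_lt_arsinh, arsinh_neg]; linarith [h1.2]
    exact ⟨lt_abs.2 (Or.inr (by linarith)), iff_of_true (by linarith) (by linarith)⟩
  · have h3 := arsinh_le_arsinh.2 h2
    have h4 : 1 / 4 < lor (lift y) v := by
      rw [← arsinh_lt_arsinh]; linarith [h1.1]
    exact ⟨lt_abs.2 (Or.inl h4), iff_of_false (by linarith) (by linarith)⟩

theorem signsF_loc (c : Fin 4) {p : Hyp (Euc m)} (hp : ∀ v ∈ W.S c, lor (lift p) v ≠ 0)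
    (x : Hyp (Euc m)) :
    (∃ v ∈ W.S c, ∀ᶠ y in 𝓝 x, signsF W c p y = signsCl (lor (lift y) v)) ∨
      (signsA W c x = 1 / 4 ∧ ∀ᶠ y in 𝓝 x, signsF W c p y = signsF W c p x) := by
  by_cases h : ∃ v ∈ W.S c, |lor (lift x) v| < 1 / 2
  · left
    obtain ⟨v, hv, h0, h⟩ : ∃ v ∈ W.S c, 0 < lor (lift p) v ∧ |lor (lift x) v| < 1 / 2 := by
      obtain ⟨v, hv, h⟩ := h
      rcases lt_or_gt_of_ne (hp v hv) with h1 | h1
      · exact ⟨-v, W.neg c v hv, by rw [lor_neg_right]; linarith,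
          by rwa [lor_neg_right, abs_neg]⟩
      · exact ⟨v, hv, h1, h⟩
    have key : ∀ᶠ y in 𝓝 x, signsF W c p y =
        (-1) ^ (signsN W c p x \ {v}).ncard * signsCl (lor (lift y) v) := by
      filter_upwards [signs_stable (x := x)] with y hy
      have e1 : signsN W c p y \ {v} = signsN W c p x \ {v} := by
        ext w
        have : w ∈ W.S c → 0 < lor (lift p) w → w ≠ v →
            (lor (lift y) w < 0 ↔ lor (lift x) w < 0) := fun hw h1 hne => by
          refine (hy w (W.unit c w hw) ?_).2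
          by_contra hc
          rcases signs_uniq W c hv hw h (not_le.1 hc) with e | e
          · exact hne e
          · rw [e, lor_neg_right] at h1; linarith
        exact ⟨fun ⟨⟨a, b, d⟩, e⟩ => ⟨⟨a, b, (this a b e).1 d⟩, e⟩,
          fun ⟨⟨a, b, d⟩, e⟩ => ⟨⟨a, b, (this a b e).2 d⟩, e⟩⟩
      have e2 : signsA W c y = min (1 / 4) |lor (lift y) v| := by
        rcases le_or_gt |lor (lift y) v| (1 / 4) with h1 | h1
        · rw [signsA_eq W c hv h1, min_eq_right h1]
        · rw [min_eq_left h1.le]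
          refine signsA_far W c fun w hw => ?_
          rcases lt_or_ge |lor (lift x) w| (1 / 2) with h2 | h2
          · rcases signs_uniq W c hv hw h h2 with e | e
            · rwa [e]
            · rwa [e, lor_neg_right, abs_neg]
          · exact (hy w (W.unit c w hw) h2).1
      rw [← e1, signsF, e2]
      by_cases hm : v ∈ signsN W c p y
      · have h3 : lor (lift y) v < 0 := hm.2.2
        rw [← Set.ncard_sdiff_singleton_add_one hm (signsN_finite W c p y), pow_succ, mul_assoc,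
          abs_of_neg h3, signsCl, min_eq_right (by linarith : lor (lift y) v ≤ 1 / 4)]
        congr 1
        rcases le_total (1 / 4) (-lor (lift y) v) with h4 | h4
        · rw [min_eq_left h4, max_eq_left (by linarith)]; ring
        · rw [min_eq_right h4, max_eq_right (by linarith)]; ring
      · have h3 : 0 ≤ lor (lift y) v := not_lt.1 fun hh => hm ⟨hv, h0, hh⟩
        rw [Set.sdiff_singleton_eq_self hm, abs_of_nonneg h3, signsCl, max_eq_right]
        exact le_min (by norm_num) (by linarith)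
    rcases neg_one_pow_eq_or ℝ (signsN W c p x \ {v}).ncard with e | e
    · refine ⟨v, hv, key.mono fun y hy => ?_⟩
      rw [hy, e, one_mul]
    · refine ⟨-v, W.neg c v hv, key.mono fun y hy => ?_⟩
      rw [hy, e, lor_neg_right, signsCl, signsCl]
      rcases le_total (lor (lift y) v) (1 / 4) with h1 | h1 <;>
        rcases le_total (lor (lift y) v) (-(1 / 4)) with h2 | h2 <;>
        simp only [max_def, min_def] <;> split_ifs <;> linarith
  · right
    push Not at h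
    have e0 : signsA W c x = 1 / 4 := signsA_far W c fun v hv => by linarith [h v hv]
    refine ⟨e0, ?_⟩
    filter_upwards [signs_stable (x := x)] with y hy
    have e1 : signsN W c p y = signsN W c p x := by
      ext w
      exact ⟨fun ⟨a, b, d⟩ => ⟨a, b, (hy w (W.unit c w a) (h w a)).2.1 d⟩,
        fun ⟨a, b, d⟩ => ⟨a, b, (hy w (W.unit c w a) (h w a)).2.2 d⟩⟩
    rw [signsF, signsF, e1, e0, signsA_far W c fun w hw => (hy w (W.unit c w hw) (h w hw)).1]

theorem signs_cont_lor (v : ℝ × Euc m) : Continuous fun y : Hyp (Euc m) => lor (lift y) v := by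
  unfold lor; fun_prop

theorem signsF_cont (c : Fin 4) {p : Hyp (Euc m)} (hp : ∀ v ∈ W.S c, lor (lift p) v ≠ 0) :
    Continuous (signsF W c p) := by
  refine continuous_iff_continuousAt.2 fun x => ?_
  rcases signsF_loc W c hp x with ⟨v, -, h⟩ | ⟨-, h⟩
  · refine ContinuousAt.congr ?_ (EventuallyEq.symm h)
    have := signs_cont_lor v
    exact (continuous_const.max (continuous_const.min this)).continuousAt
  · exact continuousAt_const.congr (EventuallyEq.symm h)

theorem signsF_near (c : Fin 4) {p : Hyp (Euc m)} (hp : ∀ v ∈ W.S c, lor (lift p) v ≠ 0)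
    (x : Hyp (Euc m)) (hx : |signsF W c p x| < 1 / 4) :
    ∃ v ∈ W.S c, ∀ᶠ y in 𝓝 x, signsF W c p y = lor (lift y) v := by
  rcases signsF_loc W c hp x with ⟨v, hv, h⟩ | ⟨h, -⟩
  · refine ⟨v, hv, ?_⟩
    have h1 : |lor (lift x) v| < 1 / 4 := by
      rw [h.self_of_nhds, signsCl] at hx
      obtain ⟨a, b⟩ := abs_lt.1 hx
      rw [abs_lt]
      simp only [max_def, min_def] at a b
      split_ifs at a b <;> constructor <;> linarith
    have h2 : ∀ᶠ y in 𝓝 x, |lor (lift y) v| < 1 / 4 :=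
      (signs_cont_lor v).abs.continuousAt.eventually_lt continuousAt_const h1
    filter_upwards [h, h2] with y hy hy'
    obtain ⟨a, b⟩ := abs_lt.1 hy'
    rw [hy, signsCl, min_eq_right b.le, max_eq_right a.le]
  · rw [signsF_abs, h] at hx
    exact absurd hx (lt_irrefl _)

theorem signs_ufin (R : ℝ) :
    ∃ N : ℕ, ∀ c x, {v | v ∈ W.S c ∧ |lor (lift x) v| ≤ R}.ncard ≤ N := by
  obtain ⟨R₀, hR⟩ := W.unif.cocpt
  refine ⟨∑ c, {v | v ∈ W.S c ∧
    |lor (lift (Hyp.mk 0)) v| ≤ sinh (arsinh R + R₀)}.ncard, fun c x => ?_⟩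
  refine le_trans ?_ (Finset.single_le_sum (f := fun c => {v | v ∈ W.S c ∧
    |lor (lift (Hyp.mk 0)) v| ≤ sinh (arsinh R + R₀)}.ncard) (fun _ _ => Nat.zero_le _)
    (Finset.mem_univ c))
  obtain ⟨g, hg, hx⟩ := hR x
  refine Set.ncard_le_ncard_of_injOn g.1 ?_ g.1.injective.injOn (W.fin c _ _)
  rintro v ⟨h1, h2⟩
  have h3 := W.inv g hg c v h1
  refine ⟨h3, ?_⟩
  have h4 := abs_le.1 (arsinh_lor_lip (W.unit c _ h3) (g • x) (Hyp.mk 0))
  rw [signs_lor_smul] at h4
  obtain ⟨h5, h6⟩ := abs_le.1 h2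
  have h7 := arsinh_le_arsinh.2 h5
  have h8 := arsinh_le_arsinh.2 h6
  rw [arsinh_neg] at h7
  rw [← sinh_arsinh (lor (lift (Hyp.mk 0)) (g.1 v)), abs_le, ← sinh_neg, sinh_le_sinh,
    sinh_le_sinh]
  constructor <;> linarith [h4.1, h4.2]

/-- The subgroup fixing a family of functions. -/
def signsG (f : Fin 4 → Hyp (Euc m) → ℝ) : Subgroup (Lor (Euc m)) where
  carrier := {g | g ∈ W.Γ ∧ ∀ c x, f c (g • x) = f c x}
  one_mem' := ⟨W.Γ.one_mem, fun c x => by rw [one_smul]⟩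
  mul_mem' := fun {a b} ha hb =>
    ⟨W.Γ.mul_mem ha.1 hb.1, fun c x => by rw [mul_smul, ha.2, hb.2]⟩
  inv_mem' := fun {a} ha =>
    ⟨W.Γ.inv_mem ha.1, fun c x => by rw [← ha.2 c (a⁻¹ • x), smul_inv_smul]⟩

theorem signsG_unif (f : Fin 4 → Hyp (Euc m) → ℝ)
    (hf : ∀ g ∈ W.Γ, ∀ c, ∃ b : Bool, ∀ x, f c (g • x) = cond b 1 (-1) * f c x) :
    IsUnif (signsG W f) := by
  refine ⟨fun g hg => W.unif.free g hg.1, fun x R => (W.unif.proper x R).subset
    fun g hg => ⟨hg.1.1, hg.2⟩, ?_⟩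
  obtain ⟨R, hR⟩ := W.unif.cocpt
  have h1 : ∀ s : Fin 4 → Bool, ∃ r : Lor (Euc m),
      (∃ g ∈ W.Γ, ∀ c x, f c (g • x) = cond (s c) 1 (-1) * f c x) →
        r ∈ W.Γ ∧ ∀ c x, f c (r • x) = cond (s c) 1 (-1) * f c x := by
    intro s
    by_cases h : ∃ g ∈ W.Γ, ∀ c x, f c (g • x) = cond (s c) 1 (-1) * f c x
    · obtain ⟨g, hg⟩ := h
      exact ⟨g, fun _ => hg⟩
    · exact ⟨1, fun hh => absurd hh h⟩
  choose r hr using h1
  refine ⟨R + ∑ s, dist ((r s)⁻¹ • Hyp.mk (0 : Euc m)) (Hyp.mk 0), fun x => ?_⟩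
  obtain ⟨g, hg, hx⟩ := hR x
  choose s hs using hf g hg
  obtain ⟨h2, h3⟩ := hr s ⟨g, hg, hs⟩
  refine ⟨(r s)⁻¹ * g, ⟨W.Γ.mul_mem (W.Γ.inv_mem h2) hg, fun c y => ?_⟩, ?_⟩
  · have h4 := h3 c (((r s)⁻¹ * g) • y)
    rw [mul_smul, smul_inv_smul, hs] at h4
    rw [mul_smul]
    cases hsc : s c <;> rw [hsc] at h4 <;> simp only [cond] at h4 <;> linarith
  · have t1 := dist_triangle (((r s)⁻¹ * g) • x) ((r s)⁻¹ • Hyp.mk (0 : Euc m)) (Hyp.mk 0)
    rw [mul_smul, dist_smul_lor, ← mul_smul] at t1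
    have t2 := Finset.single_le_sum
      (f := fun s => dist ((r s)⁻¹ • Hyp.mk (0 : Euc m)) (Hyp.mk 0))
      (fun _ _ => dist_nonneg) (Finset.mem_univ s)
    linarith

end

theorem exists_branch {m : ℕ} (W : Walls m) : Nonempty (Branch m) := by
  obtain ⟨x₀, hx₀⟩ := W.gen
  have h0 : ∀ v : ℝ × Euc m, lor (lift (Hyp.mk 0)) v = -v.1 := fun v => by simp [lor, lift]
  obtain ⟨p, hp, hp0⟩ : ∃ p : Fin 4 → Hyp (Euc m), (∀ c, ∀ v ∈ W.S c, lor (lift (p c)) v ≠ 0) ∧
      ∀ c, c = 0 ∨ c = 2 → p c = Hyp.mk 0 := by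
    refine ⟨fun c => if c = 0 ∨ c = 2 then Hyp.mk 0 else x₀, fun c v hv => ?_,
      fun c hc => if_pos hc⟩
    by_cases hc : c = 0 ∨ c = 2
    · simp only [if_pos hc, h0]
      exact neg_ne_zero.2 (W.gen0 c hc v hv)
    · simp only [if_neg hc]
      exact hx₀ c v hv
  exact ⟨{ W with
    Γ := signsG W fun c => signsF W c (p c)
    unif := signsG_unif W _ fun g hg c => signsF_smul W c (hp c) hg
    inv := fun g hg => W.inv g hg.1
    gen := ⟨x₀, hx₀⟩
    f := fun c => signsF W c (p c)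
    f_cont := fun c => signsF_cont W c (hp c)
    f_inv := fun g hg => hg.2
    f_le := fun c x => by rw [signsF_abs]; exact (signsA_mem W c x).2
    f_near := fun c x => signsF_near W c (hp c) x
    f_abs := fun c x v hv h => by rw [signsF_abs, signsA_eq W c hv h]
    f_sign := fun c hc x => by
      rw [signsF_abs, signsF, signsN, hp0 c hc]
      simp only [h0, neg_pos]
    ufin := signs_ufin W }⟩

theorem exists_setup {m : ℕ} (B : Branch m) : Nonempty (Setup m) := signs_setup B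

end Pool.Agent.MP_39b1da_gt

end
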