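import Mathlib
import Pool.Agent.Mg.F39b1da.G324722

section

/-! Elementary facts on O(n,1) and O(n+1), and Minkowski's theorem for a pair of embeddings. -/

set_option autoImplicit false

open MeasureTheory Set Matrix

namespace Pool.Agent.MP_39b1da_gt.Lat

variable {n : ℕ}

/-- Square matrices of size `n + 1`. -/
abbrev Mat (n : ℕ) (α : Type) := Matrix (Fin (n + 1)) (Fin (n + 1)) α

/-- The diagonal matrix with entries `c, 1, …, 1`. -/
def dg (n : ℕ) {α : Type} [CommRing α] (c : α) : Mat n α :=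
  diagonal fun i => if i = 0 then c else 1

section
variable {α β : Type} [CommRing α] [CommRing β]

lemma dg_mul (a b : α) : dg n a * dg n b = dg n (a * b) := by
  simp only [dg, diagonal_mul_diagonal]
  congr 1
  ext i
  split_ifs <;> simp

lemma dg_one : dg n (1 : α) = 1 := by simp [dg]

lemma dg_tr (a : α) : (dg n a)ᵀ = dg n a := by simp [dg]

lemma dg_map (f : α →+* β) (a : α) : (dg n a).map f = dg n (f a) := by
  simp only [dg, diagonal_map (map_zero f)]
  congr 1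
  ext i
  split_ifs <;> simp

lemma dg_det (a : α) : (dg n a).det = a := by
  simp [dg]

lemma form_entry (c : α) (A B : Mat n α) (i j : Fin (n + 1)) :
    (Aᵀ * dg n c * B) i j = c * (A 0 i * B 0 j) + ∑ l : Fin n, A l.succ i * B l.succ j := by
  rw [Matrix.mul_apply, Fin.sum_univ_succ]
  simp [dg, mul_diagonal]
  ring

lemma form_vec (c : α) (v w : Fin (n + 1) → α) :
    v ⬝ᵥ dg n c *ᵥ w = c * (v 0 * w 0) + ∑ l : Fin n, v l.succ * w l.succ := by
  rw [dotProduct, Fin.sum_univ_succ]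
  simp [dg, mulVec_diagonal]
  ring

end

/-- The Lorentz matrix. -/
abbrev Jm (n : ℕ) : Mat n ℝ := dg n (-1)

lemma Jm_sq : Jm n * Jm n = 1 := by rw [dg_mul]; simp [dg_one]

lemma unit_tr {A : Mat n ℝ} (h : Aᵀ * Jm n * A = Jm n) : Aᵀᵀ * Jm n * Aᵀ = Jm n := by
  have h1 : (Jm n * Aᵀ * Jm n) * A = 1 := by
    calc (Jm n * Aᵀ * Jm n) * A = Jm n * (Aᵀ * Jm n * A) := by simp only [Matrix.mul_assoc]
      _ = 1 := by rw [h, Jm_sq]
  have h2 : A * (Jm n * Aᵀ * Jm n) = 1 := mul_eq_one_comm.1 h1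
  rw [transpose_transpose]
  calc A * Jm n * Aᵀ = A * (Jm n * Aᵀ * Jm n) * Jm n := by
        simp only [Matrix.mul_assoc, Jm_sq, Matrix.mul_one]
    _ = Jm n := by rw [h2, Matrix.one_mul]

lemma col_zero {A : Mat n ℝ} (h : Aᵀ * Jm n * A = Jm n) :
    1 + ∑ l : Fin n, A l.succ 0 ^ 2 = A 0 0 ^ 2 := by
  have := congrFun (congrFun h 0) 0
  rw [form_entry] at this
  simp only [dg, diagonal_apply_eq, if_true] at this
  simp only [pow_two]
  linarith

lemma col_succ {A : Mat n ℝ} (h : Aᵀ * Jm n * A = Jm n) (j : Fin n) :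
    ∑ l : Fin n, A l.succ j.succ ^ 2 = 1 + A 0 j.succ ^ 2 := by
  have := congrFun (congrFun h j.succ) j.succ
  rw [form_entry] at this
  simp only [dg, diagonal_apply_eq, Fin.succ_ne_zero, if_false] at this
  simp only [pow_two]
  linarith

lemma one_le_abs {A : Mat n ℝ} (h : Aᵀ * Jm n * A = Jm n) : 1 ≤ |A 0 0| := by
  have h1 := col_zero h
  have h2 : 0 ≤ ∑ l : Fin n, A l.succ 0 ^ 2 := Finset.sum_nonneg fun _ _ => sq_nonneg _
  rw [← sq_le_sq₀ zero_le_one (abs_nonneg _), sq_abs]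
  linarith

lemma ent_le {A : Mat n ℝ} (h : Aᵀ * Jm n * A = Jm n) (i j : Fin (n + 1)) :
    |A i j| ≤ |A 0 0| := by
  have c0 := col_zero h
  have r0 := col_zero (unit_tr h)
  simp only [transpose_apply] at r0
  have s1 : ∀ i : Fin n, A i.succ 0 ^ 2 ≤ ∑ l : Fin n, A l.succ 0 ^ 2 := fun i =>
    Finset.single_le_sum (f := fun l : Fin n => A l.succ 0 ^ 2) (fun _ _ => sq_nonneg _)
      (Finset.mem_univ i)
  have s2 : ∀ j : Fin n, A 0 j.succ ^ 2 ≤ ∑ l : Fin n, A 0 l.succ ^ 2 := fun j =>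
    Finset.single_le_sum (f := fun l : Fin n => A 0 l.succ ^ 2) (fun _ _ => sq_nonneg _)
      (Finset.mem_univ j)
  rw [← sq_le_sq₀ (abs_nonneg _) (abs_nonneg _), sq_abs, sq_abs]
  induction i using Fin.cases with
  | zero =>
    induction j using Fin.cases with
    | zero => exact le_rfl
    | succ j => linarith [s2 j]
  | succ i =>
    induction j using Fin.cases with
    | zero => linarith [s1 i]
    | succ j =>
      have s3 : A i.succ j.succ ^ 2 ≤ ∑ l : Fin n, A l.succ j.succ ^ 2 :=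
        Finset.single_le_sum (f := fun l : Fin n => A l.succ j.succ ^ 2) (fun _ _ => sq_nonneg _)
          (Finset.mem_univ i)
      linarith [s2 j, col_succ h j]

lemma abs_det {A : Mat n ℝ} (h : Aᵀ * Jm n * A = Jm n) : |A.det| = 1 := by
  have := congrArg Matrix.det h
  rw [det_mul, det_mul, det_transpose, dg_det] at this
  have h2 : A.det ^ 2 = 1 := by linarith
  rw [← sq_eq_sq₀ (abs_nonneg _) zero_le_one, sq_abs, h2, one_pow]

lemma orth_le {A : Mat n ℝ} (h : Aᵀ * A = 1) (i j : Fin (n + 1)) : |A i j| ≤ 1 := by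
  have := congrFun (congrFun h j) j
  simp only [Matrix.mul_apply, transpose_apply, one_apply_eq] at this
  have s : A i j * A i j ≤ ∑ l, A l j * A l j :=
    Finset.single_le_sum (f := fun l => A l j * A l j) (fun _ _ => mul_self_nonneg _)
      (Finset.mem_univ i)
  rw [← sq_le_sq₀ (abs_nonneg _) zero_le_one, sq_abs]
  nlinarith

lemma orth_of_fix {A : Mat n ℝ} (h : Aᵀ * Jm n * A = Jm n) (h0 : |A 0 0| ≤ 1) : Aᵀ * A = 1 := by
  have r0 := col_zero (unit_tr h)
  simp only [transpose_apply] at r0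
  have h1 : A 0 0 ^ 2 = 1 := by
    rw [← sq_abs, le_antisymm h0 (one_le_abs h), one_pow]
  have h2 : ∀ j : Fin n, A 0 j.succ = 0 := by
    intro j
    have s : A 0 j.succ ^ 2 ≤ ∑ l : Fin n, A 0 l.succ ^ 2 :=
      Finset.single_le_sum (f := fun l : Fin n => A 0 l.succ ^ 2) (fun _ _ => sq_nonneg _)
        (Finset.mem_univ j)
    nlinarith [sq_nonneg (A 0 j.succ)]
  ext i j
  have e := congrFun (congrFun h i) j
  have e2 := form_entry 1 A A i j
  rw [form_entry] at e
  rw [dg_one, Matrix.mul_one] at e2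
  rw [e2]
  have e3 : (1 : Mat n ℝ) i j = Jm n i j + 2 * (A 0 i * A 0 j) := by
    induction i using Fin.cases with
    | zero =>
      induction j using Fin.cases with
      | zero => simp [dg]; nlinarith
      | succ j => simp [dg, h2, (Fin.succ_ne_zero j).symm]
    | succ i => simp [dg, h2, one_apply, diagonal_apply]
  linarith

lemma dot_orth {O : Mat n ℝ} (h : Oᵀ * O = 1) (v w : Fin (n + 1) → ℝ) :
    (O *ᵥ v) ⬝ᵥ (O *ᵥ w) = v ⬝ᵥ w := by
  rw [dotProduct_mulVec, ← mulVec_transpose, mulVec_mulVec, h, one_mulVec]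

lemma dot_nonneg (v : Fin (n + 1) → ℝ) : 0 ≤ v ⬝ᵥ v :=
  Finset.sum_nonneg fun _ _ => mul_self_nonneg _

lemma contr {O : Mat n ℝ} (h : Oᵀ * O = 1) {v u : Fin (n + 1) → ℝ}
    (hu : O *ᵥ v = v + (4 : ℝ) • u) : u ⬝ᵥ u ≤ (v ⬝ᵥ v) / 4 := by
  have h1 := dot_orth h v v
  have h2 := dot_nonneg (v + (2 : ℝ) • u)
  rw [hu] at h1
  simp only [add_dotProduct, dotProduct_add, smul_dotProduct, dotProduct_smul, smul_eq_mul,
    dotProduct_comm u v] at h1 h2
  linarith

lemma nilp {O : Mat n ℝ} (h : Oᵀ * O = 1) {v u : Fin (n + 1) → ℝ}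
    (hu : O *ᵥ v = v + (4 : ℝ) • u) (h0 : O *ᵥ u = u) : u = 0 := by
  have h1 := dot_orth h u v
  rw [hu, h0] at h1
  simp only [dotProduct_add, dotProduct_smul, smul_eq_mul] at h1
  exact dotProduct_self_eq_zero.1 (by linarith)

lemma abs_form_le (v : Fin (n + 1) → ℝ) : |v ⬝ᵥ Jm n *ᵥ v| ≤ v ⬝ᵥ v := by
  have e := form_vec 1 v v
  rw [dg_one, one_mulVec] at e
  rw [form_vec, e]
  have : 0 ≤ ∑ l : Fin n, v l.succ * v l.succ := Finset.sum_nonneg fun _ _ => mul_self_nonneg _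
  have := mul_self_nonneg (v 0)
  rw [abs_le]
  constructor <;> linarith

lemma dot_le {v : Fin (n + 1) → ℝ} {c : ℝ} (h : ∀ i, |v i| ≤ c) : v ⬝ᵥ v ≤ (n + 1) * c ^ 2 := by
  refine (Finset.sum_le_card_nsmul _ _ (c ^ 2) fun i _ => ?_).trans (by simp)
  rw [← pow_two, ← sq_abs]
  exact pow_le_pow_left₀ (abs_nonneg _) (h i) 2

lemma mink {p q : ℝ} (hpq : p ≠ q) (ε : ℝ) (hε : 0 < ε) : ∃ η : ℝ, 0 < η ∧ ∀ g : Mat n ℝ,
    g.det ≠ 0 → |g.det| ≤ η → ∃ a b : Fin (n + 1) → ℤ, ¬ (a = 0 ∧ b = 0) ∧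
      (∀ i, |(g *ᵥ fun j => (a j : ℝ) + b j * p) i| ≤ ε) ∧ ∀ i, |(a i : ℝ) + b i * q| ≤ ε := by
  classical
  let B := Pi.basisFun ℝ (Fin (n + 1) ⊕ Fin (n + 1))
  let μ : Measure (Fin (n + 1) ⊕ Fin (n + 1) → ℝ) := Measure.addHaar
  have hF : μ (ZSpan.fundamentalDomain B) < ⊤ :=
    (ZSpan.fundamentalDomain_isBounded B).measure_lt_top
  set K := μ (ZSpan.fundamentalDomain B) *
    2 ^ Module.finrank ℝ (Fin (n + 1) ⊕ Fin (n + 1) → ℝ) with hK
  have hK' : K ≠ ⊤ := ENNReal.mul_ne_top hF.ne (ENNReal.pow_ne_top (by simp))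
  set c := μ (Metric.closedBall 0 ε) with hc
  have hc0 : c ≠ 0 := (Metric.measure_closedBall_pos μ 0 hε).ne'
  have hc1 : c ≠ ⊤ := measure_closedBall_lt_top.ne
  have hc2 : 0 < c.toReal := ENNReal.toReal_pos hc0 hc1
  have hk : 0 ≤ K.toReal := ENNReal.toReal_nonneg
  have hd : 0 < |(q - p) ^ (n + 1)| := abs_pos.2 (pow_ne_zero _ (sub_ne_zero.2 hpq.symm))
  set d := |(q - p) ^ (n + 1)| with hd'
  refine ⟨c.toReal / ((K.toReal + 1) * d), by positivity, fun g hg0 hg => ?_⟩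
  let G : Matrix (Fin (n + 1) ⊕ Fin (n + 1)) (Fin (n + 1) ⊕ Fin (n + 1)) ℝ :=
    fromBlocks g 0 0 1 * fromBlocks 1 (p • 1) 1 (q • 1)
  have hGd : G.det = g.det * (q - p) ^ (n + 1) := by
    rw [det_mul, det_fromBlocks_zero₂₁, det_fromBlocks_one₁₁, Matrix.one_mul, ← sub_smul,
      det_smul]
    simp
  let T := Matrix.toLin' G
  have hT : LinearMap.det T = g.det * (q - p) ^ (n + 1) := by rw [LinearMap.det_toLin', hGd]
  have hn : 0 < |g.det| := abs_pos.2 hg0
  have hlt : K < μ (T ⁻¹' Metric.closedBall 0 ε) := by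
    rw [Measure.addHaar_preimage_linearMap μ
        (by rw [hT]; exact mul_ne_zero hg0 (abs_pos.1 hd)), hT, ← hc,
      ← ENNReal.ofReal_toReal hc1, ← ENNReal.ofReal_mul (abs_nonneg _),
      ← ENNReal.ofReal_toReal hK', abs_inv, abs_mul, ← hd',
      ENNReal.ofReal_lt_ofReal_iff (by positivity), inv_mul_eq_div, lt_div_iff₀ (by positivity)]
    have h2 : |g.det| * ((K.toReal + 1) * d) ≤ c.toReal := (le_div_iff₀ (by positivity)).1 hg
    nlinarith [mul_pos hn hd]
  have : Countable (Submodule.span ℤ (Set.range B)).toAddSubgroup :=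
    inferInstanceAs (Countable (Submodule.span ℤ (Set.range B)))
  obtain ⟨v, hv0, hv⟩ := exists_ne_zero_mem_lattice_of_measure_mul_two_pow_lt_measure
    (ZSpan.isAddFundamentalDomain' B μ) (s := T ⁻¹' Metric.closedBall 0 ε)
    (fun x hx => by simpa using hx) ((convex_closedBall 0 ε).linear_preimage T) hlt
  have hv' : ∀ i, |(G *ᵥ (v : Fin (n + 1) ⊕ Fin (n + 1) → ℝ)) i| ≤ ε := by
    intro i
    have h1 : ‖T v‖ ≤ ε := by simpa using hv
    exact (norm_le_pi_norm (T v) i).trans h1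
  have hm := (B.mem_span_iff_repr_mem ℤ (v : Fin (n + 1) ⊕ Fin (n + 1) → ℝ)).1 v.2
  choose z hz using hm
  have hz' : (v : Fin (n + 1) ⊕ Fin (n + 1) → ℝ) =
      Sum.elim (fun i => (z (Sum.inl i) : ℝ)) fun i => (z (Sum.inr i) : ℝ) := by
    ext i
    have := hz i
    simp only [B, Pi.basisFun_repr, algebraMap_int_eq, eq_intCast] at this
    rcases i with i | i <;> simp [← this]
  rw [hz', ← mulVec_mulVec, fromBlocks_mulVec, fromBlocks_mulVec] at hv'
  refine ⟨fun i => z (Sum.inl i), fun i => z (Sum.inr i), fun h => hv0 (Subtype.ext ?_),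
    fun i => ?_, fun i => ?_⟩
  · rw [hz']
    ext i
    rcases i with i | i
    · simpa using congrFun h.1 i
    · simpa using congrFun h.2 i
  · have := hv' (Sum.inl i)
    simp only [Sum.elim_inl, zero_mulVec, add_zero, Sum.elim_comp_inl, Sum.elim_comp_inr,
      one_mulVec, smul_mulVec] at this
    have e : (fun j => ((z (Sum.inl j) : ℤ) : ℝ) + z (Sum.inr j) * p) =
        (fun i => (z (Sum.inl i) : ℝ)) + p • fun i => (z (Sum.inr i) : ℝ) := by
      ext j
      simp [mul_comm]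
    rw [e]
    exact this
  · have := hv' (Sum.inr i)
    simp only [Sum.elim_inr, zero_mulVec, zero_add, Sum.elim_comp_inl, Sum.elim_comp_inr,
      one_mulVec, smul_mulVec] at this
    simpa [mul_comm] using this

lemma many {p q : ℝ} (hpq : p ≠ q) (ε : ℝ) (hε : 0 < ε) : ∃ L : ℝ, ∀ g : Mat n ℝ,
    g.det ≠ 0 → |g.det| ≤ 2 →
      (∀ a b : Fin (n + 1) → ℤ, (∀ i, |(a i : ℝ) + b i * q| ≤ ε) →
        (∀ i, |(g *ᵥ fun j => (a j : ℝ) + b j * p) i| ≤ (n + 1) * ε) → a = 0 ∧ b = 0) →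
      ∃ a b : Mat n ℤ, (Matrix.of fun i j => (a i j : ℝ) + b i j * p).det ≠ 0 ∧
        (∀ i j, |(g * Matrix.of fun i j => (a i j : ℝ) + b i j * p) i j| ≤ L) ∧
        ∀ i j, |(a i j : ℝ) + b i j * q| ≤ ε := by
  classical
  obtain ⟨η, hη, hm⟩ := mink (n := n) hpq ε hε
  refine ⟨2 * ε / η + (n + 1) * ε, fun g hg0 hg hs => ?_⟩
  let S : Set (Fin (n + 1) → ℝ) := {u | (∀ i, |u i| ≤ 2 * ε / η + (n + 1) * ε) ∧
    ∃ a b : Fin (n + 1) → ℤ, (∀ i, |(a i : ℝ) + b i * q| ≤ ε) ∧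
      u = g *ᵥ fun j => (a j : ℝ) + b j * p}
  have hS : Submodule.span ℝ S = ⊤ := by
    by_contra hne
    obtain ⟨f, hf0, hf⟩ := Submodule.exists_le_ker_of_lt_top _ (lt_top_iff_ne_top.2 hne)
    let φ₀ : Fin (n + 1) → ℝ := fun i => f (Pi.single i 1)
    have hφ₀ : ∀ u, f u = φ₀ ⬝ᵥ u := by
      intro u
      conv_lhs => rw [pi_eq_sum_univ' u]
      simp [φ₀, dotProduct, mul_comm]
    obtain ⟨j, hj⟩ := Finite.exists_max fun i => |φ₀ i|
    have hj0 : φ₀ j ≠ 0 := by
      intro h0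
      refine hf0 (LinearMap.ext fun u => ?_)
      have : φ₀ = 0 := funext fun i => abs_nonpos_iff.1 (by simpa [h0] using hj i)
      rw [hφ₀, this]
      simp
    let φ : Fin (n + 1) → ℝ := (φ₀ j)⁻¹ • φ₀
    have hφj : φ j = 1 := by simp [φ, hj0]
    have hφ : ∀ i, |φ i| ≤ 1 := by
      intro i
      simp only [φ, Pi.smul_apply, smul_eq_mul, abs_mul, abs_inv]
      rw [inv_mul_le_iff₀ (abs_pos.2 hj0), mul_one]
      exact hj i
    let k : Mat n ℝ := updateRow 1 j ((η / 2) • φ)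
    have hk : k.det = η / 2 := by
      have := det_updateRow_sum (1 : Mat n ℝ) j ((η / 2) • φ)
      have e : (∑ l, ((η / 2) • φ) l • (1 : Mat n ℝ) l) = (η / 2) • φ := by
        ext i
        simp [Finset.sum_apply, one_apply]
      rw [e] at this
      rw [this]
      simp [hφj]
    have hη2 : |η / 2| = η / 2 := abs_of_pos (by positivity)
    obtain ⟨a, b, hv0, hv1, hv2⟩ := hm (k * g)
      (by
        rw [det_mul, hk]
        exact mul_ne_zero (by positivity) hg0)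
      (by rw [det_mul, hk, abs_mul, hη2]; nlinarith)
    set u := g *ᵥ fun j => (a j : ℝ) + b j * p with hu
    rw [← mulVec_mulVec, ← hu] at hv1
    have h1 : ∀ i, i ≠ j → |u i| ≤ ε := by
      intro i hi
      have := hv1 i
      simpa [k, mulVec, updateRow_ne hi, dotProduct, one_apply] using this
    have h2 : |φ ⬝ᵥ u| ≤ 2 * ε / η := by
      have := hv1 j
      simp only [k, mulVec, updateRow_self, smul_dotProduct, smul_eq_mul, abs_mul,
        hη2] at this
      rw [le_div_iff₀ hη]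
      linarith
    have hn : (0 : ℝ) ≤ n * ε := by positivity
    have h3 : |u j| ≤ |φ ⬝ᵥ u| + (n + 1) * ε := by
      have e : u j = φ ⬝ᵥ u - ∑ i ∈ Finset.univ.erase j, φ i * u i := by
        rw [dotProduct, ← Finset.add_sum_erase _ _ (Finset.mem_univ j), hφj]
        ring
      have e2 : |∑ i ∈ Finset.univ.erase j, φ i * u i| ≤ n * ε := by
        refine (Finset.abs_sum_le_sum_abs _ _).trans ?_
        refine (Finset.sum_le_card_nsmul _ _ ε fun i hi => ?_).trans ?_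
        · rw [abs_mul]
          have := mul_le_mul (hφ i) (h1 i (Finset.ne_of_mem_erase hi)) (abs_nonneg _) zero_le_one
          linarith
        · rw [Finset.card_erase_of_mem (Finset.mem_univ j)]
          simp
      rw [e]
      exact (abs_sub _ _).trans (by linarith)
    have hp : 0 < 2 * ε / η := by positivity
    have huS : u ∈ S := by
      refine ⟨fun i => ?_, a, b, hv2, rfl⟩
      by_cases hi : i = j
      · rw [hi]; linarith
      · linarith [h1 i hi]
    have h4 : φ ⬝ᵥ u = 0 := by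
      have : f u = 0 := hf (Submodule.subset_span huS)
      rw [hφ₀] at this
      simp [φ, this]
    rw [h4, abs_zero] at h3
    refine hv0 (hs a b hv2 fun i => ?_)
    rw [← hu]
    by_cases hi : i = j
    · rw [hi]; linarith
    · linarith [h1 i hi]
  have h3 : Module.finrank ℝ (Submodule.span ℝ S) = n + 1 := by rw [hS]; simp
  obtain ⟨u, huS, hli⟩ : ∃ u : Fin (n + 1) → Fin (n + 1) → ℝ,
      (∀ i, u i ∈ S) ∧ LinearIndependent ℝ u := by
    obtain ⟨f, hf1, -, hf2⟩ := Submodule.exists_fun_fin_finrank_span_eq ℝ S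
    exact ⟨f ∘ Fin.cast h3.symm, fun i => hf1 _, hf2.comp _ (Fin.cast_injective _)⟩
  choose hu1 a b hv2 hv using huS
  let V : Mat n ℝ := Matrix.of fun i j => (a j i : ℝ) + b j i * p
  have e : ∀ i j, (g * V) i j = u j i := by
    intro i j
    rw [hv j]
    rfl
  refine ⟨Matrix.of fun i j => a j i, Matrix.of fun i j => b j i, fun h0 => ?_,
    fun i j => (e i j).symm ▸ hu1 j i, fun i j => hv2 j i⟩
  have h4 : IsUnit (g * V) := by
    rw [← linearIndependent_cols_iff_isUnit]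
    have : (g * V).col = u := by
      ext j i
      exact e i j
    rw [this]
    exact hli
  have h5 : V.det = 0 := h0
  rw [isUnit_iff_isUnit_det, det_mul, h5, mul_zero] at h4
  exact not_isUnit_zero h4

end Pool.Agent.MP_39b1da_gt.Lat

end

section

/-! The congruence subgroup of level four of the orthogonal group of the golden form. -/

set_option autoImplicit false

open Set Matrix Real

namespace Pool.Agent.MP_39b1da_gt.Lat

variable {n : ℕ}

/-- The golden integers. -/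
abbrev Rg : Type := QuadraticAlgebra ℤ 1 1

/-- The embedding that sends the generator to a root `p` of `x² = x + 1`. -/
def emb (p : ℝ) (hp : p ^ 2 = p + 1) : Rg →+* ℝ where
  toFun z := z.re + z.im * p
  map_one' := by simp [QuadraticAlgebra.re_one, QuadraticAlgebra.im_one]
  map_zero' := by simp
  map_add' z w := by simp; ring
  map_mul' z w := by
    simp only [QuadraticAlgebra.re_mul, QuadraticAlgebra.im_mul]
    push_cast
    linear_combination (-(z.im * w.im : ℝ)) * hp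

/-- The first embedding. -/
noncomputable def sg : Rg →+* ℝ := emb goldenRatio goldenRatio_sq

/-- The second embedding. -/
noncomputable def ta : Rg →+* ℝ := emb goldenConj goldenConj_sq

lemma sg_apply (z : Rg) : sg z = z.re + z.im * goldenRatio := rfl

lemma ta_apply (z : Rg) : ta z = z.re + z.im * goldenConj := rfl

/-- The generator. -/
def om : Rg := ⟨0, 1⟩

lemma sg_om : sg om = goldenRatio := by simp [sg_apply, om]

lemma ta_om : ta om = goldenConj := by simp [ta_apply, om]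

lemma emb_zero {p : ℝ} (hp : Irrational p) {a b : ℤ} (h : (a : ℝ) + b * p = 0) :
    a = 0 ∧ b = 0 := by
  by_cases hb : b = 0
  · subst hb
    simpa using h
  · exfalso
    have := (hp.intCast_mul hb).intCast_add a
    rw [h] at this
    exact this ⟨0, by simp⟩

lemma sg_zero {z : Rg} (h : sg z = 0) : z = 0 := by
  obtain ⟨h1, h2⟩ := emb_zero goldenRatio_irrational h
  ext <;> simp [h1, h2]

lemma ta_zero {z : Rg} (h : ta z = 0) : z = 0 := by
  obtain ⟨h1, h2⟩ := emb_zero goldenConj_irrational h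
  ext <;> simp [h1, h2]

lemma sg_inj : Function.Injective sg := (injective_iff_map_eq_zero _).2 fun _ => sg_zero

lemma ta_inj : Function.Injective ta := (injective_iff_map_eq_zero _).2 fun _ => ta_zero

instance : IsDomain Rg := ta_inj.isDomain ta

lemma norm_ge {z : Rg} (h : z ≠ 0) : 1 ≤ |sg z| * |ta z| := by
  have e : sg z * ta z = ((z.re ^ 2 + z.re * z.im - z.im ^ 2 : ℤ) : ℝ) := by
    rw [sg_apply, ta_apply]
    push_cast
    linear_combination (z.re * z.im : ℝ) * goldenRatio_add_goldenConj +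
      (z.im ^ 2 : ℝ) * goldenRatio_mul_goldenConj
  have h0 : sg z * ta z ≠ 0 := mul_ne_zero (fun h1 => h (sg_zero h1)) fun h1 => h (ta_zero h1)
  rw [← abs_mul, e]
  rw [e] at h0
  exact_mod_cast Int.one_le_abs (by exact_mod_cast h0)

lemma small {z : Rg} (h1 : |sg z| < 1) (h2 : |ta z| < 1) : z = 0 := by
  by_contra h0
  have := norm_ge h0
  nlinarith [abs_nonneg (sg z), abs_nonneg (ta z)]

lemma fin_elt (C : ℝ) : {z : Rg | |sg z| ≤ C ∧ |ta z| ≤ C}.Finite := by
  have hI := Set.finite_Icc (-⌈2 * C⌉) ⌈2 * C⌉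
  refine ((hI.prod hI).image fun p : ℤ × ℤ => (⟨p.1, p.2⟩ : Rg)).subset ?_
  rintro z ⟨h1, h2⟩
  refine ⟨(z.re, z.im), ?_, rfl⟩
  rw [sg_apply, abs_le] at h1
  rw [ta_apply, abs_le] at h2
  have h4 := Int.le_ceil (2 * C)
  have a1 := one_lt_goldenRatio
  have a2 := goldenConj_neg
  have a3 := neg_one_lt_goldenConj
  have hb : |(z.im : ℝ)| ≤ C := by
    have e1 : |(z.im : ℝ) * (goldenRatio - goldenConj)| ≤ 2 * C :=
      abs_le.2 ⟨by linarith, by linarith⟩
    have e2 : 2 ≤ goldenRatio - goldenConj := by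
      rw [goldenRatio_sub_goldenConj]
      exact Real.le_sqrt_of_sq_le (by norm_num)
    rw [abs_mul, abs_of_pos (by linarith : 0 < goldenRatio - goldenConj)] at e1
    nlinarith [abs_nonneg (z.im : ℝ)]
  have hc : |(z.im : ℝ) * goldenConj| ≤ C := by
    rw [abs_mul, abs_of_neg a2]
    nlinarith [abs_nonneg (z.im : ℝ)]
  rw [abs_le] at hb hc
  refine ⟨⟨?_, ?_⟩, ?_, ?_⟩ <;> rw [← Int.cast_le (R := ℝ)] <;> push_cast <;> linarith

lemma fin_mat (C : ℝ) : {g : Mat n Rg | ∀ i j, |sg (g i j)| ≤ C ∧ |ta (g i j)| ≤ C}.Finite :=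
  Set.Finite.pi' (t := fun _ : Fin (n + 1) =>
    {v : Fin (n + 1) → Rg | ∀ j, |sg (v j)| ≤ C ∧ |ta (v j)| ≤ C})
    fun _ => Set.Finite.pi' fun _ => fin_elt C

/-- The form over the ring. -/
abbrev JR (n : ℕ) : Mat n Rg := dg n (-om)

/-- The first scale. -/
noncomputable def rs : ℝ := √goldenRatio

/-- The second scale. -/
noncomputable def rt : ℝ := √(-goldenConj)

lemma rs_sq : rs * rs = goldenRatio := Real.mul_self_sqrt goldenRatio_pos.le

lemma rt_sq : rt * rt = -goldenConj := Real.mul_self_sqrt (by linarith [goldenConj_neg])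

lemma rs_ge : 1 ≤ rs := Real.one_le_sqrt.2 one_lt_goldenRatio.le

lemma rs_le : rs ≤ 2 := Real.sqrt_le_iff.2 ⟨by norm_num, by linarith [goldenRatio_lt_two]⟩

lemma rt_le : rt ≤ 1 := Real.sqrt_le_one.2 (by linarith [neg_one_lt_goldenConj])

lemma rt_ge : 1 / 2 ≤ rt :=
  Real.le_sqrt_of_sq_le (by
    have := goldenRatio_add_goldenConj
    have := goldenRatio_sq
    nlinarith [one_lt_goldenRatio])

lemma rs0 : rs ≠ 0 := by linarith [rs_ge]

lemma rt0 : rt ≠ 0 := by linarith [rt_ge]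

lemma dg_inv {r : ℝ} (hr : r ≠ 0) : dg n r * dg n r⁻¹ = 1 := by
  rw [dg_mul, mul_inv_cancel₀ hr, dg_one]

lemma dg_inv' {r : ℝ} (hr : r ≠ 0) : dg n r⁻¹ * dg n r = 1 := by
  rw [dg_mul, inv_mul_cancel₀ hr, dg_one]

/-- The conjugated embedding of matrices. -/
noncomputable def cj (f : Rg →+* ℝ) {r : ℝ} (hr : r ≠ 0) : Mat n Rg →* Mat n ℝ where
  toFun g := dg n r * g.map f * dg n r⁻¹
  map_one' := by rw [Matrix.map_one _ (map_zero f) (map_one f), Matrix.mul_one, dg_inv hr]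
  map_mul' a b := by
    rw [Matrix.map_mul]
    simp only [Matrix.mul_assoc]
    rw [← Matrix.mul_assoc (dg n r⁻¹) (dg n r), dg_inv' hr, Matrix.one_mul]

lemma cj_apply (f : Rg →+* ℝ) {r : ℝ} (hr : r ≠ 0) (g : Mat n Rg) :
    cj f hr g = dg n r * g.map f * dg n r⁻¹ := rfl

lemma cj_mul_D (f : Rg →+* ℝ) {r : ℝ} (hr : r ≠ 0) (g V : Mat n Rg) :
    cj f hr g * (dg n r * V.map f) = dg n r * (g * V).map f := by
  rw [cj_apply, Matrix.map_mul]
  simp only [Matrix.mul_assoc]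
  rw [← Matrix.mul_assoc (dg n r⁻¹) (dg n r), dg_inv' hr, Matrix.one_mul]

lemma cj_vec (f : Rg →+* ℝ) {r : ℝ} (hr : r ≠ 0) (g : Mat n Rg) (x : Fin (n + 1) → Rg) :
    cj f hr g *ᵥ (dg n r *ᵥ (f ∘ x)) = dg n r *ᵥ (f ∘ (g *ᵥ x)) := by
  rw [cj_apply, mulVec_mulVec, Matrix.mul_assoc, dg_inv' hr, Matrix.mul_one, ← mulVec_mulVec]
  congr 1
  ext i
  simp [mulVec, dotProduct]

lemma cj_inj {f : Rg →+* ℝ} (hf : Function.Injective f) {r : ℝ} (hr : r ≠ 0) :
    Function.Injective (cj (n := n) f hr) := by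
  intro a b h
  have e := congrArg (fun M => dg n r⁻¹ * M * dg n r) h
  simp only [cj_apply, Matrix.mul_assoc, dg_inv' hr, Matrix.mul_one] at e
  simp only [← Matrix.mul_assoc, dg_inv' hr, Matrix.one_mul] at e
  exact Matrix.map_injective hf e

lemma gram_sg (V : Mat n Rg) :
    (Vᵀ * JR n * V).map sg = (dg n rs * V.map sg)ᵀ * Jm n * (dg n rs * V.map sg) := by
  have e : (dg n rs)ᵀ * Jm n * dg n rs = (JR n).map sg := by
    rw [dg_tr, dg_mul, dg_mul, dg_map, map_neg, sg_om, ← rs_sq]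
    congr 1
    ring
  rw [Matrix.map_mul, Matrix.map_mul, transpose_map, ← e, transpose_mul]
  simp only [Matrix.mul_assoc]

lemma gram_ta (V : Mat n Rg) :
    (Vᵀ * JR n * V).map ta = (dg n rt * V.map ta)ᵀ * (dg n rt * V.map ta) := by
  have e : (dg n rt)ᵀ * dg n rt = (JR n).map ta := by
    rw [dg_tr, dg_mul, dg_map, map_neg, ta_om, ← rt_sq]
  rw [Matrix.map_mul, Matrix.map_mul, transpose_map, ← e, transpose_mul]
  simp only [Matrix.mul_assoc]

lemma JR_sg : (JR n).map sg = (dg n rs)ᵀ * Jm n * dg n rs := by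
  have e2 := gram_sg (1 : Mat n Rg)
  rwa [transpose_one, Matrix.one_mul, Matrix.mul_one,
    Matrix.map_one _ (map_zero sg) (map_one sg), Matrix.mul_one] at e2

lemma unit_sg {g : Mat n Rg} (hg : gᵀ * JR n * g = JR n) :
    (cj sg rs0 g)ᵀ * Jm n * cj sg rs0 g = Jm n := by
  have e1 := gram_sg g
  rw [hg, JR_sg] at e1
  calc (cj sg rs0 g)ᵀ * Jm n * cj sg rs0 g
      = (dg n rs⁻¹)ᵀ * ((dg n rs * g.map sg)ᵀ * Jm n * (dg n rs * g.map sg)) * dg n rs⁻¹ := by
        simp only [cj_apply, transpose_mul, Matrix.mul_assoc]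
    _ = (dg n rs * dg n rs⁻¹)ᵀ * Jm n * (dg n rs * dg n rs⁻¹) := by
        rw [← e1]; simp only [transpose_mul, Matrix.mul_assoc]
    _ = Jm n := by rw [dg_inv rs0]; simp

lemma of_unit_sg {g : Mat n Rg} (hg : (cj sg rs0 g)ᵀ * Jm n * cj sg rs0 g = Jm n) :
    gᵀ * JR n * g = JR n := by
  refine Matrix.map_injective sg_inj ?_
  have e := cj_mul_D sg rs0 g 1
  rw [Matrix.map_one _ (map_zero sg) (map_one sg), Matrix.mul_one, Matrix.mul_one] at e
  change (gᵀ * JR n * g).map sg = (JR n).map sg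
  rw [gram_sg, JR_sg, ← e]
  conv_rhs => rw [← hg]
  simp only [transpose_mul, Matrix.mul_assoc]

lemma unit_ta {g : Mat n Rg} (hg : gᵀ * JR n * g = JR n) :
    (cj ta rt0 g)ᵀ * cj ta rt0 g = 1 := by
  have e1 := gram_ta g
  have e2 := gram_ta (1 : Mat n Rg)
  rw [transpose_one, Matrix.one_mul, Matrix.mul_one,
    Matrix.map_one _ (map_zero ta) (map_one ta), Matrix.mul_one] at e2
  rw [hg, e2] at e1
  calc (cj ta rt0 g)ᵀ * cj ta rt0 g
      = (dg n rt⁻¹)ᵀ * ((dg n rt * g.map ta)ᵀ * (dg n rt * g.map ta)) * dg n rt⁻¹ := by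
        simp only [cj_apply, transpose_mul, Matrix.mul_assoc]
    _ = (dg n rt * dg n rt⁻¹)ᵀ * (dg n rt * dg n rt⁻¹) := by
        rw [← e1]; simp only [transpose_mul, Matrix.mul_assoc]
    _ = 1 := by rw [dg_inv rt0]; simp

lemma entry_le (f : Rg →+* ℝ) {r : ℝ} (hr : r ≠ 0) (r1 : 1 / 2 ≤ r) (r2 : r ≤ 2) {g : Mat n Rg}
    {C : ℝ} (hC : ∀ i j, |cj f hr g i j| ≤ C) (i j : Fin (n + 1)) : |f (g i j)| ≤ 4 * C := by
  have e : g.map f = dg n r⁻¹ * cj f hr g * dg n r := by
    rw [cj_apply]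
    simp only [Matrix.mul_assoc]
    rw [dg_inv' hr, Matrix.mul_one, ← Matrix.mul_assoc, dg_inv' hr, Matrix.one_mul]
  have e2 := congrFun (congrFun e i) j
  rw [map_apply, dg, dg, mul_diagonal, diagonal_mul] at e2
  have h1 : |if i = 0 then r⁻¹ else 1| ≤ 2 := by
    split_ifs
    · rw [abs_of_pos (by positivity), inv_le_comm₀ (by linarith) two_pos]
      linarith
    · simp
  have h2 : |if j = 0 then r else 1| ≤ 2 := by
    split_ifs
    · rw [abs_of_pos (by linarith)]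
      exact r2
    · simp
  have hC0 : 0 ≤ C := (abs_nonneg _).trans (hC 0 0)
  rw [e2, abs_mul, abs_mul]
  calc _ ≤ (2 * C) * 2 := mul_le_mul (mul_le_mul h1 (hC i j) (abs_nonneg _) zero_le_two) h2
        (abs_nonneg _) (by linarith)
    _ = 4 * C := by ring

/-- The principal congruence subgroup of level four of the orthogonal group. -/
def Gs (n : ℕ) : Subgroup (Mat n Rg)ˣ where
  carrier := {g | (g : Mat n Rg)ᵀ * JR n * g = JR n ∧
    ∃ x : Mat n Rg, (g : Mat n Rg) = 1 + (4 : Rg) • x}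
  one_mem' := ⟨by simp, 0, by simp⟩
  mul_mem' := by
    rintro a b ⟨ha, x, hx⟩ ⟨hb, y, hy⟩
    refine ⟨?_, x + y + (4 : Rg) • (x * y), ?_⟩
    · calc _ = (b : Mat n Rg)ᵀ * ((a : Mat n Rg)ᵀ * JR n * a) * b := by
            simp only [Units.val_mul, transpose_mul, Matrix.mul_assoc]
        _ = JR n := by rw [ha, hb]
    · rw [Units.val_mul, hx, hy]
      simp only [Matrix.add_mul, Matrix.mul_add, Matrix.one_mul, Matrix.mul_one, Matrix.smul_mul,
        Matrix.mul_smul, smul_add]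
      abel
  inv_mem' := by
    rintro a ⟨ha, x, hx⟩
    refine ⟨?_, -(x * (a⁻¹ : (Mat n Rg)ˣ)), ?_⟩
    · calc _ = ((a⁻¹ : (Mat n Rg)ˣ) : Mat n Rg)ᵀ * ((a : Mat n Rg)ᵀ * JR n * a) *
              (a⁻¹ : (Mat n Rg)ˣ) := by rw [ha]
        _ = ((a * a⁻¹ : (Mat n Rg)ˣ) : Mat n Rg)ᵀ * JR n * (a * a⁻¹ : (Mat n Rg)ˣ) := by
            simp only [Units.val_mul, transpose_mul, Matrix.mul_assoc]
        _ = JR n := by simp
    · have e := a.mul_inv
      rw [hx, Matrix.add_mul, Matrix.one_mul, Matrix.smul_mul] at e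
      rw [smul_neg, ← e]
      abel

/-- The representation in O(n,1). -/
noncomputable def rho (n : ℕ) : Gs n →* Mat n ℝ :=
  (cj sg rs0).comp ((Units.coeHom _).comp (Gs n).subtype)

lemma rho_apply (a : Gs n) : rho n a = cj sg rs0 (a.1 : Mat n Rg) := rfl

lemma rho_unit (a : Gs n) : (rho n a)ᵀ * Jm n * rho n a = Jm n := unit_sg a.2.1

lemma rho_fin (C : ℝ) : {a | |rho n a 0 0| ≤ C}.Finite := by
  refine Set.Finite.of_injOn (f := fun a : Gs n => (a.1 : Mat n Rg)) ?_
    (fun a _ b _ hab => Subtype.ext (Units.ext hab)) (fin_mat (4 * max C 1))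
  intro a ha i j
  exact ⟨entry_le sg rs0 (by linarith [rs_ge]) rs_le
    (fun i j => ((ent_le (rho_unit a) i j).trans ha).trans (le_max_left _ _)) i j,
    entry_le ta rt0 rt_ge (by linarith [rt_le])
      (fun i j => (orth_le (unit_ta a.2.1) i j).trans (le_max_right _ _)) i j⟩

end Pool.Agent.MP_39b1da_gt.Lat

end

section

/-! Freeness and cocompactness in matrix form. -/

set_option autoImplicit false

open Set Matrix Real

namespace Pool.Agent.MP_39b1da_gt.Lat

variable {n : ℕ}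

lemma form_map (f : Rg →+* ℝ) (x : Fin (n + 1) → Rg) :
    f (x ⬝ᵥ JR n *ᵥ x) = (f ∘ x) ⬝ᵥ (JR n).map f *ᵥ (f ∘ x) := by
  simp [dotProduct, mulVec]

lemma quad_eq (P Q : Mat n ℝ) (v : Fin (n + 1) → ℝ) :
    v ⬝ᵥ (Pᵀ * Q * P) *ᵥ v = (P *ᵥ v) ⬝ᵥ Q *ᵥ (P *ᵥ v) := by
  rw [Matrix.mul_assoc, ← mulVec_mulVec, dotProduct_mulVec, vecMul_transpose, mulVec_mulVec]

lemma ta_vec_zero {x : Fin (n + 1) → Rg} (h : dg n rt *ᵥ (ta ∘ x) = 0) : x = 0 := by
  have h6 := congrArg (fun v => dg n rt⁻¹ *ᵥ v) h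
  simp only [mulVec_mulVec, dg_inv' rt0, one_mulVec, mulVec_zero] at h6
  ext1 i
  exact ta_zero (congrFun h6 i)

lemma no_short {k : Mat n ℝ} (hk : kᵀ * Jm n * k = Jm n) (x : Fin (n + 1) → Rg)
    (h1 : (k *ᵥ dg n rs *ᵥ (sg ∘ x)) ⬝ᵥ (k *ᵥ dg n rs *ᵥ (sg ∘ x)) < 1)
    (h2 : (dg n rt *ᵥ (ta ∘ x)) ⬝ᵥ (dg n rt *ᵥ (ta ∘ x)) < 1) : x = 0 := by
  have e1 : sg (x ⬝ᵥ JR n *ᵥ x) =
      (k *ᵥ dg n rs *ᵥ (sg ∘ x)) ⬝ᵥ Jm n *ᵥ (k *ᵥ dg n rs *ᵥ (sg ∘ x)) := by
    rw [form_map, JR_sg, quad_eq, ← quad_eq k, hk]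
  have e2 : ta (x ⬝ᵥ JR n *ᵥ x) = (dg n rt *ᵥ (ta ∘ x)) ⬝ᵥ (dg n rt *ᵥ (ta ∘ x)) := by
    have e : (JR n).map ta = (dg n rt)ᵀ * 1 * dg n rt := by
      rw [Matrix.mul_one, dg_tr, dg_mul, dg_map, map_neg, ta_om, ← rt_sq]
    rw [form_map, e, quad_eq, one_mulVec]
  have h3 : x ⬝ᵥ JR n *ᵥ x = 0 := by
    refine small ?_ ?_
    · rw [e1]
      exact (abs_form_le _).trans_lt h1
    · rw [e2, abs_of_nonneg (dot_nonneg _)]
      exact h2
  rw [h3, map_zero] at e2
  exact ta_vec_zero (dotProduct_self_eq_zero.1 e2.symm)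

lemma step_vec (f : Rg →+* ℝ) {r : ℝ} (hr : r ≠ 0) (X : Mat n Rg) (x : Fin (n + 1) → Rg) :
    cj f hr (1 + (4 : Rg) • X) *ᵥ (dg n r *ᵥ (f ∘ x)) =
      dg n r *ᵥ (f ∘ x) + (4 : ℝ) • dg n r *ᵥ (f ∘ (X *ᵥ x)) := by
  rw [cj_vec, ← mulVec_smul, ← mulVec_add]
  congr 1
  ext i
  simp [add_mulVec, smul_mulVec, map_ofNat]

lemma rho_free (a : Gs n) {k k' : Mat n ℝ} (hk : kᵀ * Jm n * k = Jm n) (hkk : k' * k = 1)
    (hO : (k * rho n a * k')ᵀ * (k * rho n a * k') = 1) : a = 1 := by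
  obtain ⟨hu, X, hX⟩ := a.2
  have hT := unit_ta hu
  rw [rho_apply, hX] at hO
  rw [hX] at hT
  let E1 : (Fin (n + 1) → Rg) → ℝ := fun x =>
    (k *ᵥ dg n rs *ᵥ (sg ∘ x)) ⬝ᵥ (k *ᵥ dg n rs *ᵥ (sg ∘ x))
  let E2 : (Fin (n + 1) → Rg) → ℝ := fun x => (dg n rt *ᵥ (ta ∘ x)) ⬝ᵥ (dg n rt *ᵥ (ta ∘ x))
  have c1 : ∀ x, E1 (X *ᵥ x) ≤ E1 x / 4 := by
    intro x
    refine contr hO ?_
    rw [mulVec_mulVec, Matrix.mul_assoc, hkk, Matrix.mul_one, ← mulVec_mulVec, step_vec,
      mulVec_add, mulVec_smul]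
  have c2 : ∀ x, E2 (X *ᵥ x) ≤ E2 x / 4 := fun x => contr hT (step_vec _ _ _ _)
  have d : ∀ x, X *ᵥ X *ᵥ x = 0 → X *ᵥ x = 0 := by
    intro x hx
    refine ta_vec_zero (nilp hT (step_vec _ _ X x) ?_)
    rw [step_vec, hx]
    have : ta ∘ (0 : Fin (n + 1) → Rg) = 0 := by ext; simp
    rw [this, mulVec_zero, smul_zero, add_zero]
  have key : ∀ (p : ℕ) x, E1 x < 4 ^ p → E2 x < 4 ^ p → X *ᵥ x = 0 := by
    intro p
    induction p with
    | zero =>
      intro x h1 h2
      rw [pow_zero] at h1 h2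
      rw [no_short hk x h1 h2, mulVec_zero]
    | succ p ih =>
      intro x h1 h2
      rw [pow_succ] at h1 h2
      exact d x (ih _ (by linarith [c1 x]) (by linarith [c2 x]))
  have hX0 : X = 0 := by
    ext1 i j
    obtain ⟨p, hp⟩ := pow_unbounded_of_one_lt
      (max (E1 (Pi.single j 1)) (E2 (Pi.single j 1))) (by norm_num : (1 : ℝ) < 4)
    have := congrFun (key p _ ((le_max_left _ _).trans_lt hp) ((le_max_right _ _).trans_lt hp)) i
    simpa using this
  refine Subtype.ext (Units.ext ?_)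
  rw [hX, hX0]
  simp

lemma dg_vec_le {r c : ℝ} (r0 : 0 ≤ r) (r1 : r ≤ 1) {v : Fin (n + 1) → ℝ} (h : ∀ i, |v i| ≤ c)
    (i : Fin (n + 1)) : |(dg n r *ᵥ v) i| ≤ c := by
  rw [dg, mulVec_diagonal, abs_mul]
  have h1 : |if i = 0 then r else 1| ≤ 1 := by
    split_ifs
    · rwa [abs_of_nonneg r0]
    · simp
  have := mul_le_mul h1 (h i) (abs_nonneg _) zero_le_one
  linarith

lemma entry_form_le {A : Mat n ℝ} {c L : ℝ} (hc : |c| ≤ 1) (h : ∀ i j, |A i j| ≤ L)
    (i j : Fin (n + 1)) : |(Aᵀ * dg n c * A) i j| ≤ (n + 1) * L ^ 2 := by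
  have key : ∀ l, |A l i * A l j| ≤ L ^ 2 := by
    intro l
    rw [abs_mul, pow_two]
    exact mul_le_mul (h l i) (h l j) (abs_nonneg _) ((abs_nonneg _).trans (h l i))
  rw [form_entry]
  refine (abs_add_le _ _).trans ?_
  have e1 : |c * (A 0 i * A 0 j)| ≤ L ^ 2 := by
    rw [abs_mul]
    have := mul_le_mul hc (key 0) (abs_nonneg _) zero_le_one
    linarith
  have e2 : |∑ l : Fin n, A l.succ i * A l.succ j| ≤ n * L ^ 2 := by
    refine (Finset.abs_sum_le_sum_abs _ _).trans ?_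
    exact (Finset.sum_le_card_nsmul _ _ (L ^ 2) fun l _ => key _).trans (by simp)
  linarith

lemma gram_bound {k : Mat n ℝ} (hk : kᵀ * Jm n * k = Jm n) {V : Mat n Rg} {L : ℝ}
    (h1 : ∀ i j, |(k * dg n rs * V.map sg) i j| ≤ L) (h2 : ∀ i j, |ta (V i j)| ≤ 1)
    (i j : Fin (n + 1)) :
    |sg ((Vᵀ * JR n * V) i j)| ≤ (n + 1) * L ^ 2 ∧ |ta ((Vᵀ * JR n * V) i j)| ≤ n + 1 := by
  constructor
  · have e : (Vᵀ * JR n * V).map sg =
        (k * dg n rs * V.map sg)ᵀ * Jm n * (k * dg n rs * V.map sg) := by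
      rw [gram_sg]
      conv_lhs => rw [← hk]
      simp only [transpose_mul, Matrix.mul_assoc]
    have e2 := congrFun (congrFun e i) j
    rw [map_apply] at e2
    rw [e2]
    exact entry_form_le (by simp) h1 i j
  · have e2 := congrFun (congrFun (gram_ta V) i) j
    rw [map_apply] at e2
    have h3 : ∀ i j, |(dg n rt * V.map ta) i j| ≤ 1 := fun i j =>
      dg_vec_le (by linarith [rt_ge]) rt_le (v := fun i => ta (V i j)) (fun i => h2 i j) i
    have := entry_form_le (c := 1) (by simp) h3 i j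
    rw [dg_one, Matrix.mul_one, one_pow, mul_one] at this
    rwa [e2]

lemma half_class {V W : Mat n Rg}
    (hd : ∀ i j, (4 : Rg) * (Vᵀ * JR n * V).det ∣ W i j - V i j) :
    ∃ x : Mat n Rg, (1 + (4 : Rg) • x) * V = W := by
  choose Y hY using hd
  refine ⟨(V.det * (JR n).det) • (Matrix.of Y * adjugate V), ?_⟩
  rw [Matrix.add_mul, Matrix.one_mul, Matrix.smul_mul, Matrix.smul_mul, Matrix.mul_assoc,
    adjugate_mul, Matrix.mul_smul, Matrix.mul_one]
  ext1 i j
  have := hY i j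
  rw [det_mul, det_mul, det_transpose] at this
  simp only [Matrix.add_apply, Matrix.smul_apply, smul_eq_mul, of_apply]
  linear_combination -this

lemma same_class {V W : Mat n Rg} (hV : V.det ≠ 0) (hG : Vᵀ * JR n * V = Wᵀ * JR n * W)
    (hd : ∀ i j, (4 : Rg) * (Vᵀ * JR n * V).det ∣ W i j - V i j) :
    ∃ a : Gs n, (a.1 : Mat n Rg) * V = W := by
  obtain ⟨x, hx⟩ := half_class hd
  obtain ⟨y, hy⟩ := half_class (V := W) (W := V) fun i j => by
    rw [← hG]
    exact dvd_sub_comm.1 (hd i j)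
  have r1 : IsRegular V := isRegular_of_isLeftRegular_det (IsRegular.of_ne_zero hV).left
  have r2 : IsRegular Vᵀ := isRegular_of_isLeftRegular_det (IsRegular.of_ne_zero
    (by rw [det_transpose]; exact hV)).left
  have e1 : (1 + (4 : Rg) • y) * (1 + (4 : Rg) • x) = 1 :=
    r1.right (by simp only [Matrix.mul_assoc, hx, hy, Matrix.one_mul])
  refine ⟨⟨⟨1 + (4 : Rg) • x, 1 + (4 : Rg) • y, mul_eq_one_comm.1 e1, e1⟩, ?_, x, rfl⟩, hx⟩
  refine r1.right (r2.left ?_)
  calc Vᵀ * (((1 + (4 : Rg) • x)ᵀ * JR n * (1 + (4 : Rg) • x)) * V)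
      = ((1 + (4 : Rg) • x) * V)ᵀ * JR n * ((1 + (4 : Rg) • x) * V) := by
        simp only [transpose_mul, Matrix.mul_assoc]
    _ = Vᵀ * (JR n * V) := by rw [hx, ← hG, Matrix.mul_assoc]

lemma rho_cocpt (n : ℕ) : ∃ C : ℝ, ∀ k : Mat n ℝ, kᵀ * Jm n * k = Jm n →
    ∃ a : Gs n, |(k * rho n a) 0 0| ≤ C := by
  classical
  have hne : goldenRatio ≠ goldenConj := by linarith [goldenConj_neg, goldenRatio_pos]
  have hn0 : (0 : ℝ) ≤ n := n.cast_nonneg
  set ε : ℝ := 1 / (2 * (n + 1) ^ 2) with hε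
  have hε0 : 0 < ε := by positivity
  have hε1 : (n + 1) * ((n + 1) * ε) ^ 2 < 1 := by
    have : (n + 1) * ((n + 1) * ε) ^ 2 = 1 / (4 * (n + 1)) := by
      rw [hε]; field_simp; ring
    rw [this, div_lt_one (by positivity)]
    linarith
  have hε2 : ε ≤ (n + 1) * ε := by nlinarith
  have hε3 : ε ≤ 1 := by
    rw [hε, div_le_one (by positivity)]
    nlinarith
  obtain ⟨L, hL⟩ := many (n := n) hne ε hε0
  have hfin := fin_mat (n := n) (max ((n + 1) * L ^ 2) (n + 1))
  set M₀ : Rg := (4 : Rg) * ∏ Γ ∈ hfin.toFinset.filter (fun Γ => Γ.det ≠ 0), Γ.det with hM₀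
  have hM : M₀ ≠ 0 := mul_ne_zero (by norm_num)
    (Finset.prod_ne_zero_iff.2 fun Γ hΓ => (Finset.mem_filter.1 hΓ).2)
  have : Finite (Rg ⧸ Ideal.span {M₀}) :=
    Ideal.finiteQuotientOfFreeOfNeBot _ (by simpa using hM)
  let cl : Mat n Rg → Mat n Rg × Mat n (Rg ⧸ Ideal.span {M₀}) :=
    fun V => (Vᵀ * JR n * V, V.map (Ideal.Quotient.mk _))
  let 𝒱 : Set (Mat n Rg) := {V | Vᵀ * JR n * V ∈ hfin.toFinset ∧ V.det ≠ 0}
  have hcl : (cl '' 𝒱).Finite := by
    refine (hfin.toFinset.finite_toSet.prod Set.finite_univ).subset ?_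
    rintro _ ⟨V, hV, rfl⟩
    exact ⟨hV.1, Set.mem_univ _⟩
  obtain ⟨t, ht1, ht2, ht3⟩ := (Set.exists_subset_image_finite_and (p := fun u => cl '' 𝒱 ⊆ u)).1
    ⟨_, subset_rfl, hcl, subset_rfl⟩
  obtain ⟨C, hC⟩ := (ht2.image fun W => ∑ i, |(dg n rs * W.map sg)⁻¹ i 0|).bddAbove
  refine ⟨L * C, fun k hk => ?_⟩
  have hdet : |(k * dg n rs).det| = rs := by
    rw [det_mul, abs_mul, abs_det hk, dg_det, one_mul, abs_of_pos (by linarith [rs_ge])]
  obtain ⟨A, B, hV2, hV3, hV4⟩ := hL (k * dg n rs)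
    (by rw [← abs_pos, hdet]; linarith [rs_ge]) (by rw [hdet]; exact rs_le) (by
      intro a b hv2 hv1
      have h0 := no_short hk (fun i => (⟨a i, b i⟩ : Rg))
        (by
          rw [mulVec_mulVec]
          exact (dot_le hv1).trans_lt hε1)
        ((dot_le (dg_vec_le (by linarith [rt_ge]) rt_le fun i => (hv2 i).trans hε2)).trans_lt hε1)
      exact ⟨funext fun i => congrArg QuadraticAlgebra.re (congrFun h0 i),
        funext fun i => congrArg QuadraticAlgebra.im (congrFun h0 i)⟩)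
  let V : Mat n Rg := Matrix.of fun i j => ⟨A i j, B i j⟩
  change (V.map sg).det ≠ 0 at hV2
  change ∀ i j, |(k * dg n rs * V.map sg) i j| ≤ L at hV3
  change ∀ i j, |ta (V i j)| ≤ ε at hV4
  have hVd : V.det ≠ 0 := by
    intro h0
    refine hV2 ?_
    rw [← RingHom.mapMatrix_apply, ← RingHom.map_det, h0, map_zero]
  have hV : V ∈ 𝒱 := by
    refine ⟨hfin.mem_toFinset.2 fun i j => ?_, hVd⟩
    have := gram_bound hk hV3 (fun i j => (hV4 i j).trans hε3) i j
    exact ⟨this.1.trans (le_max_left _ _), this.2.trans (le_max_right _ _)⟩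
  obtain ⟨W, hWt, hW⟩ := ht3 ⟨V, hV, rfl⟩
  have hG : Vᵀ * JR n * V = Wᵀ * JR n * W := (congrArg Prod.fst hW).symm
  have hs0 : om ≠ 0 := by
    intro h0
    have := sg_om
    rw [h0, map_zero] at this
    exact goldenRatio_ne_zero this.symm
  have hGd : (Vᵀ * JR n * V).det ≠ 0 := by
    rw [det_mul, det_mul, det_transpose, dg_det]
    exact mul_ne_zero (mul_ne_zero hVd (neg_ne_zero.2 hs0)) hVd
  obtain ⟨a, ha⟩ := same_class hVd hG fun i j => by
    have e1 : Ideal.Quotient.mk (Ideal.span {M₀}) (W i j) = Ideal.Quotient.mk _ (V i j) :=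
      congrFun (congrFun (congrArg Prod.snd hW) i) j
    rw [Ideal.Quotient.eq, Ideal.mem_span_singleton] at e1
    refine dvd_trans (mul_dvd_mul_left _ ?_) e1
    exact Finset.dvd_prod_of_mem _ (Finset.mem_filter.2 ⟨hV.1, hGd⟩)
  refine ⟨a⁻¹, ?_⟩
  have hWu : IsUnit (dg n rs * W.map sg).det := by
    rw [isUnit_iff_ne_zero, det_mul, dg_det, ← RingHom.mapMatrix_apply, ← RingHom.map_det]
    exact mul_ne_zero rs0 fun h0 => (ht1 hWt).2 (sg_zero h0)
  have hinv : rho n a⁻¹ * rho n a = 1 := by rw [← map_mul, inv_mul_cancel, map_one]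
  have e1 : rho n a * (dg n rs * V.map sg) = dg n rs * W.map sg := by
    rw [rho_apply, cj_mul_D, ha]
  have e2 : k * rho n a⁻¹ = (k * dg n rs * V.map sg) * (dg n rs * W.map sg)⁻¹ := by
    rw [Matrix.mul_assoc k, Matrix.mul_assoc k]
    congr 1
    have : dg n rs * V.map sg = rho n a⁻¹ * (dg n rs * W.map sg) := by
      rw [← e1, ← Matrix.mul_assoc, hinv, Matrix.one_mul]
    rw [this, Matrix.mul_nonsing_inv_cancel_right _ _ hWu]
  have hL0 : 0 ≤ L := (abs_nonneg _).trans (hV3 0 0)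
  rw [e2, Matrix.mul_apply]
  refine (Finset.abs_sum_le_sum_abs _ _).trans ?_
  refine le_trans ?_ (mul_le_mul_of_nonneg_left (hC ⟨W, hWt, rfl⟩) hL0)
  rw [Finset.mul_sum]
  refine Finset.sum_le_sum fun i _ => ?_
  rw [abs_mul]
  exact mul_le_mul_of_nonneg_right (hV3 0 i) (abs_nonneg _)

end Pool.Agent.MP_39b1da_gt.Lat

end

section

/-!
Directional derivative calculus and the Christoffel symbols of the model tensor.
-/

set_option autoImplicit false

namespace Pool.Agent.MP_39b1da_gt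

open Filter Topology Set Real
open scoped ENNReal NNReal ContDiff InnerProductSpace

/-- `f` is differentiable at `x` with derivative `f'` in the direction `u`. -/
structure CurvHD {E F : Type} [NormedAddCommGroup E] [NormedSpace ℝ E] [NormedAddCommGroup F]
    [NormedSpace ℝ F] (f : E → F) (x u : E) (f' : F) : Prop where
  diff : DifferentiableAt ℝ f x
  val : fderiv ℝ f x u = f'

namespace CurvHD

section
variable {E F : Type} [NormedAddCommGroup E] [NormedSpace ℝ E] [NormedAddCommGroup F]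
  [NormedSpace ℝ F] {x u : E}

theorem of_has {f : E → F} {L : E →L[ℝ] F} (h : HasFDerivAt f L x) : CurvHD f x u (L u) :=
  ⟨h.differentiableAt, by rw [h.fderiv]⟩

theorem congr {f : E → F} {a b : F} (h : CurvHD f x u a) (e : a = b) : CurvHD f x u b := e ▸ h

theorem const (c : F) : CurvHD (fun _ : E => c) x u 0 :=
  (of_has (hasFDerivAt_const c x)).congr (by simp)

theorem id' : CurvHD (fun y : E => y) x u u := of_has (hasFDerivAt_id x)

theorem add {f g : E → F} {a b : F} (h : CurvHD f x u a) (k : CurvHD g x u b) :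
    CurvHD (fun y => f y + g y) x u (a + b) :=
  (of_has (h.diff.hasFDerivAt.add k.diff.hasFDerivAt)).congr (by simp [h.val, k.val])

theorem sub {f g : E → F} {a b : F} (h : CurvHD f x u a) (k : CurvHD g x u b) :
    CurvHD (fun y => f y - g y) x u (a - b) :=
  (of_has (h.diff.hasFDerivAt.sub k.diff.hasFDerivAt)).congr (by simp [h.val, k.val])

theorem neg {f : E → F} {a : F} (h : CurvHD f x u a) : CurvHD (fun y => -f y) x u (-a) :=
  (of_has h.diff.hasFDerivAt.neg).congr (by simp [h.val])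

theorem mul {f g : E → ℝ} {a b : ℝ} (h : CurvHD f x u a) (k : CurvHD g x u b) :
    CurvHD (fun y => f y * g y) x u (a * g x + f x * b) :=
  (of_has (h.diff.hasFDerivAt.mul k.diff.hasFDerivAt)).congr (by simp [h.val, k.val]; ring)

theorem comp {f : E → ℝ} {a : ℝ} {l : ℝ → ℝ} (hl : DifferentiableAt ℝ l (f x))
    (h : CurvHD f x u a) : CurvHD (fun y => l (f y)) x u (deriv l (f x) * a) :=
  (of_has (hl.hasDerivAt.comp_hasFDerivAt x h.diff.hasFDerivAt)).congr (by simp [h.val])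

theorem inv {f : E → ℝ} {a : ℝ} (h : CurvHD f x u a) (h0 : f x ≠ 0) :
    CurvHD (fun y => (f y)⁻¹) x u (-(a * (f x)⁻¹ ^ 2)) :=
  (comp (l := fun t => t⁻¹) (differentiableAt_inv h0) h).congr (by simp; ring)

theorem sq {f : E → ℝ} {a : ℝ} (h : CurvHD f x u a) :
    CurvHD (fun y => f y ^ 2) x u (2 * f x * a) := by
  simp only [pow_two]
  exact (h.mul h).congr (by ring)

theorem clm {G : Type} [NormedAddCommGroup G] [NormedSpace ℝ G] (L : F →L[ℝ] G) {f : E → F}
    {a : F} (h : CurvHD f x u a) : CurvHD (fun y => L (f y)) x u (L a) :=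
  (of_has (L.hasFDerivAt.comp x h.diff.hasFDerivAt)).congr (by simp [h.val])

end

section
variable {E : Type} [NormedAddCommGroup E] [InnerProductSpace ℝ E] {x u : E}

theorem inner {f g : E → E} {a b : E} (h : CurvHD f x u a) (k : CurvHD g x u b) :
    CurvHD (fun y => ⟪f y, g y⟫_ℝ) x u (⟪a, g x⟫_ℝ + ⟪f x, b⟫_ℝ) :=
  (of_has (h.diff.hasFDerivAt.inner ℝ k.diff.hasFDerivAt)).congr
    (by simp [h.val, k.val, add_comm])

theorem normsq : CurvHD (fun y : E => ‖y‖ ^ 2) x u (2 * ⟪x, u⟫_ℝ) := by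
  simp only [← real_inner_self_eq_norm_sq]
  exact (id'.inner id').congr (by rw [real_inner_comm]; ring)

theorem sinv : CurvHD (fun y : E => (1 + ‖y‖ ^ 2)⁻¹) x u
    (-(2 * ⟪x, u⟫_ℝ * (1 + ‖x‖ ^ 2)⁻¹ ^ 2)) :=
  (((const 1).add normsq).inv (by positivity)).congr (by rw [zero_add])

end

theorem coord {m : ℕ} {x u : Euc m} {f : Euc m → Euc m} {a : Euc m} (h : CurvHD f x u a)
    (i : Fin (m + 4)) : CurvHD (fun y => f y i) x u (a i) :=
  clm (EuclideanSpace.proj i : Euc m →L[ℝ] ℝ) h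

end CurvHD

section Hyp
variable {E : Type} [NormedAddCommGroup E] [InnerProductSpace ℝ E]

theorem curv_Gh (x u v : E) :
    Gh x u v = ⟪u, v⟫_ℝ - ⟪x, u⟫_ℝ * ⟪x, v⟫_ℝ * (1 + ‖x‖ ^ 2)⁻¹ := by
  rw [Gh, div_eq_mul_inv]

/-- The derivative of the hyperbolic tensor. -/
noncomputable def curvDh (x u a b : E) : ℝ :=
  -((⟪u, a⟫_ℝ * ⟪x, b⟫_ℝ + ⟪x, a⟫_ℝ * ⟪u, b⟫_ℝ) * (1 + ‖x‖ ^ 2)⁻¹) +
    2 * ⟪x, u⟫_ℝ * ⟪x, a⟫_ℝ * ⟪x, b⟫_ℝ * (1 + ‖x‖ ^ 2)⁻¹ ^ 2

theorem curv_hd_Gh {x u : E} {a : E → E} {a' : E} (h : CurvHD a x u a') (w : E) :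
    CurvHD (fun y => Gh y (a y) w) x u (Gh x a' w + curvDh x u (a x) w) := by
  simp only [curv_Gh]
  refine ((h.inner (CurvHD.const w)).sub (((CurvHD.id'.inner h).mul
    (CurvHD.id'.inner (CurvHD.const w))).mul CurvHD.sinv)).congr ?_
  simp only [curvDh, inner_zero_right]
  ring

/-- The hyperbolic Christoffel symbols of the first kind. -/
noncomputable def curvKh (x u v w : E) : ℝ := -(Gh x u v * (⟪x, w⟫_ℝ * (1 + ‖x‖ ^ 2)⁻¹))

/-- Their derivative. -/
noncomputable def curvDKh (x z u v w : E) : ℝ :=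
  -(curvDh x z u v * (⟪x, w⟫_ℝ * (1 + ‖x‖ ^ 2)⁻¹) + Gh x u v *
    (⟪z, w⟫_ℝ * (1 + ‖x‖ ^ 2)⁻¹ - ⟪x, w⟫_ℝ * (2 * ⟪x, z⟫_ℝ * (1 + ‖x‖ ^ 2)⁻¹ ^ 2)))

theorem curv_hd_Kh (x z u v w : E) :
    CurvHD (fun y => curvKh y u v w) x z (curvDKh x z u v w) := by
  refine (((curv_hd_Gh (CurvHD.const u) v).mul ((CurvHD.id'.inner (CurvHD.const w)).mul
    CurvHD.sinv)).neg).congr ?_
  simp only [curvDKh, curv_Gh, inner_zero_right, inner_zero_left]
  ring

theorem curv_Dh_eq (x u a b : E) : curvDh x u a b = curvKh x u a b + curvKh x u b a := by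
  simp only [curvDh, curvKh, curv_Gh]
  ring

theorem curv_Kh_symm (x u v w : E) : curvKh x u v w = curvKh x v u w := by
  simp only [curvKh, curv_Gh, real_inner_comm u v]
  ring

theorem curv_DKh_eq (x u v : E) : curvDKh x u v v u - curvDKh x v u v u =
    -((1 + ‖x‖ ^ 2)⁻¹ * (Gh x u u * Gh x v v - Gh x u v ^ 2)) := by
  simp only [curvDKh, curvDh, curv_Gh, real_inner_comm u v]
  ring

end Hyp

section Plane
variable {m : ℕ} (l : ℝ → ℝ) (i j : Fin (m + 4))

/-- The squared radius in the plane `i, j`. -/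
noncomputable def curvT (x : Euc m) : ℝ := x i ^ 2 + x j ^ 2

/-- The area form of the plane `i, j`. -/
noncomputable def curvOm (x u : Euc m) : ℝ := x i * u j - x j * u i

/-- The inner product of the plane `i, j`. -/
noncomputable def curvRho (x u : Euc m) : ℝ := x i * u i + x j * u j

/-- The warping correction. -/
noncomputable def curvG (x u v : Euc m) : ℝ :=
  l (curvT i j x) * (curvOm i j x u * curvOm i j x v)

/-- Its derivative. -/
noncomputable def curvD (x u a b : Euc m) : ℝ :=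
  deriv l (curvT i j x) * (2 * curvRho i j x u) * (curvOm i j x a * curvOm i j x b) +
    l (curvT i j x) * (curvOm i j u a * curvOm i j x b + curvOm i j x a * curvOm i j u b)

/-- Its Christoffel symbols of the first kind. -/
noncomputable def curvK (x u v w : Euc m) : ℝ :=
  deriv l (curvT i j x) * (curvRho i j x u * curvOm i j x v * curvOm i j x w +
    curvRho i j x v * curvOm i j x u * curvOm i j x w -
      curvRho i j x w * curvOm i j x u * curvOm i j x v) +
    l (curvT i j x) * (curvOm i j x v * curvOm i j u w + curvOm i j x u * curvOm i j v w)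

/-- Their derivative. -/
noncomputable def curvDK (x z u v w : Euc m) : ℝ :=
  deriv (deriv l) (curvT i j x) * (2 * curvRho i j x z) *
      (curvRho i j x u * curvOm i j x v * curvOm i j x w +
        curvRho i j x v * curvOm i j x u * curvOm i j x w -
          curvRho i j x w * curvOm i j x u * curvOm i j x v) +
    deriv l (curvT i j x) *
      ((curvRho i j z u * curvOm i j x v + curvRho i j x u * curvOm i j z v) * curvOm i j x w +
        curvRho i j x u * curvOm i j x v * curvOm i j z w +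
      ((curvRho i j z v * curvOm i j x u + curvRho i j x v * curvOm i j z u) * curvOm i j x w +
        curvRho i j x v * curvOm i j x u * curvOm i j z w) -
      ((curvRho i j z w * curvOm i j x u + curvRho i j x w * curvOm i j z u) * curvOm i j x v +
        curvRho i j x w * curvOm i j x u * curvOm i j z v)) +
    (deriv l (curvT i j x) * (2 * curvRho i j x z) *
      (curvOm i j x v * curvOm i j u w + curvOm i j x u * curvOm i j v w) +
    l (curvT i j x) * (curvOm i j z v * curvOm i j u w + curvOm i j z u * curvOm i j v w))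

theorem curvT_nonneg (x : Euc m) : 0 ≤ curvT i j x := by unfold curvT; positivity

theorem curv_hd_T (x u : Euc m) : CurvHD (fun y => curvT i j y) x u (2 * curvRho i j x u) :=
  ((CurvHD.id'.coord i).sq.add (CurvHD.id'.coord j).sq).congr (by unfold curvRho; ring)

theorem curv_hd_om {x u : Euc m} {a : Euc m → Euc m} {a' : Euc m} (h : CurvHD a x u a') :
    CurvHD (fun y => curvOm i j y (a y)) x u (curvOm i j u (a x) + curvOm i j x a') :=
  (((CurvHD.id'.coord i).mul (h.coord j)).sub ((CurvHD.id'.coord j).mul (h.coord i))).congr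
    (by unfold curvOm; ring)

theorem curv_hd_om' (x u a : Euc m) :
    CurvHD (fun y => curvOm i j y a) x u (curvOm i j u a) :=
  (curv_hd_om i j (CurvHD.const a)).congr (by simp [curvOm])

theorem curv_hd_rho (x u a : Euc m) :
    CurvHD (fun y => curvRho i j y a) x u (curvRho i j u a) :=
  (((CurvHD.id'.coord i).mul (CurvHD.const (a i))).add
    ((CurvHD.id'.coord j).mul (CurvHD.const (a j)))).congr (by unfold curvRho; ring)

variable {l}

theorem Adm.curv_d1 (h : Adm l) {t : ℝ} (ht : 0 ≤ t) : DifferentiableAt ℝ l t :=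
  (h.smooth t ht).differentiableAt (by simp)

theorem Adm.curv_d2 (h : Adm l) {t : ℝ} (ht : 0 ≤ t) : DifferentiableAt ℝ (deriv l) t :=
  ((h.smooth t ht).derivWithin (m := 1)
    (WithTop.coe_le_coe.2 (le_top : ((1 : ℕ∞) + 1) ≤ ⊤))).differentiableAt (by simp)

theorem curv_hd_G (hl : Adm l) {x u : Euc m} {a : Euc m → Euc m} {a' : Euc m}
    (h : CurvHD a x u a') (w : Euc m) :
    CurvHD (fun y => curvG l i j y (a y) w) x u (curvG l i j x a' w + curvD l i j x u (a x) w) :=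
  ((CurvHD.comp (hl.curv_d1 (curvT_nonneg i j x)) (curv_hd_T i j x u)).mul
    ((curv_hd_om i j h).mul (curv_hd_om' i j x u w))).congr (by unfold curvG curvD; ring)

theorem curv_hd_K (hl : Adm l) (x z u v w : Euc m) :
    CurvHD (fun y => curvK l i j y u v w) x z (curvDK l i j x z u v w) :=
  (((CurvHD.comp (hl.curv_d2 (curvT_nonneg i j x)) (curv_hd_T i j x z)).mul
    (((((curv_hd_rho i j x z u).mul (curv_hd_om' i j x z v)).mul (curv_hd_om' i j x z w)).add
      (((curv_hd_rho i j x z v).mul (curv_hd_om' i j x z u)).mul (curv_hd_om' i j x z w))).sub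
      (((curv_hd_rho i j x z w).mul (curv_hd_om' i j x z u)).mul (curv_hd_om' i j x z v)))).add
    ((CurvHD.comp (hl.curv_d1 (curvT_nonneg i j x)) (curv_hd_T i j x z)).mul
      (((curv_hd_om' i j x z v).mul (CurvHD.const (curvOm i j u w))).add
        ((curv_hd_om' i j x z u).mul (CurvHD.const (curvOm i j v w)))))).congr
    (by unfold curvDK; ring)

variable (l)

theorem curv_D_eq (x u a b : Euc m) :
    curvD l i j x u a b = curvK l i j x u a b + curvK l i j x u b a := by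
  simp only [curvD, curvK, curvOm, curvRho]
  ring

theorem curv_K_symm (x u v w : Euc m) : curvK l i j x u v w = curvK l i j x v u w := by
  simp only [curvK]
  ring

end Plane

end Pool.Agent.MP_39b1da_gt

end

section

set_option autoImplicit false

namespace Pool.Agent.MP_39b1da_gt

open Filter Topology Set Real
open scoped ENNReal NNReal ContDiff InnerProductSpace

section Plane
variable {m : ℕ} (l : ℝ → ℝ) (i j : Fin (m + 4))

/-- The coefficient `2 l + t l'`. -/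
noncomputable def curvP (t : ℝ) : ℝ := 2 * l t + t * deriv l t

/-- The coefficient of the mixed term. -/
noncomputable def curvC (t : ℝ) : ℝ := (deriv l t - l t ^ 2) * (1 + t * l t)⁻¹

/-- The coefficient of the squared area form in the curvature. -/
noncomputable def curvQ (t : ℝ) : ℝ :=
  3 * (l t + t * deriv l t) + 2 * t * (2 * deriv l t + t * deriv (deriv l) t) -
    t * (l t + t * deriv l t) * (l t + curvC l t * t)

/-- The radial part of the Christoffel map. -/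
noncomputable def curvAl (x u v : Euc m) : ℝ :=
  -(curvP l (curvT i j x) * (curvOm i j x u * curvOm i j x v))

/-- First coordinate of the plane part of the Christoffel map. -/
noncomputable def curvVi (x u v : Euc m) : ℝ :=
  -(l (curvT i j x) * (curvOm i j x v * u j + curvOm i j x u * v j)) -
    deriv l (curvT i j x) * (curvOm i j x u * curvOm i j x v) * x i -
      curvC l (curvT i j x) *
        (curvRho i j x u * curvOm i j x v + curvOm i j x u * curvRho i j x v) * x j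

/-- Second coordinate of the plane part of the Christoffel map. -/
noncomputable def curvVj (x u v : Euc m) : ℝ :=
  l (curvT i j x) * (curvOm i j x v * u i + curvOm i j x u * v i) -
    deriv l (curvT i j x) * (curvOm i j x u * curvOm i j x v) * x j +
      curvC l (curvT i j x) *
        (curvRho i j x u * curvOm i j x v + curvOm i j x u * curvRho i j x v) * x i

/-- The plane part of the Christoffel map. -/
noncomputable def curvV (x u v : Euc m) : Euc m :=
  curvVi l i j x u v • EuclideanSpace.single i (1 : ℝ) +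
    curvVj l i j x u v • EuclideanSpace.single j (1 : ℝ)

theorem curv_inner_V (x u v w : Euc m) :
    ⟪curvV l i j x u v, w⟫_ℝ = curvVi l i j x u v * w i + curvVj l i j x u v * w j := by
  simp [curvV, inner_add_left, inner_smul_left, EuclideanSpace.inner_single_left]

theorem curv_inner_V' (x u v : Euc m) : ⟪x, curvV l i j x u v⟫_ℝ = curvAl l i j x u v := by
  rw [real_inner_comm, curv_inner_V]
  simp only [curvVi, curvVj, curvAl, curvP, curvT, curvOm, curvRho]
  ring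

variable {l}

theorem Adm.curv_A (h : Adm l) {t : ℝ} (ht : 0 ≤ t) : 0 < 1 + t * l t := by
  have := mul_nonneg ht (h.nonneg t ht); linarith

theorem Adm.curv_l' (h : Adm l) {t : ℝ} (ht : 0 ≤ t) :
    deriv l t = l t ^ 2 + curvC l t * (1 + t * l t) := by
  rw [curvC, mul_assoc, inv_mul_cancel₀ (h.curv_A ht).ne']; ring

theorem Adm.curv_q (h : Adm l) {t : ℝ} (ht : 0 ≤ t) : 0 ≤ t * curvP l t + (1 + t) * curvQ l t := by
  have hA := h.curv_A ht
  refine (mul_nonneg_iff_of_pos_right hA).1 ((h.q_ge t ht).trans_eq ?_)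
  have e := h.curv_l' ht
  simp only [curvP, curvQ]
  generalize curvC l t = c at *
  rw [e]
  ring

theorem curv_diff_V (h : Adm l) (x u v : Euc m) :
    DifferentiableAt ℝ (fun y => curvAl l i j y u v) x ∧
      DifferentiableAt ℝ (fun y => curvV l i j y u v) x := by
  have ht := curvT_nonneg i j x
  have d0 := (curv_hd_T i j x 0).diff
  have d1 := (CurvHD.comp (h.curv_d1 ht) (curv_hd_T i j x 0)).diff
  have d2 := (CurvHD.comp (h.curv_d2 ht) (curv_hd_T i j x 0)).diff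
  have d3 := (curv_hd_om' i j x 0 u).diff
  have d4 := (curv_hd_om' i j x 0 v).diff
  have d5 := (curv_hd_rho i j x 0 u).diff
  have d6 := (curv_hd_rho i j x 0 v).diff
  have d7 := ((CurvHD.id' (x := x) (u := 0)).coord i).diff
  have d8 := ((CurvHD.id' (x := x) (u := 0)).coord j).diff
  have d9 : DifferentiableAt ℝ (fun y => curvC l (curvT i j y)) x :=
    (d2.sub (d1.pow 2)).mul (((differentiableAt_const _).add (d0.mul d1)).inv (h.curv_A ht).ne')
  refine ⟨((((differentiableAt_const _).mul d1).add (d0.mul d2)).mul (d3.mul d4)).neg, ?_⟩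
  refine DifferentiableAt.add (DifferentiableAt.smul_const ?_ _) (DifferentiableAt.smul_const ?_ _)
  · exact ((d1.mul ((d4.mul_const _).add (d3.mul_const _))).neg.sub
      ((d2.mul (d3.mul d4)).mul d7)).sub ((d9.mul ((d5.mul d4).add (d3.mul d6))).mul d8)
  · exact ((d1.mul ((d4.mul_const _).add (d3.mul_const _))).sub
      ((d2.mul (d3.mul d4)).mul d8)).add ((d9.mul ((d5.mul d4).add (d3.mul d6))).mul d7)

theorem curv_G_V (h : Adm l) (x u v w W : Euc m) (α : ℝ)
    (hi : W i = α * x i + curvVi l i j x u v) (hj : W j = α * x j + curvVj l i j x u v) :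
    curvG l i j x W w + (curvVi l i j x u v * w i + curvVj l i j x u v * w j) =
      curvK l i j x u v w := by
  have e := h.curv_l' (curvT_nonneg i j x)
  simp only [curvG, curvK, curvOm, curvRho, hi, hj, curvVi, curvVj]
  generalize curvC l (curvT i j x) = c at *
  rw [e]
  generalize l (curvT i j x) = L
  simp only [curvT]
  ring

theorem curv_plane (h : Adm l) (x u v W W' : Euc m) (α α' : ℝ)
    (hi : W i = α * x i + curvVi l i j x v v) (hj : W j = α * x j + curvVj l i j x v v)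
    (hi' : W' i = α' * x i + curvVi l i j x u v) (hj' : W' j = α' * x j + curvVj l i j x u v) :
    curvDK l i j x u v v u - curvK l i j x u u W - (curvDK l i j x v u v u - curvK l i j x v u W') =
      -(curvQ l (curvT i j x) * curvOm i j u v ^ 2) - α * curvAl l i j x u u +
        α' * curvAl l i j x u v := by
  have e := h.curv_l' (curvT_nonneg i j x)
  simp only [curvDK, curvK, curvQ, curvAl, curvP, curvOm, curvRho, hi, hj, hi', hj', curvVi,
    curvVj]
  generalize curvC l (curvT i j x) = c at *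
  rw [e]
  generalize l (curvT i j x) = L
  generalize deriv (deriv l) (curvT i j x) = L2
  simp only [curvT]
  ring

theorem curv_Gh_comb (x u v : Euc m) (a b : ℝ) :
    Gh x (a • v - b • u) (a • v - b • u) =
      a ^ 2 * Gh x v v - 2 * a * b * Gh x u v + b ^ 2 * Gh x u u := by
  simp only [curv_Gh, inner_sub_left, inner_sub_right, inner_smul_left, inner_smul_right,
    conj_trivial, real_inner_comm u v]
  ring

theorem curv_bracket (h : Adm l) (hij : i ≠ j) (x u v : Euc m) :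
    0 ≤ curvP l (curvT i j x) * (curvOm i j x u ^ 2 * Gh x v v -
      2 * curvOm i j x u * curvOm i j x v * Gh x u v + curvOm i j x v ^ 2 * Gh x u u) +
      curvQ l (curvT i j x) * curvOm i j u v ^ 2 := by
  rw [← curv_Gh_comb]
  set w := curvOm i j x u • v - curvOm i j x v • u with hw
  have ht := curvT_nonneg i j x
  set z : Euc m := x i • EuclideanSpace.single i (1 : ℝ) + x j • EuclideanSpace.single j (1 : ℝ) +
    curvT i j x • x with hz
  have hzw : ∀ a : Euc m, Gh x z a = curvRho i j x a := by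
    intro a
    have h1 : (1 + ‖x‖ ^ 2) * (1 + ‖x‖ ^ 2)⁻¹ = 1 := mul_inv_cancel₀ (by positivity)
    simp only [curv_Gh, hz, inner_add_left, inner_add_right, inner_smul_left, inner_smul_right,
      EuclideanSpace.inner_single_left, EuclideanSpace.inner_single_right, conj_trivial,
      real_inner_self_eq_norm_sq, curvRho, curvT]
    linear_combination (-(x i ^ 2 + x j ^ 2) * ⟪x, a⟫_ℝ) * h1
  have h2 := Gh_cs x z w
  rw [hzw, hzw] at h2
  have h3 : curvRho i j x z = curvT i j x * (1 + curvT i j x) := by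
    simp [hz, curvRho, curvT, hij, hij.symm]; ring
  have h4 : curvRho i j x w = -(curvT i j x * curvOm i j u v) := by
    simp [hw, curvRho, curvT, curvOm]; ring
  rw [h3, h4] at h2
  have h5 : 0 ≤ Gh x w w := by
    by_cases h0 : w = 0
    · simp [h0, Gh]
    · exact (Gh_pos x h0).le
  have h6 : curvT i j x * curvOm i j u v ^ 2 ≤ (1 + curvT i j x) * Gh x w w := by
    rcases ht.eq_or_lt with h0 | h0
    · rw [← h0]; linarith
    · refine le_of_mul_le_mul_left ?_ h0
      linarith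
  have h7 := h.curv_q ht
  have h8 : 0 ≤ curvP l (curvT i j x) := h.p_nonneg _ ht
  refine nonneg_of_mul_nonneg_right (a := 1 + curvT i j x) ?_ (by linarith)
  nlinarith [mul_le_mul_of_nonneg_left h6 h8, mul_nonneg h7 (sq_nonneg (curvOm i j u v))]

end Plane

variable {m : ℕ} {l₁ l₂ : ℝ → ℝ}

theorem curv_Gm (x u v : Euc m) :
    Gm l₁ l₂ x u v = Gh x u v + curvG l₁ 0 1 x u v + curvG l₂ 2 3 x u v := rfl

theorem curv_smooth_G {l : ℝ → ℝ} (h : Adm l) (i j : Fin (m + 4)) (u v : Euc m) :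
    ContDiff ℝ ∞ fun x : Euc m => curvG l i j x u v := by
  have hc : ∀ k : Fin (m + 4), ContDiff ℝ ∞ fun x : Euc m => x k := fun k =>
    (EuclideanSpace.proj k : Euc m →L[ℝ] ℝ).contDiff
  have hT : ContDiff ℝ ∞ fun x : Euc m => curvT i j x := ((hc i).pow 2).add ((hc j).pow 2)
  have hO : ∀ a : Euc m, ContDiff ℝ ∞ fun x : Euc m => curvOm i j x a := fun a =>
    ((hc i).mul contDiff_const).sub ((hc j).mul contDiff_const)
  refine ContDiff.mul ?_ ((hO u).mul (hO v))
  exact contDiff_iff_contDiffAt.2 fun x =>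
    (h.smooth _ (curvT_nonneg i j x)).comp x hT.contDiffAt

theorem Gm_smooth (h₁ : Adm l₁) (h₂ : Adm l₂) (u v : Euc m) :
    ContDiff ℝ ∞ fun x : Euc m => Gm l₁ l₂ x u v := by
  refine ContDiff.add (ContDiff.add ?_ (curv_smooth_G h₁ 0 1 u v)) (curv_smooth_G h₂ 2 3 u v)
  refine contDiff_const.sub (ContDiff.div ?_ (contDiff_const.add (contDiff_norm_sq ℝ))
    fun x => by positivity)
  exact (contDiff_id.inner ℝ contDiff_const).mul (contDiff_id.inner ℝ contDiff_const)

theorem Gm_symm (x u v : Euc m) : Gm l₁ l₂ x u v = Gm l₁ l₂ x v u := by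
  simp only [Gm, Gh, real_inner_comm u v]
  ring

theorem Gm_linear (x v : Euc m) : IsLinearMap ℝ fun u => Gm l₁ l₂ x u v := by
  constructor
  · intro a b
    simp only [Gm, Gh, om1, om2, inner_add_left, inner_add_right, PiLp.add_apply]
    ring
  · intro c a
    simp only [Gm, Gh, om1, om2, inner_smul_left, inner_smul_right, PiLp.smul_apply, smul_eq_mul,
      conj_trivial]
    ring

theorem Gm_pos (h₁ : Adm l₁) (h₂ : Adm l₂) (x : Euc m) {u : Euc m} (hu : u ≠ 0) :
    0 < Gm l₁ l₂ x u u := by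
  have a := Gh_pos x hu
  have b := mul_nonneg (h₁.nonneg (x 0 ^ 2 + x 1 ^ 2) (by positivity)) (mul_self_nonneg (om1 x u))
  have c := mul_nonneg (h₂.nonneg (x 2 ^ 2 + x 3 ^ 2) (by positivity)) (mul_self_nonneg (om2 x u))
  unfold Gm
  linarith

variable (l₁ l₂)

/-- The coefficient of the position vector in the Christoffel map. -/
noncomputable def curvA (x u v : Euc m) : ℝ :=
  -Gh x u v + curvAl l₁ 0 1 x u v + curvAl l₂ 2 3 x u v

/-- The Christoffel map. -/
noncomputable def curvGam (x u v : Euc m) : Euc m :=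
  curvA l₁ l₂ x u v • x + curvV l₁ 0 1 x u v + curvV l₂ 2 3 x u v

/-- The Christoffel symbols of the first kind. -/
noncomputable def curvKm (x u v w : Euc m) : ℝ :=
  curvKh x u v w + curvK l₁ 0 1 x u v w + curvK l₂ 2 3 x u v w

theorem curv_ne : ((0 : Fin (m + 4)) ≠ 1 ∧ (0 : Fin (m + 4)) ≠ 2 ∧ (0 : Fin (m + 4)) ≠ 3) ∧
    (1 : Fin (m + 4)) ≠ 2 ∧ (1 : Fin (m + 4)) ≠ 3 ∧ (2 : Fin (m + 4)) ≠ 3 := by
  have h2 : ((2 : Fin (m + 4)) : ℕ) = 2 := Nat.mod_eq_of_lt (show 2 < m + 4 by omega)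
  have h3 : ((3 : Fin (m + 4)) : ℕ) = 3 := Nat.mod_eq_of_lt (show 3 < m + 4 by omega)
  simp only [ne_eq, Fin.ext_iff, h2, h3, Fin.val_zero, Fin.val_one]
  omega

theorem curv_Gam_coord (x u v : Euc m) :
    (curvGam l₁ l₂ x u v 0 = curvA l₁ l₂ x u v * x 0 + curvVi l₁ 0 1 x u v ∧
      curvGam l₁ l₂ x u v 1 = curvA l₁ l₂ x u v * x 1 + curvVj l₁ 0 1 x u v) ∧
    curvGam l₁ l₂ x u v 2 = curvA l₁ l₂ x u v * x 2 + curvVi l₂ 2 3 x u v ∧
      curvGam l₁ l₂ x u v 3 = curvA l₁ l₂ x u v * x 3 + curvVj l₂ 2 3 x u v := by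
  obtain ⟨⟨a, b, c⟩, d, e, f⟩ := curv_ne (m := m)
  simp [curvGam, curvV, a, b, c, d, e, f, a.symm, b.symm, c.symm, d.symm, e.symm, f.symm]

theorem curv_inner_Gam (x u v : Euc m) : ⟪x, curvGam l₁ l₂ x u v⟫_ℝ * (1 + ‖x‖ ^ 2)⁻¹ =
    curvA l₁ l₂ x u v + Gh x u v * (1 + ‖x‖ ^ 2)⁻¹ := by
  have h1 : (1 + ‖x‖ ^ 2) * (1 + ‖x‖ ^ 2)⁻¹ = 1 := mul_inv_cancel₀ (by positivity)
  simp only [curvGam, inner_add_right, inner_smul_right, curv_inner_V', real_inner_self_eq_norm_sq]
  have : curvA l₁ l₂ x u v = -Gh x u v + curvAl l₁ 0 1 x u v + curvAl l₂ 2 3 x u v := rfl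
  linear_combination curvA l₁ l₂ x u v * h1 - (1 + ‖x‖ ^ 2)⁻¹ * this

variable {l₁ l₂}

theorem curv_Gm_Gam (h₁ : Adm l₁) (h₂ : Adm l₂) (x u v w : Euc m) :
    Gm l₁ l₂ x (curvGam l₁ l₂ x u v) w = curvKm l₁ l₂ x u v w := by
  obtain ⟨⟨a, b⟩, c, d⟩ := curv_Gam_coord l₁ l₂ x u v
  have e1 := curv_G_V 0 1 h₁ x u v w _ _ a b
  have e2 := curv_G_V 2 3 h₂ x u v w _ _ c d
  have e3 := curv_inner_Gam l₁ l₂ x u v
  have e4 : ⟪curvGam l₁ l₂ x u v, w⟫_ℝ = curvA l₁ l₂ x u v * ⟪x, w⟫_ℝ +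
      (curvVi l₁ 0 1 x u v * w 0 + curvVj l₁ 0 1 x u v * w 1) +
      (curvVi l₂ 2 3 x u v * w 2 + curvVj l₂ 2 3 x u v * w 3) := by
    simp only [curvGam, inner_add_left, inner_smul_left, curv_inner_V, conj_trivial]
  rw [curv_Gm, curv_Gh, curvKm, curvKh]
  linear_combination e1 + e2 + e4 - ⟪x, w⟫_ℝ * e3

theorem curv_hd_Gm (h₁ : Adm l₁) (h₂ : Adm l₂) {x u : Euc m} {a : Euc m → Euc m} {a' : Euc m}
    (h : CurvHD a x u a') (w : Euc m) : CurvHD (fun y => Gm l₁ l₂ y (a y) w) x u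
      (Gm l₁ l₂ x a' w + (curvKm l₁ l₂ x u (a x) w + curvKm l₁ l₂ x u w (a x))) :=
  (((curv_hd_Gh h w).add (curv_hd_G 0 1 h₁ h w)).add (curv_hd_G 2 3 h₂ h w)).congr (by
    rw [curv_Gm, curv_Dh_eq, curv_D_eq, curv_D_eq, curvKm, curvKm]; ring)

theorem curv_Km_symm (x u v w : Euc m) : curvKm l₁ l₂ x u v w = curvKm l₁ l₂ x v u w := by
  rw [curvKm, curvKm, curv_Kh_symm, curv_K_symm l₁, curv_K_symm l₂]

theorem curv_diff_Gam (h₁ : Adm l₁) (h₂ : Adm l₂) (x u v : Euc m) :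
    DifferentiableAt ℝ (fun y => curvGam l₁ l₂ y u v) x := by
  have a := curv_diff_V 0 1 h₁ x u v
  have b := curv_diff_V 2 3 h₂ x u v
  have c := (curv_hd_Gh (x := x) (u := 0) (CurvHD.const u) v).diff
  exact ((((c.neg.add a.1).add b.1).smul differentiableAt_id).add a.2).add b.2

theorem curv_half (h₁ : Adm l₁) (h₂ : Adm l₂) (x z u v w : Euc m) :
    Gm l₁ l₂ x (fderiv ℝ (fun y => curvGam l₁ l₂ y u v) x z) w +
      Gm l₁ l₂ x (curvGam l₁ l₂ x z (curvGam l₁ l₂ x u v)) w =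
      curvDKh x z u v w + curvDK l₁ 0 1 x z u v w + curvDK l₂ 2 3 x z u v w -
        curvKm l₁ l₂ x z w (curvGam l₁ l₂ x u v) := by
  have a := (curv_hd_Gm h₁ h₂ (u := z) ⟨curv_diff_Gam h₁ h₂ x u v, rfl⟩ w).val
  have b := (((curv_hd_Kh x z u v w).add (curv_hd_K 0 1 h₁ x z u v w)).add
    (curv_hd_K 2 3 h₂ x z u v w)).val
  simp only [curv_Gm_Gam h₁ h₂] at a ⊢
  simp only [curvKm] at a ⊢
  rw [b] at a
  linarith

theorem Gm_neg (h₁ : Adm l₁) (h₂ : Adm l₂) :
    ∃ Γ, IsChristoffel (univ : Set (Euc m)) (Gm l₁ l₂) Γ ∧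
      ∀ x u v : Euc m, LinearIndependent ℝ ![u, v] → Gm l₁ l₂ x (curv Γ x u v v) u < 0 := by
  refine ⟨curvGam l₁ l₂, fun x _ u v w => ?_, fun x u v huv => ?_⟩
  · have h0 : ∀ a : Euc m, Gm l₁ l₂ x 0 a = 0 := fun a => (Gm_linear x a).map_zero
    rw [(curv_hd_Gm h₁ h₂ (CurvHD.const v) w).val, (curv_hd_Gm h₁ h₂ (CurvHD.const u) w).val,
      (curv_hd_Gm h₁ h₂ (CurvHD.const u) v).val, curv_Gm_Gam h₁ h₂, h0, h0,
      curv_Km_symm x v u w, curv_Km_symm x w u v, curv_Km_symm x w v u]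
    ring
  have L := Gm_linear (l₁ := l₁) (l₂ := l₂) x u
  have e0 : Gm l₁ l₂ x (curv (curvGam l₁ l₂) x u v v) u = _ :=
    (L.map_sub _ _).trans (congrArg₂ _ ((L.map_add _ _).trans
      (congrArg₂ _ (L.map_sub _ _) rfl)) rfl)
  have e1 := curv_half h₁ h₂ x u v v u
  have e2 := curv_half h₁ h₂ x v u v u
  obtain ⟨⟨a, b⟩, c, d⟩ := curv_Gam_coord l₁ l₂ x v v
  obtain ⟨⟨a', b'⟩, c', d'⟩ := curv_Gam_coord l₁ l₂ x u v
  have e3 := curv_plane 0 1 h₁ x u v _ _ _ _ a b a' b'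
  have e4 := curv_plane 2 3 h₂ x u v _ _ _ _ c d c' d'
  have e5 := curv_DKh_eq x u v
  have e6 := curv_inner_Gam l₁ l₂ x v v
  have e7 := curv_inner_Gam l₁ l₂ x u v
  have e8 : Gh x v u = Gh x u v := by simp only [Gh, real_inner_comm u v, mul_comm]
  obtain ⟨⟨n1, -, -⟩, -, -, n2⟩ := curv_ne (m := m)
  have p1 := curv_bracket 0 1 h₁ n1 x u v
  have p2 := curv_bracket 2 3 h₂ n2 x u v
  have p3 := mul_nonneg (mul_nonneg (h₁.p_nonneg _ (curvT_nonneg 0 1 x))
    (h₂.p_nonneg _ (curvT_nonneg 2 3 x))) (sq_nonneg (curvOm 0 1 x u * curvOm 2 3 x v -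
      curvOm 0 1 x v * curvOm 2 3 x u))
  have hu : u ≠ 0 := huv.ne_zero 0
  have q1 := Gh_pos x hu
  have hw : Gh x u u • v - Gh x u v • u ≠ 0 := by
    intro h
    have := LinearIndependent.pair_iff.1 huv (-Gh x u v) (Gh x u u)
      (by rw [← h, neg_smul]; abel)
    exact q1.ne' this.2
  have q2 := Gh_pos x hw
  rw [curv_Gh_comb] at q2
  have p4 : 0 < Gh x u u * Gh x v v - Gh x u v ^ 2 := by
    refine pos_of_mul_pos_left (a := Gh x u u * Gh x v v - Gh x u v ^ 2) (b := Gh x u u) ?_ q1.le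
    linarith
  simp only [curvKm, curvKh, e6, e7, e8] at e1 e2
  simp only [curvA, curvAl, curvP] at e1 e2 e3 e4 p1 p2
  linarith

end Pool.Agent.MP_39b1da_gt

end
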