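import Pool.Agent.Mg.F39b1da.G324722

section

/-!
The truncated angular form on a plane with cone angle `2 π k`.
-/

set_option autoImplicit false

namespace Pool.Agent.MP_39b1da_gt

open Filter Topology Set Real
open scoped ENNReal NNReal ContDiff InnerProductSpace

/-- The distance from `x` to `2 π ℤ`. -/
noncomputable def coneA (x : ℝ) : ℝ := arccos (cos x)

theorem coneA_nonneg (x : ℝ) : 0 ≤ coneA x := arccos_nonneg _

theorem coneA_le_pi (x : ℝ) : coneA x ≤ π := arccos_le_pi _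

theorem cos_coneA (x : ℝ) : cos (coneA x) = cos x := cos_arccos (neg_one_le_cos x) (cos_le_one x)

theorem coneA_le (x : ℝ) : coneA x ≤ |x| := by
  rcases le_total |x| π with h | h
  · rw [coneA, ← cos_abs x, arccos_cos (abs_nonneg x) h]
  · exact (coneA_le_pi x).trans h

theorem coneA_neg (x : ℝ) : coneA (-x) = coneA x := by simp [coneA]

theorem coneA_per (x : ℝ) (n : ℤ) : coneA (x - n * (2 * π)) = coneA x := by
  simp only [coneA, cos_sub_int_mul_two_pi]

theorem coneA_ex (x : ℝ) : ∃ n : ℤ, coneA x = |x - n * (2 * π)| := by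
  obtain ⟨n, h | h⟩ := cos_eq_cos_iff.1 (cos_coneA x)
  · refine ⟨n, ?_⟩
    have : x - n * (2 * π) = coneA x := by linarith
    rw [this, abs_of_nonneg (coneA_nonneg x)]
  · refine ⟨n, ?_⟩
    have : x - n * (2 * π) = -coneA x := by linarith
    rw [this, abs_neg, abs_of_nonneg (coneA_nonneg x)]

theorem coneA_add (x y : ℝ) : coneA (x + y) ≤ coneA x + coneA y := by
  obtain ⟨n, hn⟩ := coneA_ex x
  obtain ⟨l, hl⟩ := coneA_ex y
  rw [← coneA_per (x + y) (n + l), hn, hl]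
  refine (coneA_le _).trans (le_of_eq_of_le ?_ (abs_add_le _ _))
  push_cast; congr 1; ring

theorem cos_mul_coneA (k : ℕ) (x : ℝ) : cos (k * coneA x) = cos (k * x) := by
  obtain ⟨n, hn⟩ := coneA_ex x
  have h1 : (k : ℝ) * |x - n * (2 * π)| = |k * x - ((k * n : ℤ) : ℝ) * (2 * π)| := by
    have : (k : ℝ) * x - ((k * n : ℤ) : ℝ) * (2 * π) = k * (x - n * (2 * π)) := by
      push_cast; ring
    rw [this, abs_mul, abs_of_nonneg (Nat.cast_nonneg (α := ℝ) k)]
  rw [hn, h1, cos_abs, cos_sub_int_mul_two_pi]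

/-- The truncated cone angle. -/
noncomputable def coneT (k : ℕ) (x : ℝ) : ℝ := min π (k * coneA x)

theorem coneT_nonneg (k : ℕ) (x : ℝ) : 0 ≤ coneT k x :=
  le_min pi_pos.le (mul_nonneg (Nat.cast_nonneg k) (coneA_nonneg x))

theorem coneT_le_pi (k : ℕ) (x : ℝ) : coneT k x ≤ π := min_le_left _ _

theorem coneT_le (k : ℕ) (x : ℝ) : coneT k x ≤ k * |x| :=
  (min_le_right _ _).trans (mul_le_mul_of_nonneg_left (coneA_le x) (Nat.cast_nonneg k))

theorem coneT_neg (k : ℕ) (x : ℝ) : coneT k (-x) = coneT k x := by simp only [coneT, coneA_neg]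

theorem coneT_per (k : ℕ) (x : ℝ) (n : ℤ) : coneT k (x - n * (2 * π)) = coneT k x := by
  simp only [coneT, coneA_per]

theorem coneT_add (k : ℕ) (x y : ℝ) : coneT k (x + y) ≤ coneT k x + coneT k y := by
  have h1 := coneT_nonneg k x
  have h2 := coneT_nonneg k y
  have h3 := coneT_le_pi k (x + y)
  have h4 : coneT k (x + y) ≤ k * coneA x + k * coneA y := by
    refine (min_le_right _ _).trans ?_
    rw [← mul_add]
    exact mul_le_mul_of_nonneg_left (coneA_add x y) (Nat.cast_nonneg k)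
  rcases min_choice π (k * coneA x) with h | h
  · have : coneT k x = π := h
    linarith
  · rcases min_choice π (k * coneA y) with h' | h'
    · have : coneT k y = π := h'
      linarith
    · have e1 : coneT k x = k * coneA x := h
      have e2 : coneT k y = k * coneA y := h'
      linarith

theorem coneT_tri (k : ℕ) (x y z : ℝ) : coneT k (x - z) ≤ coneT k (x - y) + coneT k (y - z) := by
  have := coneT_add k (x - y) (y - z)
  rwa [sub_add_sub_cancel] at this

theorem coneT_comm (k : ℕ) (x y : ℝ) : coneT k (x - y) = coneT k (y - x) := by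
  rw [← coneT_neg, neg_sub]

theorem cos_coneT_of_le {k : ℕ} {x : ℝ} (h : k * coneA x ≤ π) : cos (coneT k x) = cos (k * x) := by
  rw [coneT, min_eq_right h, cos_mul_coneA]

theorem cos_coneT_le (k : ℕ) (x : ℝ) : cos (coneT k x) ≤ cos (k * x) := by
  rcases le_total (k * coneA x) π with h | h
  · exact (cos_coneT_of_le h).le
  · rw [coneT, min_eq_left h, cos_pi]; exact neg_one_le_cos _

theorem cos_coneT_le' {k : ℕ} (hk : 1 ≤ k) (x : ℝ) : cos (coneT k x) ≤ cos x := by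
  rw [← cos_coneA x]
  refine cos_le_cos_of_nonneg_of_le_pi (coneA_nonneg x) (coneT_le_pi k x) (le_min (coneA_le_pi x) ?_)
  have : (1 : ℝ) ≤ k := by exact_mod_cast hk
  nlinarith [coneA_nonneg x]

theorem cone_cos_le_neg {a b : ℝ} (ha : a ≤ π) (hb : b ≤ π) (h : π ≤ a + b) : cos b ≤ -cos a := by
  rw [← cos_pi_sub]
  exact cos_le_cos_of_nonneg_of_le_pi (by linarith) hb (by linarith)

theorem cone_polar {A B γ : ℝ} (hA : 0 ≤ A) (hB : 0 ≤ B) (h0 : 0 ≤ γ) (h1 : γ ≤ π) :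
    ∃ ρ φ : ℝ, 0 ≤ ρ ∧ 0 ≤ φ ∧ φ ≤ γ ∧ A + B * cos γ = ρ * cos φ ∧ B * sin γ = ρ * sin φ := by
  set u : ℂ := ⟨A + B * cos γ, B * sin γ⟩ with hu
  have hs := sin_nonneg_of_nonneg_of_le_pi h0 h1
  have e1 : A + B * cos γ = ‖u‖ * cos u.arg := (Complex.norm_mul_cos_arg u).symm
  have e2 : B * sin γ = ‖u‖ * sin u.arg := (Complex.norm_mul_sin_arg u).symm
  have p0 : 0 ≤ u.arg := Complex.arg_nonneg_iff.2 (mul_nonneg hB hs)
  have p1 : u.arg ≤ π := Complex.arg_le_pi u
  have hn := norm_nonneg u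
  by_cases h : u.arg ≤ γ
  · exact ⟨‖u‖, u.arg, hn, p0, h, e1, e2⟩
  · push Not at h
    have hz : ‖u‖ = 0 := by
      have e3 : ‖u‖ * sin (u.arg - γ) = -(A * sin γ) := by
        rw [sin_sub]
        linear_combination sin γ * e1 - cos γ * e2
      rcases lt_or_eq_of_le (show u.arg - γ ≤ π by linarith) with h2 | h2
      · have := sin_pos_of_pos_of_lt_pi (show 0 < u.arg - γ by linarith) h2
        by_contra hc
        have := mul_pos (lt_of_le_of_ne hn (Ne.symm hc)) this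
        nlinarith [mul_nonneg hA hs]
      · have g0 : γ = 0 := by linarith
        have g1 : u.arg = π := by linarith
        rw [g0, g1, cos_zero, cos_pi] at e1
        linarith
    rw [hz] at e1 e2
    exact ⟨0, 0, le_rfl, le_rfl, h0, by linarith, by linarith⟩

/-- Convex combinations in the cone, in polar form. -/
theorem cone_comb {k : ℕ} (hk : 1 ≤ k) {A B : ℝ} (hA : 0 ≤ A) (hB : 0 ≤ B) (η ζ : ℝ) :
    ∃ ρ ξ : ℝ, 0 ≤ ρ ∧ ρ ^ 2 = A ^ 2 + B ^ 2 + 2 * A * B * cos (coneT k (η - ζ)) ∧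
      ∀ θ, A * cos (coneT k (θ - η)) + B * cos (coneT k (θ - ζ)) ≤ ρ * cos (coneT k (θ - ξ)) := by
  have hk' : (0 : ℝ) < k := by exact_mod_cast hk
  rcases le_total (k * coneA (η - ζ)) π with h | h
  · set γ := coneT k (η - ζ) with hγ
    have hγ' : γ = k * coneA (η - ζ) := min_eq_right h
    obtain ⟨ρ, φ, hρ, φ0, φ1, e1, e2⟩ := cone_polar hA hB (coneT_nonneg k (η - ζ))
      (coneT_le_pi k (η - ζ))
    rw [← hγ] at φ1 e1 e2
    have γ1 : γ ≤ π := coneT_le_pi k _
    obtain ⟨n, hn⟩ := coneA_ex (ζ - η)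
    obtain ⟨σ, hσ, hδ⟩ : ∃ σ : ℝ, (σ = 1 ∨ σ = -1) ∧ k * (ζ - η - n * (2 * π)) = σ * γ := by
      have e : coneA (η - ζ) = |ζ - η - n * (2 * π)| := by rw [← hn, ← coneA_neg, neg_sub]
      rw [hγ', e]
      rcases abs_choice (ζ - η - n * (2 * π)) with h2 | h2
      · exact ⟨1, Or.inl rfl, by rw [h2]; ring⟩
      · exact ⟨-1, Or.inr rfl, by rw [h2]; ring⟩
    have habs : ∀ t : ℝ, |σ * t| = |t| := by
      intro t; rcases hσ with rfl | rfl <;> simp
    have hcos : ∀ w t : ℝ, cos (w - σ * t) = cos w * cos t + σ * (sin w * sin t) := by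
      intro w t; rcases hσ with rfl | rfl
      · rw [one_mul, cos_sub]; ring
      · rw [neg_one_mul, sub_neg_eq_add, cos_add]; ring
    refine ⟨ρ, η + σ * φ / k, hρ, ?_, fun θ => ?_⟩
    · have s1 := sin_sq_add_cos_sq γ
      have s2 := sin_sq_add_cos_sq φ
      have : ρ ^ 2 = (ρ * cos φ) ^ 2 + (ρ * sin φ) ^ 2 := by linear_combination -ρ ^ 2 * s2
      rw [this, ← e1, ← e2]
      linear_combination B ^ 2 * s1
    · rcases le_total (k * coneA (θ - (η + σ * φ / k))) π with h2 | h2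
      · have c1 := cos_coneT_le k (θ - η)
        have c2 := cos_coneT_le k (θ - ζ)
        have e3 : k * (θ - (η + σ * φ / k)) = k * (θ - η) - σ * φ := by field_simp; ring
        have e4 : k * (θ - ζ) = k * (θ - η) - σ * γ - ((k * n : ℤ) : ℝ) * (2 * π) := by
          push_cast; linear_combination -hδ
        rw [e4, cos_sub_int_mul_two_pi, hcos] at c2
        rw [cos_coneT_of_le h2, e3, hcos]
        have c3 := mul_le_mul_of_nonneg_left c1 hA
        have c4 := mul_le_mul_of_nonneg_left c2 hB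
        have e5 : A * cos (k * (θ - η)) + B * (cos (k * (θ - η)) * cos γ +
            σ * (sin (k * (θ - η)) * sin γ)) =
            ρ * (cos (k * (θ - η)) * cos φ + σ * (sin (k * (θ - η)) * sin φ)) := by
          linear_combination cos (k * (θ - η)) * e1 + σ * sin (k * (θ - η)) * e2
        linarith
      · have t0 : coneT k (θ - (η + σ * φ / k)) = π := min_eq_left h2
        have t1 := coneT_tri k θ η (η + σ * φ / k)
        have t2 := coneT_tri k θ ζ (η + σ * φ / k)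
        have t3 : coneT k (η - (η + σ * φ / k)) ≤ φ := by
          refine (coneT_le k _).trans (le_of_eq ?_)
          have : η - (η + σ * φ / k) = -(σ * (φ / k)) := by ring
          rw [this, abs_neg, habs, abs_of_nonneg (by positivity)]
          field_simp
        have t4 : coneT k (ζ - (η + σ * φ / k)) ≤ γ - φ := by
          rw [← coneT_per k _ n]
          refine (coneT_le k _).trans (le_of_eq ?_)
          have : ζ - (η + σ * φ / k) - n * (2 * π) = σ * ((γ - φ) / k) := by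
            field_simp; linear_combination hδ
          rw [this, habs, abs_of_nonneg (div_nonneg (by linarith) hk'.le)]
          field_simp
        have c1 : cos (coneT k (θ - η)) ≤ -cos φ :=
          cone_cos_le_neg (by linarith) (coneT_le_pi _ _) (by linarith)
        have c2 : cos (coneT k (θ - ζ)) ≤ -cos (γ - φ) :=
          cone_cos_le_neg (by linarith) (coneT_le_pi _ _) (by linarith)
        have c3 := mul_le_mul_of_nonneg_left c1 hA
        have c4 := mul_le_mul_of_nonneg_left c2 hB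
        have s2 := sin_sq_add_cos_sq φ
        have e5 : A * cos φ + B * cos (γ - φ) = ρ := by
          rw [cos_sub]
          linear_combination cos φ * e1 + sin φ * e2 + ρ * s2
        rw [t0, cos_pi]
        linarith
  · have t0 : coneT k (η - ζ) = π := min_eq_left h
    have key : ∀ θ, cos (coneT k (θ - η)) + cos (coneT k (θ - ζ)) ≤ 0 := by
      intro θ
      have t1 := coneT_tri k η θ ζ
      rw [coneT_comm k η θ, t0] at t1
      have := cone_cos_le_neg (coneT_le_pi k (θ - η)) (coneT_le_pi k (θ - ζ)) t1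
      linarith
    rw [t0, cos_pi]
    rcases le_total B A with h2 | h2
    · exact ⟨A - B, η, by linarith, by ring, fun θ => by nlinarith [mul_nonneg hB (neg_nonneg.2 (key θ))]⟩
    · exact ⟨B - A, ζ, by linarith, by ring, fun θ => by nlinarith [mul_nonneg hA (neg_nonneg.2 (key θ))]⟩

/-- Polar coordinates. -/
noncomputable def coneP (r s : ℝ) : ℂ := (r : ℂ) * Complex.exp (s * Complex.I)

theorem coneP_self (z : ℂ) : coneP ‖z‖ z.arg = z := Complex.norm_mul_exp_arg_mul_I z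

theorem norm_coneP {r : ℝ} (hr : 0 ≤ r) (s : ℝ) : ‖coneP r s‖ = r := by
  simp [coneP, Complex.norm_exp_ofReal_mul_I, abs_of_nonneg hr]

theorem inner_coneP (r r' s t : ℝ) : ⟪coneP r s, coneP r' t⟫_ℝ = r * r' * cos (s - t) := by
  rw [Complex.inner, cos_sub]
  simp [coneP, Complex.exp_ofReal_mul_I_re, Complex.exp_ofReal_mul_I_im]
  ring

theorem beta_coneP {k : ℕ} (hk : 1 ≤ k) {r : ℝ} (hr : 0 ≤ r) (s : ℝ) :
    beta k (coneP r s) = coneP r (k * s) := by
  rw [beta, norm_coneP hr]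
  obtain ⟨j, rfl⟩ := Nat.exists_eq_add_of_le' hk
  rcases eq_or_lt_of_le hr with h | h
  · subst h; simp [coneP]
  · have : (r : ℂ) ≠ 0 := by exact_mod_cast h.ne'
    simp only [coneP, Nat.add_sub_cancel, mul_pow, ← Complex.exp_nat_mul]
    push_cast
    field_simp
    ring

/-- The angular form of the cone. -/
noncomputable def coneB (k : ℕ) (z w : ℂ) : ℝ :=
  ‖z‖ * ‖w‖ * cos (min π (k * InnerProductGeometry.angle z w))

theorem coneB_coneP (k : ℕ) {r r' : ℝ} (hr : 0 ≤ r) (hr' : 0 ≤ r') (s t : ℝ) :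
    coneB k (coneP r s) (coneP r' t) = r * r' * cos (coneT k (s - t)) := by
  rw [coneB, InnerProductGeometry.angle, norm_coneP hr, norm_coneP hr', inner_coneP]
  rcases eq_or_lt_of_le (mul_nonneg hr hr') with h | h
  · rw [← h]; simp
  · rw [mul_div_cancel_left₀ _ h.ne']; rfl

theorem coneB_eq (k : ℕ) (z w : ℂ) :
    coneB k z w = ‖z‖ * ‖w‖ * cos (coneT k (z.arg - w.arg)) := by
  conv_lhs => rw [← coneP_self z, ← coneP_self w]
  exact coneB_coneP k (norm_nonneg _) (norm_nonneg _) _ _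

theorem coneB_comm (k : ℕ) (z w : ℂ) : coneB k z w = coneB k w z := by
  rw [coneB, coneB, InnerProductGeometry.angle_comm, mul_comm ‖z‖]

theorem coneB_self (k : ℕ) (z : ℂ) : coneB k z z = ‖z‖ ^ 2 := by
  rw [coneB_eq]; simp [coneT, coneA, pi_pos.le, sq]

theorem coneB_zero (k : ℕ) (z : ℂ) : coneB k 0 z = 0 := by simp [coneB]

theorem coneB_le_inner {k : ℕ} (hk : 1 ≤ k) (z w : ℂ) : coneB k z w ≤ ⟪z, w⟫_ℝ := by
  conv_rhs => rw [← coneP_self z, ← coneP_self w, inner_coneP]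
  rw [coneB_eq]
  exact mul_le_mul_of_nonneg_left (cos_coneT_le' hk _) (by positivity)

theorem inner_beta {k : ℕ} (hk : 1 ≤ k) (z w : ℂ) :
    ⟪beta k z, beta k w⟫_ℝ = ‖z‖ * ‖w‖ * cos (k * (z.arg - w.arg)) := by
  conv_lhs => rw [← coneP_self z, ← coneP_self w]
  rw [beta_coneP hk (norm_nonneg _), beta_coneP hk (norm_nonneg _), inner_coneP, mul_sub]

theorem coneB_le_beta {k : ℕ} (hk : 1 ≤ k) (z w : ℂ) :
    coneB k z w ≤ ⟪beta k z, beta k w⟫_ℝ := by
  rw [coneB_eq, inner_beta hk]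
  exact mul_le_mul_of_nonneg_left (cos_coneT_le k _) (by positivity)

theorem coneB_eq_beta {k : ℕ} (hk : 1 ≤ k) {z w : ℂ}
    (h : k * InnerProductGeometry.angle z w ≤ π) : coneB k z w = ⟪beta k z, beta k w⟫_ℝ := by
  rw [inner_beta hk, coneB, min_eq_right h]
  rcases eq_or_lt_of_le (mul_nonneg (norm_nonneg z) (norm_nonneg w)) with h0 | h0
  · rw [← h0]; simp
  · rw [← cos_mul_coneA k (z.arg - w.arg), InnerProductGeometry.angle]
    conv_lhs => rw [← coneP_self z, ← coneP_self w, inner_coneP, coneP_self, coneP_self]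
    rw [mul_div_cancel_left₀ _ h0.ne']; rfl

theorem coneB_eventually {k : ℕ} (hk : 1 ≤ k) (z : ℂ) :
    ∀ᶠ w in 𝓝 z, coneB k z w = ⟪beta k z, beta k w⟫_ℝ := by
  by_cases hz : z = 0
  · subst hz
    refine Eventually.of_forall fun w => ?_
    rw [coneB_zero, inner_beta hk]; simp
  · have h1 : ContinuousAt (fun w : ℂ => (k : ℝ) * InnerProductGeometry.angle z w) z :=
      continuousAt_const.mul ((InnerProductGeometry.continuousAt_angle (x := (z, z)) hz hz).comp
        (f := fun w : ℂ => (z, w)) (by fun_prop))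
    have h2 := h1.eventually (gt_mem_nhds (show (k : ℝ) * InnerProductGeometry.angle z z < π by
      rw [InnerProductGeometry.angle_self hz, mul_zero]; exact pi_pos))
    exact h2.mono fun w hw => coneB_eq_beta hk hw.le

theorem coneB_unfold (k : ℕ) (p y z : ℂ) : ∃ p' y' z' : ℂ, ‖p'‖ = ‖p‖ ∧ ‖y'‖ = ‖y‖ ∧ ‖z'‖ = ‖z‖ ∧
    coneB k p y ≤ ⟪p', y'⟫_ℝ ∧ coneB k y z ≤ ⟪y', z'⟫_ℝ ∧ coneB k p z = ⟪p', z'⟫_ℝ := by
  have t := coneT_tri k p.arg y.arg z.arg
  set a := coneT k (p.arg - y.arg) with ha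
  set b := coneT k (y.arg - z.arg) with hb
  set c := coneT k (p.arg - z.arg) with hc
  have a0 : 0 ≤ a := coneT_nonneg _ _
  have b0 : 0 ≤ b := coneT_nonneg _ _
  have c0 : 0 ≤ c := coneT_nonneg _ _
  refine ⟨coneP ‖p‖ (min a c), coneP ‖y‖ 0, coneP ‖z‖ (min a c - c), norm_coneP (norm_nonneg _) _,
    norm_coneP (norm_nonneg _) _, norm_coneP (norm_nonneg _) _, ?_, ?_, ?_⟩
  · rw [coneB_eq, inner_coneP, sub_zero]
    exact mul_le_mul_of_nonneg_left (cos_le_cos_of_nonneg_of_le_pi (le_min a0 c0)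
      (coneT_le_pi _ _) (min_le_left _ _)) (by positivity)
  · rw [coneB_eq, inner_coneP]
    refine mul_le_mul_of_nonneg_left (cos_le_cos_of_nonneg_of_le_pi ?_ (coneT_le_pi _ _) ?_)
      (by positivity)
    · linarith [min_le_right a c]
    · rcases min_choice a c with h | h <;> rw [h] <;> linarith
  · rw [coneB_eq, inner_coneP, sub_sub_cancel]

theorem coneB_comb {k : ℕ} (hk : 1 ≤ k) {α β : ℝ} (hα : 0 ≤ α) (hβ : 0 ≤ β) (y z : ℂ) :
    ∃ x : ℂ, ‖x‖ ^ 2 = α ^ 2 * ‖y‖ ^ 2 + β ^ 2 * ‖z‖ ^ 2 + 2 * α * β * coneB k y z ∧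
      ∀ p, α * coneB k p y + β * coneB k p z ≤ coneB k p x := by
  obtain ⟨ρ, ξ, hρ, e, h⟩ := cone_comb hk (mul_nonneg hα (norm_nonneg y))
    (mul_nonneg hβ (norm_nonneg z)) y.arg z.arg
  refine ⟨coneP ρ ξ, ?_, fun p => ?_⟩
  · rw [norm_coneP hρ, e, coneB_eq]; ring
  · conv_rhs => rw [← coneP_self p, coneB_coneP k (norm_nonneg _) hρ]
    rw [coneB_eq, coneB_eq]
    have := mul_le_mul_of_nonneg_left (h p.arg) (norm_nonneg p)
    linarith

end Pool.Agent.MP_39b1da_gt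

end

section

set_option autoImplicit false

namespace Pool.Agent.MP_39b1da_gt

open Filter Topology Set Real
open scoped ENNReal NNReal ContDiff InnerProductSpace

theorem norm_beta {k : ℕ} (hk : 1 ≤ k) (z : ℂ) : ‖beta k z‖ = ‖z‖ := by
  conv_lhs => rw [← coneP_self z, beta_coneP hk (norm_nonneg _), norm_coneP (norm_nonneg _)]

theorem continuous_beta {k : ℕ} (hk : 1 ≤ k) : Continuous (beta k) := by
  refine continuous_iff_continuousAt.2 fun z => ?_
  by_cases hz : z = 0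
  · subst hz
    have h0 : beta k 0 = 0 := norm_eq_zero.1 (by rw [norm_beta hk, norm_zero])
    rw [ContinuousAt, h0, tendsto_zero_iff_norm_tendsto_zero]
    simp only [norm_beta hk]
    exact tendsto_norm_zero
  · unfold beta
    refine ContinuousAt.div (by fun_prop) (by fun_prop) (pow_ne_zero _ ?_)
    exact_mod_cast norm_ne_zero_iff.2 hz

section
variable {m : ℕ}

theorem cone_continuous_Z1 : Continuous (Z1 : Euc m → ℂ) := by
  have : (Z1 : Euc m → ℂ) = fun x => ((x 0 : ℝ) : ℂ) + ((x 1 : ℝ) : ℂ) * Complex.I := by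
    funext x; apply Complex.ext <;> simp [Z1]
  rw [this]; fun_prop

theorem cone_continuous_Z2 : Continuous (Z2 : Euc m → ℂ) := by
  have : (Z2 : Euc m → ℂ) = fun x => ((x 2 : ℝ) : ℂ) + ((x 3 : ℝ) : ℂ) * Complex.I := by
    funext x; apply Complex.ext <;> simp [Z2]
  rw [this]; fun_prop

theorem cone_single (i : Fin (m + 4)) (t : ℝ) :
    (EuclideanSpace.single i t : Euc m) = t • EuclideanSpace.single i (1 : ℝ) := by
  ext j; by_cases h : j = i <;> simp [h]

theorem cone_continuous_I1 : Continuous (I1 m) := by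
  have : I1 m = fun w : ℂ => w.re • (EuclideanSpace.single 0 (1 : ℝ) : Euc m) +
      w.im • EuclideanSpace.single 1 (1 : ℝ) := by
    funext w; rw [I1, cone_single 0, cone_single 1]
  rw [this]; fun_prop

theorem cone_continuous_I2 : Continuous (I2 m) := by
  have : I2 m = fun w : ℂ => w.re • (EuclideanSpace.single 2 (1 : ℝ) : Euc m) +
      w.im • EuclideanSpace.single 3 (1 : ℝ) := by
    funext w; rw [I2, cone_single 2, cone_single 3]
  rw [this]; fun_prop

end

theorem continuous_pr {m k₁ k₂ : ℕ} (h₁ : 1 ≤ k₁) (h₂ : 1 ≤ k₂) :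
    Continuous (pr k₁ k₂ : Euc m → Euc m) := by
  unfold pr
  have a1 := cone_continuous_Z1 (m := m)
  have a2 := cone_continuous_Z2 (m := m)
  have a3 := cone_continuous_I1 (m := m)
  have a4 := cone_continuous_I2 (m := m)
  have a5 := continuous_beta h₁
  have a6 := continuous_beta h₂
  fun_prop

section
variable {m : ℕ}

theorem cone_fin_ne : ((0 : Fin (m + 4)) ≠ 1 ∧ (0 : Fin (m + 4)) ≠ 2 ∧ (0 : Fin (m + 4)) ≠ 3) ∧
    ((1 : Fin (m + 4)) ≠ 2 ∧ (1 : Fin (m + 4)) ≠ 3) ∧ (2 : Fin (m + 4)) ≠ 3 := by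
  have h2 : ((2 : Fin (m + 4)) : ℕ) = 2 := Nat.mod_eq_of_lt (show 2 < m + 4 by omega)
  have h3 : ((3 : Fin (m + 4)) : ℕ) = 3 := Nat.mod_eq_of_lt (show 3 < m + 4 by omega)
  simp only [ne_eq, Fin.ext_iff, h2, h3, Fin.val_zero, Fin.val_one]
  omega

/-- Replace the two complex coordinates. -/
noncomputable def coneSet (x : Euc m) (a b : ℂ) : Euc m :=
  x + I1 m (a - Z1 x) + I2 m (b - Z2 x)

/-- The inner product of the remaining coordinates. -/
noncomputable def coneR (x y : Euc m) : ℝ := ⟪x, y⟫_ℝ - ⟪Z1 x, Z1 y⟫_ℝ - ⟪Z2 x, Z2 y⟫_ℝ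

theorem cone_inner (z w : ℂ) : ⟪z, w⟫_ℝ = z.re * w.re + z.im * w.im := by
  rw [Complex.inner]; simp; ring

theorem Z1_coneSet (x : Euc m) (a b : ℂ) : Z1 (coneSet x a b) = a := by
  obtain ⟨⟨h1, h2, h3⟩, ⟨h4, h5⟩, h6⟩ := cone_fin_ne (m := m)
  apply Complex.ext <;> simp [Z1, coneSet, I1, I2, h2, h3, h4, h5]

theorem Z2_coneSet (x : Euc m) (a b : ℂ) : Z2 (coneSet x a b) = b := by
  obtain ⟨⟨h1, h2, h3⟩, ⟨h4, h5⟩, h6⟩ := cone_fin_ne (m := m)
  apply Complex.ext <;>
    simp [Z2, coneSet, I1, I2, h2.symm, h3.symm, h4.symm, h5.symm, h6, h6.symm]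

theorem coneR_coneSet (x y : Euc m) (a b : ℂ) : coneR (coneSet x a b) y = coneR x y := by
  rw [coneR, coneR, Z1_coneSet, Z2_coneSet]
  simp only [coneSet, I1, I2, inner_add_left, EuclideanSpace.inner_single_left, cone_inner]
  simp [Z1, Z2]
  ring

theorem coneR_comm (x y : Euc m) : coneR x y = coneR y x := by
  rw [coneR, coneR, real_inner_comm x, real_inner_comm (Z1 x), real_inner_comm (Z2 x)]

theorem coneR_comb (x y p : Euc m) (α β : ℝ) :
    coneR (α • x + β • y) p = α * coneR x p + β * coneR y p := by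
  simp only [coneR, inner_add_left, inner_smul_left, cone_inner]
  simp [Z1, Z2]
  ring

theorem inner_coneSet (x y : Euc m) (a b a' b' : ℂ) :
    ⟪coneSet x a b, coneSet y a' b'⟫_ℝ = coneR x y + ⟪a, a'⟫_ℝ + ⟪b, b'⟫_ℝ := by
  have h : coneR (coneSet x a b) (coneSet y a' b') = coneR x y := by
    rw [coneR_coneSet, coneR_comm, coneR_coneSet, coneR_comm]
  rw [coneR, Z1_coneSet, Z1_coneSet, Z2_coneSet, Z2_coneSet] at h
  linarith

theorem cone_norm_sq (x : Euc m) : ‖x‖ ^ 2 = coneR x x + ‖Z1 x‖ ^ 2 + ‖Z2 x‖ ^ 2 := by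
  simp only [coneR, real_inner_self_eq_norm_sq]; ring

theorem norm_coneSet_sq (x : Euc m) (a b : ℂ) :
    ‖coneSet x a b‖ ^ 2 = coneR x x + ‖a‖ ^ 2 + ‖b‖ ^ 2 := by
  rw [← real_inner_self_eq_norm_sq, inner_coneSet]; simp only [real_inner_self_eq_norm_sq]

/-- The time coordinate. -/
noncomputable def coneH (x : Euc m) : ℝ := √(1 + ‖x‖ ^ 2)

theorem coneH_pos (x : Euc m) : 0 < coneH x := Real.sqrt_pos.2 (by positivity)

theorem coneH_sq (x : Euc m) : coneH x ^ 2 = 1 + ‖x‖ ^ 2 := Real.sq_sqrt (by positivity)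

theorem lor_coneSet {x y : Euc m} {a b a' b' : ℂ} (ha : ‖a‖ = ‖Z1 x‖) (hb : ‖b‖ = ‖Z2 x‖)
    (ha' : ‖a'‖ = ‖Z1 y‖) (hb' : ‖b'‖ = ‖Z2 y‖) :
    -lor (lift (Hyp.mk (coneSet x a b))) (lift (Hyp.mk (coneSet y a' b'))) =
      coneH x * coneH y - coneR x y - ⟪a, a'⟫_ℝ - ⟪b, b'⟫_ℝ := by
  simp only [lor, lift, Hyp.val_mk, inner_coneSet, norm_coneSet_sq, ha, hb, ha', hb',
    ← cone_norm_sq, coneH]
  ring

/-- The hyperbolic cosine of the singular distance. -/
noncomputable def coneC (k₁ k₂ : ℕ) (x y : Euc m) : ℝ :=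
  coneH x * coneH y - coneR x y - coneB k₁ (Z1 x) (Z1 y) - coneB k₂ (Z2 x) (Z2 y)

variable {k₁ k₂ : ℕ}

theorem coneC_comm (x y : Euc m) : coneC k₁ k₂ x y = coneC k₁ k₂ y x := by
  rw [coneC, coneC, coneR_comm, coneB_comm k₁, coneB_comm k₂, mul_comm]

theorem coneC_self (x : Euc m) : coneC k₁ k₂ x x = 1 := by
  have h1 := coneH_sq x
  have h2 := cone_norm_sq x
  rw [coneC, coneB_self, coneB_self]; linarith

theorem coneC_zero (x : Euc m) : coneC k₁ k₂ 0 x = coneH x := by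
  have h1 : Z1 (0 : Euc m) = 0 := by apply Complex.ext <;> simp [Z1]
  have h2 : Z2 (0 : Euc m) = 0 := by apply Complex.ext <;> simp [Z2]
  simp [coneC, coneR, h1, h2, coneB_zero, coneH]

theorem lor_le_coneC (h₁ : 1 ≤ k₁) (h₂ : 1 ≤ k₂) (x y : Euc m) :
    -lor (lift (Hyp.mk x)) (lift (Hyp.mk y)) ≤ coneC k₁ k₂ x y := by
  have a1 := coneB_le_inner h₁ (Z1 x) (Z1 y)
  have a2 := coneB_le_inner h₂ (Z2 x) (Z2 y)
  simp only [lor, lift, Hyp.val_mk, coneC, coneR, coneH]
  linarith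

theorem one_le_coneC (h₁ : 1 ≤ k₁) (h₂ : 1 ≤ k₂) (x y : Euc m) : 1 ≤ coneC k₁ k₂ x y :=
  (one_le_lor _ _).trans (lor_le_coneC h₁ h₂ x y)

theorem lor_pr (h₁ : 1 ≤ k₁) (h₂ : 1 ≤ k₂) (x y : Euc m) :
    -lor (lift (Hyp.mk (pr k₁ k₂ x))) (lift (Hyp.mk (pr k₁ k₂ y))) =
      coneH x * coneH y - coneR x y - ⟪beta k₁ (Z1 x), beta k₁ (Z1 y)⟫_ℝ -
        ⟪beta k₂ (Z2 x), beta k₂ (Z2 y)⟫_ℝ :=
  lor_coneSet (norm_beta h₁ _) (norm_beta h₂ _) (norm_beta h₁ _) (norm_beta h₂ _)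

theorem coneC_tri (h₁ : 1 ≤ k₁) (h₂ : 1 ≤ k₂) (p y z : Euc m) : arcosh (coneC k₁ k₂ p z) ≤
    arcosh (coneC k₁ k₂ p y) + arcosh (coneC k₁ k₂ y z) := by
  obtain ⟨p1, y1, z1, a1, a2, a3, a4, a5, a6⟩ := coneB_unfold k₁ (Z1 p) (Z1 y) (Z1 z)
  obtain ⟨p2, y2, z2, b1, b2, b3, b4, b5, b6⟩ := coneB_unfold k₂ (Z2 p) (Z2 y) (Z2 z)
  have t := lor_tri (Hyp.mk (coneSet p p1 p2)) (Hyp.mk (coneSet y y1 y2))
    (Hyp.mk (coneSet z z1 z2))
  have c1 := one_le_lor (Hyp.mk (coneSet p p1 p2)) (Hyp.mk (coneSet y y1 y2))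
  have c2 := one_le_lor (Hyp.mk (coneSet y y1 y2)) (Hyp.mk (coneSet z z1 z2))
  rw [lor_coneSet a1 b1 a2 b2] at c1 t
  rw [lor_coneSet a2 b2 a3 b3] at c2 t
  rw [lor_coneSet a1 b1 a3 b3, ← a6, ← b6] at t
  refine t.trans (add_le_add ?_ ?_)
  · refine (arcosh_le_arcosh (by linarith) (by linarith [one_le_coneC h₁ h₂ p y])).2 ?_
    rw [coneC]; linarith
  · refine (arcosh_le_arcosh (by linarith) (by linarith [one_le_coneC h₁ h₂ y z])).2 ?_
    rw [coneC]; linarith

theorem coneC_norm_sub (h₁ : 1 ≤ k₁) (h₂ : 1 ≤ k₂) (x y : Euc m) :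
    ‖x - y‖ ^ 2 ≤ (coneH x - coneH y) ^ 2 + 2 * (coneC k₁ k₂ x y - 1) := by
  have h := norm_sub_sq_eq (Hyp.mk x) (Hyp.mk y)
  have h2 := lor_le_coneC h₁ h₂ x y
  have e1 : (lift (Hyp.mk x)).1 = coneH x := rfl
  have e2 : (lift (Hyp.mk y)).1 = coneH y := rfl
  rw [e1, e2, Hyp.val_mk, Hyp.val_mk] at h
  linarith

theorem coneC_comb (h₁ : 1 ≤ k₁) (h₂ : 1 ≤ k₂) (y z : Euc m) {α β : ℝ} (hα : 0 ≤ α) (hβ : 0 ≤ β)
    (h : α ^ 2 + β ^ 2 + 2 * α * β * coneC k₁ k₂ y z = 1) :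
    ∃ x : Euc m, ∀ p, coneC k₁ k₂ p x ≤ α * coneC k₁ k₂ p y + β * coneC k₁ k₂ p z := by
  obtain ⟨a, a1, a2⟩ := coneB_comb h₁ hα hβ (Z1 y) (Z1 z)
  obtain ⟨b, b1, b2⟩ := coneB_comb h₂ hα hβ (Z2 y) (Z2 z)
  refine ⟨coneSet (α • y + β • z) a b, fun p => ?_⟩
  have e1 : coneH (coneSet (α • y + β • z) a b) = α * coneH y + β * coneH z := by
    have p1 := coneH_pos y
    have p2 := coneH_pos z
    refine (pow_left_inj₀ (coneH_pos _).le (by positivity) two_ne_zero).1 ?_
    have s1 := coneH_sq y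
    have s2 := coneH_sq z
    rw [cone_norm_sq] at s1 s2
    rw [coneH_sq, norm_coneSet_sq, coneR_comb, coneR_comm y, coneR_comm z, coneR_comb, coneR_comb,
      a1, b1, coneR_comm z y]
    rw [coneC] at h
    linear_combination -h - α ^ 2 * s1 - β ^ 2 * s2
  have a3 := a2 (Z1 p)
  have b3 := b2 (Z2 p)
  rw [coneC, coneC, coneC, e1, Z1_coneSet, Z2_coneSet, coneR_comm, coneR_coneSet, coneR_comb,
    coneR_comm p, coneR_comm p]
  linarith

end

/-- The comparison inequality from convex combinations. -/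
theorem cone_globK {X : Type} [MetricSpace X]
    (h : ∀ (y z : X) (α β : ℝ), 0 ≤ α → 0 ≤ β →
      α ^ 2 + β ^ 2 + 2 * α * β * cosh (dist y z) = 1 →
      ∃ x, ∀ p, cosh (dist p x) ≤ α * cosh (dist p y) + β * cosh (dist p z)) : GlobK X := by
  have key : ∀ (y z : X) (s t : ℝ), 0 ≤ s → 0 ≤ t → s + t = dist y z → 0 < dist y z →
      ∃ x, ∀ p, sinh (dist y z) * cosh (dist p x) ≤
        sinh t * cosh (dist p y) + sinh s * cosh (dist p z) := by
    intro y z s t hs ht hst hD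
    have hS : 0 < sinh (dist y z) := sinh_pos_iff.2 hD
    obtain ⟨x, hx⟩ := h y z (sinh t / sinh (dist y z)) (sinh s / sinh (dist y z))
      (div_nonneg (sinh_nonneg_iff.2 ht) hS.le) (div_nonneg (sinh_nonneg_iff.2 hs) hS.le) (by
        field_simp
        rw [← hst, sinh_add, cosh_add]
        have c1 := cosh_sq s
        have c2 := cosh_sq t
        linear_combination (-sinh t ^ 2) * c1 - sinh s ^ 2 * c2)
    refine ⟨x, fun p => ?_⟩
    have := mul_le_mul_of_nonneg_left (hx p) hS.le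
    refine this.trans (le_of_eq ?_)
    field_simp
  have hle : ∀ a b c : ℝ, 0 ≤ b → 0 < c → c * cosh a ≤ c * cosh b → a ≤ b := by
    intro a b c hb hc hab
    have := cosh_le_cosh.1 (le_of_mul_le_mul_left hab hc)
    rw [abs_of_nonneg hb] at this
    exact (le_abs_self a).trans this
  refine ⟨fun y z s hs hsD => ?_, fun p y x z hx => ?_⟩
  · rcases eq_or_lt_of_le (dist_nonneg (x := y) (y := z)) with hD | hD
    · exact ⟨y, by rw [dist_self]; linarith, by rw [Btw, dist_self, zero_add]⟩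
    · obtain ⟨x, hx⟩ := key y z s (dist y z - s) hs (by linarith) (by ring) hD
      have hS : 0 < sinh (dist y z) := sinh_pos_iff.2 hD
      have a1 : dist y x ≤ s := by
        refine hle _ _ _ hs hS ((hx y).trans (le_of_eq ?_))
        rw [dist_self, cosh_zero, sinh_sub]; ring
      have a2 : dist z x ≤ dist y z - s := by
        refine hle _ _ _ (by linarith) hS ((hx z).trans (le_of_eq ?_))
        rw [dist_self, cosh_zero, dist_comm z y, sinh_sub, cosh_sub]
        have c1 := cosh_sq (dist y z)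
        linear_combination (-sinh s) * c1
      have a3 := dist_triangle y x z
      rw [dist_comm z x] at a2
      exact ⟨x, by linarith, by rw [Btw]; linarith⟩
  · rw [Btw] at hx
    rcases eq_or_lt_of_le (dist_nonneg (x := y) (y := z)) with hD | hD
    · have a1 : dist y x = 0 := by linarith [dist_nonneg (x := y) (y := x), dist_nonneg (x := x) (y := z)]
      have a2 : dist x z = 0 := by linarith
      rw [KIneq, ← hD, a1, a2]; simp
    · obtain ⟨x', hx'⟩ := key y z (dist y x) (dist x z) dist_nonneg dist_nonneg hx hD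
      have hS : 0 < sinh (dist y z) := sinh_pos_iff.2 hD
      have a1 : dist x x' ≤ 0 := by
        refine hle _ _ _ le_rfl hS ((hx' x).trans (le_of_eq ?_))
        rw [cosh_zero, dist_comm x y, ← hx, sinh_add]; ring
      have a2 : x = x' := dist_le_zero.1 a1
      rw [KIneq]
      have := hx' p
      rwa [← a2] at this

/-- The carrier of the singular model. -/
def ConeZ (m : ℕ) : Type := Euc m

/-- The singular metric. -/
@[reducible] noncomputable def coneMet (m k₁ k₂ : ℕ) (h₁ : 1 ≤ k₁) (h₂ : 1 ≤ k₂) :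
    MetricSpace (ConeZ m) where
  dist x y := arcosh (coneC (m := m) k₁ k₂ x y)
  dist_self x := by simp [coneC_self]
  dist_comm x y := by rw [coneC_comm]
  dist_triangle := coneC_tri h₁ h₂
  eq_of_dist_eq_zero := by
    intro x y h
    have a1 : coneC (m := m) k₁ k₂ x y = 1 := (arcosh_eq_zero_iff (one_le_coneC h₁ h₂ x y)).1 h
    have a2 := lor_le_coneC (m := m) h₁ h₂ x y
    have a3 := one_le_lor (E := Euc m) (Hyp.mk x) (Hyp.mk y)
    have a4 : cosh (dist (Hyp.mk (E := Euc m) x) (Hyp.mk y)) = 1 := by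
      rw [cosh_dist]; linarith
    have a5 : dist (Hyp.mk (E := Euc m) x) (Hyp.mk y) = 0 := by
      by_contra hc
      have := one_lt_cosh.2 hc
      linarith
    exact (dist_eq_zero.1 a5 : Hyp.mk (E := Euc m) x = Hyp.mk y)

theorem cone_eventually {m k₁ k₂ : ℕ} (h₁ : 1 ≤ k₁) (h₂ : 1 ≤ k₂) (x : Euc m) : ∀ᶠ y in 𝓝 x,
    -lor (lift (Hyp.mk (pr k₁ k₂ x))) (lift (Hyp.mk (pr k₁ k₂ y))) = coneC k₁ k₂ x y := by
  filter_upwards [(cone_continuous_Z1.tendsto x).eventually (coneB_eventually h₁ (Z1 x)),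
    (cone_continuous_Z2.tendsto x).eventually (coneB_eventually h₂ (Z2 x))] with y a1 a2
  rw [lor_pr h₁ h₂, coneC, a1, a2]

/-- The singular model metric. -/
theorem cone_model (m k₁ k₂ : ℕ) (h₁ : 1 ≤ k₁) (h₂ : 1 ≤ k₂) :
    ∃ (Z : Type) (_ : MetricSpace Z) (h : Z ≃ₜ Euc m), GlobK Z ∧
      (∀ z z', dist (Hyp.mk (pr k₁ k₂ (h z))) (Hyp.mk (pr k₁ k₂ (h z'))) ≤ dist z z') ∧
      ∀ z, ∀ᶠ z' in 𝓝 z,
        dist (Hyp.mk (pr k₁ k₂ (h z))) (Hyp.mk (pr k₁ k₂ (h z'))) = dist z z' := by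
  let inst := coneMet m k₁ k₂ h₁ h₂
  let e : ConeZ m ≃ Euc m := Equiv.refl _
  have hd' : ∀ x y : ConeZ m, dist x y = arcosh (coneC k₁ k₂ (e x) (e y)) := fun _ _ => rfl
  have hd : ∀ x y : ConeZ m, cosh (dist x y) = coneC k₁ k₂ (e x) (e y) := fun x y =>
    cosh_arcosh (one_le_coneC h₁ h₂ _ _)
  have hp : ∀ x y : Hyp (Euc m), dist x y = arcosh (-lor (lift x) (lift y)) := fun _ _ => rfl
  have c1 : Continuous e.symm := by
    refine continuous_iff_continuousAt.2 fun x => tendsto_iff_dist_tendsto_zero.2 ?_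
    have a1 : Continuous fun y : Euc m => dist (Hyp.mk (pr k₁ k₂ x)) (Hyp.mk (pr k₁ k₂ y)) :=
      continuous_const.dist (continuous_mk.comp (continuous_pr h₁ h₂))
    have a2 := a1.tendsto x
    rw [dist_self] at a2
    refine a2.congr' ?_
    filter_upwards [cone_eventually h₁ h₂ x] with y hy
    rw [hp, hy, hd', coneC_comm, e.apply_symm_apply, e.apply_symm_apply]
  have c2 : Continuous e := by
    refine continuous_iff_continuousAt.2 fun x => tendsto_iff_norm_sub_tendsto_zero.2 ?_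
    have h4 : ∀ z : ConeZ m, coneH (e z) = cosh (dist (e.symm 0) z) := by
      intro z; rw [hd, e.apply_symm_apply, coneC_zero]
    have h5 : ∀ y : ConeZ m, ‖e y - e x‖ ≤ √((cosh (dist (e.symm 0) y) -
        cosh (dist (e.symm 0) x)) ^ 2 + 2 * (cosh (dist y x) - 1)) := by
      intro y
      rw [← h4, ← h4, hd]
      exact Real.le_sqrt_of_sq_le (coneC_norm_sub h₁ h₂ _ _)
    have h6 : Continuous fun y : ConeZ m => √((cosh (dist (e.symm 0) y) -
        cosh (dist (e.symm 0) x)) ^ 2 + 2 * (cosh (dist y x) - 1)) := by fun_prop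
    refine squeeze_zero (fun _ => norm_nonneg _) h5 ?_
    simpa using h6.tendsto x
  refine ⟨ConeZ m, inst, ⟨e, c2, c1⟩, cone_globK fun y z α β hα hβ h => ?_, fun z z' => ?_,
    fun z => ?_⟩
  · rw [hd] at h
    obtain ⟨x, hx⟩ := coneC_comb h₁ h₂ (e y) (e z) hα hβ h
    refine ⟨e.symm x, fun p => ?_⟩
    rw [hd, hd, hd, e.apply_symm_apply]
    exact hx _
  · change dist (Hyp.mk (pr k₁ k₂ (e z))) (Hyp.mk (pr k₁ k₂ (e z'))) ≤ dist z z'
    rw [hp, hd']
    have a0 := one_le_lor (Hyp.mk (pr k₁ k₂ (e z))) (Hyp.mk (pr k₁ k₂ (e z')))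
    refine (arcosh_le_arcosh (by linarith) (by linarith [one_le_coneC h₁ h₂ (e z) (e z')])).2 ?_
    have a1 := coneB_le_beta h₁ (Z1 (e z)) (Z1 (e z'))
    have a2 := coneB_le_beta h₂ (Z2 (e z)) (Z2 (e z'))
    rw [lor_pr h₁ h₂, coneC]
    linarith
  · filter_upwards [(c2.tendsto z).eventually (cone_eventually h₁ h₂ (e z))] with z' hz
    change dist (Hyp.mk (pr k₁ k₂ (e z))) (Hyp.mk (pr k₁ k₂ (e z'))) = dist z z'
    rw [hp, hz, hd']

end Pool.Agent.MP_39b1da_gt

end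

section

set_option autoImplicit false

namespace Pool.Agent.MP_39b1da_gt

open Filter Topology Set Real
open scoped ENNReal NNReal ContDiff InnerProductSpace

variable {m : ℕ}

/-- Replace the two complex coordinates. -/
noncomputable def chSet (y : Euc m) (a b : ℂ) : Euc m := y + I1 m (a - Z1 y) + I2 m (b - Z2 y)

theorem ch_ne (m : ℕ) : (0 : Fin (m + 4)) ≠ 1 ∧ (0 : Fin (m + 4)) ≠ 2 ∧ (0 : Fin (m + 4)) ≠ 3 ∧
    (1 : Fin (m + 4)) ≠ 2 ∧ (1 : Fin (m + 4)) ≠ 3 ∧ (2 : Fin (m + 4)) ≠ 3 := by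
  have h2 : ((2 : Fin (m + 4)) : ℕ) = 2 := Nat.mod_eq_of_lt (show 2 < m + 4 by omega)
  have h3 : ((3 : Fin (m + 4)) : ℕ) = 3 := Nat.mod_eq_of_lt (show 3 < m + 4 by omega)
  have h1 : ((1 : Fin (m + 4)) : ℕ) = 1 := rfl
  have h0 : ((0 : Fin (m + 4)) : ℕ) = 0 := rfl
  simp only [ne_eq, Fin.ext_iff, h0, h1, h2, h3]
  decide

theorem chSet_apply (y : Euc m) (a b : ℂ) (i : Fin (m + 4)) : chSet y a b i =
    if i = 0 then a.re else if i = 1 then a.im else if i = 2 then b.re else if i = 3 then b.im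
      else y i := by
  obtain ⟨h1, h2, h3, h4, h5, h6⟩ := ch_ne m
  simp only [chSet, I1, I2, Z1, Z2, PiLp.add_apply, EuclideanSpace.single, PiLp.single_apply,
    Complex.sub_re, Complex.sub_im]
  split_ifs <;> simp_all

theorem Z1_chSet (y : Euc m) (a b : ℂ) : Z1 (chSet y a b) = a := by
  obtain ⟨h1, h2, h3, h4, h5, h6⟩ := ch_ne m
  apply Complex.ext <;> simp [Z1, chSet_apply]

theorem Z2_chSet (y : Euc m) (a b : ℂ) : Z2 (chSet y a b) = b := by
  obtain ⟨h1, h2, h3, h4, h5, h6⟩ := ch_ne m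
  apply Complex.ext <;> simp [Z2, chSet_apply, h2.symm, h3.symm, h4.symm, h5.symm, h6.symm]

theorem chSet_chSet (y : Euc m) (a b c d : ℂ) : chSet (chSet y a b) c d = chSet y c d := by
  ext i
  simp only [chSet_apply]
  split_ifs <;> rfl

theorem chSet_self (y : Euc m) : chSet y (Z1 y) (Z2 y) = y := by
  ext i
  rw [chSet_apply]
  split_ifs <;> simp_all [Z1, Z2]

theorem pr_eq (k₁ k₂ : ℕ) (y : Euc m) :
    pr k₁ k₂ y = chSet y (beta k₁ (Z1 y)) (beta k₂ (Z2 y)) := rfl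

theorem ch_beta_one (z : ℂ) : beta 1 z = z := by simp [beta]

@[fun_prop] theorem ch_continuous_Z1 : Continuous (Z1 : Euc m → ℂ) := by
  have : (Z1 : Euc m → ℂ) = fun x => (x 0 : ℝ) + (x 1 : ℝ) * Complex.I := by
    funext x; apply Complex.ext <;> simp [Z1]
  rw [this]; fun_prop

@[fun_prop] theorem ch_continuous_Z2 : Continuous (Z2 : Euc m → ℂ) := by
  have : (Z2 : Euc m → ℂ) = fun x => (x 2 : ℝ) + (x 3 : ℝ) * Complex.I := by
    funext x; apply Complex.ext <;> simp [Z2]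
  rw [this]; fun_prop

theorem ch_continuous_single (i : Fin (m + 4)) :
    Continuous fun r : ℝ => (EuclideanSpace.single i r : Euc m) := by
  have : (fun r : ℝ => (EuclideanSpace.single i r : Euc m)) =
      fun r : ℝ => r • (EuclideanSpace.single i (1 : ℝ) : Euc m) := by
    funext r; ext j; simp [PiLp.single_apply]
  rw [this]; fun_prop

@[fun_prop] theorem ch_continuous_I1 : Continuous (I1 m) :=
  ((ch_continuous_single 0).comp Complex.continuous_re).add
    ((ch_continuous_single 1).comp Complex.continuous_im)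

@[fun_prop] theorem ch_continuous_I2 : Continuous (I2 m) :=
  ((ch_continuous_single 2).comp Complex.continuous_re).add
    ((ch_continuous_single 3).comp Complex.continuous_im)

theorem ch_continuous_set : Continuous fun p : Euc m × ℂ × ℂ => chSet p.1 p.2.1 p.2.2 := by
  unfold chSet; fun_prop

theorem ch_beta_exp {k : ℕ} (hk : 1 ≤ k) (u : ℂ) :
    beta k (Complex.exp u) = Complex.exp (u.re + k * u.im * Complex.I) := by
  obtain ⟨j, rfl⟩ := Nat.exists_eq_add_of_le' hk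
  rw [beta, Complex.norm_exp, Nat.add_sub_cancel, Complex.ofReal_exp, ← Complex.exp_nat_mul,
    ← Complex.exp_nat_mul, ← Complex.exp_sub]
  congr 1
  apply Complex.ext <;> simp
  ring

theorem ch_isLocalHomeomorph_exp : IsLocalHomeomorph Complex.exp :=
  (isOpen_ne.isOpenEmbedding_subtypeVal.isLocalHomeomorph).comp
    Complex.isCoveringMap_exp.isLocalHomeomorph

theorem ch_beta_local {k : ℕ} (hk : 1 ≤ k) : IsLocalHomeomorphOn (beta k) {z | z ≠ 0} := by
  have hk0 : (k : ℝ) ≠ 0 := by positivity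
  let L : ℂ ≃ₜ ℂ :=
    { toFun := fun u => u.re + k * u.im * Complex.I
      invFun := fun u => u.re + (u.im / k : ℝ) * Complex.I
      left_inv := fun u => by apply Complex.ext <;> simp [hk0]
      right_inv := fun u => by
        apply Complex.ext
        · simp
        · simp; field_simp
      continuous_toFun := by fun_prop
      continuous_invFun := by fun_prop }
  have h1 : beta k ∘ Complex.exp = Complex.exp ∘ L := funext fun u => ch_beta_exp hk u
  have h2 : IsLocalHomeomorphOn (beta k ∘ Complex.exp) univ := by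
    rw [h1]
    exact (ch_isLocalHomeomorph_exp.comp L.isLocalHomeomorph).isLocalHomeomorphOn
  have := h2.of_comp_right ch_isLocalHomeomorph_exp.isLocalHomeomorphOn
  rwa [image_univ, Complex.range_exp] at this

theorem ch_beta_surj {k : ℕ} (hk : 1 ≤ k) (w : ℂ) : ∃ z, beta k z = w := by
  rcases eq_or_ne w 0 with rfl | hw
  · exact ⟨0, norm_eq_zero.1 (by rw [norm_beta hk, norm_zero])⟩
  · have hk0 : (k : ℝ) ≠ 0 := by positivity
    refine ⟨Complex.exp ((Complex.log w).re + ((Complex.log w).im / k : ℝ) * Complex.I), ?_⟩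
    rw [ch_beta_exp hk]
    conv_rhs => rw [← Complex.exp_log hw]
    congr 1
    apply Complex.ext
    · simp
    · simp; field_simp

theorem ch_beta_open {k : ℕ} (hk : 1 ≤ k) : IsOpenMap (beta k) := by
  refine isOpenMap_iff_nhds_le.2 fun z => ?_
  rcases eq_or_ne z 0 with rfl | hz
  · intro U hU
    obtain ⟨r, hr, h⟩ := Metric.mem_nhds_iff.1 (mem_map.1 hU)
    have h0 : beta k 0 = 0 := norm_eq_zero.1 (by rw [norm_beta hk, norm_zero])
    rw [h0]
    refine mem_of_superset (Metric.ball_mem_nhds 0 hr) fun w hw => ?_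
    obtain ⟨z, rfl⟩ := ch_beta_surj hk w
    exact h (by simpa [norm_beta hk] using hw)
  · exact ((ch_beta_local hk).map_nhds_eq hz).ge

theorem ch_pr_open {k₁ k₂ : ℕ} (h₁ : 1 ≤ k₁) (h₂ : 1 ≤ k₂) :
    IsOpenMap (pr k₁ k₂ : Euc m → Euc m) := by
  refine isOpenMap_iff_nhds_le.2 fun x U hU => ?_
  have hc : Continuous fun p : Euc m × ℂ × ℂ => chSet p.1 p.2.1 p.2.2 := ch_continuous_set
  have h1 : {p : Euc m × ℂ × ℂ | chSet p.1 p.2.1 p.2.2 ∈ pr k₁ k₂ ⁻¹' U} ∈
      𝓝 (pr k₁ k₂ x, Z1 x, Z2 x) := by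
    refine hc.continuousAt.preimage_mem_nhds ?_
    simpa only [pr_eq, chSet_chSet, chSet_self] using mem_map.1 hU
  have ho : IsOpenMap (Prod.map (id : Euc m → Euc m) (Prod.map (beta k₁) (beta k₂))) :=
    IsOpenMap.id.prodMap ((ch_beta_open h₁).prodMap (ch_beta_open h₂))
  have h2 := ho.image_mem_nhds h1
  have hc' : Continuous fun y : Euc m => (y, Z1 y, Z2 y) := by fun_prop
  have h3 : (fun y : Euc m => (y, Z1 y, Z2 y)) ⁻¹' _ ∈ 𝓝 (pr k₁ k₂ x) :=
    hc'.continuousAt.preimage_mem_nhds (by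
      simpa only [Prod.map, id, pr_eq, Z1_chSet, Z2_chSet] using h2)
  refine mem_of_superset h3 ?_
  rintro y ⟨⟨y', a, b⟩, hp, e⟩
  simp only [Prod.map, id, Prod.mk.injEq] at e
  obtain ⟨rfl, e1, e2⟩ := e
  simpa only [mem_preimage, mem_ofPred_eq, pr_eq, Z1_chSet, Z2_chSet, chSet_chSet, e1, e2,
    chSet_self] using hp

end Pool.Agent.MP_39b1da_gt

end

section

set_option autoImplicit false

namespace Pool.Agent.MP_39b1da_gt

open Filter Topology Set Real
open scoped ENNReal NNReal ContDiff InnerProductSpace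

variable {m : ℕ}

theorem ch_root {k : ℕ} (hk : 1 ≤ k) (b : Bool) (ξ : ℂ) (h : b = false → 1 / 16 < ‖ξ‖) :
    ∃ R : OpenPartialHomeomorph ℂ ℂ, b = false →
      ξ ∈ R.source ∧ beta k = R ∧ ∀ z ∈ R.source, 1 / 16 < ‖z‖ := by
  cases b
  · have h0 : ξ ≠ 0 := by
      rintro rfl
      have := h rfl
      norm_num at this
    obtain ⟨R, hR, e⟩ := ch_beta_local hk ξ h0
    have ho : IsOpen {z : ℂ | 1 / 16 < ‖z‖} := isOpen_lt continuous_const continuous_norm
    exact ⟨R.restrOpen _ ho, fun _ => ⟨⟨hR, h rfl⟩, e, fun z hz => hz.2⟩⟩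
  · exact ⟨OpenPartialHomeomorph.refl ℂ, fun h => by simp at h⟩

theorem ch_q_local (D : Setup m) : IsLocalHomeomorph D.q := by
  obtain ⟨δ, h⟩ := D.q_iso
  exact h.isCoveringMap.isLocalHomeomorph

/-- The chart attached to local data. -/
theorem ch_build (D : Setup m) {k : ℕ} (hk : 1 ≤ k) (x : BM D k) (p : Hyp (Euc m))
    (hp : D.q p = x.1.1) (b1 b2 : Bool) (Φ : Lor (Euc m))
    (h1 : b1 = true → ∀ᶠ y in 𝓝 p, D.F1 (D.q y) = Z1 (Φ • y).val)
    (h2 : b2 = true → ∀ᶠ y in 𝓝 p, D.F2 (D.q y) = Z2 (Φ • y).val)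
    (u1 : b1 = false → 1 / 16 < ‖x.1.2.1‖) (u2 : b2 = false → 1 / 16 < ‖x.1.2.2‖) :
    ∃ c : BChart D k, x ∈ c.e.source := by
  classical
  obtain ⟨R1, hR1⟩ := ch_root hk b1 _ u1
  obtain ⟨R2, hR2⟩ := ch_root hk b2 _ u2
  obtain ⟨Q, hQp, hQ⟩ := ch_q_local D p
  have hqc : Continuous D.q := (ch_q_local D).continuous
  have hK : ∀ b : Bool, 1 ≤ cond b k 1 := fun b => by cases b <;> simp [hk]
  have hW : ∀ᶠ y in 𝓝 p, y ∈ Q.source ∧ (b1 = true → D.F1 (D.q y) = Z1 (Φ • y).val) ∧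
      (b2 = true → D.F2 (D.q y) = Z2 (Φ • y).val) ∧ (b1 = false → D.F1 (D.q y) ∈ R1.target) ∧
      (b2 = false → D.F2 (D.q y) ∈ R2.target) := by
    refine (Q.open_source.eventually_mem hQp).and (Eventually.and ?_ (Eventually.and ?_
      (Eventually.and ?_ ?_)))
    · exact eventually_imp_distrib_left.2 h1
    · exact eventually_imp_distrib_left.2 h2
    · refine eventually_imp_distrib_left.2 fun h => ?_
      refine (D.F1_cont.comp hqc).continuousAt.preimage_mem_nhds (R1.open_target.mem_nhds ?_)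
      rw [Function.comp, hp, ← x.2.1, congrFun (hR1 h).2.1]
      exact R1.map_source (hR1 h).1
    · refine eventually_imp_distrib_left.2 fun h => ?_
      refine (D.F2_cont.comp hqc).continuousAt.preimage_mem_nhds (R2.open_target.mem_nhds ?_)
      rw [Function.comp, hp, ← x.2.2, congrFun (hR2 h).2.1]
      exact R2.map_source (hR2 h).1
  obtain ⟨W, hWs, hWo, hpW⟩ := eventually_nhds_iff.1 hW
  let P : Euc m → Hyp (Euc m) := fun η => Φ⁻¹ • Hyp.mk (pr (cond b1 k 1) (cond b2 k 1) η)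
  have hPc : Continuous P :=
    (continuous_const_smul _).comp (continuous_mk.comp (continuous_pr (hK _) (hK _)))
  have hPv : ∀ η, (Φ • P η).val = pr (cond b1 k 1) (cond b2 k 1) η := fun η => by
    simp only [P, smul_inv_smul, Hyp.val_mk]
  let g : Euc m → D.N × ℂ × ℂ := fun η => (D.q (P η),
    cond b1 (Z1 η) (R1.symm (D.F1 (D.q (P η)))), cond b2 (Z2 η) (R2.symm (D.F2 (D.q (P η)))))
  have hg : ∀ η, P η ∈ W → beta k (g η).2.1 = D.F1 (g η).1 ∧ beta k (g η).2.2 = D.F2 (g η).1 := by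
    intro η hη
    obtain ⟨-, a1, a2, a3, a4⟩ := hWs _ hη
    constructor
    · cases b1
      · rw [(hR1 rfl).2.1]; exact R1.right_inv (a3 rfl)
      · exact ((a1 rfl).trans (by rw [hPv, pr_eq, Z1_chSet]; rfl)).symm
    · cases b2
      · rw [(hR2 rfl).2.1]; exact R2.right_inv (a4 rfl)
      · exact ((a2 rfl).trans (by rw [hPv, pr_eq, Z2_chSet]; rfl)).symm
  let Y : BM D k → Euc m := fun z => (Φ • Q.symm z.1.1).val
  let t : BM D k → Euc m := fun z =>
    chSet (Y z) (cond b1 z.1.2.1 (Z1 (Y z))) (cond b2 z.1.2.2 (Z2 (Y z)))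
  let src : Set (BM D k) := {z | z.1.1 ∈ Q.target ∧ Q.symm z.1.1 ∈ W ∧
    (b1 = false → z.1.2.1 ∈ R1.source) ∧ (b2 = false → z.1.2.2 ∈ R2.source)}
  let inv : Euc m → BM D k := fun η => if h : P η ∈ W then ⟨g η, hg η h⟩ else x
  have hinv : ∀ η, P η ∈ W → (inv η).1 = g η := fun η h => by simp only [inv, dif_pos h]
  have hPt : ∀ z ∈ src, P (t z) = Q.symm z.1.1 := by
    rintro z ⟨z1, z2, -, -⟩
    obtain ⟨-, a1, a2, -, -⟩ := hWs _ z2
    have hz : D.q (Q.symm z.1.1) = z.1.1 := by rw [hQ]; exact Q.right_inv z1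
    rw [hz] at a1 a2
    have e1 : beta (cond b1 k 1) (cond b1 z.1.2.1 (Z1 (Y z))) = Z1 (Y z) := by
      cases b1
      · exact ch_beta_one _
      · exact z.2.1.trans (a1 rfl)
    have e2 : beta (cond b2 k 1) (cond b2 z.1.2.2 (Z2 (Y z))) = Z2 (Y z) := by
      cases b2
      · exact ch_beta_one _
      · exact z.2.2.trans (a2 rfl)
    simp only [P, t, pr_eq, Z1_chSet, Z2_chSet, chSet_chSet, e1, e2, chSet_self, Y, Hyp.mk_val,
      inv_smul_smul]
  have hsrc : ∀ η, P η ∈ W → inv η ∈ src := by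
    intro η hη
    obtain ⟨a0, -, -, a3, a4⟩ := hWs _ hη
    simp only [src, mem_ofPred_eq, hinv η hη, g]
    refine ⟨by rw [hQ]; exact Q.map_source a0, by rw [hQ, Q.left_inv a0]; exact hη,
      fun h => ?_, fun h => ?_⟩
    · subst h; exact R1.map_target (a3 rfl)
    · subst h; exact R2.map_target (a4 rfl)
  have hval : Continuous fun z : BM D k => z.1 := continuous_subtype_val
  have hYc : ContinuousOn Y src := by
    refine (continuous_val.comp (continuous_const_smul Φ)).comp_continuousOn ?_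
    exact Q.continuousOn_symm.comp hval.fst.continuousOn fun z hz => hz.1
  let e : OpenPartialHomeomorph (BM D k) (Euc m) :=
    { toFun := t
      invFun := inv
      source := src
      target := P ⁻¹' W
      map_source' := fun z hz => by rw [mem_preimage, hPt z hz]; exact hz.2.1
      map_target' := hsrc
      left_inv' := by
        intro z hz
        have hzW : P (t z) ∈ W := by rw [hPt z hz]; exact hz.2.1
        have hz1 : D.q (Q.symm z.1.1) = z.1.1 := by rw [hQ]; exact Q.right_inv hz.1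
        refine Subtype.ext ?_
        rw [hinv _ hzW]
        simp only [g, hPt z hz, hz1]
        refine Prod.ext rfl (Prod.ext ?_ ?_)
        · cases b1
          · change R1.symm _ = _
            exact (congrArg R1.symm (z.2.1.symm.trans (congrFun (hR1 rfl).2.1 _))).trans
              (R1.left_inv (hz.2.2.1 rfl))
          · exact Z1_chSet _ _ _
        · cases b2
          · change R2.symm _ = _
            exact (congrArg R2.symm (z.2.2.symm.trans (congrFun (hR2 rfl).2.1 _))).trans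
              (R2.left_inv (hz.2.2.2 rfl))
          · exact Z2_chSet _ _ _
      right_inv' := by
        intro η hη
        have hY : Y (inv η) = pr (cond b1 k 1) (cond b2 k 1) η := by
          simp only [Y, hinv η hη, g]
          rw [hQ, Q.left_inv (hWs _ hη).1, hPv]
        have e1 : cond b1 (inv η).1.2.1 (Z1 (Y (inv η))) = Z1 η := by
          rw [hY, hinv η hη, pr_eq, Z1_chSet]
          cases b1
          · exact ch_beta_one _
          · rfl
        have e2 : cond b2 (inv η).1.2.2 (Z2 (Y (inv η))) = Z2 η := by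
          rw [hY, hinv η hη, pr_eq, Z2_chSet]
          cases b2
          · exact ch_beta_one _
          · rfl
        change chSet (Y (inv η)) _ _ = η
        rw [e1, e2, hY, pr_eq, chSet_chSet, chSet_self]
      continuousOn_toFun := by
        refine ch_continuous_set.comp_continuousOn (f := fun z : BM D k =>
          (Y z, cond b1 z.1.2.1 (Z1 (Y z)), cond b2 z.1.2.2 (Z2 (Y z))))
          (hYc.prodMk (ContinuousOn.prodMk ?_ ?_))
        · cases b1
          · exact ch_continuous_Z1.comp_continuousOn hYc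
          · exact hval.snd.fst.continuousOn
        · cases b2
          · exact ch_continuous_Z2.comp_continuousOn hYc
          · exact hval.snd.snd.continuousOn
      continuousOn_invFun := by
        have hgc : ContinuousOn g (P ⁻¹' W) := by
          refine (hqc.comp hPc).continuousOn.prodMk (ContinuousOn.prodMk ?_ ?_)
          · cases b1
            · exact R1.continuousOn_symm.comp (D.F1_cont.comp (hqc.comp hPc)).continuousOn
                fun η hη => (hWs _ hη).2.2.2.1 rfl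
            · exact ch_continuous_Z1.continuousOn
          · cases b2
            · exact R2.continuousOn_symm.comp (D.F2_cont.comp (hqc.comp hPc)).continuousOn
                fun η hη => (hWs _ hη).2.2.2.2 rfl
            · exact ch_continuous_Z2.continuousOn
        exact (IsInducing.subtypeVal.continuousOn_iff (f := inv)).2 (hgc.congr hinv)
      open_source := by
        have o1 : IsOpen ((fun z : BM D k => z.1.1) ⁻¹' (Q.target ∩ Q.symm ⁻¹' W)) :=
          (Q.symm.isOpen_inter_preimage hWo).preimage hval.fst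
        have o2 : IsOpen {z : BM D k | b1 = false → z.1.2.1 ∈ R1.source} := by
          cases b1
          · simp only [forall_true_left]; exact R1.open_source.preimage hval.snd.fst
          · simp
        have o3 : IsOpen {z : BM D k | b2 = false → z.1.2.2 ∈ R2.source} := by
          cases b2
          · simp only [forall_true_left]; exact R2.open_source.preimage hval.snd.snd
          · simp
        convert o1.inter (o2.inter o3) using 1
        ext z
        simp only [src, mem_ofPred_eq, mem_inter_iff, mem_preimage, and_assoc]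
      open_target := hWo.preimage hPc }
  have hev : ∀ η, P η ∈ W → ∀ᶠ y in 𝓝 (Hyp.mk (pr (cond b1 k 1) (cond b2 k 1) η)),
      Φ⁻¹ • y ∈ W := fun η hη =>
    (continuous_const_smul Φ⁻¹).continuousAt.preimage_mem_nhds (hWo.mem_nhds hη)
  have hpQ : Q.symm x.1.1 = p := by rw [← hp, hQ]; exact Q.left_inv hQp
  refine ⟨⟨e, b1, b2, Φ, fun η hη => congrArg Prod.fst (hinv η hη), fun h η hη => ⟨?_, ?_⟩,
    fun h η hη => ⟨?_, ?_⟩, fun h η hη => (hR1 h).2.2 _ ((hsrc η hη).2.2.1 h),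
    fun h η hη => (hR2 h).2.2 _ ((hsrc η hη).2.2.2 h)⟩, ?_⟩
  · subst h; exact congrArg (fun z => z.2.1) (hinv η hη)
  · filter_upwards [hev η hη] with y hy
    simpa only [smul_inv_smul] using (hWs _ hy).2.1 h
  · subst h; exact congrArg (fun z => z.2.2) (hinv η hη)
  · filter_upwards [hev η hη] with y hy
    simpa only [smul_inv_smul] using (hWs _ hy).2.2.1 h
  · exact ⟨by rw [← hp, hQ]; exact Q.map_source hQp, by rw [hpQ]; exact hpW,
      fun h => (hR1 h).1, fun h => (hR2 h).1⟩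

theorem ch_norm_mk (a b : ℝ) (h : ¬(|a| < 1 / 8 ∧ |b| < 1 / 8)) : 1 / 16 < ‖(⟨a, b⟩ : ℂ)‖ := by
  have h1 := Complex.abs_re_le_norm ⟨a, b⟩
  have h2 := Complex.abs_im_le_norm ⟨a, b⟩
  simp only at h1 h2
  by_contra hc
  exact h ⟨by linarith, by linarith⟩

theorem exists_chart (D : Setup m) {k : ℕ} (hk : 1 ≤ k) (x : BM D k) :
    ∃ c : BChart D k, x ∈ c.e.source := by
  classical
  obtain ⟨p, hp⟩ := D.q_surj x.1.1
  have hv : ∀ c, ∃ v : ℝ × Euc m, |D.f c p| < 1 / 8 →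
      v ∈ D.S c ∧ ∀ᶠ y in 𝓝 p, D.f c y = lor (lift y) v := by
    intro c
    by_cases h : |D.f c p| < 1 / 8
    · obtain ⟨v, h1, h2⟩ := D.f_near c p (by linarith)
      exact ⟨v, fun _ => ⟨h1, h2⟩⟩
    · exact ⟨0, fun h' => absurd h' h⟩
  choose v hv using hv
  have hs : ∀ c, |D.f c p| < 1 / 8 → |lor (lift p) (v c)| < 1 / 2 := fun c h => by
    rw [← (hv c h).2.self_of_nhds]; linarith
  obtain ⟨Φ, hΦ⟩ := exists_frame {c | |D.f c p| < 1 / 8} v
    (fun c hc => D.unit c _ (hv c hc).1) (fun c hc c' hc' hne => by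
      have := abs_lor_lt (D.unit c _ (hv c hc).1) (D.unit c' _ (hv c' hc').1) (hs c hc) (hs c' hc')
      exact (D.diff c c' hne _ (hv c hc).1 _ (hv c' hc').1).resolve_right (by linarith))
  have hf : ∀ c, |D.f c p| < 1 / 8 → ∀ᶠ y in 𝓝 p, D.f c y = (Φ • y).val (![0, 1, 2, 3] c) := by
    intro c hc
    filter_upwards [(hv c hc).2] with y hy
    rw [hy, ← Φ.2.1, hΦ c hc, val_smul]
    simp [lor, EuclideanSpace.inner_single_right]
  refine ch_build D hk x p hp (decide (|D.f 0 p| < 1 / 8 ∧ |D.f 1 p| < 1 / 8))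
    (decide (|D.f 2 p| < 1 / 8 ∧ |D.f 3 p| < 1 / 8)) Φ (fun h => ?_) (fun h => ?_) (fun h => ?_)
    (fun h => ?_)
  · obtain ⟨a, b⟩ := of_decide_eq_true h
    filter_upwards [hf 0 a, hf 1 b] with y y0 y1
    rw [D.F1_q, y0, y1]; rfl
  · obtain ⟨a, b⟩ := of_decide_eq_true h
    filter_upwards [hf 2 a, hf 3 b] with y y0 y1
    rw [D.F2_q, y0, y1]; rfl
  · rw [← norm_beta hk, x.2.1, ← hp, D.F1_q]
    exact ch_norm_mk _ _ (of_decide_eq_false h)
  · rw [← norm_beta hk, x.2.2, ← hp, D.F2_q]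
    exact ch_norm_mk _ _ (of_decide_eq_false h)

theorem compact_BM (D : Setup m) {k : ℕ} (hk : 1 ≤ k) : CompactSpace (BM D k) := by
  have hb := continuous_beta hk
  have h1 := D.F1_cont
  have h2 := D.F2_cont
  have hc : IsClosed {p : D.N × ℂ × ℂ | beta k p.2.1 = D.F1 p.1 ∧ beta k p.2.2 = D.F2 p.1} :=
    (isClosed_eq (by fun_prop) (by fun_prop)).inter (isClosed_eq (by fun_prop) (by fun_prop))
  have hn : ∀ a b : ℝ, |a| ≤ 1 / 4 → |b| ≤ 1 / 4 → ‖(⟨a, b⟩ : ℂ)‖ ≤ 1 := fun a b ha hb =>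
    (Complex.norm_le_abs_re_add_abs_im _).trans (by simp only; linarith)
  have hK : IsCompact ((univ : Set D.N) ×ˢ (Metric.closedBall (0 : ℂ) 1 ×ˢ
      Metric.closedBall (0 : ℂ) 1)) :=
    isCompact_univ.prod ((isCompact_closedBall _ _).prod (isCompact_closedBall _ _))
  refine isCompact_iff_compactSpace.1 (hK.of_isClosed_subset hc ?_)
  rintro ⟨n, a, b⟩ ⟨e1, e2⟩
  obtain ⟨p, rfl⟩ := D.q_surj n
  refine ⟨trivial, ?_, ?_⟩
  · rw [mem_closedBall_zero_iff, ← norm_beta hk, e1, D.F1_q]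
    exact hn _ _ (D.f_le _ _) (D.f_le _ _)
  · rw [mem_closedBall_zero_iff, ← norm_beta hk, e2, D.F2_q]
    exact hn _ _ (D.f_le _ _) (D.f_le _ _)

theorem ch_proj_open (D : Setup m) {k : ℕ} (hk : 1 ≤ k) :
    IsOpenMap fun z : BM D k => z.1.1 := by
  refine isOpenMap_iff_nhds_le.2 fun x U hU => ?_
  obtain ⟨c, hc⟩ := exists_chart D hk x
  have hK : ∀ b : Bool, 1 ≤ cond b k 1 := fun b => by cases b <;> simp [hk]
  have ho : IsOpenMap fun η : Euc m =>
      D.q (c.Φ⁻¹ • Hyp.mk (pr (cond c.b1 k 1) (cond c.b2 k 1) η)) :=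
    (ch_q_local D).isOpenMap.comp ((isOpenMap_smul c.Φ⁻¹).comp
      (ch_pr_open (m := m) (hK c.b1) (hK c.b2)))
  have h1 : c.e.target ∩ c.e.symm ⁻¹' ((fun z : BM D k => z.1.1) ⁻¹' U) ∈ 𝓝 (c.e x) := by
    refine inter_mem (c.e.open_target.mem_nhds (c.e.map_source hc)) ?_
    refine (c.e.continuousAt_symm (c.e.map_source hc)).preimage_mem_nhds ?_
    rw [c.e.left_inv hc]
    exact mem_map.1 hU
  have h2 := ho.image_mem_nhds h1
  rw [← c.base _ (c.e.map_source hc), c.e.left_inv hc] at h2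
  refine mem_of_superset h2 ?_
  rintro _ ⟨η, ⟨h3, h4⟩, rfl⟩
  exact mem_of_eq_of_mem (c.base _ h3).symm h4

theorem connected_BM (D : Setup m) {k : ℕ} (hk : 1 ≤ k) : ConnectedSpace (BM D k) := by
  have := compact_BM D hk
  have : ConnectedSpace (Hyp (Euc m)) := inferInstanceAs (ConnectedSpace (Euc m))
  have : ConnectedSpace D.N := D.q_surj.connectedSpace (ch_q_local D).continuous
  obtain ⟨p, hp⟩ := D.quad
  have hf : ∀ c, D.f c p = 0 := fun c => by
    obtain ⟨v, hv, h0⟩ := hp c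
    have := D.f_abs c p v hv (by rw [h0]; norm_num)
    rwa [h0, abs_zero, abs_eq_zero] at this
  have hb : ∀ z, beta k z = 0 ↔ z = 0 := fun z => by rw [← norm_eq_zero, norm_beta hk, norm_eq_zero]
  have e1 : D.F1 (D.q p) = 0 := by rw [D.F1_q, hf, hf]; rfl
  have e2 : D.F2 (D.q p) = 0 := by rw [D.F2_q, hf, hf]; rfl
  let x₀ : BM D k := ⟨(D.q p, 0, 0), ((hb 0).2 rfl).trans e1.symm, ((hb 0).2 rfl).trans e2.symm⟩
  have hc : Continuous fun z : BM D k => z.1.1 := continuous_subtype_val.fst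
  have key : ∀ U : Set (BM D k), IsClopen U → U.Nonempty → x₀ ∈ U := by
    intro U hU hne
    have h1 : IsClopen ((fun z : BM D k => z.1.1) '' U) :=
      ⟨(hU.1.isCompact.image hc).isClosed, ch_proj_open D hk _ hU.2⟩
    obtain ⟨z, hz, e⟩ : D.q p ∈ (fun z : BM D k => z.1.1) '' U := by
      rw [h1.eq_univ (hne.image _)]; trivial
    have : z = x₀ := by
      refine Subtype.ext (Prod.ext e (Prod.ext ((hb _).1 ?_) ((hb _).1 ?_)))
      · exact z.2.1.trans ((congrArg D.F1 e).trans e1)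
      · exact z.2.2.trans ((congrArg D.F2 e).trans e2)
    exact this ▸ hz
  have : PreconnectedSpace (BM D k) := by
    refine preconnectedSpace_iff_clopen.2 fun U hU => ?_
    by_contra h
    push Not at h
    exact key _ hU.compl (nonempty_compl.2 h.2) (key _ hU h.1)
  exact ⟨⟨x₀⟩⟩

end Pool.Agent.MP_39b1da_gt

end

section

/-!
Calculus of the branched covering of the model away from the branch locus.
-/

set_option autoImplicit false

namespace Pool.Agent.MP_39b1da_gt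

open Filter Topology Set Real
open scoped ENNReal NNReal ContDiff InnerProductSpace

variable {m : ℕ}

theorem tr_beta_one : beta 1 = id := by
  funext z
  simp [beta]

theorem tr_beta_eq (k : ℕ) : beta k = fun w : ℂ => (‖w‖ ^ (k - 1))⁻¹ • w ^ k := by
  funext w
  simp [beta, div_eq_mul_inv, mul_comm]

theorem tr_phi_smooth (k : ℕ) {z : ℂ} (hz : z ≠ 0) :
    ContDiffAt ℝ ∞ (fun w : ℂ => (‖w‖ ^ (k - 1))⁻¹) z := by
  have h1 : ContDiffAt ℝ ∞ (fun w : ℂ => ‖w‖) z := contDiffAt_norm ℝ hz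
  have h2 : 0 < ‖z‖ := norm_pos_iff.2 hz
  exact (h1.pow _).inv (by positivity)

theorem tr_beta_smooth (k : ℕ) {z : ℂ} (hz : z ≠ 0) : ContDiffAt ℝ ∞ (beta k) z := by
  rw [tr_beta_eq]
  exact (tr_phi_smooth k hz).smul (contDiffAt_id.pow _)

theorem tr_beta_deriv {k : ℕ} (hk : 1 ≤ k) {z : ℂ} (hz : z ≠ 0) (h : ℂ) :
    ∃ ρ : ℝ, fderiv ℝ (beta k) z h = beta k z * (k * h / z + ρ) := by
  have h1 := ((tr_phi_smooth k hz).differentiableAt (by simp)).hasFDerivAt
  have h2 : HasFDerivAt (fun w : ℂ => w ^ k)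
      ((ContinuousLinearMap.toSpanSingleton ℂ ((k : ℂ) * z ^ (k - 1))).restrictScalars ℝ) z :=
    (hasDerivAt_pow k z).hasFDerivAt.restrictScalars ℝ
  have h3 := (h1.smul h2).fderiv
  have h4 : 0 < ‖z‖ := norm_pos_iff.2 hz
  refine ⟨fderiv ℝ (fun w : ℂ => (‖w‖ ^ (k - 1))⁻¹) z h * ‖z‖ ^ (k - 1), ?_⟩
  have h5 : fderiv ℝ (beta k) z h = (‖z‖ ^ (k - 1))⁻¹ • (h * (k * z ^ (k - 1))) +
      fderiv ℝ (fun w : ℂ => (‖w‖ ^ (k - 1))⁻¹) z h • z ^ k := by
    rw [tr_beta_eq]
    erw [h3]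
    simp
  rw [h5]
  obtain ⟨j, rfl⟩ : ∃ j, k = j + 1 := ⟨k - 1, by omega⟩
  have h6 : ((‖z‖ : ℝ) : ℂ) ≠ 0 := by exact_mod_cast h4.ne'
  simp only [beta, Nat.add_sub_cancel, Complex.real_smul]
  push_cast
  field_simp
  ring

/-- The angular form on the plane. -/
def trOm (z h : ℂ) : ℝ := z.re * h.im - z.im * h.re

/-- The covering `beta n` is smooth at `z` and stretches the angular direction by `n`. -/
structure TrOK (n : ℕ) (z : ℂ) : Prop where
  one_le : 1 ≤ n
  smooth : ContDiffAt ℝ ∞ (beta n) z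
  rad : ∀ h, ⟪beta n z, fderiv ℝ (beta n) z h⟫_ℝ = ⟪z, h⟫_ℝ
  ang : ∀ h h', ⟪fderiv ℝ (beta n) z h, fderiv ℝ (beta n) z h'⟫_ℝ =
    ⟪h, h'⟫_ℝ + ((n : ℝ) ^ 2 - 1) / (z.re ^ 2 + z.im ^ 2) * (trOm z h * trOm z h')

theorem trOK_one (z : ℂ) : TrOK 1 z := by
  refine ⟨le_rfl, ?_, ?_, ?_⟩
  · rw [tr_beta_one]; exact contDiffAt_id
  · intro h; rw [tr_beta_one]; simp
  · intro h h'; rw [tr_beta_one]; simp

theorem tr_inner (a b : ℂ) : ⟪a, b⟫_ℝ = a.re * b.re + a.im * b.im := by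
  simp [Complex.inner]
  ring

theorem trOK_ne {k : ℕ} (hk : 1 ≤ k) {z : ℂ} (hz : z ≠ 0) : TrOK k z := by
  have hs := tr_beta_smooth k hz
  have hrad : ∀ h, ⟪beta k z, fderiv ℝ (beta k) z h⟫_ℝ = ⟪z, h⟫_ℝ := by
    intro h
    have h1 := (hs.differentiableAt (by simp)).hasFDerivAt.norm_sq
    have h2 := (hasFDerivAt_id (𝕜 := ℝ) z).norm_sq
    have h3 : (fun w => ‖beta k w‖ ^ 2) = fun w : ℂ => ‖id w‖ ^ 2 := by
      funext w; rw [norm_beta hk]; rfl
    rw [h3] at h1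
    have h4 := congrArg (fun L : ℂ →L[ℝ] ℝ => L h) (h1.unique h2)
    simp at h4 ⊢
    linarith
  have hn : (beta k z).re ^ 2 + (beta k z).im ^ 2 = z.re ^ 2 + z.im ^ 2 := by
    have h1 := norm_beta hk z
    have h2 := Complex.sq_norm (beta k z)
    have h3 := Complex.sq_norm z
    rw [Complex.normSq_apply] at h2 h3
    rw [h1] at h2
    nlinarith
  have hpos : 0 < z.re ^ 2 + z.im ^ 2 := by
    have h3 := Complex.normSq_pos.2 hz
    rw [Complex.normSq_apply] at h3
    nlinarith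
  have key : ∀ h, ∃ w : ℂ, fderiv ℝ (beta k) z h = beta k z * w ∧
      w.re = (z.re * h.re + z.im * h.im) / (z.re ^ 2 + z.im ^ 2) ∧
      w.im = k * trOm z h / (z.re ^ 2 + z.im ^ 2) := by
    intro h
    obtain ⟨ρ, hρ⟩ := tr_beta_deriv hk hz h
    refine ⟨_, hρ, ?_, ?_⟩
    · have h1 := hrad h
      rw [hρ, tr_inner, tr_inner] at h1
      generalize (k * h / z + ρ : ℂ) = w at h1 ⊢
      simp only [Complex.mul_re, Complex.mul_im] at h1
      rw [eq_div_iff hpos.ne', ← h1, ← hn]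
      ring
    · simp only [Complex.add_im, Complex.ofReal_im, add_zero, Complex.div_im, Complex.mul_im,
        Complex.mul_re, Complex.natCast_re, Complex.natCast_im, Complex.normSq_apply, trOm]
      have : z.re * z.re + z.im * z.im = z.re ^ 2 + z.im ^ 2 := by ring
      rw [this]
      field_simp
      ring
  refine ⟨hk, hs, hrad, fun h h' => ?_⟩
  obtain ⟨w, e, e1, e2⟩ := key h
  obtain ⟨w', e', e1', e2'⟩ := key h'
  rw [e, e', tr_inner, tr_inner]
  have h1 : (beta k z * w).re * (beta k z * w').re + (beta k z * w).im * (beta k z * w').im =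
      (z.re ^ 2 + z.im ^ 2) * (w.re * w'.re + w.im * w'.im) := by
    simp only [Complex.mul_re, Complex.mul_im]
    rw [← hn]
    ring
  rw [h1, e1, e2, e1', e2']
  simp only [trOm]
  field_simp
  ring

/-- The first complex coordinate as a linear map. -/
noncomputable def trZ1 (m : ℕ) : Euc m →L[ℝ] ℂ :=
  LinearMap.toContinuousLinearMap
    { toFun := Z1
      map_add' := fun x y => by apply Complex.ext <;> simp [Z1]
      map_smul' := fun t x => by apply Complex.ext <;> simp [Z1] }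

/-- The second complex coordinate as a linear map. -/
noncomputable def trZ2 (m : ℕ) : Euc m →L[ℝ] ℂ :=
  LinearMap.toContinuousLinearMap
    { toFun := Z2
      map_add' := fun x y => by apply Complex.ext <;> simp [Z2]
      map_smul' := fun t x => by apply Complex.ext <;> simp [Z2] }

/-- The first coordinate plane as a linear map. -/
noncomputable def trI1 (m : ℕ) : ℂ →L[ℝ] Euc m :=
  Complex.reCLM.smulRight (EuclideanSpace.single 0 1) +
    Complex.imCLM.smulRight (EuclideanSpace.single 1 1)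

/-- The second coordinate plane as a linear map. -/
noncomputable def trI2 (m : ℕ) : ℂ →L[ℝ] Euc m :=
  Complex.reCLM.smulRight (EuclideanSpace.single 2 1) +
    Complex.imCLM.smulRight (EuclideanSpace.single 3 1)

theorem trZ1_apply (x : Euc m) : trZ1 m x = Z1 x := rfl

theorem trZ2_apply (x : Euc m) : trZ2 m x = Z2 x := rfl

theorem tr_I1_eq (w : ℂ) : I1 m w =
    w.re • EuclideanSpace.single 0 (1 : ℝ) + w.im • EuclideanSpace.single 1 (1 : ℝ) := by
  ext i
  simp [I1]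

theorem tr_I2_eq (w : ℂ) : I2 m w =
    w.re • EuclideanSpace.single 2 (1 : ℝ) + w.im • EuclideanSpace.single 3 (1 : ℝ) := by
  ext i
  simp [I2]

theorem trI1_apply (w : ℂ) : trI1 m w = I1 m w := by
  rw [tr_I1_eq]; simp [trI1]

theorem trI2_apply (w : ℂ) : trI2 m w = I2 m w := by
  rw [tr_I2_eq]; simp [trI2]

theorem tr_inner_I1 (a : ℂ) (y : Euc m) : ⟪I1 m a, y⟫_ℝ = a.re * y 0 + a.im * y 1 := by
  simp [I1, inner_add_left, EuclideanSpace.inner_single_left]

theorem tr_inner_I2 (a : ℂ) (y : Euc m) : ⟪I2 m a, y⟫_ℝ = a.re * y 2 + a.im * y 3 := by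
  simp [I2, inner_add_left, EuclideanSpace.inner_single_left]

theorem tr_ne01 : (0 : Fin (m + 4)) ≠ 1 := by simp
theorem tr_ne02 : (0 : Fin (m + 4)) ≠ 2 := by
  intro h; have := congrArg Fin.val h; simp [Nat.mod_eq_of_lt] at this
theorem tr_ne03 : (0 : Fin (m + 4)) ≠ 3 := by
  intro h; have := congrArg Fin.val h; simp [Nat.mod_eq_of_lt] at this
theorem tr_ne12 : (1 : Fin (m + 4)) ≠ 2 := by
  intro h; have := congrArg Fin.val h; simp [Nat.mod_eq_of_lt] at this
theorem tr_ne13 : (1 : Fin (m + 4)) ≠ 3 := by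
  intro h; have := congrArg Fin.val h; simp [Nat.mod_eq_of_lt] at this
theorem tr_ne23 : (2 : Fin (m + 4)) ≠ 3 := by
  intro h; have := congrArg Fin.val h; simp [Nat.mod_eq_of_lt] at this

/-- Replace the two complex coordinates. -/
noncomputable def trRep (x : Euc m) (a b : ℂ) : Euc m := x + I1 m (a - Z1 x) + I2 m (b - Z2 x)

theorem tr_inner_rep (x y : Euc m) (a b c d : ℂ) : ⟪trRep x a b, trRep y c d⟫_ℝ =
    ⟪x, y⟫_ℝ - ⟪Z1 x, Z1 y⟫_ℝ - ⟪Z2 x, Z2 y⟫_ℝ + ⟪a, c⟫_ℝ + ⟪b, d⟫_ℝ := by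
  have h0 : trRep y c d 0 = c.re := by
    simp [trRep, I1, I2, Z1, Z2, tr_ne02, tr_ne03]
  have h1 : trRep y c d 1 = c.im := by
    simp [trRep, I1, I2, Z1, Z2, tr_ne01.symm, tr_ne12, tr_ne13]
  have h2 : trRep y c d 2 = d.re := by
    simp [trRep, I1, I2, Z1, Z2, tr_ne02.symm, tr_ne12.symm, tr_ne23]
  have h3 : trRep y c d 3 = d.im := by
    simp [trRep, I1, I2, Z1, Z2, tr_ne03.symm, tr_ne13.symm, tr_ne23.symm]
  have h4 : ⟪x, trRep y c d⟫_ℝ = ⟪x, y⟫_ℝ + ((c - Z1 y).re * x 0 + (c - Z1 y).im * x 1) +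
      ((d - Z2 y).re * x 2 + (d - Z2 y).im * x 3) := by
    rw [trRep, inner_add_right, inner_add_right, real_inner_comm (I1 m _),
      real_inner_comm (I2 m _), tr_inner_I1, tr_inner_I2]
  rw [show trRep x a b = x + I1 m (a - Z1 x) + I2 m (b - Z2 x) from rfl, inner_add_left,
    inner_add_left, h4, tr_inner_I1, tr_inner_I2, h0, h1, h2, h3]
  simp only [tr_inner, Z1, Z2, Complex.sub_re, Complex.sub_im]
  ring

theorem tr_norm_pr {k₁ k₂ : ℕ} (h₁ : 1 ≤ k₁) (h₂ : 1 ≤ k₂) (x : Euc m) :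
    ‖pr k₁ k₂ x‖ ^ 2 = ‖x‖ ^ 2 := by
  have h := tr_inner_rep x x (beta k₁ (Z1 x)) (beta k₂ (Z2 x)) (beta k₁ (Z1 x)) (beta k₂ (Z2 x))
  simp only [real_inner_self_eq_norm_sq, norm_beta h₁, norm_beta h₂] at h
  rw [show pr k₁ k₂ x = trRep x (beta k₁ (Z1 x)) (beta k₂ (Z2 x)) from rfl, h]
  ring

theorem tr_pr_eq (k₁ k₂ : ℕ) : (pr k₁ k₂ : Euc m → Euc m) = fun x =>
    x + trI1 m (beta k₁ (trZ1 m x) - trZ1 m x) + trI2 m (beta k₂ (trZ2 m x) - trZ2 m x) := by
  funext x
  rw [trI1_apply, trI2_apply]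
  rfl

theorem tr_pr_smooth {k₁ k₂ : ℕ} {x : Euc m} (h₁ : TrOK k₁ (Z1 x)) (h₂ : TrOK k₂ (Z2 x)) :
    ContDiffAt ℝ ∞ (pr k₁ k₂) x := by
  rw [tr_pr_eq]
  have a1 : ContDiffAt ℝ ∞ (fun y => beta k₁ (trZ1 m y)) x :=
    ContDiffAt.comp (g := beta k₁) x h₁.smooth (trZ1 m).contDiff.contDiffAt
  have a2 : ContDiffAt ℝ ∞ (fun y => beta k₂ (trZ2 m y)) x :=
    ContDiffAt.comp (g := beta k₂) x h₂.smooth (trZ2 m).contDiff.contDiffAt
  exact (contDiffAt_id.add ((trI1 m).contDiff.contDiffAt.comp x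
    (a1.sub (trZ1 m).contDiff.contDiffAt))).add
      ((trI2 m).contDiff.contDiffAt.comp x (a2.sub (trZ2 m).contDiff.contDiffAt))

theorem tr_pr_deriv {k₁ k₂ : ℕ} {x : Euc m} (h₁ : TrOK k₁ (Z1 x)) (h₂ : TrOK k₂ (Z2 x))
    (u : Euc m) : fderiv ℝ (pr k₁ k₂) x u =
      trRep u (fderiv ℝ (beta k₁) (Z1 x) (Z1 u)) (fderiv ℝ (beta k₂) (Z2 x) (Z2 u)) := by
  have b1 := (h₁.smooth.differentiableAt (by simp)).hasFDerivAt
  have b2 := (h₂.smooth.differentiableAt (by simp)).hasFDerivAt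
  have a1 := HasFDerivAt.comp (f := trZ1 m) x b1 (trZ1 m).hasFDerivAt
  have a2 := HasFDerivAt.comp (f := trZ2 m) x b2 (trZ2 m).hasFDerivAt
  have h := (((hasFDerivAt_id x).add ((trI1 m).hasFDerivAt.comp x
    (a1.sub (trZ1 m).hasFDerivAt))).add
      ((trI2 m).hasFDerivAt.comp x (a2.sub (trZ2 m).hasFDerivAt))).fderiv
  rw [tr_pr_eq]
  erw [h]
  simp only [trRep, ← trI1_apply, ← trI2_apply]
  rfl

theorem tr_pr_metric {k₁ k₂ : ℕ} {x : Euc m} (h₁ : TrOK k₁ (Z1 x)) (h₂ : TrOK k₂ (Z2 x))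
    (u v : Euc m) : Gh (pr k₁ k₂ x) (fderiv ℝ (pr k₁ k₂) x u) (fderiv ℝ (pr k₁ k₂) x v) =
      Gh x u v + ((k₁ : ℝ) ^ 2 - 1) / (x 0 ^ 2 + x 1 ^ 2) * (om1 x u * om1 x v) +
        ((k₂ : ℝ) ^ 2 - 1) / (x 2 ^ 2 + x 3 ^ 2) * (om2 x u * om2 x v) := by
  have e : ∀ w, ⟪pr k₁ k₂ x, fderiv ℝ (pr k₁ k₂) x w⟫_ℝ = ⟪x, w⟫_ℝ := by
    intro w
    rw [tr_pr_deriv h₁ h₂,
      show pr k₁ k₂ x = trRep x (beta k₁ (Z1 x)) (beta k₂ (Z2 x)) from rfl, tr_inner_rep,
      h₁.rad, h₂.rad]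
    ring
  rw [Gh, Gh, e, e, tr_norm_pr h₁.one_le h₂.one_le, tr_pr_deriv h₁ h₂, tr_pr_deriv h₁ h₂,
    tr_inner_rep, h₁.ang, h₂.ang]
  simp only [trOm, Z1, Z2, om1, om2]
  ring

theorem tr_pr_inj {k₁ k₂ : ℕ} {x : Euc m} (h₁ : TrOK k₁ (Z1 x)) (h₂ : TrOK k₂ (Z2 x)) :
    Function.Injective (fderiv ℝ (pr k₁ k₂) x) := by
  refine (injective_iff_map_eq_zero _).2 fun u hu => ?_
  by_contra hne
  have h := tr_pr_metric h₁ h₂ u u
  rw [hu] at h
  have h0 : Gh (pr k₁ k₂ x) (0 : Euc m) 0 = 0 := by simp [Gh]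
  have h1 := Gh_pos x hne
  have k1 : (1 : ℝ) ≤ k₁ := by exact_mod_cast h₁.one_le
  have k2 : (1 : ℝ) ≤ k₂ := by exact_mod_cast h₂.one_le
  have h2 : 0 ≤ ((k₁ : ℝ) ^ 2 - 1) / (x 0 ^ 2 + x 1 ^ 2) * (om1 x u * om1 x u) :=
    mul_nonneg (div_nonneg (by nlinarith) (by positivity)) (mul_self_nonneg _)
  have h3 : 0 ≤ ((k₂ : ℝ) ^ 2 - 1) / (x 2 ^ 2 + x 3 ^ 2) * (om2 x u * om2 x u) :=
    mul_nonneg (div_nonneg (by nlinarith) (by positivity)) (mul_self_nonneg _)
  linarith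

/-- A continuous solution of a smooth nondegenerate equation is smooth. -/
theorem tr_smooth_of_comp {E : Type} [NormedAddCommGroup E] [NormedSpace ℝ E]
    [FiniteDimensional ℝ E] {T S f : E → E} {x : E} (hT : ContinuousAt T x)
    (hS : ContDiffAt ℝ ∞ S x) (hf : ContDiffAt ℝ ∞ f (T x))
    (hi : Function.Injective (fderiv ℝ f (T x))) (h : ∀ᶠ y in 𝓝 x, f (T y) = S y) :
    ContDiffAt ℝ ∞ T x := by
  have : CompleteSpace E := FiniteDimensional.complete ℝ E
  let L : E ≃L[ℝ] E := (LinearEquiv.ofInjectiveEndo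
    (fderiv ℝ f (T x) : E →ₗ[ℝ] E) hi).toContinuousLinearEquiv
  have hL : HasFDerivAt f (L : E →L[ℝ] E) (T x) := by
    have : (L : E →L[ℝ] E) = fderiv ℝ f (T x) := by ext v; rfl
    rw [this]
    exact (hf.differentiableAt (by simp)).hasFDerivAt
  have hn : (∞ : WithTop ℕ∞) ≠ 0 := by simp
  have h1 := hf.to_localInverse hL hn
  have h2 : ∀ᶠ y in 𝓝 (T x), hf.localInverse hL hn (f y) = y :=
    (hf.hasStrictFDerivAt' hL hn).eventually_left_inverse
  rw [h.self_of_nhds] at h1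
  refine (h1.comp x hS).congr_of_eventuallyEq ?_
  filter_upwards [h, hT.tendsto.eventually h2] with y e1 e2
  simp only [Function.comp]
  rw [← e1, e2]

end Pool.Agent.MP_39b1da_gt

end

section

set_option autoImplicit false

namespace Pool.Agent.MP_39b1da_gt

open Filter Topology Set Real
open scoped ENNReal NNReal ContDiff InnerProductSpace

variable {m : ℕ}

/-- Near `x` the two projections differ by one Lorentz transformation. -/
theorem tr_lor (D : Setup m) {k : ℕ} (hk : 1 ≤ k) (c c' : BChart D k) {x : Euc m}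
    (hx : x ∈ c.e.target) (hx' : c.e.symm x ∈ c'.e.source) :
    ∃ G : Lor (Euc m), (∀ w, D.q (c'.Φ⁻¹ • G • w) = D.q (c.Φ⁻¹ • w)) ∧
      ∀ᶠ y in 𝓝 x, Hyp.mk (pr (cond c'.b1 k 1) (cond c'.b2 k 1) (c'.e (c.e.symm y))) =
        G • Hyp.mk (pr (cond c.b1 k 1) (cond c.b2 k 1) y) := by
  have hc : ∀ b : Bool, 1 ≤ cond b k 1 := by
    intro b; cases b
    · exact le_rfl
    · exact hk
  have c1 : ContinuousAt c.e.symm x := c.e.continuousAt_symm hx
  have hT : ContinuousAt (fun y => c'.e (c.e.symm y)) x :=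
    ContinuousAt.comp (f := c.e.symm) (c'.e.continuousAt hx') c1
  have ev : ∀ᶠ y in 𝓝 x,
      D.q (c.Φ⁻¹ • Hyp.mk (pr (cond c.b1 k 1) (cond c.b2 k 1) y)) =
      D.q (c'.Φ⁻¹ • Hyp.mk (pr (cond c'.b1 k 1) (cond c'.b2 k 1) (c'.e (c.e.symm y)))) := by
    filter_upwards [c.e.open_target.mem_nhds hx, c1.eventually (c'.e.open_source.mem_nhds hx')]
      with y h1 h2
    rw [← c.base y h1, ← c'.base _ (c'.e.map_source h2), c'.e.left_inv h2]
  obtain ⟨g, hg, e⟩ := (D.q_eq _ _).1 ev.self_of_nhds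
  have hq : ∀ w, D.q (g • w) = D.q w := fun w => ((D.q_eq _ _).2 ⟨g, hg, rfl⟩).symm
  obtain ⟨ε, hε, hiso⟩ := D.q_iso
  refine ⟨c'.Φ * g * c.Φ⁻¹, fun w => ?_, ?_⟩
  · rw [mul_smul, mul_smul, inv_smul_smul, hq]
  have ca : ContinuousAt (fun y : Euc m =>
      g • c.Φ⁻¹ • Hyp.mk (pr (cond c.b1 k 1) (cond c.b2 k 1) y)) x :=
    ((continuous_const_smul g).comp ((continuous_const_smul c.Φ⁻¹).comp
      (continuous_mk.comp (continuous_pr (hc _) (hc _))))).continuousAt
  have cb : ContinuousAt (fun y : Euc m =>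
      c'.Φ⁻¹ • Hyp.mk (pr (cond c'.b1 k 1) (cond c'.b2 k 1) (c'.e (c.e.symm y)))) x :=
    ContinuousAt.comp (f := fun y => c'.e (c.e.symm y))
      ((continuous_const_smul c'.Φ⁻¹).comp
        (continuous_mk.comp (continuous_pr (hc _) (hc _)))).continuousAt hT
  have nb := Metric.ball_mem_nhds
    (g • c.Φ⁻¹ • Hyp.mk (pr (cond c.b1 k 1) (cond c.b2 k 1) x)) hε
  have nb' := nb
  nth_rewrite 1 [e] at nb'
  filter_upwards [ev, ca.eventually nb, cb.eventually nb'] with y h1 h2 h3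
  have h4 := (hiso _).1 _ h2 _ h3
  rw [hq, h1, dist_self] at h4
  have h5 := dist_eq_zero.1 h4.symm
  rw [mul_smul, mul_smul, h5, smul_inv_smul]

/-- A Lorentz transformation that keeps a coordinate near a point fixes the basis vector. -/
theorem tr_fix (G : Lor (Euc m)) (i : Fin (m + 4)) {w : Hyp (Euc m)}
    (h : ∀ᶠ y in 𝓝 w, (G • y).val i = y.val i) :
    G.1 (0, EuclideanSpace.single i (1 : ℝ)) = (0, EuclideanSpace.single i (1 : ℝ)) := by
  have e : ∀ v : ℝ × Euc m, lor v (0, EuclideanSpace.single i (1 : ℝ)) = v.2 i := by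
    intro v
    simp [lor, EuclideanSpace.inner_single_right]
  have e2 : ∀ v, G.1 (G.1.symm v) = v := fun v => G.1.apply_symm_apply v
  have h1 : G.1.symm (0, EuclideanSpace.single i (1 : ℝ)) -
      (0, EuclideanSpace.single i (1 : ℝ)) = 0 := by
    refine eq_zero_of_eventually (x := w) ?_
    filter_upwards [h] with y hy
    rw [lor_sub_right, ← G.2.1, e2, e, e, ← val_smul, hy]
    exact sub_self _
  have h2 := congrArg G.1 (sub_eq_zero.1 h1)
  rw [e2] at h2
  exact h2.symm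

theorem tr_fix1 (G : Lor (Euc m)) {w : Hyp (Euc m)}
    (h : ∀ᶠ y in 𝓝 w, Z1 (G • y).val = Z1 y.val) (a : ℂ) : G.1 (0, I1 m a) = (0, I1 m a) := by
  have h0 := tr_fix G 0 (h.mono fun y hy => congrArg Complex.re hy)
  have h1 := tr_fix G 1 (h.mono fun y hy => congrArg Complex.im hy)
  have e : ((0 : ℝ), I1 m a) = a.re • ((0 : ℝ), EuclideanSpace.single (0 : Fin (m + 4)) (1 : ℝ)) +
      a.im • ((0 : ℝ), EuclideanSpace.single (1 : Fin (m + 4)) (1 : ℝ)) := by
    rw [tr_I1_eq]; simp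
  rw [e, map_add, map_smul, map_smul, h0, h1]

theorem tr_fix2 (G : Lor (Euc m)) {w : Hyp (Euc m)}
    (h : ∀ᶠ y in 𝓝 w, Z2 (G • y).val = Z2 y.val) (a : ℂ) : G.1 (0, I2 m a) = (0, I2 m a) := by
  have h0 := tr_fix G 2 (h.mono fun y hy => congrArg Complex.re hy)
  have h1 := tr_fix G 3 (h.mono fun y hy => congrArg Complex.im hy)
  have e : ((0 : ℝ), I2 m a) = a.re • ((0 : ℝ), EuclideanSpace.single (2 : Fin (m + 4)) (1 : ℝ)) +
      a.im • ((0 : ℝ), EuclideanSpace.single (3 : Fin (m + 4)) (1 : ℝ)) := by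
    rw [tr_I2_eq]; simp
  rw [e, map_add, map_smul, map_smul, h0, h1]

/-- The order of branching that is not shared with the other chart. -/
def trN (k : ℕ) (b b' : Bool) : ℕ := cond (b && !b') k 1

/-- The shared part of the branched covering. -/
noncomputable def trD (k : ℕ) (b b' : Bool) (z : ℂ) : ℂ := cond (b && b') (beta k z - z) 0

theorem tr_split (k : ℕ) (b b' : Bool) (z : ℂ) :
    beta (cond b k 1) z - z = (beta (trN k b b') z - z) + trD k b b' z := by
  cases b <;> cases b' <;> simp [trN, trD, tr_beta_one]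

theorem tr_pr_split (k : ℕ) (b₁ b₁' b₂ b₂' : Bool) (y : Euc m) :
    pr (cond b₁ k 1) (cond b₂ k 1) y = pr (trN k b₁ b₁') (trN k b₂ b₂') y +
      I1 m (trD k b₁ b₁' (Z1 y)) + I2 m (trD k b₂ b₂' (Z2 y)) := by
  simp only [pr]
  rw [tr_split k b₁ b₁', tr_split k b₂ b₂']
  simp only [← trI1_apply, ← trI2_apply, map_add]
  abel

theorem tr_one_le {k : ℕ} (hk : 1 ≤ k) (b b' : Bool) : 1 ≤ trN k b b' := by
  cases b <;> cases b' <;> simp [trN, hk]

theorem tr_lift_split {k : ℕ} (hk : 1 ≤ k) (b₁ b₁' b₂ b₂' : Bool) (y : Euc m) :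
    lift (Hyp.mk (pr (cond b₁ k 1) (cond b₂ k 1) y)) =
      lift (Hyp.mk (pr (trN k b₁ b₁') (trN k b₂ b₂') y)) +
        (0, I1 m (trD k b₁ b₁' (Z1 y))) + (0, I2 m (trD k b₂ b₂' (Z2 y))) := by
  have hc : ∀ b : Bool, 1 ≤ cond b k 1 := by
    intro b; cases b
    · exact le_rfl
    · exact hk
  refine Prod.ext ?_ (tr_pr_split k b₁ b₁' b₂ b₂' y)
  simp only [lift, Hyp.val_mk, Prod.fst_add, add_zero, tr_norm_pr (hc _) (hc _),
    tr_norm_pr (tr_one_le hk _ _) (tr_one_le hk _ _)]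

theorem trOK_of {k : ℕ} (hk : 1 ≤ k) {b b' : Bool} {z : ℂ}
    (h : b = true → b' = false → 1 / 16 < ‖z‖) : TrOK (trN k b b') z := by
  cases b <;> cases b'
  · exact trOK_one z
  · exact trOK_one z
  · exact trOK_ne hk (norm_pos_iff.1 (by linarith [h rfl rfl]))
  · exact trOK_one z

theorem tr_term {k : ℕ} {l : ℝ → ℝ} (hl : ∀ t, 1 / 256 ≤ t → l t = ((k : ℝ) ^ 2 - 1) / t)
    {b b' : Bool} {z z' : ℂ} {o o' : ℝ} (h : b = true → b' = false → 1 / 16 < ‖z‖)
    (h' : b' = true → b = false → 1 / 16 < ‖z'‖) (e : b = true → b' = true → z' = z ∧ o' = o) :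
    (cond b' l 0) (z'.re ^ 2 + z'.im ^ 2) * o' -
        (((trN k b' b : ℕ) : ℝ) ^ 2 - 1) / (z'.re ^ 2 + z'.im ^ 2) * o' =
      (cond b l 0) (z.re ^ 2 + z.im ^ 2) * o -
        (((trN k b b' : ℕ) : ℝ) ^ 2 - 1) / (z.re ^ 2 + z.im ^ 2) * o := by
  have key : ∀ w : ℂ, 1 / 16 < ‖w‖ → l (w.re ^ 2 + w.im ^ 2) =
      ((k : ℝ) ^ 2 - 1) / (w.re ^ 2 + w.im ^ 2) := by
    intro w hw
    refine hl _ ?_
    have h3 := Complex.sq_norm w
    rw [Complex.normSq_apply] at h3
    nlinarith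
  cases b <;> cases b'
  · simp [trN]
  · simp [trN, key _ (h' rfl rfl)]
  · simp [trN, key _ (h rfl rfl)]
  · obtain ⟨e1, e2⟩ := e rfl rfl
    rw [e1, e2]

theorem chart_trans (D : Setup m) {k : ℕ} (hk : 1 ≤ k) {l : ℝ → ℝ}
    (hl : ∀ t, 1 / 256 ≤ t → l t = ((k : ℝ) ^ 2 - 1) / t) (c c' : BChart D k) {x : Euc m}
    (hx : x ∈ c.e.target) (hx' : c.e.symm x ∈ c'.e.source) :
    ContDiffAt ℝ ∞ (c'.e ∘ c.e.symm) x ∧ ∀ u v,
      Gm (cond c'.b1 l 0) (cond c'.b2 l 0) (c'.e (c.e.symm x))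
        (fderiv ℝ (c'.e ∘ c.e.symm) x u) (fderiv ℝ (c'.e ∘ c.e.symm) x v) =
      Gm (cond c.b1 l 0) (cond c.b2 l 0) x u v := by
  obtain ⟨G, hq, hG⟩ := tr_lor D hk c c' hx hx'
  have c1 : ContinuousAt c.e.symm x := c.e.continuousAt_symm hx
  have hT : ContinuousAt (c'.e ∘ c.e.symm) x :=
    ContinuousAt.comp (f := c.e.symm) (c'.e.continuousAt hx') c1
  have ev : ∀ᶠ y in 𝓝 x, y ∈ c.e.target ∧ c.e.symm y ∈ c'.e.source :=
    Filter.Eventually.and (c.e.open_target.mem_nhds hx)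
      (c1.eventually (c'.e.open_source.mem_nhds hx'))
  have hTx := c'.e.map_source hx'
  have hinv := c'.e.left_inv hx'
  have cG : Tendsto (fun w : Hyp (Euc m) => G • w)
      (𝓝 (Hyp.mk (pr (cond c.b1 k 1) (cond c.b2 k 1) x)))
      (𝓝 (Hyp.mk (pr (cond c'.b1 k 1) (cond c'.b2 k 1) (c'.e (c.e.symm x))))) := by
    rw [hG.self_of_nhds]
    exact (continuous_const_smul G).tendsto _
  -- the shared branched planes
  have z1 : c.b1 = true → c'.b1 = true → ∀ᶠ y in 𝓝 x, Z1 (c'.e (c.e.symm y)) = Z1 y := by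
    intro h h'
    filter_upwards [ev] with y hy
    rw [← (c.br1 h y hy.1).1, ← (c'.br1 h' _ (c'.e.map_source hy.2)).1, c'.e.left_inv hy.2]
  have z2 : c.b2 = true → c'.b2 = true → ∀ᶠ y in 𝓝 x, Z2 (c'.e (c.e.symm y)) = Z2 y := by
    intro h h'
    filter_upwards [ev] with y hy
    rw [← (c.br2 h y hy.1).1, ← (c'.br2 h' _ (c'.e.map_source hy.2)).1, c'.e.left_inv hy.2]
  have f1 : c.b1 = true → c'.b1 = true → ∀ a, G.1 (0, I1 m a) = (0, I1 m a) := by
    intro h h'
    refine tr_fix1 G (w := Hyp.mk (pr (cond c.b1 k 1) (cond c.b2 k 1) x)) ?_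
    filter_upwards [(c.br1 h x hx).2, cG.eventually (c'.br1 h' _ hTx).2] with w e1 e2
    rw [← e1, ← e2, hq]
  have f2 : c.b2 = true → c'.b2 = true → ∀ a, G.1 (0, I2 m a) = (0, I2 m a) := by
    intro h h'
    refine tr_fix2 G (w := Hyp.mk (pr (cond c.b1 k 1) (cond c.b2 k 1) x)) ?_
    filter_upwards [(c.br2 h x hx).2, cG.eventually (c'.br2 h' _ hTx).2] with w e1 e2
    rw [← e1, ← e2, hq]
  have d1 : ∀ᶠ y in 𝓝 x, G.1 (0, I1 m (trD k c.b1 c'.b1 (Z1 y))) =
      (0, I1 m (trD k c'.b1 c.b1 (Z1 (c'.e (c.e.symm y))))) := by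
    have i0 : ((0 : ℝ), I1 m 0) = 0 := by rw [← trI1_apply, map_zero]; rfl
    rcases Bool.eq_false_or_eq_true c.b1 with h | h <;>
      rcases Bool.eq_false_or_eq_true c'.b1 with h' | h'
    · filter_upwards [z1 h h'] with y hy
      rw [f1 h h', hy, h, h']
    all_goals
      refine Eventually.of_forall fun y => ?_
      simp only [trD, h, h', Bool.and_false, Bool.and_true, Bool.and_self, cond_false, i0,
        map_zero]
  have d2 : ∀ᶠ y in 𝓝 x, G.1 (0, I2 m (trD k c.b2 c'.b2 (Z2 y))) =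
      (0, I2 m (trD k c'.b2 c.b2 (Z2 (c'.e (c.e.symm y))))) := by
    have i0 : ((0 : ℝ), I2 m 0) = 0 := by rw [← trI2_apply, map_zero]; rfl
    rcases Bool.eq_false_or_eq_true c.b2 with h | h <;>
      rcases Bool.eq_false_or_eq_true c'.b2 with h' | h'
    · filter_upwards [z2 h h'] with y hy
      rw [f2 h h', hy, h, h']
    all_goals
      refine Eventually.of_forall fun y => ?_
      simp only [trD, h, h', Bool.and_false, Bool.and_true, Bool.and_self, cond_false, i0,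
        map_zero]
  -- the equation for the transition map
  have main : ∀ᶠ y in 𝓝 x, pr (trN k c'.b1 c.b1) (trN k c'.b2 c.b2) ((c'.e ∘ c.e.symm) y) =
      ((fun w : Euc m => (G • Hyp.mk w).val) ∘ pr (trN k c.b1 c'.b1) (trN k c.b2 c'.b2)) y := by
    filter_upwards [hG, d1, d2] with y e e1 e2
    have e3 := congrArg Hyp.val e
    rw [Hyp.val_mk, val_smul, tr_lift_split hk _ c'.b1 _ c'.b2, map_add, map_add, e1, e2,
      tr_pr_split k _ c.b1 _ c.b2] at e3
    exact add_right_cancel (add_right_cancel e3)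
  have n1 : c.b1 = true → c'.b1 = false → 1 / 16 < ‖Z1 x‖ := by
    intro h h'
    have := c'.un1 h' _ hTx
    rwa [hinv, (c.br1 h x hx).1] at this
  have n2 : c.b2 = true → c'.b2 = false → 1 / 16 < ‖Z2 x‖ := by
    intro h h'
    have := c'.un2 h' _ hTx
    rwa [hinv, (c.br2 h x hx).1] at this
  have n1' : c'.b1 = true → c.b1 = false → 1 / 16 < ‖Z1 (c'.e (c.e.symm x))‖ := by
    intro h' h
    have := c.un1 h _ hx
    rwa [← (c'.br1 h' _ hTx).1, hinv]
  have n2' : c'.b2 = true → c.b2 = false → 1 / 16 < ‖Z2 (c'.e (c.e.symm x))‖ := by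
    intro h' h
    have := c.un2 h _ hx
    rwa [← (c'.br2 h' _ hTx).1, hinv]
  have o1 := trOK_of hk n1
  have o2 := trOK_of hk n2
  have o1' := trOK_of hk n1'
  have o2' := trOK_of hk n2'
  have su := tr_pr_smooth o1 o2
  have su' := tr_pr_smooth o1' o2'
  have sG := (contDiff_smul G).contDiffAt (x := pr (trN k c.b1 c'.b1) (trN k c.b2 c'.b2) x)
  have sT : ContDiffAt ℝ ∞ (c'.e ∘ c.e.symm) x :=
    tr_smooth_of_comp hT (sG.comp x su) su' (tr_pr_inj o1' o2') main
  refine ⟨sT, fun u v => ?_⟩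
  have dT := (sT.differentiableAt (by simp)).hasFDerivAt
  have du := (su.differentiableAt (by simp)).hasFDerivAt
  have du' := (su'.differentiableAt (by simp)).hasFDerivAt
  have dG := (sG.differentiableAt (by simp)).hasFDerivAt
  have ch := (HasFDerivAt.comp (f := c'.e ∘ c.e.symm) x du' dT).unique
    ((dG.comp x du).congr_of_eventuallyEq main)
  have ch' := fun w => congrArg (fun L : Euc m →L[ℝ] Euc m => L w) ch
  simp only [ContinuousLinearMap.comp_apply] at ch'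
  have m1 := tr_pr_metric o1' o2' (fderiv ℝ (c'.e ∘ c.e.symm) x u)
    (fderiv ℝ (c'.e ∘ c.e.symm) x v)
  have m0 := main.self_of_nhds
  simp only [Function.comp_apply] at m0
  rw [ch', ch', m0, Gh_smul, tr_pr_metric o1 o2] at m1
  have w1 : c.b1 = true → c'.b1 = true → ∀ w, Z1 (fderiv ℝ (c'.e ∘ c.e.symm) x w) = Z1 w := by
    intro h h' w
    have := ((trZ1 m).hasFDerivAt.comp x dT).unique
      ((trZ1 m).hasFDerivAt.congr_of_eventuallyEq (z1 h h'))
    exact congrArg (fun L : Euc m →L[ℝ] ℂ => L w) this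
  have w2 : c.b2 = true → c'.b2 = true → ∀ w, Z2 (fderiv ℝ (c'.e ∘ c.e.symm) x w) = Z2 w := by
    intro h h' w
    have := ((trZ2 m).hasFDerivAt.comp x dT).unique
      ((trZ2 m).hasFDerivAt.congr_of_eventuallyEq (z2 h h'))
    exact congrArg (fun L : Euc m →L[ℝ] ℂ => L w) this
  have q1 : ∀ a b : Euc m, om1 a b = trOm (Z1 a) (Z1 b) := fun _ _ => rfl
  have q2 : ∀ a b : Euc m, om2 a b = trOm (Z2 a) (Z2 b) := fun _ _ => rfl
  have t1 := tr_term hl (o := om1 x u * om1 x v)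
    (o' := om1 (c'.e (c.e.symm x)) (fderiv ℝ (c'.e ∘ c.e.symm) x u) *
      om1 (c'.e (c.e.symm x)) (fderiv ℝ (c'.e ∘ c.e.symm) x v)) n1 n1'
    fun h h' => ⟨(z1 h h').self_of_nhds, by
      simp only [q1, w1 h h', (z1 h h').self_of_nhds]⟩
  have t2 := tr_term hl (o := om2 x u * om2 x v)
    (o' := om2 (c'.e (c.e.symm x)) (fderiv ℝ (c'.e ∘ c.e.symm) x u) *
      om2 (c'.e (c.e.symm x)) (fderiv ℝ (c'.e ∘ c.e.symm) x v)) n2 n2'
    fun h h' => ⟨(z2 h h').self_of_nhds, by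
      simp only [q2, w2 h h', (z2 h h').self_of_nhds]⟩
  simp only [Z1, Z2] at t1 t2
  simp only [Gm]
  linarith

end Pool.Agent.MP_39b1da_gt

end
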