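import Pool.Agent.Mg.F39b1da.G324722
import Pool.Agent.Mg.F39b1da.G7a90a3
import Pool.Agent.Mg.F39b1da.G17e5e0
import Pool.Agent.Mg.F39b1da.Gdaece8
import Pool.Agent.Mg.F39b1da.G54b1c6
import Pool.Agent.Mg.F39b1da.G4c6ee2
import Pool.Agent.Mg.F39b1da.G73ed12

section

set_option autoImplicit false

namespace Pool.Agent.MP_39b1da_gt

open Filter Topology Set Real
open scoped ENNReal NNReal ContDiff InnerProductSpace

section QIaux

variable {M : Type} [TopologicalSpace M] {m₀ : M}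

/-- The lift of `a` from `x` ends at `y`. -/
def QIJoins (x y : UCover M m₀) (a : Path x.1 y.1) : Prop :=
  x.2.trans (Path.Homotopic.Quotient.mk a) = y.2

theorem QI_exists_joins (x y : UCover M m₀) : ∃ a, QIJoins x y a := by
  obtain ⟨a, ha⟩ := Path.Homotopic.Quotient.mk_surjective (x.2.symm.trans y.2)
  refine ⟨a, ?_⟩
  unfold QIJoins
  rw [ha, ← Path.Homotopic.Quotient.trans_assoc]
  simp

theorem QIJoins.refl (x : UCover M m₀) : QIJoins x x (Path.refl x.1) := by
  unfold QIJoins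
  simp

theorem QIJoins.symm {x y : UCover M m₀} {a : Path x.1 y.1} (h : QIJoins x y a) :
    QIJoins y x a.symm := by
  unfold QIJoins at *
  rw [← h, Path.Homotopic.Quotient.mk_symm, Path.Homotopic.Quotient.trans_assoc]
  simp

theorem QIJoins.trans {x y z : UCover M m₀} {a : Path x.1 y.1} {b : Path y.1 z.1}
    (h : QIJoins x y a) (h' : QIJoins y z b) : QIJoins x z (a.trans b) := by
  unfold QIJoins at *
  rw [Path.Homotopic.Quotient.mk_trans, ← Path.Homotopic.Quotient.trans_assoc, h, h']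

theorem QIJoins.congr {x y : UCover M m₀} {a b : Path x.1 y.1} (h : QIJoins x y a)
    (e : a.Homotopic b) : QIJoins x y b := by
  unfold QIJoins at *
  rw [← Path.Homotopic.Quotient.eq.2 e, h]

theorem QIJoins.split {x y : UCover M m₀} {a : Path x.1 y.1} (h : QIJoins x y a)
    (t : unitInterval) : ∃ (z : UCover M m₀) (a₁ : Path x.1 z.1) (a₂ : Path z.1 y.1),
      QIJoins x z a₁ ∧ QIJoins z y a₂ ∧ (∀ s, a₁ s = a (Icc.convexComb 0 t s)) ∧
        ∀ s, a₂ s = a (Icc.convexComb t 1 s) := by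
  let a₁ : Path x.1 (a t) := (a.subpath 0 t).cast a.source.symm rfl
  let a₂ : Path (a t) y.1 := (a.subpath t 1).cast rfl a.target.symm
  refine ⟨⟨a t, x.2.trans (Path.Homotopic.Quotient.mk a₁)⟩, a₁, a₂, rfl, ?_, fun _ => rfl,
    fun _ => rfl⟩
  have e : (a₁.trans a₂).Homotopic a := by
    have h1 : ((a.subpath 0 t).trans (a.subpath t 1)).Homotopic (a.subpath 0 1) :=
      ⟨Path.Homotopy.subpathTransSubpath a 0 t 1⟩
    have h2 := h1.pathCast a.source.symm a.target.symm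
    have e1 : ((a.subpath 0 t).trans (a.subpath t 1)).cast a.source.symm a.target.symm =
        a₁.trans a₂ := by
      ext s
      simp only [Path.cast_coe, Path.trans_apply, a₁, a₂]
    have e2 : (a.subpath 0 1).cast a.source.symm a.target.symm = a := by
      ext s
      simp
    rwa [e1, e2] at h2
  unfold QIJoins at *
  change (x.2.trans (Path.Homotopic.Quotient.mk a₁)).trans (Path.Homotopic.Quotient.mk a₂) = y.2
  rw [Path.Homotopic.Quotient.trans_assoc, ← Path.Homotopic.Quotient.mk_trans,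
    Path.Homotopic.Quotient.eq.2 e, h]

variable {B : Type} [PseudoEMetricSpace B] (g : M → B)

theorem QI_ulen_le {x y : UCover M m₀} {a : Path x.1 y.1} (h : QIJoins x y a) :
    ulen g x y ≤ eVariationOn (g ∘ a) univ :=
  iInf₂_le a h

theorem QI_ulen_lt {x y : UCover M m₀} {r : ℝ≥0∞} (h : ulen g x y < r) :
    ∃ a, QIJoins x y a ∧ eVariationOn (g ∘ a) univ < r := by
  obtain ⟨a, ha⟩ := iInf_lt_iff.1 h
  obtain ⟨h1, h2⟩ := iInf_lt_iff.1 ha
  exact ⟨a, h1, h2⟩

theorem QI_var_refl (u : M) : eVariationOn (g ∘ Path.refl u) univ = 0 :=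
  (eVariationOn.eq_zero_iff _).2 fun _ _ _ _ => by simp

theorem QI_ulen_self (x : UCover M m₀) : ulen g x x = 0 :=
  le_antisymm ((QI_ulen_le g (QIJoins.refl x)).trans (QI_var_refl g _).le) zero_le

theorem QI_ulen_symm_le (x y : UCover M m₀) : ulen g y x ≤ ulen g x y :=
  le_iInf₂ fun a h => (QI_ulen_le g (QIJoins.symm h)).trans (eVariationOn_symm g a).le

theorem QI_ulen_symm (x y : UCover M m₀) : ulen g x y = ulen g y x :=
  le_antisymm (QI_ulen_symm_le g y x) (QI_ulen_symm_le g x y)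

theorem QI_ulen_tri (x y z : UCover M m₀) : ulen g x z ≤ ulen g x y + ulen g y z := by
  refine ENNReal.le_iInf₂_add_iInf₂ fun a ha b hb => ?_
  exact (QI_ulen_le g (QIJoins.trans ha hb)).trans (eVariationOn_trans g a b).le

theorem QI_ulen_chain (p : ℕ → UCover M m₀) (N : ℕ) (h : ∀ i < N, ulen g (p i) (p (i + 1)) ≤ 1) :
    ulen g (p 0) (p N) ≤ N := by
  induction N with
  | zero => simp [QI_ulen_self]
  | succ N ih =>
    refine (QI_ulen_tri g _ (p N) _).trans ?_
    push_cast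
    exact add_le_add (ih fun i hi => h i (by omega)) (h N (by omega))

theorem QI_var_sub (u w : unitInterval → B) {s t : unitInterval} (hst : s ≤ t)
    (h : ∀ r, w r = u (Icc.convexComb s t r)) :
    eVariationOn w univ ≤ eVariationOn u (Icc s t) := by
  have : w = u ∘ Icc.convexComb s t := funext h
  rw [this]
  refine eVariationOn.comp_le_of_monotoneOn u _ (fun a _ b _ hab => ?_)
    fun r _ => ⟨Icc.le_convexComb hst r, Icc.convexComb_le hst r⟩
  have h1 : (a : ℝ) ≤ b := hab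
  have h2 : (s : ℝ) ≤ t := hst
  change ((Icc.convexComb s t a : unitInterval) : ℝ) ≤ (Icc.convexComb s t b : unitInterval)
  rw [Icc.coe_convexComb, Icc.coe_convexComb]
  nlinarith

theorem QI_var_add (u : unitInterval → B) {a b c : unitInterval} (hab : a ≤ b) (hbc : b ≤ c) :
    eVariationOn u (Icc a b) + eVariationOn u (Icc b c) = eVariationOn u (Icc a c) := by
  simpa using eVariationOn.Icc_add_Icc u (s := univ) hab hbc (mem_univ _)

theorem QI_var_cont {u : unitInterval → B} (hu : Continuous u) (hf : eVariationOn u univ ≠ ⊤) :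
    Continuous fun t => eVariationOn u (Icc 0 t) := by
  refine continuous_iff_continuousAt.2 fun x => ?_
  have hb : BoundedVariationOn u univ := hf
  have h1 := hb.tendsto_eVariationOn_Icc_zero_left (x := x) hu.continuousWithinAt
  have h2 := hb.tendsto_eVariationOn_Icc_zero_right x hu.continuousWithinAt
  simp only [univ_inter, nhdsWithin_univ] at h1 h2
  have hx : eVariationOn u (Icc 0 x) ≠ ⊤ :=
    ne_top_of_le_ne_top hf (eVariationOn.mono u (subset_univ _))
  refine (ENNReal.tendsto_nhds hx).2 fun e he => ?_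
  filter_upwards [h1.eventually (ge_mem_nhds he), h2.eventually (ge_mem_nhds he)] with y k1 k2
  rcases le_total x y with hxy | hxy
  · rw [← QI_var_add u (a := 0) x.2.1 hxy]
    exact ⟨tsub_le_self.trans le_self_add, add_le_add le_rfl k2⟩
  · rw [← QI_var_add u (a := 0) y.2.1 hxy]
    exact ⟨tsub_le_iff_right.2 (add_le_add le_rfl k1), le_self_add.trans le_self_add⟩

theorem QI_var_cut {u : unitInterval → B} (hu : Continuous u) {s r : ℝ≥0∞} (hs : s ≠ ⊤)
    (hr : r ≠ ⊤) (h : eVariationOn u univ ≤ s + r) :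
    ∃ t, eVariationOn u (Icc 0 t) ≤ s ∧ eVariationOn u (Icc t 1) ≤ r := by
  have e : Icc (0 : unitInterval) 1 = univ := Icc_bot_top
  by_cases h1 : eVariationOn u univ ≤ s
  · refine ⟨1, by rwa [e], ?_⟩
    rw [eVariationOn.subsingleton u (by simp)]
    exact zero_le
  · have hf : eVariationOn u univ ≠ ⊤ := ne_top_of_le_ne_top (ENNReal.add_ne_top.2 ⟨hs, hr⟩) h
    have := intermediate_value_univ (0 : unitInterval) 1 (QI_var_cont hu hf)
    obtain ⟨t, ht⟩ := this (show s ∈ _ from ⟨by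
      rw [eVariationOn.subsingleton u (by simp)]; exact zero_le, by
      rw [e]; exact (not_le.1 h1).le⟩)
    have ht' : eVariationOn u (Icc 0 t) = s := ht
    refine ⟨t, ht'.le, ?_⟩
    rw [← e, ← QI_var_add u (a := 0) (c := 1) t.2.1 t.2.2, ht'] at h
    exact (ENNReal.add_le_add_iff_left hs).1 h

theorem QI_cut (hg : Continuous g) {s : ℝ≥0∞} (hs : s ≠ ⊤) (N : ℕ) :
    ∀ (x y : UCover M m₀) (a : Path x.1 y.1), QIJoins x y a →
      eVariationOn (g ∘ a) univ ≤ (N + 1 : ℕ) * s →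
      ∃ p : ℕ → UCover M m₀, p 0 = x ∧ p (N + 1) = y ∧ ∀ i < N + 1,
        ∃ b, QIJoins (p i) (p (i + 1)) b ∧ eVariationOn (g ∘ b) univ ≤ s := by
  induction N with
  | zero =>
    intro x y a ha hv
    refine ⟨fun i => Nat.casesOn i x fun _ => y, rfl, rfl, fun i hi => ?_⟩
    obtain rfl : i = 0 := by omega
    exact ⟨a, ha, by simpa using hv⟩
  | succ N ih =>
    intro x y a ha hv
    obtain ⟨t, h1, h2⟩ := QI_var_cut (hg.comp a.continuous) hs
      (r := (N + 1 : ℕ) * s) (ENNReal.mul_ne_top (by simp) hs) (by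
        refine hv.trans (le_of_eq ?_)
        push_cast; ring)
    obtain ⟨z, a₁, a₂, j1, j2, e1, e2⟩ := ha.split t
    obtain ⟨p, p0, pN, hp⟩ := ih z y a₂ j2
      ((QI_var_sub (g ∘ a) (g ∘ a₂) (t := 1) t.2.2 fun r => congrArg g (e2 r)).trans h2)
    refine ⟨fun i => Nat.casesOn i x p, rfl, pN, fun i hi => ?_⟩
    cases i with
    | zero =>
      subst p0
      exact ⟨a₁, j1, (QI_var_sub (g ∘ a) (g ∘ a₁) (s := 0) t.2.1 fun r => congrArg g (e1 r)).trans h1⟩
    | succ i => exact hp i (by omega)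

theorem QI_chain (hg : Continuous g) {s : ℝ} (hs : 0 < s) (x y : UCover M m₀)
    (hf : ulen g x y ≠ ⊤) : ∃ (N : ℕ) (p : ℕ → UCover M m₀), p 0 = x ∧ p N = y ∧
      (∀ i < N, ∃ b, QIJoins (p i) (p (i + 1)) b ∧ eVariationOn (g ∘ b) univ ≤ ENNReal.ofReal s) ∧
      (N : ℝ) ≤ (ulen g x y).toReal / s + 2 := by
  obtain ⟨d, hd⟩ : ∃ d, d = (ulen g x y).toReal := ⟨_, rfl⟩
  have hd0 : 0 ≤ d := hd ▸ ENNReal.toReal_nonneg
  have h1 : ulen g x y < (⌈d / s⌉₊ + 1 : ℕ) * ENNReal.ofReal s := by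
    rw [← ENNReal.ofReal_toReal hf, ← hd, ← ENNReal.ofReal_natCast,
      ← ENNReal.ofReal_mul (Nat.cast_nonneg _)]
    have h2 := Nat.le_ceil (d / s)
    rw [div_le_iff₀ hs] at h2
    refine (ENNReal.ofReal_lt_ofReal_iff (by positivity)).2 ?_
    push_cast
    nlinarith
  obtain ⟨a, ha, hv⟩ := QI_ulen_lt g h1
  obtain ⟨p, p0, pN, hp⟩ := QI_cut g hg ENNReal.ofReal_ne_top _ x y a ha hv.le
  refine ⟨_, p, p0, pN, hp, ?_⟩
  have := Nat.ceil_lt_add_one (div_nonneg hd0 hs.le)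
  rw [← hd]
  push_cast
  linarith

theorem QI_fin {S : Type} [PseudoMetricSpace S] (f : M → S) (hf : Continuous f) {η : ℝ}
    (hη : 0 < η) (h : ∀ (x y : UCover M m₀) (a : Path x.1 y.1), QIJoins x y a →
      (∀ t, dist (f x.1) (f (a t)) < η) → ulen g x y ≠ ⊤) (x y : UCover M m₀) :
    ulen g x y ≠ ⊤ := by
  have key : ∀ (n : ℕ) (x y : UCover M m₀) (a : Path x.1 y.1), QIJoins x y a →
      (∀ s t : unitInterval, |(s : ℝ) - t| ≤ 1 / (n + 1) → dist (f (a s)) (f (a t)) < η) →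
      ulen g x y ≠ ⊤ := by
    intro n
    induction n with
    | zero =>
      intro x y a ha hs
      refine h x y a ha fun t => ?_
      have := hs 0 t (by simpa [abs_of_nonneg t.2.1] using t.2.2)
      simpa using this
    | succ n ih =>
      intro x y a ha hs
      have hn : (0 : ℝ) < n + 1 := by positivity
      obtain ⟨t, ht⟩ : ∃ t : unitInterval, (t : ℝ) = 1 / (n + 1 + 1) :=
        ⟨⟨_, by positivity, by rw [div_le_one (by positivity)]; linarith⟩, rfl⟩
      obtain ⟨z, a₁, a₂, j1, j2, e1, e2⟩ := ha.split t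
      refine ne_top_of_le_ne_top (ENNReal.add_ne_top.2 ⟨h x z a₁ j1 fun r => ?_,
        ih z y a₂ j2 fun r r' hr => ?_⟩) (QI_ulen_tri g x z y)
      · have := hs 0 (Icc.convexComb 0 t r) (by
          rw [Icc.coe_convexComb]
          push_cast
          rw [← ht, abs_le]
          constructor <;> nlinarith [r.2.1, r.2.2, t.2.1])
        rw [e1]
        simpa using this
      · rw [e2, e2]
        refine hs _ _ ?_
        rw [Icc.coe_convexComb, Icc.coe_convexComb]
        push_cast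
        have e : (1 - (r : ℝ)) * t + r * 1 - ((1 - r') * t + r' * 1) = (1 - t) * (r - r') := by
          ring
        rw [e, abs_mul, abs_of_nonneg (by linarith [t.2.2] : (0 : ℝ) ≤ 1 - t)]
        calc (1 - (t : ℝ)) * |(r : ℝ) - r'| ≤ (1 - t) * (1 / (n + 1)) :=
              mul_le_mul_of_nonneg_left hr (by linarith [t.2.2])
          _ = 1 / (n + 1 + 1) := by rw [ht]; field_simp; ring
  obtain ⟨a, ha⟩ := QI_exists_joins x y
  obtain ⟨δ, hδ, hu⟩ := Metric.uniformContinuous_iff.1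
    (CompactSpace.uniformContinuous_of_continuous (hf.comp a.continuous)) η hη
  obtain ⟨n, hn⟩ := exists_nat_one_div_lt hδ
  exact key n x y a ha fun s t hst => hu (by
    rw [Subtype.dist_eq, Real.dist_eq]; exact hst.trans_lt hn)

end QIaux

theorem QI_small {M S : Type} [EMetricSpace M] [MetricSpace S] [CompactSpace S]
    (f : M ≃ₜ S) {ε : ℝ} (h : LocK S ε) (hl : IsLen M) (m₀ : M) :
    ∃ η > 0, ∀ (x y : UCover M m₀) (a : Path x.1 y.1), QIJoins x y a →
      (∀ t, dist (f x.1) (f (a t)) < η) → ulen id x y ≤ 1 ∧ ulen f x y ≤ 1 := by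
  have : CompactSpace M := f.symm.compactSpace
  have hε := h.pos
  obtain ⟨r, hr, h1⟩ := EMetric.uniformContinuous_iff.1
    (CompactSpace.uniformContinuous_of_continuous f.continuous) (ENNReal.ofReal (ε / 4))
    (ENNReal.ofReal_pos.2 (by positivity))
  obtain ⟨e, he, h2⟩ := EMetric.uniformContinuous_iff.1
    (CompactSpace.uniformContinuous_of_continuous f.symm.continuous) (min r 1)
    (lt_min hr one_pos)
  obtain ⟨η₀, -, k1, k2⟩ := ENNReal.lt_iff_exists_real_btwn.1 he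
  have hη₀ : 0 < η₀ := ENNReal.ofReal_pos.1 k1
  refine ⟨min η₀ (min (ε / 4) 1), by positivity, fun x y a ha hs => ?_⟩
  have hxy : dist (f x.1) (f y.1) < min η₀ (min (ε / 4) 1) := by simpa using hs 1
  have hom : ∀ b : Path x.1 y.1, (∀ t, dist (f x.1) (f (b t)) < ε / 4) → QIJoins x y b := by
    intro b hb
    have k := (h.homotopic (p := f x.1) (a.map f.continuous) (b.map f.continuous)
      (fun t => (hs t).trans_le ((min_le_right _ _).trans (min_le_left _ _))) hb).map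
        ⟨f.symm, f.symm.continuous⟩
    have k' := k.pathCast (f.symm_apply_apply x.1).symm (f.symm_apply_apply y.1).symm
    refine ha.congr ?_
    convert k' using 1 <;> ext t <;> simp
  constructor
  · have k : edist x.1 y.1 < min r 1 := by
      have := h2 (a := f x.1) (b := f y.1) (by
        refine lt_trans ?_ k2
        rw [edist_dist]
        exact (ENNReal.ofReal_lt_ofReal_iff hη₀).2 (hxy.trans_le (min_le_left _ _)))
      simpa using this
    obtain ⟨b, hb⟩ := hl _ _ _ k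
    have j : QIJoins x y b := hom b fun t => by
      have k1 : edist (b 0) (b t) ≤ eVariationOn b univ :=
        eVariationOn.edist_le b (mem_univ _) (mem_univ _)
      rw [b.source] at k1
      have := h1 (k1.trans_lt (hb.trans_le (min_le_left _ _)))
      rwa [edist_dist, ENNReal.ofReal_lt_ofReal_iff (by positivity)] at this
    exact (QI_ulen_le id j).trans (hb.le.trans (min_le_right _ _))
  · have k4 : dist (f x.1) (f y.1) < ε / 4 :=
      hxy.trans_le ((min_le_right _ _).trans (min_le_left _ _))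
    obtain ⟨c, hc, hv⟩ := h.exists_path (y := f x.1) (z := f y.1) (by linarith)
    let b : Path x.1 y.1 := (c.map f.symm.continuous).cast (f.symm_apply_apply x.1).symm
      (f.symm_apply_apply y.1).symm
    have eb : f ∘ b = c := by
      ext t
      simp [b]
    have j : QIJoins x y b := hom b fun t => by
      have k1 := hc 0 t
      rw [c.source] at k1
      have k3 : f (b t) = c t := congrFun eb t
      rw [k3, k1]
      have : |((0 : unitInterval) : ℝ) - t| ≤ 1 := by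
        simpa [abs_of_nonneg t.2.1] using t.2.2
      nlinarith [dist_nonneg (x := f x.1) (y := f y.1)]
    refine (QI_ulen_le f j).trans ?_
    rw [eb, hv, edist_dist]
    exact ENNReal.ofReal_le_one.2 (hxy.le.trans ((min_le_right _ _).trans (min_le_right _ _)))

/-- Two length structures on a compact space have quasi-isometric lifts. -/
theorem ulen_qi {M S : Type} [EMetricSpace M] [MetricSpace S] [CompactSpace S]
    [ConnectedSpace S] (f : M ≃ₜ S) {ε : ℝ} (h : LocK S ε) (hl : IsLen M) (m₀ : M) :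
    CoarseLen (udist (m₀ := m₀)) ∧ ∃ L : ℝ, ∀ x y : UCover M m₀,
      udist x y ≤ L * (ulen f x y).toReal + L ∧ (ulen f x y).toReal ≤ L * udist x y + L := by
  have : CompactSpace M := f.symm.compactSpace
  obtain ⟨η, hη, hs⟩ := QI_small f h hl m₀
  have f1 : ∀ x y : UCover M m₀, ulen id x y ≠ ⊤ := QI_fin id f f.continuous hη
    fun x y a ha k => ne_top_of_le_ne_top ENNReal.one_ne_top (hs x y a ha k).1
  have f2 : ∀ x y : UCover M m₀, ulen f x y ≠ ⊤ := QI_fin f f f.continuous hη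
    fun x y a ha k => ne_top_of_le_ne_top ENNReal.one_ne_top (hs x y a ha k).2
  refine ⟨⟨fun x => ?_, fun x y => ?_, fun x y z => ?_, fun x y => ?_⟩, ?_⟩
  · rw [udist_eq, QI_ulen_self]; rfl
  · rw [udist_eq, udist_eq, QI_ulen_symm]
  · rw [udist_eq, udist_eq, udist_eq, ← ENNReal.toReal_add (f1 _ _) (f1 _ _)]
    exact ENNReal.toReal_mono (ENNReal.add_ne_top.2 ⟨f1 _ _, f1 _ _⟩) (QI_ulen_tri id x y z)
  · obtain ⟨N, p, p0, pN, hp, hN⟩ := QI_chain id continuous_id one_pos x y (f1 x y)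
    refine ⟨N, p, p0, pN, fun i hi => ?_, by simpa [udist_eq] using hN⟩
    obtain ⟨b, j, hb⟩ := hp i hi
    rw [udist_eq]
    exact ENNReal.toReal_le_of_le_ofReal zero_le_one ((QI_ulen_le id j).trans hb)
  · obtain ⟨r, hr, h1⟩ := EMetric.uniformContinuous_iff.1
      (CompactSpace.uniformContinuous_of_continuous f.continuous) (ENNReal.ofReal η)
      (ENNReal.ofReal_pos.2 hη)
    obtain ⟨r₀, -, k1, k2⟩ := ENNReal.lt_iff_exists_real_btwn.1 hr
    have hr₀ : 0 < r₀ := ENNReal.ofReal_pos.1 k1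
    obtain ⟨s, hs0, s1, s2⟩ : ∃ s : ℝ, 0 < s ∧ s ≤ r₀ ∧ s < η :=
      ⟨min r₀ (η / 2), by positivity, min_le_left _ _, (min_le_right _ _).trans_lt (by linarith)⟩
    have fin : ∀ (N : ℕ) (u : ℝ≥0∞) (d : ℝ), 0 ≤ d → u ≤ N → (N : ℝ) ≤ d / s + 2 →
        u.toReal ≤ (1 / s + 2) * d + (1 / s + 2) := by
      intro N u d hd hu hN
      have k := ENNReal.toReal_mono (ENNReal.natCast_ne_top N) hu
      rw [ENNReal.toReal_natCast] at k
      have e : d / s = 1 / s * d := by ring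
      have : 0 < 1 / s := by positivity
      nlinarith
    refine ⟨1 / s + 2, fun x y => ⟨?_, ?_⟩⟩
    · obtain ⟨N, p, p0, pN, hp, hN⟩ := QI_chain f f.continuous hs0 x y (f2 x y)
      refine fin N _ _ ENNReal.toReal_nonneg ?_ hN
      rw [← p0, ← pN]
      refine QI_ulen_chain id p N fun i hi => ?_
      obtain ⟨b, j, hb⟩ := hp i hi
      refine (hs _ _ b j fun t => ?_).1
      have k : edist ((f ∘ b) 0) ((f ∘ b) t) ≤ _ :=
        (eVariationOn.edist_le (f ∘ b) (mem_univ _) (mem_univ _)).trans hb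
      simp only [Function.comp, b.source] at k
      rw [edist_dist, ENNReal.ofReal_le_ofReal_iff hs0.le] at k
      linarith
    · obtain ⟨N, p, p0, pN, hp, hN⟩ := QI_chain id continuous_id hs0 x y (f1 x y)
      refine fin N _ _ ENNReal.toReal_nonneg ?_ hN
      rw [← p0, ← pN]
      refine QI_ulen_chain f p N fun i hi => ?_
      obtain ⟨b, j, hb⟩ := hp i hi
      refine (hs _ _ b j fun t => ?_).2
      have k : edist ((id ∘ b) 0) ((id ∘ b) t) ≤ _ :=
        (eVariationOn.edist_le (id ∘ b) (mem_univ _) (mem_univ _)).trans hb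
      simp only [Function.comp, b.source, id] at k
      have := h1 (k.trans_lt ((ENNReal.ofReal_le_ofReal s1).trans_lt k2))
      rwa [edist_dist, ENNReal.ofReal_lt_ofReal_iff hη] at this

end Pool.Agent.MP_39b1da_gt

end

section

set_option autoImplicit false

namespace Pool.Agent.MP_39b1da_gt

open Filter Topology Set Real Matrix
open scoped ENNReal NNReal ContDiff InnerProductSpace

namespace Lat

variable {m : ℕ}

/-- Coordinates on Minkowski space. -/
noncomputable def co (m : ℕ) : (ℝ × Euc m) ≃ₗ[ℝ] (Fin (m + 4 + 1) → ℝ) where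
  toFun v := Fin.cons v.1 fun i => v.2 i
  invFun x := (x 0, WithLp.toLp 2 fun i => x i.succ)
  map_add' v w := by
    ext i
    induction i using Fin.cases <;> simp
  map_smul' c v := by
    ext i
    induction i using Fin.cases <;> simp
  left_inv v := by simp
  right_inv x := by
    ext i
    induction i using Fin.cases <;> simp

lemma co_zero (v : ℝ × Euc m) : co m v 0 = v.1 := rfl

lemma co_succ (v : ℝ × Euc m) (i : Fin (m + 4)) : co m v i.succ = v.2 i := rfl

lemma co_lor (v w : ℝ × Euc m) : lor v w = co m v ⬝ᵥ Jm (m + 4) *ᵥ co m w := by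
  rw [form_vec]
  simp only [co_zero, co_succ, lor, PiLp.inner_apply, RCLike.inner_apply, conj_trivial]
  simp [mul_comm]

lemma co_e0 : co m (1, 0) = Pi.single 0 1 := by
  ext i
  induction i using Fin.cases with
  | zero => simp [co_zero]
  | succ i => simp [co_succ]

lemma co_lat (x : Fin (m + 4 + 1) → Rg) :
    co m (lat (fun i => (x i).re) fun i => (x i).im) = dg (m + 4) rs *ᵥ (sg ∘ x) := by
  ext i
  rw [dg, mulVec_diagonal]
  induction i using Fin.cases with
  | zero => simp [co_zero, lat, rs, sg_apply]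
  | succ i => simp [co_succ, lat, sg_apply]

/-- The matrix of a Lorentz transformation. -/
noncomputable def toM (g : Lor (Euc m)) : Mat (m + 4) ℝ :=
  LinearMap.toMatrix' ((co m).toLinearMap ∘ₗ g.1.toLinearEquiv.toLinearMap ∘ₗ
    (co m).symm.toLinearMap)

lemma toM_vec (g : Lor (Euc m)) (v : ℝ × Euc m) : toM g *ᵥ co m v = co m (g.1 v) := by
  rw [toM, LinearMap.toMatrix'_mulVec]
  simp

lemma mat_ext {A B : Mat (m + 4) ℝ} (h : ∀ v, A *ᵥ co m v = B *ᵥ co m v) : A = B := by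
  ext i j
  obtain ⟨v, hv⟩ := (co m).surjective (Pi.single j 1)
  have := congrFun (h v) i
  simpa [hv] using this

lemma toM_mul (g h : Lor (Euc m)) : toM (g * h) = toM g * toM h :=
  mat_ext fun v => by rw [← mulVec_mulVec, toM_vec, toM_vec, toM_vec]; rfl

lemma toM_one : toM (1 : Lor (Euc m)) = 1 :=
  mat_ext fun v => by rw [toM_vec, one_mulVec]; rfl

lemma toM_inj : Function.Injective (toM (m := m)) := by
  intro g h e
  refine Subtype.ext (ContinuousLinearEquiv.ext (funext fun v => (co m).injective ?_))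
  rw [← toM_vec, ← toM_vec, e]

lemma bil_eq {n : ℕ} (P Q : Mat n ℝ) (v w : Fin (n + 1) → ℝ) :
    v ⬝ᵥ (Pᵀ * Q * P) *ᵥ w = (P *ᵥ v) ⬝ᵥ Q *ᵥ (P *ᵥ w) := by
  rw [Matrix.mul_assoc, ← mulVec_mulVec, dotProduct_mulVec, vecMul_transpose, mulVec_mulVec]

lemma toM_unit (g : Lor (Euc m)) : (toM g)ᵀ * Jm (m + 4) * toM g = Jm (m + 4) := by
  ext i j
  obtain ⟨v, hv⟩ := (co m).surjective (Pi.single i 1)
  obtain ⟨w, hw⟩ := (co m).surjective (Pi.single j 1)
  have := bil_eq (toM g) (Jm (m + 4)) (co m v) (co m w)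
  rw [toM_vec, toM_vec, ← co_lor, g.2.1, co_lor, hv, hw] at this
  simpa using this

lemma toM_00 (g : Lor (Euc m)) : toM g 0 0 = cosh (dist (g • Hyp.mk 0) (Hyp.mk (0 : Euc m))) := by
  have e : lift (Hyp.mk (0 : Euc m)) = (1, 0) := by simp [lift]
  have := congrFun (toM_vec g (1, 0)) 0
  rw [co_e0, co_zero] at this
  rw [cosh_dist, lift_smul, e]
  simp only [mulVec_single_one, col_apply] at this
  simp [lor, this]

lemma exists_toM {M : Mat (m + 4) ℝ} (hM : Mᵀ * Jm (m + 4) * M = Jm (m + 4)) (h0 : 0 < M 0 0) :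
    ∃ g : Lor (Euc m), toM g = M := by
  have hd : IsUnit M.det := by
    rw [isUnit_iff_ne_zero, ← abs_pos, abs_det hM]
    exact one_pos
  let e : (ℝ × Euc m) ≃ₗ[ℝ] (ℝ × Euc m) :=
    ((co m).trans (Matrix.toLinearEquiv' M (invertibleOfIsUnitDet M hd))).trans (co m).symm
  have he : ∀ v, co m (e.toContinuousLinearEquiv v) = M *ᵥ co m v := by
    intro v
    change co m ((co m).symm (Matrix.toLin' M (co m v))) = _
    simp
  refine ⟨⟨e.toContinuousLinearEquiv, mem_lor (fun v w => ?_) ?_⟩, mat_ext fun v => ?_⟩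
  · rw [co_lor, he, he, ← bil_eq, hM, co_lor]
  · rw [← co_zero, he, co_e0]
    simpa using h0
  · rw [toM_vec, he]

lemma cong_of {g : Lor (Euc m)} {X : Mat (m + 4) Rg}
    (h : toM g = cj sg rs0 (1 + (4 : Rg) • X)) : Cong4 g := by
  intro a b
  let x : Fin (m + 4 + 1) → Rg := fun i => ⟨a i, b i⟩
  refine ⟨fun i => ((X *ᵥ x) i).re, fun i => ((X *ᵥ x) i).im, (co m).injective ?_⟩
  have e1 : lat a b = lat (fun i => (x i).re) fun i => (x i).im := rfl
  rw [← toM_vec, e1, co_lat, h, cj_vec, ← co_lat]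
  congr 2 <;> ext i <;> simp [x, add_mulVec, smul_mulVec, QuadraticAlgebra.re_ofNat,
    QuadraticAlgebra.im_ofNat]

lemma of_cong {g : Lor (Euc m)} (h : Cong4 g) :
    ∃ X : Mat (m + 4) Rg, toM g = cj sg rs0 (1 + (4 : Rg) • X) := by
  choose a b hab using fun j : Fin (m + 4 + 1) =>
    h (fun i => ((Pi.single j 1 : Fin (m + 4 + 1) → Rg) i).re)
      fun i => ((Pi.single j 1 : Fin (m + 4 + 1) → Rg) i).im
  let X : Mat (m + 4) Rg := Matrix.of fun i j => ⟨a j i, b j i⟩
  refine ⟨X, ?_⟩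
  have key : toM g * dg (m + 4) rs = cj sg rs0 (1 + (4 : Rg) • X) * dg (m + 4) rs := by
    ext i j
    have e0 : sg ∘ (Pi.single j 1 : Fin (m + 4 + 1) → Rg) = Pi.single j 1 := by
      ext l
      by_cases hl : l = j <;> simp [hl]
    have e1 := toM_vec g (lat (fun i => ((Pi.single j 1 : Fin (m + 4 + 1) → Rg) i).re)
      fun i => ((Pi.single j 1 : Fin (m + 4 + 1) → Rg) i).im)
    have e2 := cj_vec sg rs0 (1 + (4 : Rg) • X) (Pi.single j 1)
    have e3 : dg (m + 4) rs *ᵥ (sg ∘ ((1 + (4 : Rg) • X) *ᵥ Pi.single j 1)) =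
        co m (lat ((fun i => ((Pi.single j 1 : Fin (m + 4 + 1) → Rg) i).re) + 4 • a j)
          ((fun i => ((Pi.single j 1 : Fin (m + 4 + 1) → Rg) i).im) + 4 • b j)) := by
      rw [← co_lat]
      congr 2 <;> ext i <;> simp [X, one_apply, Pi.single_apply, QuadraticAlgebra.re_ofNat,
        QuadraticAlgebra.im_ofNat]
    rw [hab, co_lat, ← e3, ← e2, e0, mulVec_mulVec, mulVec_mulVec] at e1
    simpa using congrFun e1 i
  have := congrArg (fun M => M * dg (m + 4) rs⁻¹) key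
  simpa only [Matrix.mul_assoc, dg_inv rs0, Matrix.mul_one] using this

lemma toM_inv_eq {g : Lor (Euc m)} {a : Gs (m + 4)} (h : toM g = rho (m + 4) a) :
    toM g⁻¹ = rho (m + 4) a⁻¹ := by
  calc toM g⁻¹ = toM g⁻¹ * (rho (m + 4) a * rho (m + 4) a⁻¹) := by
        rw [← map_mul, mul_inv_cancel, map_one, Matrix.mul_one]
    _ = rho (m + 4) a⁻¹ := by
        rw [← h, ← Matrix.mul_assoc, ← toM_mul, inv_mul_cancel, toM_one, Matrix.one_mul]

lemma mem_iff {g : Lor (Euc m)} : g ∈ Gam4 m ↔ ∃ a : Gs (m + 4), toM g = rho (m + 4) a := by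
  constructor
  · rintro ⟨h1, h2⟩
    obtain ⟨X, hX⟩ := of_cong h1
    obtain ⟨Y, hY⟩ := of_cong h2
    have e : (1 + (4 : Rg) • X) * (1 + (4 : Rg) • Y) = 1 := by
      refine cj_inj sg_inj rs0 ?_
      rw [map_mul, ← hX, ← hY, ← toM_mul, mul_inv_cancel, toM_one, map_one]
    refine ⟨⟨⟨_, _, e, mul_eq_one_comm.1 e⟩, of_unit_sg ?_, X, rfl⟩, hX⟩
    change (cj sg rs0 (1 + (4 : Rg) • X))ᵀ * _ * cj sg rs0 (1 + (4 : Rg) • X) = _
    rw [← hX]
    exact toM_unit g
  · rintro ⟨a, ha⟩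
    obtain ⟨X, hX⟩ := a.2.2
    obtain ⟨Y, hY⟩ := (a⁻¹).2.2
    exact ⟨cong_of (by rw [ha, rho_apply, hX]), cong_of (by rw [toM_inv_eq ha, rho_apply, hY])⟩

lemma exists_pm (a : Gs (m + 4)) :
    ∃ g : Lor (Euc m), toM g = rho (m + 4) a ∨ toM g = -rho (m + 4) a := by
  have h1 := one_le_abs (rho_unit a)
  rcases lt_trichotomy (rho (m + 4) a 0 0) 0 with h | h | h
  · obtain ⟨g, hg⟩ := exists_toM (M := -rho (m + 4) a) (by simpa using rho_unit a)
      (by simpa using h)
    exact ⟨g, Or.inr hg⟩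
  · rw [h, abs_zero] at h1
    linarith
  · obtain ⟨g, hg⟩ := exists_toM (rho_unit a) h
    exact ⟨g, Or.inl hg⟩

lemma dist_le_of {g : Lor (Euc m)} {C : ℝ} (h : |toM g 0 0| ≤ C) :
    dist (g • Hyp.mk 0) (Hyp.mk (0 : Euc m)) ≤ C := by
  rw [toM_00] at h
  have h1 := Real.self_le_sinh_iff.2 (dist_nonneg (x := g • Hyp.mk 0) (y := Hyp.mk (0 : Euc m)))
  linarith [le_abs_self (cosh (dist (g • Hyp.mk 0) (Hyp.mk (0 : Euc m)))),
    Real.sinh_lt_cosh (dist (g • Hyp.mk 0) (Hyp.mk (0 : Euc m)))]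

lemma cocpt_pm (m : ℕ) : ∃ C : ℝ, ∀ x : Hyp (Euc m), ∃ (g : Lor (Euc m)) (a : Gs (m + 4)),
    (toM g = rho (m + 4) a ∨ toM g = -rho (m + 4) a) ∧ dist (g • x) (Hyp.mk 0) ≤ C := by
  obtain ⟨C, hC⟩ := rho_cocpt (m + 4)
  refine ⟨C, fun x => ?_⟩
  obtain ⟨k, hk, -⟩ := exists_boost x
  obtain ⟨a, ha⟩ := hC (toM k) (toM_unit k)
  obtain ⟨g, hg⟩ := exists_pm a
  have h1 : |toM (k * g) 0 0| ≤ C := by
    rw [toM_mul]
    rcases hg with hg | hg <;> rw [hg] <;> simpa using ha
  have h2 := dist_le_of h1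
  refine ⟨g⁻¹, a⁻¹, ?_, ?_⟩
  · rcases hg with hg | hg
    · exact Or.inl (toM_inv_eq hg)
    · right
      calc toM g⁻¹ = toM g⁻¹ * (rho (m + 4) a * rho (m + 4) a⁻¹) := by
            rw [← map_mul, mul_inv_cancel, map_one, Matrix.mul_one]
        _ = -(toM g⁻¹ * toM g * rho (m + 4) a⁻¹) := by
            rw [hg]; simp [Matrix.mul_assoc]
        _ = -rho (m + 4) a⁻¹ := by rw [← toM_mul, inv_mul_cancel, toM_one, Matrix.one_mul]
  · rw [← dist_smul_lor (k * g), mul_smul, smul_inv_smul, hk, dist_comm]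
    exact h2

end Lat

open _root_.Pool.Agent.MP_39b1da_gt.Lat in
theorem isUnif_gam4 (m : ℕ) : IsUnif (Gam4 m) where
  free := by
    intro g hg x hx
    obtain ⟨a, ha⟩ := mem_iff.1 hg
    obtain ⟨k, hk, -⟩ := exists_boost x
    have h1 : (k * g * k⁻¹) • Hyp.mk (0 : Euc m) = Hyp.mk 0 := by
      rw [← hk, mul_smul, inv_smul_smul, mul_smul, hx]
    have h2 := orth_of_fix (toM_unit (k * g * k⁻¹)) (by rw [toM_00, h1]; simp)
    rw [toM_mul, toM_mul, ha] at h2
    have h3 := rho_free a (toM_unit k) (by rw [← toM_mul, inv_mul_cancel, toM_one]) h2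
    refine toM_inj ?_
    rw [ha, h3, map_one, toM_one]
  proper := by
    intro x R
    refine (((rho_fin (cosh (R + 2 * dist x (Hyp.mk 0)))).image (rho (m + 4))).preimage
      toM_inj.injOn).subset ?_
    rintro g ⟨hg, hR⟩
    obtain ⟨a, ha⟩ := mem_iff.1 hg
    refine ⟨a, ?_, ha.symm⟩
    have h1 : dist (g • Hyp.mk 0) (Hyp.mk (0 : Euc m)) ≤ R + 2 * dist x (Hyp.mk 0) := by
      have := dist_triangle4 (g • Hyp.mk 0) (g • x) x (Hyp.mk (0 : Euc m))
      rw [dist_smul_lor, dist_comm (Hyp.mk 0) x] at this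
      linarith
    change |rho (m + 4) a 0 0| ≤ _
    rw [← ha, toM_00, abs_of_pos (cosh_pos _), cosh_le_cosh, abs_of_nonneg dist_nonneg]
    exact h1.trans (le_abs_self _)
  cocpt := by
    obtain ⟨C, hC⟩ := cocpt_pm m
    by_cases h : ∃ (g : Lor (Euc m)) (a : Gs (m + 4)), toM g = -rho (m + 4) a
    · obtain ⟨b, a₀, hb⟩ := h
      refine ⟨C + dist (b • Hyp.mk (0 : Euc m)) (Hyp.mk 0), fun x => ?_⟩
      obtain ⟨g, a, hg | hg, hd⟩ := hC x
      · exact ⟨g, mem_iff.2 ⟨a, hg⟩, hd.trans (le_add_of_nonneg_right dist_nonneg)⟩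
      · refine ⟨b * g, mem_iff.2 ⟨a₀ * a, ?_⟩, ?_⟩
        · rw [toM_mul, hb, hg, map_mul]
          simp
        · have := dist_triangle (b • g • x) (b • Hyp.mk 0) (Hyp.mk (0 : Euc m))
          rw [dist_smul_lor] at this
          rw [mul_smul]
          linarith
    · refine ⟨C, fun x => ?_⟩
      obtain ⟨g, a, hg | hg, hd⟩ := hC x
      · exact ⟨g, mem_iff.2 ⟨a, hg⟩, hd⟩
      · exact absurd ⟨g, a, hg⟩ h

end Pool.Agent.MP_39b1da_gt

end

section

/-!
The four families of walls, moved so that the origin lies off the walls of colours `0` and `2`.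
-/

set_option autoImplicit false

namespace Pool.Agent.MP_39b1da_gt

open Filter Topology Set Real
open scoped ENNReal NNReal ContDiff InnerProductSpace

theorem wUnif_conj {E : Type} [NormedAddCommGroup E] [InnerProductSpace ℝ E]
    {Γ : Subgroup (Lor E)} (h : IsUnif Γ) (k : Lor E) :
    IsUnif (Γ.comap (MulAut.conj k).toMonoidHom) := by
  have hm : ∀ g, g ∈ Γ.comap (MulAut.conj k).toMonoidHom ↔ k * g * k⁻¹ ∈ Γ := fun _ => Iff.rfl
  refine ⟨fun g hg x hx => ?_, fun x R => ?_, ?_⟩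
  · have := h.free _ ((hm g).1 hg) (k • x) (by rw [mul_smul, mul_smul, inv_smul_smul, hx])
    simpa using this
  · refine (h.proper (k • x) R).preimage (f := fun g => k * g * k⁻¹)
      (MulAut.conj k).injective.injOn |>.subset fun g hg => ⟨(hm g).1 hg.1, ?_⟩
    rw [mul_smul, mul_smul, inv_smul_smul, dist_smul_lor]
    exact hg.2
  · obtain ⟨R, hR⟩ := h.cocpt
    refine ⟨R + dist (Hyp.mk (0 : E)) (k • Hyp.mk 0), fun x => ?_⟩
    obtain ⟨g, hg, e⟩ := hR (k • x)
    refine ⟨k⁻¹ * g * k, (hm _).2 (by simpa [mul_assoc] using hg), ?_⟩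
    rw [← dist_smul_lor k, mul_smul, mul_smul, smul_inv_smul]
    linarith [dist_triangle (g • k • x) (Hyp.mk 0) (k • Hyp.mk 0)]

theorem exists_walls (m : ℕ) : Nonempty (Walls m) := by
  obtain ⟨w, hw⟩ := wGen0 (m := m)
  obtain ⟨h, h1, h2⟩ := exists_boost (Hyp.mk (I1 m w))
  have h3 : ∀ j, (h⁻¹).1 (wE j) = wE j := fun j => wInv_fix (h2 _ (by
    simpa [lor, wE, lift] using wIn_I1 (m := m) w j))
  have h4 : h⁻¹ • Hyp.mk 0 = Hyp.mk (I1 m w) := by rw [← h1, inv_smul_smul]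
  generalize h⁻¹ = k at h3 h4
  have e1 : ∀ v, k.1 ((k⁻¹).1 v) = v := fun v => k.1.apply_symm_apply v
  have e2 : ∀ v, (k⁻¹).1 (k.1 v) = v := fun v => k.1.symm_apply_apply v
  have e3 : ∀ (x : Hyp (Euc m)) v, lor (lift (k • x)) (k.1 v) = lor (lift x) v := fun x v => by
    rw [lift_smul, k.2.1]
  refine ⟨{ Γ := (Gam4 m).comap (MulAut.conj k).toMonoidHom
            S := fun c => k.1 ⁻¹' wS m c
            unif := wUnif_conj (isUnif_gam4 m) k
            unit := fun c v hv => (k.2.1 v v).symm.trans hv.1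
            neg := fun c v hv => ?_
            same := fun c v hv w hw => ?_
            diff := fun c c' hc v hv w hw => ?_
            fin := fun c x R => ?_
            inv := fun g hg c v hv => ?_
            w1 := ?_
            w3 := ?_
            gen0 := fun c hc v hv h0 => ?_
            gen := ?_
            quad := ?_
            dense := ⟨7, fun x y hxy => ?_⟩ }⟩
  · rw [Set.mem_preimage, map_neg]
    exact wS_neg hv
  · have := wS_same hv hw
    rwa [← map_neg, k.1.injective.eq_iff, k.1.injective.eq_iff, k.2.1] at this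
  · have := wS_diff hc hv hw
    rwa [k.2.1] at this
  · refine (wS_fin c (k • x) R).preimage k.1.injective.injOn |>.subset fun v hv => ⟨hv.1, ?_⟩
    rw [e3]
    exact hv.2
  · have := wS_map (wCong_of_cong4 (show k * g * k⁻¹ ∈ Gam4 m from hg).1) hv
    change k.1 (g.1 ((k⁻¹).1 (k.1 v))) ∈ _ at this
    rwa [e2] at this
  · change k.1 (wE 0) ∈ wS m 1
    rw [h3]
    exact wS_w1
  · change k.1 (wE 1) ∈ wS m 3
    rw [h3]
    exact wS_w3
  · refine hw c hc _ hv ?_
    rw [← h4, e3]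
    simp [lor, lift, h0]
  · obtain ⟨x, hx⟩ := wGen (m := m)
    exact ⟨k⁻¹ • x, fun c v hv => by rw [wLor_inv]; exact hx c _ hv⟩
  · obtain ⟨x, hx⟩ := wQuad (m := m)
    refine ⟨k⁻¹ • x, fun c => ?_⟩
    obtain ⟨v, hv, e⟩ := hx c
    exact ⟨(k⁻¹).1 v, by rwa [Set.mem_preimage, e1], by rw [wLor_inv, e1, e]⟩
  · obtain ⟨c, hc, v, hv, a1, a2⟩ := wDense (wIn_smul h3 (wIn_I1 x)) (wIn_smul h3 (wIn_I1 y))
      (by rwa [dist_smul_lor])
    exact ⟨c, hc, (k⁻¹).1 v, by rwa [Set.mem_preimage, e1], by rwa [← e3, e1],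
      by rwa [← e3, e1]⟩

end Pool.Agent.MP_39b1da_gt

end

section

/-!
The sections of the branched cover over the plane attached to a labelling of the lines.
-/

set_option autoImplicit false

namespace Pool.Agent.MP_39b1da_gt

open Filter Topology Set Real
open scoped ENNReal NNReal ContDiff InnerProductSpace

variable {m : ℕ}

/-- The inclusion of the plane. -/
noncomputable def aptI (m : ℕ) (x : Hyp ℂ) : Hyp (Euc m) := Hyp.mk (I1 m x.val)

theorem apt_I1_smul (t : ℝ) (w : ℂ) : I1 m (t • w) = t • I1 m w := by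
  ext i
  simp only [I1, Complex.smul_re, Complex.smul_im, smul_eq_mul, PiLp.add_apply, PiLp.smul_apply,
    PiLp.single_apply, mul_add]
  split_ifs <;> simp

theorem aptI_zero : aptI m (Hyp.mk 0) = Hyp.mk 0 := by
  have := apt_I1_smul (m := m) 0 0
  simp only [zero_smul] at this
  simp only [aptI, Hyp.val_mk, this]

theorem aptI_dist (x y : Hyp ℂ) : dist (aptI m x) (aptI m y) = dist x y := dist_I1 m x y

theorem aptI_isometry : Isometry (aptI m) := Isometry.of_dist_eq aptI_dist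

theorem apt_lor_zero {E : Type} [NormedAddCommGroup E] [InnerProductSpace ℝ E] (v : ℝ × E) :
    lor (lift (Hyp.mk (0 : E))) v = -v.1 := by
  simp [lor, lift]

theorem apt_h_eq {B : Branch m} (l : Lines B) (x : Hyp ℂ) :
    l.h x = lor (lift (aptI m x)) l.1.2 := rfl

theorem apt_h_zero {B : Branch m} (l : Lines B) : l.h (Hyp.mk 0) = -l.1.2.1 := by
  rw [apt_h_eq, aptI_zero, apt_lor_zero]

theorem apt_h_cont {B : Branch m} (l : Lines B) : Continuous l.h := by
  have h := (aptI_isometry (m := m)).continuous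
  have h2 : Continuous fun x : Hyp ℂ => lift (aptI m x) := continuous_lift.comp h
  change Continuous fun x => lor (lift (aptI m x)) l.1.2
  unfold lor
  fun_prop

theorem apt_f_le (B : Branch m) (c : Fin 4) (y : Hyp (Euc m)) {v : ℝ × Euc m} (hv : v ∈ B.S c) :
    |B.f c y| ≤ |lor (lift y) v| := by
  rcases le_total |lor (lift y) v| (1 / 4) with h | h
  · exact (B.f_abs c y v hv h).le
  · exact (B.f_le c y).trans h

/-- The lines of colour `c` that separate `x` from the origin. -/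
def aptL (B : Branch m) (c : Fin 4) (x : Hyp ℂ) : Set (Lines B) := {l | l.1.1 = c ∧ l.h x < 0}

theorem aptL_injOn (B : Branch m) (c : Fin 4) (x : Hyp ℂ) :
    InjOn (fun l : Lines B => l.1.2) (aptL B c x) := fun _ hl _ hl' e =>
  Subtype.ext (Prod.ext (hl.1.trans hl'.1.symm) e)

theorem aptL_finite (B : Branch m) (c : Fin 4) (x : Hyp ℂ) : (aptL B c x).Finite := by
  refine Set.Finite.of_finite_image ?_ (aptL_injOn B c x)
  refine (B.fin c (Hyp.mk 0) (sinh (dist (Hyp.mk 0) (aptI m x)))).subset ?_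
  rintro _ ⟨l, ⟨hc, hl⟩, rfl⟩
  have hS : l.1.2 ∈ B.S c := hc ▸ l.2.2.1
  refine ⟨hS, ?_⟩
  have h1 := arsinh_lor_lip (B.unit c _ hS) (Hyp.mk 0) (aptI m x)
  have h2 : arsinh (lor (lift (aptI m x)) l.1.2) < 0 := arsinh_neg_iff.2 hl
  have h3 : 0 < lor (lift (Hyp.mk (0 : Euc m))) l.1.2 := by
    rw [apt_lor_zero]; linarith [l.2.2.2]
  rw [abs_of_pos h3, ← sinh_arsinh (lor _ _), sinh_le_sinh]
  linarith [le_abs_self (arsinh (lor (lift (Hyp.mk (0 : Euc m))) l.1.2) -
    arsinh (lor (lift (aptI m x)) l.1.2))]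

theorem aptL_ncard (B : Branch m) {c : Fin 4} (hc : c = 0 ∨ c = 2) (x : Hyp ℂ) :
    {v | v ∈ B.S c ∧ v.1 < 0 ∧ lor (lift (aptI m x)) v < 0}.ncard = (aptL B c x).ncard := by
  rw [← (aptL_injOn B c x).ncard_image]
  congr 1
  ext v
  constructor
  · rintro ⟨h1, h2, h3⟩
    exact ⟨⟨(c, v), hc, h1, h2⟩, ⟨rfl, h3⟩, rfl⟩
  · rintro ⟨l, ⟨h1, h2⟩, rfl⟩
    exact ⟨h1 ▸ l.2.2.1, l.2.2.2, h2⟩

theorem aptL_zero (B : Branch m) (c : Fin 4) : aptL B c (Hyp.mk 0) = ∅ := by
  ext l
  simp only [aptL, mem_ofPred_eq, mem_empty_iff_false, iff_false, not_and, not_lt, apt_h_zero]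
  intro _
  linarith [l.2.2.2]

theorem aptL_eq (B : Branch m) (c : Fin 4) {x y : Hyp ℂ}
    (h : dist x y < arsinh |B.f c (aptI m y)|) : aptL B c x = aptL B c y := by
  ext l
  refine and_congr_right fun hc => ?_
  have hS : l.1.2 ∈ B.S c := hc ▸ l.2.2.1
  have h1 := arsinh_lor_lip (B.unit c _ hS) (aptI m x) (aptI m y)
  rw [aptI_dist] at h1
  have h2 := arsinh_le_arsinh.2 (apt_f_le B c (aptI m y) hS)
  have h3 := abs_lt.1 (h1.trans_lt (h.trans_le h2))
  rw [apt_h_eq, apt_h_eq, ← arsinh_neg_iff, ← arsinh_neg_iff (x := lor (lift (aptI m y)) _)]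
  rcases le_total 0 (lor (lift (aptI m y)) l.1.2) with h4 | h4
  · rw [abs_of_nonneg h4] at h3
    have := arsinh_nonneg_iff.2 h4
    constructor <;> intro h5 <;> linarith [h3.1]
  · rw [abs_of_nonpos h4, arsinh_neg] at h3
    have h6 := abs_nonneg (arsinh (lor (lift (aptI m x)) l.1.2) -
      arsinh (lor (lift (aptI m y)) l.1.2))
    have h7 := h1.trans_lt (h.trans_le h2)
    rw [abs_of_nonpos h4, arsinh_neg] at h7
    constructor <;> intro h5 <;> linarith [h3.2]

theorem aptL_mono (B : Branch m) (c : Fin 4) (x : Hyp ℂ) {t : ℝ} (h0 : 0 ≤ t) (h1 : t ≤ 1) :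
    aptL B c (Hyp.mk (t • x.val)) ⊆ aptL B c x := by
  rintro l ⟨hc, hl⟩
  refine ⟨hc, ?_⟩
  have ha := l.2.2.2
  simp only [Lines.h, Hyp.val_mk, apt_I1_smul, lor, lift, inner_smul_left, norm_smul,
    Real.norm_eq_abs, mul_pow, sq_abs, conj_trivial] at hl ⊢
  set n := ‖I1 m x.val‖ ^ 2 with hn
  have hn0 : 0 ≤ n := by positivity
  set b := ⟪I1 m x.val, l.1.2.2⟫_ℝ
  set a := l.1.2.1
  have h2 : t * √(1 + n) ≤ √(1 + t ^ 2 * n) := by
    refine Real.le_sqrt_of_sq_le ?_
    rw [mul_pow, Real.sq_sqrt (by positivity)]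
    nlinarith
  have h3 : 0 < √(1 + t ^ 2 * n) := Real.sqrt_pos.2 (by positivity)
  by_contra hc
  push Not at hc
  have h4 := mul_nonneg h0 hc
  nlinarith

/-- The `2k`-th roots of unity that are not `k`-th roots of unity. -/
noncomputable def aptE (k : ℕ) (j : Fin k) : ℂ :=
  Complex.exp (π * Complex.I / k) * Complex.exp (2 * π * Complex.I / k) ^ (j : ℕ)

theorem aptE_norm (k : ℕ) (j : Fin k) : ‖aptE k j‖ = 1 := by
  have e1 : (π * Complex.I / k : ℂ) = ((π / k : ℝ) : ℂ) * Complex.I := by push_cast; ring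
  have e2 : (2 * π * Complex.I / k : ℂ) = ((2 * π / k : ℝ) : ℂ) * Complex.I := by push_cast; ring
  rw [aptE, norm_mul, norm_pow, e1, e2, Complex.norm_exp_ofReal_mul_I,
    Complex.norm_exp_ofReal_mul_I]
  simp

theorem aptE_pow (k : ℕ) (j : Fin k) : aptE k j ^ k = -1 := by
  have hk : k ≠ 0 := j.pos.ne'
  have hk' : (k : ℂ) ≠ 0 := Nat.cast_ne_zero.2 hk
  rw [aptE, mul_pow, ← pow_mul, mul_comm (j : ℕ) k, pow_mul,
    (Complex.isPrimitiveRoot_exp k hk).pow_eq_one, one_pow, mul_one, ← Complex.exp_nat_mul,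
    mul_div_cancel₀ _ hk', Complex.exp_pi_mul_I]

theorem aptE_inj (k : ℕ) : Function.Injective (aptE k) := by
  intro i j h
  have hk : k ≠ 0 := j.pos.ne'
  exact Fin.ext ((Complex.isPrimitiveRoot_exp k hk).pow_inj i.2 j.2
    (mul_left_cancel₀ (Complex.exp_ne_zero _) h))

/-- The product of the labels of the separating lines. -/
noncomputable def aptZ (B : Branch m) {k : ℕ} (w : Lines B → Fin k) (c : Fin 4) (x : Hyp ℂ) : ℂ :=
  ∏ l ∈ (aptL_finite B c x).toFinset, aptE k (w l)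

theorem aptZ_norm (B : Branch m) {k : ℕ} (w : Lines B → Fin k) (c : Fin 4) (x : Hyp ℂ) :
    ‖aptZ B w c x‖ = 1 := by
  simp [aptZ, norm_prod, aptE_norm]

theorem aptZ_pow (B : Branch m) {k : ℕ} (w : Lines B → Fin k) (c : Fin 4) (x : Hyp ℂ) :
    aptZ B w c x ^ k = (-1) ^ (aptL B c x).ncard := by
  rw [aptZ, ← Finset.prod_pow, Set.ncard_eq_toFinset_card _ (aptL_finite B c x)]
  simp [aptE_pow]

theorem aptZ_congr (B : Branch m) {k : ℕ} (w : Lines B → Fin k) (c : Fin 4) {x y : Hyp ℂ}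
    (h : aptL B c x = aptL B c y) : aptZ B w c x = aptZ B w c y := by
  unfold aptZ
  congr 1
  ext l
  simp [h]

theorem aptZ_congr' (B : Branch m) {k : ℕ} {w w' : Lines B → Fin k} (c : Fin 4) {x : Hyp ℂ}
    (h : ∀ l ∈ aptL B c x, w l = w' l) : aptZ B w c x = aptZ B w' c x :=
  Finset.prod_congr rfl fun l hl => by rw [h l (by simpa using hl)]

theorem aptZ_insert (B : Branch m) {k : ℕ} (w : Lines B → Fin k) (c : Fin 4) {x y : Hyp ℂ}
    {l : Lines B} (hl : l ∉ aptL B c x) (h : aptL B c y = insert l (aptL B c x)) :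
    aptZ B w c y = aptE k (w l) * aptZ B w c x := by
  classical
  have : (aptL_finite B c y).toFinset = insert l (aptL_finite B c x).toFinset := by
    ext l'
    simp [h]
  rw [aptZ, this, Finset.prod_insert (by simpa using hl), aptZ]

/-- The root of the wall function chosen by the labelling. -/
noncomputable def aptR (B : Branch m) {k : ℕ} (w : Lines B → Fin k) (c : Fin 4) (x : Hyp ℂ) : ℂ :=
  ((|B.f c (aptI m x)| : ℝ) : ℂ) * aptZ B w c x

theorem aptR_norm (B : Branch m) {k : ℕ} (w : Lines B → Fin k) (c : Fin 4) (x : Hyp ℂ) :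
    ‖aptR B w c x‖ = |B.f c (aptI m x)| := by
  simp [aptR, aptZ_norm]

theorem aptR_beta (B : Branch m) {k : ℕ} (hk : 1 ≤ k) (w : Lines B → Fin k) {c : Fin 4}
    (hc : c = 0 ∨ c = 2) (x : Hyp ℂ) : beta k (aptR B w c x) = (B.f c (aptI m x) : ℝ) := by
  rw [beta, aptR_norm, aptR, mul_pow, aptZ_pow]
  have h := B.f_sign c hc (aptI m x)
  rw [aptL_ncard B hc] at h
  set r := |B.f c (aptI m x)| with hr
  rw [h]
  obtain ⟨j, rfl⟩ : ∃ j, k = j + 1 := ⟨k - 1, by omega⟩
  rcases eq_or_ne r 0 with h0 | h0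
  · simp [h0]
  · have : (r : ℂ) ≠ 0 := Complex.ofReal_ne_zero.2 h0
    simp only [add_tsub_cancel_right]
    push_cast
    field_simp
    ring

theorem aptR_cont (B : Branch m) {k : ℕ} (w : Lines B → Fin k) (c : Fin 4) :
    Continuous (aptR B w c) := by
  have hf : Continuous fun x : Hyp ℂ => |B.f c (aptI m x)| :=
    ((B.f_cont c).comp aptI_isometry.continuous).abs
  refine continuous_iff_continuousAt.2 fun y => ?_
  rcases (abs_nonneg (B.f c (aptI m y))).eq_or_lt with h | h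
  · have h0 : aptR B w c y = 0 := by rw [← norm_eq_zero, aptR_norm, h]
    rw [ContinuousAt, h0, tendsto_zero_iff_norm_tendsto_zero]
    simp only [aptR_norm]
    rw [h]
    exact hf.tendsto y
  · have h1 : ∀ᶠ x in 𝓝 y, ((|B.f c (aptI m x)| : ℝ) : ℂ) * aptZ B w c y = aptR B w c x := by
      filter_upwards [Metric.ball_mem_nhds y (arsinh_pos_iff.2 h)] with x hx
      rw [aptR, aptZ_congr B w c (aptL_eq B c hx)]
    refine ContinuousAt.congr ?_ h1
    exact ((Complex.continuous_ofReal.comp hf).mul continuous_const).continuousAt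

theorem apt_f_one (B : Branch m) (x : Hyp ℂ) : B.f 1 (aptI m x) = 0 := by
  have h : lor (lift (aptI m x)) ((0 : ℝ), EuclideanSpace.single 2 (1 : ℝ)) = 0 := by
    have e : 2 % (m + 4) = 2 := Nat.mod_eq_of_lt (by omega)
    simp [lor, lift, aptI, I1, EuclideanSpace.inner_single_right, Fin.ext_iff, e]
  have := B.f_abs 1 _ _ B.w1 (by rw [h]; norm_num)
  rw [h] at this
  simpa using this

theorem apt_f_three (B : Branch m) (x : Hyp ℂ) : B.f 3 (aptI m x) = 0 := by
  have h : lor (lift (aptI m x)) ((0 : ℝ), EuclideanSpace.single 3 (1 : ℝ)) = 0 := by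
    have e : 3 % (m + 4) = 3 := Nat.mod_eq_of_lt (by omega)
    simp [lor, lift, aptI, I1, EuclideanSpace.inner_single_right, Fin.ext_iff, e]
  have := B.f_abs 3 _ _ B.w3 (by rw [h]; norm_num)
  rw [h] at this
  simpa using this

/-- The section of the branched cover over the plane. -/
noncomputable def aptS (D : Setup m) {k : ℕ} (hk : 1 ≤ k) (w : Lines D.toBranch → Fin k)
    (x : Hyp ℂ) : BM D k :=
  ⟨(D.q (aptI m x), aptR D.toBranch w 0 x, aptR D.toBranch w 2 x), by
    rw [aptR_beta _ hk w (Or.inl rfl), D.F1_q, apt_f_one]; rfl, by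
    rw [aptR_beta _ hk w (Or.inr rfl), D.F2_q, apt_f_three]; rfl⟩

theorem apt_q_lip (D : Setup m) : LipschitzWith 1 D.q :=
  LipschitzWith.of_dist_le_mul fun x y => by simpa using D.q_lip x y

theorem aptS_cont (D : Setup m) {k : ℕ} (hk : 1 ≤ k) (w : Lines D.toBranch → Fin k) :
    Continuous (aptS D hk w) :=
  Continuous.subtype_mk (((apt_q_lip D).continuous.comp aptI_isometry.continuous).prodMk
    ((aptR_cont _ w 0).prodMk (aptR_cont _ w 2))) _

theorem aptS_congr (D : Setup m) {k : ℕ} (hk : 1 ≤ k) {w w' : Lines D.toBranch → Fin k}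
    {x : Hyp ℂ} (h : ∀ c, ∀ l ∈ aptL D.toBranch c x, w l = w' l) :
    aptS D hk w x = aptS D hk w' x := by
  refine Subtype.ext (Prod.ext rfl (Prod.ext ?_ ?_))
  · change aptR _ w 0 x = aptR _ w' 0 x
    rw [aptR, aptR, aptZ_congr' _ 0 (h 0)]
  · change aptR _ w 2 x = aptR _ w' 2 x
    rw [aptR, aptR, aptZ_congr' _ 2 (h 2)]

end Pool.Agent.MP_39b1da_gt

end

section

/-!
Lifting the sections to the universal cover: a branching family of isometric planes.
-/

set_option autoImplicit false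

namespace Pool.Agent.MP_39b1da_gt

open Filter Topology Set Real
open scoped ENNReal NNReal ContDiff InnerProductSpace

theorem apt_cross {φ : ℝ → ℝ} (hφ : Continuous φ) {T h : ℝ} (hT : 0 ≤ T) (hh : 0 < h)
    (h0 : h ≤ φ 0) (h1 : φ T ≤ -h) : ∃ t₁ t₂, 0 ≤ t₁ ∧ t₁ ≤ t₂ ∧ t₂ ≤ T ∧ φ t₁ = h ∧
      φ t₂ = -h ∧ ∀ t ∈ Icc t₁ t₂, |φ t| ≤ h := by
  have hA : IsCompact (Icc 0 T ∩ {t | h ≤ φ t}) :=
    isCompact_Icc.inter_right (isClosed_le continuous_const hφ)
  obtain ⟨t₁, ⟨⟨a1, a2⟩, a3⟩, a4⟩ := hA.exists_isGreatest ⟨0, ⟨le_rfl, hT⟩, h0⟩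
  have a5 : ∀ t ∈ Icc t₁ T, h ≤ φ t → t = t₁ := fun t ht e =>
    le_antisymm (a4 ⟨⟨a1.trans ht.1, ht.2⟩, e⟩) ht.1
  have a6 : φ t₁ = h := by
    obtain ⟨t, ht, e⟩ := intermediate_value_Icc' a2 hφ.continuousOn
      (show h ∈ Icc (φ T) (φ t₁) from ⟨by linarith, a3⟩)
    rw [← a5 t ht e.ge, e]
  have hB : IsCompact (Icc t₁ T ∩ {t | φ t ≤ -h}) :=
    isCompact_Icc.inter_right (isClosed_le hφ continuous_const)
  obtain ⟨t₂, ⟨⟨b1, b2⟩, b3⟩, b4⟩ := hB.exists_isLeast ⟨T, ⟨a2, le_rfl⟩, h1⟩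
  have b5 : ∀ t ∈ Icc t₁ t₂, φ t ≤ -h → t = t₂ := fun t ht e =>
    le_antisymm ht.2 (b4 ⟨⟨ht.1, ht.2.trans b2⟩, e⟩)
  have b6 : φ t₂ = -h := by
    obtain ⟨t, ht, e⟩ := intermediate_value_Icc' b1 hφ.continuousOn
      (show -h ∈ Icc (φ t₂) (φ t₁) from ⟨b3, by linarith⟩)
    rw [← b5 t ht e.le, e]
  refine ⟨t₁, t₂, a1, b1, b2, a6, b6, fun t ht => abs_le.2 ⟨?_, ?_⟩⟩
  · rcases le_total (φ t) (-h) with e | e
    · rw [b5 t ht e, b6]
    · exact e
  · rcases le_total h (φ t) with e | e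
    · rw [a5 t ⟨ht.1, ht.2.trans b2⟩ e, a6]
    · exact e

theorem aptL_step {m : ℕ} (B : Branch m) (l : Lines B) {p : ℝ → Hyp ℂ} (hp : Continuous p)
    {t₁ t₂ : ℝ} (h12 : t₁ ≤ t₂) (h2 : l.h (p t₂) < 0)
    (h3 : ∀ t ∈ Icc t₁ t₂, |l.h (p t)| < 1 / 2) :
    aptL B l.1.1 (p t₂) = insert l (aptL B l.1.1 (p t₁)) := by
  ext l'
  rcases eq_or_ne l' l with rfl | hne
  · simp only [mem_insert_iff, true_or, iff_true]
    exact ⟨rfl, h2⟩
  simp only [mem_insert_iff, hne, false_or]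
  refine and_congr_right fun hc => ?_
  have hS : l'.1.2 ∈ B.S l.1.1 := hc ▸ l'.2.2.1
  have hz : ∀ t ∈ Icc t₁ t₂, l'.h (p t) ≠ 0 := by
    intro t ht e
    have h4 := abs_lor_lt (B.unit _ _ l.2.2.1) (B.unit _ _ hS) (h3 t ht)
      (show |l'.h (p t)| < 1 / 2 by rw [e]; norm_num)
    rcases B.same _ _ l.2.2.1 _ hS with h5 | h5 | h5
    · exact hne (Subtype.ext (Prod.ext hc h5))
    · have h6 := l'.2.2.2
      have h7 := l.2.2.2
      rw [h5] at h6
      simp only [Prod.fst_neg] at h6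
      linarith
    · linarith
  have hc' : Continuous fun t => l'.h (p t) := (apt_h_cont l').comp hp
  constructor
  · intro h4
    by_contra h5
    obtain ⟨t, ht, e⟩ := intermediate_value_Icc' h12 hc'.continuousOn
      (show (0 : ℝ) ∈ Icc (l'.h (p t₂)) (l'.h (p t₁)) from ⟨h4.le, not_lt.1 h5⟩)
    exact hz t ht e
  · intro h4
    by_contra h5
    obtain ⟨t, ht, e⟩ := intermediate_value_Icc h12 hc'.continuousOn
      (show (0 : ℝ) ∈ Icc (l'.h (p t₁)) (l'.h (p t₂)) from ⟨h4.le, not_lt.1 h5⟩)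
    exact hz t ht e

theorem apt_root_sep {k : ℕ} (hk : 1 ≤ k) : ∃ μ > 0, ∀ z z' : ℂ, ‖z'‖ = 1 → z ^ k = z' ^ k →
    ‖z - z'‖ < μ → z = z' := by
  classical
  have hfin : ({u : ℂ | u ^ k = 1 ∧ u ≠ 1}).Finite :=
    (Polynomial.nthRoots k (1 : ℂ)).toFinset.finite_toSet.subset fun u hu => by
      simpa [Polynomial.mem_nthRoots (show 0 < k by omega)] using hu.1
  obtain ⟨μ, hμ, hb⟩ := Metric.isOpen_iff.1 hfin.isClosed.isOpen_compl 1 (by simp)
  refine ⟨μ, hμ, fun z z' h1 h2 h3 => ?_⟩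
  have h0 : z' ≠ 0 := by rintro rfl; simp at h1
  have h4 : z / z' ∈ Metric.ball (1 : ℂ) μ := by
    rw [mem_ball_iff_norm, div_sub_one h0, norm_div, h1, div_one]
    exact h3
  have h5 := hb h4
  simp only [mem_compl_iff, mem_ofPred_eq, not_and, not_not] at h5
  exact (div_eq_one_iff_eq h0).1 (h5 (by rw [div_pow, h2, div_self (pow_ne_zero _ h0)]))

theorem apt_f_origin {m : ℕ} (B : Branch m) {c : Fin 4} (hc : c = 0 ∨ c = 2) :
    0 < |B.f c (Hyp.mk 0)| := by
  rcases lt_or_ge |B.f c (Hyp.mk 0)| (1 / 4) with h | h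
  · obtain ⟨v, hv, e⟩ := B.f_near c _ h
    rw [e.self_of_nhds, apt_lor_zero, abs_neg]
    exact abs_pos.2 (B.gen0 c hc v hv)
  · linarith

/-- The spatial coordinate of the hyperbolic plane. -/
noncomputable def aptHomeo : Hyp ℂ ≃ₜ ℂ where
  toFun := Hyp.val
  invFun := Hyp.mk
  left_inv _ := rfl
  right_inv _ := rfl
  continuous_toFun := continuous_val
  continuous_invFun := continuous_mk

theorem apt_pol_cont (θ : ℝ) : Continuous fun t => pol t θ := by
  unfold pol
  fun_prop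

theorem apt_pol_zero (θ : ℝ) : pol 0 θ = Hyp.mk 0 := by simp [pol]

theorem apt_lip_of_loc {A X Y : Type} [MetricSpace A] [MetricSpace X] [MetricSpace Y]
    (hA : IsLen A) {p : X → Y} {δ : ℝ} (hp : BallIso p δ) {F : A → X} (hF : Continuous F)
    (h : ∀ x, ∀ᶠ y in 𝓝 x, dist (p (F x)) (p (F y)) ≤ dist x y) (x y : A) :
    dist (F x) (F y) ≤ dist x y := by
  have := hA.lip F (fun x => ?_) x y
  · rwa [edist_dist, edist_dist, ENNReal.ofReal_le_ofReal_iff dist_nonneg] at this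
  filter_upwards [h x, hF.continuousAt.preimage_mem_nhds (Metric.ball_mem_nhds (F x) hp.1)]
    with y h1 h2
  rw [edist_dist, edist_dist, ← (hp.2 (F x)).1 _ (Metric.mem_ball_self hp.1) _ h2]
  exact ENNReal.ofReal_le_ofReal h1

theorem exists_apts {m : ℕ} (D : Setup m) {k : ℕ} (hk : 1 ≤ k) : ∃ m₀ : BM D k,
    ∀ (S X : Type) [MetricSpace S] [MetricSpace X] (f : BM D k ≃ₜ S) (pj : X → S) (δ : ℝ) (x₀ : X),
      CompactSpace S → (∀ x y : BM D k, dist x.1.1 y.1.1 ≤ dist (f x) (f y)) →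
      (∀ (x y : BM D k) (a : Path x y),
        edist (f x) (f y) ≤ eVariationOn ((fun z : BM D k => z.1.1) ∘ a) univ) →
      BallIso pj δ → SimplyConnectedSpace X → GlobK X → pj x₀ = f m₀ →
      Nonempty (Apts D.toBranch k X x₀) := by
  refine ⟨aptS D hk (fun _ => ⟨0, hk⟩) (Hyp.mk 0), ?_⟩
  intro S X _ _ f pj δ x₀ hS hlo hup hpj hX hK hx₀
  have hcov := hpj.isCoveringMap
  obtain ⟨ε₀, hq⟩ := D.q_iso
  have hqc := hq.isCoveringMap
  have : ContractibleSpace (Hyp ℂ) := aptHomeo.contractibleSpace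
  have : LocallyPathConnectedSpace (Hyp ℂ) := (globK_hyp.locK one_pos).locallyPathConnected
  have : LocallyPathConnectedSpace X := (hK.locK one_pos).locallyPathConnected
  have hlen : IsLen (Hyp ℂ) := globK_hyp.isLen
  have hs0 : ∀ w, aptS D hk w (Hyp.mk 0) = aptS D hk (fun _ => ⟨0, hk⟩) (Hyp.mk 0) := fun w =>
    aptS_congr D hk fun c l hl => by simp [aptL_zero] at hl
  -- the lifts of the sections
  have hσ : ∀ w : Lines D.toBranch → Fin k, ∃ F : C(Hyp ℂ, X), F (Hyp.mk 0) = x₀ ∧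
      ∀ x, pj (F x) = f (aptS D hk w x) := by
    intro w
    obtain ⟨F, ⟨h1, h2⟩, -⟩ := hcov.existsUnique_continuousMap_lifts
      ⟨fun x => f (aptS D hk w x), f.continuous.comp (aptS_cont D hk w)⟩ (Hyp.mk 0) x₀
      (by rw [hx₀, ← hs0 w]; rfl)
    exact ⟨F, h1, fun x => congrFun h2 x⟩
  choose σ σ0 σp using hσ
  have hfs : ∀ w x y, dist (f (aptS D hk w x)) (f (aptS D hk w y)) ≤ dist x y := by
    intro w x y
    rw [← ENNReal.ofReal_le_ofReal_iff dist_nonneg, ← edist_dist, ← edist_dist]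
    refine le_of_forall_gt_imp_ge_of_dense fun r hr => ?_
    obtain ⟨a, ha⟩ := hlen x y r hr
    refine (hup _ _ (a.map (aptS_cont D hk w))).trans (le_trans ?_ ha.le)
    have h1 : LipschitzWith 1 (D.q ∘ aptI m) := by
      simpa using (apt_q_lip D).comp aptI_isometry.lipschitz
    have h2 := h1.lipschitzOnWith (s := univ) |>.comp_eVariationOn_le (g := a) (s := univ)
      (mapsTo_univ _ _)
    rw [ENNReal.coe_one, one_mul] at h2
    exact h2
  have σlip : ∀ w x y, dist (σ w x) (σ w y) ≤ dist x y := fun w =>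
    apt_lip_of_loc hlen hpj (σ w).continuous fun x => Eventually.of_forall fun y => by
      rw [σp, σp]; exact hfs w x y
  -- the developing map
  have hb : Continuous fun z : BM D k => z.1.1 := continuous_fst.comp continuous_subtype_val
  obtain ⟨P, ⟨P0, Pq⟩, -⟩ := hqc.existsUnique_continuousMap_lifts
    ⟨fun z : X => (f.symm (pj z)).1.1, hb.comp (f.symm.continuous.comp hcov.continuous)⟩ x₀
    (Hyp.mk 0) (by
      change _ = (f.symm (pj x₀)).1.1
      rw [hx₀, f.symm_apply_apply, ← aptI_zero]; rfl)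
  have Pq' : ∀ z, D.q (P z) = (f.symm (pj z)).1.1 := fun z => congrFun Pq z
  have Plip : ∀ z z', dist (P z) (P z') ≤ dist z z' := by
    refine apt_lip_of_loc hK.isLen hq P.continuous fun z => ?_
    filter_upwards [Metric.ball_mem_nhds z hpj.1] with z' hz'
    rw [Pq', Pq', ← (hpj.2 z).1 _ (Metric.mem_ball_self hpj.1) _ hz']
    simpa using hlo (f.symm (pj z)) (f.symm (pj z'))
  have Pσ : ∀ w x, P (σ w x) = aptI m x := by
    intro w
    refine congrFun (hqc.eq_of_comp_eq (g₁ := fun x => P (σ w x)) (g₂ := aptI m)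
      (P.continuous.comp (σ w).continuous) aptI_isometry.continuous ?_ (Hyp.mk 0) ?_)
    · ext x
      simp only [Function.comp, Pq', σp, f.symm_apply_apply]
      rfl
    · rw [σ0, P0, aptI_zero]
  have hle : ∀ w w' x y, dist x y ≤ dist (σ w x) (σ w' y) := fun w w' x y => by
    rw [← aptI_dist (m := m), ← Pσ w, ← Pσ w']; exact Plip _ _
  refine ⟨⟨fun w => σ w, σ0, fun w x y => le_antisymm (σlip w x y) (hle w w x y), ?_, ?_⟩⟩
  · intro w w' x h
    have hγ : Continuous fun t : ℝ => Hyp.mk (t • x.val) := by fun_prop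
    have := hcov.eqOn_of_comp_eqOn (s := Icc (0 : ℝ) 1)
      (g₁ := fun t => σ w (Hyp.mk (t • x.val))) (g₂ := fun t => σ w' (Hyp.mk (t • x.val)))
      isPreconnected_Icc ((σ w).continuous.comp hγ).continuousOn
      ((σ w').continuous.comp hγ).continuousOn (fun t ht => by
        simp only [Function.comp, σp]
        rw [aptS_congr D hk fun c l hl => h l (aptL_mono _ c x ht.1 ht.2 hl).2])
      (a := 0) ⟨le_rfl, zero_le_one⟩ (by simp only [zero_smul, σ0])
    simpa using this ⟨zero_le_one, le_rfl⟩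
  · obtain ⟨μ, hμ, hsep⟩ := apt_root_sep hk
    obtain ⟨h, hh, h8, hf0, hf2⟩ : ∃ h : ℝ, 0 < h ∧ h ≤ 1 / 8 ∧ h ≤ |D.f 0 (Hyp.mk 0)| ∧
        h ≤ |D.f 2 (Hyp.mk 0)| :=
      ⟨min (1 / 8) (min |D.f 0 (Hyp.mk 0)| |D.f 2 (Hyp.mk 0)|),
        lt_min (by norm_num) (lt_min (apt_f_origin _ (Or.inl rfl)) (apt_f_origin _ (Or.inr rfl))),
        min_le_left _ _, (min_le_right _ _).trans (min_le_left _ _),
        (min_le_right _ _).trans (min_le_right _ _)⟩
    have huc : UniformContinuous fun z : S => (f.symm z).1.2 :=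
      CompactSpace.uniformContinuous_of_continuous
        (continuous_snd.comp (continuous_subtype_val.comp f.symm.continuous))
    obtain ⟨ε₁, hε₁, huc'⟩ := Metric.uniformContinuous_iff.1 huc (μ * h / 2) (by positivity)
    have hm : 0 < min δ (min ε₁ (arsinh h)) :=
      lt_min hpj.1 (lt_min hε₁ (arsinh_pos_iff.2 hh))
    refine ⟨min δ (min ε₁ (arsinh h)) / 2, half_pos hm, fun w w' θ θ' T hT hcl l hl => ?_⟩
    have hc := l.2.1
    have key : ∀ t, 0 ≤ t → t ≤ T → |l.h (pol t θ')| = h →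
        aptZ D.toBranch w l.1.1 (pol t θ') = aptZ D.toBranch w' l.1.1 (pol t θ') := by
      intro t t0 tT ht
      have h1 := (hcl t t0 tT).trans_lt (half_lt_self hm)
      simp only [lt_min_iff] at h1
      obtain ⟨d1, d2, d3⟩ := h1
      have hf : |D.f l.1.1 (aptI m (pol t θ'))| = h := by
        rw [D.f_abs _ _ _ l.2.2.1 (by rw [← apt_h_eq, ht]; linarith), ← apt_h_eq, ht]
      have hL := aptL_eq D.toBranch l.1.1 (x := pol t θ) (y := pol t θ')
        (by rw [hf]; exact (hle w w' _ _).trans_lt d3)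
      have h2 : dist (pj (σ w (pol t θ))) (pj (σ w' (pol t θ'))) < ε₁ := by
        rw [(hpj.2 (σ w' (pol t θ'))).1 _ d1 _ (Metric.mem_ball_self hpj.1)]; exact d2
      have h3 := huc' h2
      simp only [σp, f.symm_apply_apply, Prod.dist_eq, max_lt_iff] at h3
      have h4 : ‖aptR D.toBranch w l.1.1 (pol t θ) - aptR D.toBranch w' l.1.1 (pol t θ')‖ <
          μ * h / 2 := by
        rw [← dist_eq_norm]
        rcases hc with e | e <;> rw [e]
        · exact h3.1
        · exact h3.2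
      have h5 := (abs_norm_sub_norm_le _ _).trans_lt h4
      rw [aptR_norm, aptR_norm, hf] at h5
      rw [aptR, aptR, hf, aptZ_congr _ w _ hL] at h4
      set r := |D.f l.1.1 (aptI m (pol t θ))|
      set z := aptZ D.toBranch w l.1.1 (pol t θ') with hz
      set z' := aptZ D.toBranch w' l.1.1 (pol t θ') with hz'
      refine hsep z z' (aptZ_norm _ _ _ _) (by rw [hz, hz', aptZ_pow, aptZ_pow]) ?_
      have h6 : (h : ℂ) * (z - z') = ((r : ℂ) * z - h * z') - ((r - h : ℝ) : ℂ) * z := by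
        push_cast; ring
      have h7 : h * ‖z - z'‖ ≤ ‖(r : ℂ) * z - h * z'‖ + |r - h| := by
        have := norm_sub_le ((r : ℂ) * z - h * z') (((r - h : ℝ) : ℂ) * z)
        rw [← h6, norm_mul, norm_mul, Complex.norm_real, Complex.norm_real, hz, aptZ_norm,
          mul_one, Real.norm_eq_abs, Real.norm_eq_abs, abs_of_pos hh] at this
        exact this
      have h9 : h * ‖z - z'‖ < h * μ := by linarith
      exact lt_of_mul_lt_mul_left h9 hh.le
    have h0 : h ≤ l.h (pol 0 θ') := by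
      have h1 := apt_f_le D.toBranch l.1.1 (Hyp.mk 0) l.2.2.1
      rw [apt_lor_zero, abs_of_pos (neg_pos.2 l.2.2.2)] at h1
      rw [apt_pol_zero, apt_h_zero]
      refine le_trans ?_ h1
      rcases hc with e | e <;> rw [e]
      · exact hf0
      · exact hf2
    obtain ⟨t₁, t₂, a1, a2, a3, a4, a5, a6⟩ := apt_cross (φ := fun t => l.h (pol t θ'))
      ((apt_h_cont l).comp (apt_pol_cont θ')) hT hh h0 (by linarith)
    have hstep := aptL_step D.toBranch l (apt_pol_cont θ') a2 (by rw [a5]; linarith)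
      fun t ht => (a6 t ht).trans_lt (by linarith)
    have hnot : l ∉ aptL D.toBranch l.1.1 (pol t₁ θ') := fun e => by
      have := e.2
      rw [a4] at this
      linarith
    have e1 := key t₁ a1 (a2.trans a3) (by rw [a4, abs_of_pos hh])
    have e2 := key t₂ (a1.trans a2) a3 (by rw [a5, abs_neg, abs_of_pos hh])
    rw [aptZ_insert _ w _ hnot hstep, aptZ_insert _ w' _ hnot hstep, e1] at e2
    refine aptE_inj k (mul_right_cancel₀ ?_ e2)
    rw [← norm_ne_zero_iff, aptZ_norm]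
    exact one_ne_zero

end Pool.Agent.MP_39b1da_gt

end

section

set_option autoImplicit false

namespace Pool.Agent.MP_39b1da_gt

open Filter Topology Set Real
open scoped ENNReal NNReal ContDiff InnerProductSpace

theorem Reg_pol_zero (θ : ℝ) : pol 0 θ = Hyp.mk 0 := by simp [pol]

theorem Reg_dist_pol (s t θ : ℝ) : dist (pol s θ) (pol t θ) = |s - t| := by
  have h := cosh_dist_pol s t θ θ
  rw [sub_self, cos_zero, mul_one, ← cosh_sub, ← cosh_abs (s - t)] at h
  exact cosh_injOn (mem_Ici.2 dist_nonneg) (mem_Ici.2 (abs_nonneg _)) h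

theorem Reg_sinh_dist_pol {s : ℝ} (hs : 0 ≤ s) (θ θ' : ℝ) :
    sinh (dist (pol s θ) (pol s θ') / 2) = |sin ((θ - θ') / 2)| * sinh s := by
  have h := cosh_dist_pol s s θ θ'
  set d := dist (pol s θ) (pol s θ') with hd
  have hd0 : 0 ≤ d := dist_nonneg
  have h1 : cosh d = 1 + 2 * sinh (d / 2) ^ 2 := by
    have : d = 2 * (d / 2) := by ring
    rw [this, cosh_two_mul, cosh_sq']
    have e : 2 * (d / 2) / 2 = d / 2 := by ring
    rw [e]; ring
  have h2 : cos (θ - θ') = 1 - 2 * sin ((θ - θ') / 2) ^ 2 := by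
    have : θ - θ' = 2 * ((θ - θ') / 2) := by ring
    rw [this, cos_two_mul, cos_sq']
    have e : 2 * ((θ - θ') / 2) / 2 = (θ - θ') / 2 := by ring
    rw [e]; ring
  have h3 : cosh s * cosh s = 1 + sinh s * sinh s := by
    have := cosh_sq' s; nlinarith
  have h4 : sinh (d / 2) ^ 2 = (|sin ((θ - θ') / 2)| * sinh s) ^ 2 := by
    rw [mul_pow, sq_abs]; rw [h1, h2, h3] at h; nlinarith
  have h5 : 0 ≤ sinh (d / 2) := sinh_nonneg_iff.2 (by linarith)
  have h6 : 0 ≤ |sin ((θ - θ') / 2)| * sinh s :=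
    mul_nonneg (abs_nonneg _) (sinh_nonneg_iff.2 hs)
  exact (pow_left_inj₀ h5 h6 two_ne_zero).1 h4

/-- The wall function along a ray of the plane. -/
theorem Reg_lor_pol (m : ℕ) (v : ℝ × Euc m) (t θ : ℝ) :
    lor (lift (Hyp.mk (I1 m (pol t θ).val))) v =
      -v.1 * cosh t + (cos θ * v.2 0 + sin θ * v.2 1) * sinh t := by
  have hre : (pol t θ).val.re = sinh t * cos θ := by
    simp [pol, Complex.exp_ofReal_mul_I_re, Complex.exp_ofReal_mul_I_im, -Complex.ofReal_sinh]
  have him : (pol t θ).val.im = sinh t * sin θ := by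
    simp [pol, Complex.exp_ofReal_mul_I_re, Complex.exp_ofReal_mul_I_im, -Complex.ofReal_sinh]
  have h0 : Hyp.mk (I1 m (pol 0 θ).val) = Hyp.mk 0 := by
    rw [Reg_pol_zero]
    congr 1
    ext i
    simp [I1]
  have h1 : (lift (Hyp.mk (I1 m (pol t θ).val))).1 = cosh t := by
    have h2 := cosh_dist (Hyp.mk (I1 m (pol 0 θ).val)) (Hyp.mk (I1 m (pol t θ).val))
    rw [dist_I1, Reg_dist_pol, cosh_abs, zero_sub, cosh_neg, h0] at h2
    rw [h2]; simp [lor, lift]
  have h3 : (lift (Hyp.mk (I1 m (pol t θ).val))).2 = I1 m (pol t θ).val := rfl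
  rw [lor, h1, h3, I1, inner_add_left, EuclideanSpace.inner_single_left,
    EuclideanSpace.inner_single_left, hre, him]
  simp only [conj_trivial]
  ring

theorem Reg_mono {α β s t : ℝ} (hα : 0 < α) (hs : 0 ≤ s) (hst : s ≤ t)
    (h : α * cosh s + β * sinh s ≤ 0) :
    (α * cosh t + β * sinh t) * cosh s ≤ (α * cosh s + β * sinh s) * cosh t := by
  have h1 : 0 < α * cosh s := mul_pos hα (cosh_pos s)
  have h2 : 0 ≤ sinh s := sinh_nonneg_iff.2 hs
  have hβ : β ≤ 0 := by
    by_contra hc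
    have := mul_nonneg (not_le.1 hc).le h2
    linarith
  have h3 : 0 ≤ sinh (t - s) := sinh_nonneg_iff.2 (by linarith)
  rw [sinh_sub] at h3
  nlinarith [mul_nonneg (neg_nonneg.2 hβ) h3]

section
variable {m : ℕ} {B : Branch m}

theorem Reg_h_neg (l : Lines B) {s t θ : ℝ} (hs : 0 ≤ s) (hst : s ≤ t)
    (h : l.h (pol s θ) < 0) : l.h (pol t θ) < 0 := by
  unfold Lines.h at *
  rw [Reg_lor_pol] at *
  have hα : 0 < -l.1.2.1 := neg_pos.2 l.2.2.2
  have h1 := Reg_mono hα hs hst h.le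
  have h2 := mul_neg_of_neg_of_pos h (cosh_pos t)
  by_contra hc
  have := mul_nonneg (not_lt.1 hc) (cosh_pos s).le
  linarith

theorem Reg_h_zero (l : Lines B) (θ : ℝ) : 0 < l.h (pol 0 θ) := by
  unfold Lines.h
  rw [Reg_lor_pol]
  simpa using l.2.2.2

theorem Reg_h_le (l : Lines B) {s t θ : ℝ} (h : l.h (pol t θ) < 0) :
    l.h (pol s θ) ≤ sinh |s - t| := by
  have h1 := arsinh_lor_lip (B.unit _ _ l.2.2.1) (Hyp.mk (I1 m (pol s θ).val))
    (Hyp.mk (I1 m (pol t θ).val))
  rw [dist_I1, Reg_dist_pol] at h1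
  have h2 : arsinh (l.h (pol t θ)) < 0 := arsinh_neg_iff.2 h
  have h3 : arsinh (l.h (pol s θ)) ≤ |s - t| := by
    have := (abs_le.1 h1).2
    unfold Lines.h at *
    linarith
  rw [← sinh_arsinh (l.h (pol s θ))]
  exact sinh_le_sinh.2 h3

/-- The lines whose wall function is bounded at a point. -/
theorem Reg_bdd (R : ℝ) : ∃ N : ℕ, ∀ x : Hyp ℂ,
    {l : Lines B | |l.h x| ≤ R}.Finite ∧ {l : Lines B | |l.h x| ≤ R}.ncard ≤ N := by
  classical
  obtain ⟨N, hN⟩ := B.ufin R
  refine ⟨4 * N, fun x => ?_⟩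
  set y : Hyp (Euc m) := Hyp.mk (I1 m x.val) with hy
  let F : Fin 4 → Finset (ℝ × Euc m) := fun c => (B.fin c y R).toFinset
  let G : Finset (Fin 4 × (ℝ × Euc m)) :=
    Finset.univ.biUnion fun c => (F c).image fun v => (c, v)
  have hG : G.card ≤ 4 * N := by
    refine (Finset.card_biUnion_le_card_mul _ _ N fun c _ => ?_).trans (by simp)
    refine Finset.card_image_le.trans ?_
    have := hN c y
    rwa [Set.ncard_eq_toFinset_card _ (B.fin c y R)] at this
  have hmaps : ∀ l ∈ {l : Lines B | |l.h x| ≤ R}, (l.1 : Fin 4 × (ℝ × Euc m)) ∈ (G : Set _) := by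
    intro l hl
    simp only [G, F, Finset.coe_biUnion, Finset.coe_univ, Finset.coe_image, mem_iUnion,
      mem_image, Finite.coe_toFinset, mem_ofPred_eq]
    exact ⟨l.1.1, mem_univ _, l.1.2, ⟨l.2.2.1, hl⟩, rfl⟩
  have hinj : InjOn (fun l : Lines B => (l.1 : Fin 4 × (ℝ × Euc m))) {l | |l.h x| ≤ R} :=
    fun a _ b _ h => Subtype.ext h
  refine ⟨Finite.of_finite_image (G.finite_toSet.subset ?_) hinj, ?_⟩
  · rintro _ ⟨l, hl, rfl⟩
    exact hmaps l hl
  · refine (Set.ncard_le_ncard_of_injOn _ hmaps hinj G.finite_toSet).trans ?_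
    rwa [Set.ncard_coe_finset]

theorem Reg_fin (t θ : ℝ) : {l : Lines B | l.h (pol t θ) < 0}.Finite := by
  obtain ⟨N, hN⟩ := Reg_bdd (B := B) (sinh |0 - t|)
  refine (hN (pol 0 θ)).1.subset fun l hl => ?_
  have h1 := Reg_h_zero l θ
  have h2 := Reg_h_le l (s := 0) hl
  simp only [mem_ofPred_eq]
  rwa [abs_of_pos h1]

theorem Reg_lower (B : Branch m) : ∃ C₁ > 0, ∀ t θ : ℝ, 0 ≤ t →
    t ≤ C₁ * (({l : Lines B | l.h (pol t θ) < 0}.ncard : ℝ) + 1) := by
  obtain ⟨C, hC⟩ := B.dense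
  have hpos : 0 < max C 1 := lt_max_of_lt_right one_pos
  refine ⟨max C 1, hpos, fun t θ ht => ?_⟩
  set D := max C 1 with hD
  have key : ∀ j : ℕ, j ≤ {l : Lines B | l.h (pol (j * D) θ) < 0}.ncard := by
    intro j
    induction j with
    | zero => exact Nat.zero_le _
    | succ j ih =>
      have hj : (0 : ℝ) ≤ j * D := by positivity
      have hj' : (j : ℝ) * D ≤ ((j + 1 : ℕ) : ℝ) * D := by push_cast; nlinarith
      obtain ⟨c, hc, v, hv, h1, h2⟩ := hC (pol (j * D) θ).val (pol (((j + 1 : ℕ) : ℝ) * D) θ).val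
        (by
          rw [dist_I1, Reg_dist_pol]
          push_cast
          rw [show (j : ℝ) * D - (j + 1) * D = -D by ring, abs_neg, abs_of_pos hpos]
          exact le_max_left _ _)
      have hv1 : v.1 < 0 := by
        rcases lt_trichotomy v.1 0 with h | h | h
        · exact h
        · exact absurd h (B.gen0 c hc v hv)
        · exfalso
          rw [Reg_lor_pol] at h1 h2
          have h3 := Reg_mono (β := -(cos θ * v.2 0 + sin θ * v.2 1)) h hj hj' (by linarith)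
          have h4 := mul_neg_of_neg_of_pos h2 (cosh_pos (j * D))
          have h5 := mul_nonneg h1 (cosh_pos (((j + 1 : ℕ) : ℝ) * D)).le
          linarith
      let l : Lines B := ⟨(c, v), hc, hv, hv1⟩
      refine Nat.succ_le_of_lt (ih.trans_lt (Set.ncard_lt_ncard ?_ (Reg_fin _ _)))
      refine ⟨fun l' hl' => Reg_h_neg l' hj hj' hl', fun hsub => ?_⟩
      have : l.h (pol (j * D) θ) < 0 := hsub (show l.h _ < 0 from h2)
      exact absurd h1 (not_le.2 this)
  have h1 := key ⌊t / D⌋₊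
  have h2 : (⌊t / D⌋₊ : ℝ) * D ≤ t := by
    have := Nat.floor_le (div_nonneg ht hpos.le)
    rwa [le_div_iff₀ hpos] at this
  have h3 : {l : Lines B | l.h (pol (⌊t / D⌋₊ * D) θ) < 0}.ncard ≤
      {l : Lines B | l.h (pol t θ) < 0}.ncard :=
    Set.ncard_le_ncard (fun l hl => Reg_h_neg l (by positivity) h2 hl) (Reg_fin _ _)
  have h4 : (⌊t / D⌋₊ : ℝ) ≤ ({l : Lines B | l.h (pol t θ) < 0}.ncard : ℝ) := by
    exact_mod_cast h1.trans h3
  have h5 := Nat.lt_floor_add_one (t / D)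
  rw [div_lt_iff₀ hpos] at h5
  nlinarith

theorem Reg_upper (B : Branch m) {c : ℝ} (hc : 0 ≤ c) : ∃ N : ℕ, ∀ s t θ : ℝ, |s - t| ≤ c + 3 →
    {l : Lines B | l.h (pol t θ) < 0}.ncard ≤
      {l : Lines B | l.h (pol s θ) ≤ -(1 / 8)}.ncard + N := by
  obtain ⟨N, hN⟩ := Reg_bdd (B := B) (sinh (c + 3))
  refine ⟨N, fun s t θ h => ?_⟩
  have hf : {l : Lines B | l.h (pol s θ) ≤ -(1 / 8)}.Finite :=
    (Reg_fin s θ).subset fun l (hl : l.h _ ≤ _) => hl.trans_lt (by norm_num : -(1 / 8) < (0 : ℝ))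
  refine le_trans (Set.ncard_le_ncard (t := {l : Lines B | l.h (pol s θ) ≤ -(1 / 8)} ∪
    {l : Lines B | |l.h (pol s θ)| ≤ sinh (c + 3)}) ?_ (hf.union (hN _).1))
    ((Set.ncard_union_le _ _).trans (Nat.add_le_add_left (hN _).2 _))
  intro l hl
  by_cases h1 : l.h (pol s θ) ≤ -(1 / 8)
  · exact Or.inl h1
  · right
    have h2 := (Reg_h_le l (s := s) hl).trans (sinh_le_sinh.2 h)
    have h3 : c + 3 ≤ sinh (c + 3) := self_le_sinh_iff.2 (by linarith)
    exact abs_le.2 ⟨by linarith [not_le.1 h1], h2⟩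

end

open MeasureTheory in
theorem Reg_cyl {ι : Type} {k : ℕ} [NeZero k] (w : ι → Fin k) {L : Set ι} (hL : L.Finite) :
    MeasurableSet {w' : ι → Fin k | ∀ l ∈ L, w' l = w l} ∧
    Measure.infinitePi (fun _ : ι => ProbabilityTheory.uniformOn (univ : Set (Fin k)))
      {w' : ι → Fin k | ∀ l ∈ L, w' l = w l} = ENNReal.ofReal (exp (-(L.ncard * log k))) := by
  have e : {w' : ι → Fin k | ∀ l ∈ L, w' l = w l} =
      Set.pi (hL.toFinset : Set ι) fun l => {w l} := by
    ext w'; simp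
  rw [e]
  refine ⟨MeasurableSet.pi (Finset.countable_toSet _) fun l _ => measurableSet_singleton _, ?_⟩
  rw [Measure.infinitePi_pi _ fun l _ => measurableSet_singleton _]
  have hk : (0 : ℝ) < k := by exact_mod_cast Nat.pos_of_ne_zero (NeZero.ne k)
  simp only [ProbabilityTheory.uniformOn_univ, Measure.count_singleton, Fintype.card_fin,
    Finset.prod_const]
  rw [Set.ncard_eq_toFinset_card _ hL, exp_neg, exp_nat_mul, exp_log hk, ← inv_pow,
    ENNReal.ofReal_pow (by positivity), ENNReal.ofReal_inv_of_pos hk, ENNReal.ofReal_natCast,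
    one_div]

open MeasureTheory in
theorem regular_apts {m : ℕ} (B : Branch m) : ∃ C₁ > 0, ∀ k : ℕ, 2 ≤ k →
    ∀ (X : Type) [MetricSpace X] (x₀ : X) (A : Apts B k X x₀),
      (∀ w θ, IsRay x₀ fun t => A.σ w (pol t θ)) ∧
      (∀ w θ θ', qr (fun t => A.σ w (pol t θ)) (fun t => A.σ w (pol t θ')) =
        |sin ((θ - θ') / 2)|) ∧
      ∃ (_ : MeasurableSpace (Lines B → Fin k)) (μ : Measure (Lines B → Fin k)),
        IsProbabilityMeasure μ ∧ Regular μ (fun a b =>
          qr (fun t => A.σ a.1 (pol t a.2)) (fun t => A.σ b.1 (pol t b.2))) (1 + C₁ / log k) := by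
  obtain ⟨C₁, hC₁, hlow⟩ := Reg_lower B
  refine ⟨C₁, hC₁, fun k hk X _ x₀ A => ?_⟩
  have : NeZero k := ⟨by omega⟩
  have hray : ∀ w θ, IsRay x₀ fun t => A.σ w (pol t θ) := fun w θ =>
    ⟨by simp only [Reg_pol_zero, A.base], fun s t _ _ => by rw [A.iso, Reg_dist_pol]⟩
  have hsin : ∀ w θ θ', qr (fun t => A.σ w (pol t θ)) (fun t => A.σ w (pol t θ')) =
      |sin ((θ - θ') / 2)| := by
    intro w θ θ'
    refine le_antisymm (qr_le fun s hs => ?_) ?_
    · rw [A.iso, Reg_sinh_dist_pol hs.le]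
    · have h := qr_ge (hray w θ) (hray w θ') one_pos
      rw [A.iso, Reg_sinh_dist_pol zero_le_one] at h
      exact le_of_mul_le_mul_right h (sinh_pos_iff.2 one_pos)
  refine ⟨hray, hsin, inferInstance,
    Measure.infinitePi fun _ => ProbabilityTheory.uniformOn (univ : Set (Fin k)), inferInstance,
    fun K => ?_⟩
  obtain ⟨ε, hε, hmis⟩ := A.mis
  have hκ : 0 < log k := log_pos (by exact_mod_cast hk)
  set c := |K| / ε with hc
  have hc0 : 0 ≤ c := by positivity
  obtain ⟨N, hN⟩ := Reg_upper B hc0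
  refine ⟨(10 * exp (N * log k + C₁ * (N + 1))).toNNReal, fun a ha r hr hr1 => ?_⟩
  set T := -log r with hT
  have hT0 : 0 ≤ T := neg_nonneg.2 (log_nonpos hr.le hr1)
  have hrT : exp (-T) = r := by rw [hT, neg_neg, exp_log hr]
  set T' := max (T - c) 0 with hT'
  have hT'0 : 0 ≤ T' := le_max_right _ _
  obtain ⟨u, hu0, hu1, hu⟩ : ∃ u : ℝ, 0 ≤ u ∧ u + r / 10 ≤ 1 ∧
      ∀ θ ∈ Icc u (u + r / 10), |a.2 - θ| ≤ r / 10 := by
    by_cases h : a.2 ≤ 1 / 2
    · exact ⟨a.2, ha.1, by linarith, fun θ hθ => abs_le.2 ⟨by linarith [hθ.2], by linarith [hθ.1]⟩⟩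
    · exact ⟨a.2 - r / 10, by linarith, by linarith [ha.2],
        fun θ hθ => abs_le.2 ⟨by linarith [hθ.2], by linarith [hθ.1]⟩⟩
  have hf : {l : Lines B | l.h (pol T' a.2) ≤ -(1 / 8)}.Finite :=
    (Reg_fin T' a.2).subset fun l (hl : l.h _ ≤ _) => hl.trans_lt (by norm_num : -(1 / 8) < (0 : ℝ))
  obtain ⟨mA, eA⟩ := Reg_cyl a.1 hf
  obtain ⟨mR, eR⟩ := Reg_cyl a.1 (Reg_fin (B := B) (T + 3) a.2)
  refine ⟨_, _ ×ˢ Icc u (u + r / 10), mA, mR.prod measurableSet_Icc, ?_, ?_, ?_⟩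
  · intro b _ hq l hl
    refine hmis b.1 a.1 b.2 a.2 T' hT'0 (fun t ht0 ht => ?_) l hl
    rcases ht0.eq_or_lt with h0 | h0
    · subst h0
      simp only [Reg_pol_zero, A.base, dist_self]
      exact hε.le
    · have ht' : t ≤ T - c := by
        rcases le_max_iff.1 ht with h | h
        · exact h
        · linarith
      have h1 := qr_ge (hray a.1 a.2) (hray b.1 b.2) h0
      have h2 : 0 ≤ sinh t := sinh_nonneg_iff.2 ht0
      have h3 : sinh t ≤ exp (T - c) / 2 := by
        rw [sinh_eq]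
        have := exp_le_exp.2 ht'
        have := exp_pos (-t)
        linarith
      have h4 : r * exp (T - c) = exp (-c) := by
        rw [← hrT, ← exp_add]; congr 1; ring
      have h5 : |K| * exp (-c) ≤ ε := by
        have h6 : c + 1 ≤ exp c := add_one_le_exp c
        have h7 : |K| = c * ε := by rw [hc]; field_simp
        rw [exp_neg, ← div_eq_mul_inv, div_le_iff₀ (exp_pos c), h7]
        nlinarith
      have h8 : K * r ≤ |K| * r := mul_le_mul_of_nonneg_right (le_abs_self K) hr.le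
      have h9 : sinh (dist (A.σ a.1 (pol t a.2)) (A.σ b.1 (pol t b.2)) / 2) ≤ ε / 2 := by
        calc _ ≤ _ := h1
          _ ≤ (|K| * r) * sinh t := mul_le_mul_of_nonneg_right (hq.trans h8) h2
          _ ≤ (|K| * r) * (exp (T - c) / 2) := mul_le_mul_of_nonneg_left h3 (by positivity)
          _ = |K| * (r * exp (T - c)) / 2 := by ring
          _ ≤ ε / 2 := by rw [h4]; linarith
      have h10 := (self_le_sinh_iff (x := dist (A.σ a.1 (pol t a.2)) (A.σ b.1 (pol t b.2)) / 2)).2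
        (by positivity)
      rw [dist_comm]
      linarith
  · rintro ⟨w, θ⟩ ⟨hw, hθ⟩
    refine ⟨⟨hu0.trans hθ.1, hθ.2.trans hu1⟩, ?_⟩
    have h1 := qr_tri (hray a.1 a.2) (hray w a.2) (hray w θ)
    have h2 : qr (fun t => A.σ a.1 (pol t a.2)) (fun t => A.σ w (pol t a.2)) ≤ exp (-(T + 3)) :=
      qr_le_exp (hray a.1 a.2) (hray w a.2) fun t ht0 ht =>
        A.agree _ _ _ fun l hl => (hw l (Reg_h_neg l ht0 ht hl)).symm
    have h3 : exp (-(T + 3)) ≤ r / 10 := by
      rw [neg_add, exp_add, hrT, exp_neg, ← div_eq_mul_inv]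
      refine div_le_div_of_nonneg_left hr.le (by norm_num) ?_
      have h4 : exp 3 = exp 1 ^ 3 := by rw [← exp_nat_mul]; norm_num
      have h5 : (2.7 : ℝ) ≤ exp 1 := by linarith [exp_one_gt_d9]
      rw [h4]
      calc (10 : ℝ) ≤ 2.7 ^ 3 := by norm_num
        _ ≤ _ := pow_le_pow_left₀ (by norm_num) h5 3
    have h4 : qr (fun t => A.σ w (pol t a.2)) (fun t => A.σ w (pol t θ)) ≤ r / 10 := by
      rw [hsin]
      refine abs_sin_le_abs.trans ?_
      have := hu θ hθ
      rw [abs_div, abs_two]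
      linarith [abs_nonneg (a.2 - θ)]
    have h5 := max_le (h2.trans h3) h4
    change qr (fun t => A.σ a.1 (pol t a.2)) (fun t => A.σ w (pol t θ)) ≤ r
    linarith
  · rw [Measure.prod_prod, eA, eR, Real.volume_Icc, ENNReal.ofReal_rpow_of_pos (exp_pos _),
      ← exp_mul, ← ENNReal.ofReal_mul (exp_pos _).le]
    change _ ≤ ENNReal.ofReal _ * _
    rw [← ENNReal.ofReal_mul (by positivity)]
    refine ENNReal.ofReal_le_ofReal ?_
    have h1 := hN T' (T + 3) a.2 (by
      have : T' ≤ T := max_le (by linarith) hT0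
      have : T - c ≤ T' := le_max_left _ _
      exact abs_le.2 ⟨by linarith, by linarith⟩)
    have h2 := hlow (T + 3) a.2 (by linarith)
    set n' := {l : Lines B | l.h (pol T' a.2) ≤ -(1 / 8)}.ncard
    set n := {l : Lines B | l.h (pol (T + 3) a.2) < 0}.ncard
    have h3 : (n : ℝ) ≤ n' + N := by exact_mod_cast h1
    have e : 10 * exp (N * log k + C₁ * (N + 1)) * (exp (-(n * log k)) * (u + r / 10 - u)) =
        exp (N * log k + C₁ * (N + 1) + -(n * log k) + -T) := by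
      rw [exp_add _ (-T), exp_add _ (-(n * log k)), hrT]; ring
    rw [e]
    refine exp_le_exp.2 ?_
    have e2 : -(n' * log k) * (1 + C₁ / log k) = -(n' * log k) - n' * C₁ := by
      field_simp; ring
    rw [e2]
    nlinarith [mul_le_mul_of_nonneg_right h3 hκ.le, mul_le_mul_of_nonneg_left h3 hC₁.le]

end Pool.Agent.MP_39b1da_gt

end

section

set_option autoImplicit false

namespace Pool.Agent.MP_39b1da_gt

open Filter Topology Set Real Manifold Bundle
open scoped ENNReal NNReal ContDiff InnerProductSpace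

variable {m : ℕ}

theorem adm_cond {l : ℝ → ℝ} (hl : Adm l) (b : Bool) : Adm (cond b l 0) := by
  cases b
  · exact adm_zero
  · exact hl

theorem one_le_cond {k : ℕ} (hk : 1 ≤ k) (b : Bool) : 1 ≤ cond b k 1 := by
  cases b
  · exact le_rfl
  · exact hk

/-- The smooth negatively curved structure on the branched cover. -/
theorem smooth_BM (D : Setup m) {k : ℕ} (hk : 1 ≤ k) :
    ∃ (M : Type) (_ : EMetricSpace M) (_ : ChartedSpace (Euc m) M)
      (_ : RiemannianBundle (fun x : M => TangentSpace 𝓘(ℝ, Euc m) x)),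
      IsClosedNegCurved (Euc m) M ∧ Nonempty (M ≃ₜ BM D k) := by
  obtain ⟨l, hl, hl'⟩ := exists_adm (k := k) (by exact_mod_cast hk)
  have := compact_BM D hk
  have := connected_BM D hk
  exact package (fun c : BChart D k => c.e) (fun c => Gm (cond c.b1 l 0) (cond c.b2 l 0))
    (exists_chart D hk) (fun c => Gm_smooth (adm_cond hl _) (adm_cond hl _))
    (fun c => Gm_symm) (fun c => Gm_linear)
    (fun c x u hu => Gm_pos (adm_cond hl _) (adm_cond hl _) x hu)
    (fun c c' x hx hx' => chart_trans D hk hl' c c' hx hx')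
    (fun c => Gm_neg (adm_cond hl _) (adm_cond hl _))

/-- The singular metric on the branched cover. -/
theorem sing_BM (D : Setup m) {k : ℕ} (hk : 1 ≤ k) :
    ∃ (S : Type) (_ : MetricSpace S) (f : BM D k ≃ₜ S) (ε : ℝ), LocK S ε ∧
      (∀ x y : BM D k, dist x.1.1 y.1.1 ≤ dist (f x) (f y)) ∧
      ∀ (x y : BM D k) (a : Path x y),
        edist (f x) (f y) ≤ eVariationOn ((fun z : BM D k => z.1.1) ∘ a) univ := by
  have := compact_BM D hk
  have := connected_BM D hk
  refine sing_metric (fun z : BM D k => z.1.1) fun x => ?_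
  obtain ⟨c, hc⟩ := exists_chart D hk x
  obtain ⟨Z, _, h, hZ, h1, h2⟩ := cone_model m (cond c.b1 k 1) (cond c.b2 k 1)
    (one_le_cond hk _) (one_le_cond hk _)
  obtain ⟨δ, hδ, hq⟩ := D.q_iso
  have key : ∀ z ∈ (c.e.transHomeomorph h.symm).target,
      ((c.e.transHomeomorph h.symm).symm z).1.1 =
        D.q (c.Φ⁻¹ • Hyp.mk (pr (cond c.b1 k 1) (cond c.b2 k 1) (h z))) := fun z hz =>
    c.base (h z) hz
  refine ⟨Z, inferInstance, c.e.transHomeomorph h.symm, hc, hZ,
    h.isClosedEmbedding.locallyCompactSpace, fun z hz z' hz' => ?_, fun z hz => ?_⟩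
  · rw [key z hz, key z' hz']
    exact (D.q_lip _ _).trans ((dist_smul_lor _ _ _).le.trans (h1 z z'))
  · have ho := (c.e.transHomeomorph h.symm).open_target.mem_nhds hz
    filter_upwards [ho, h2 z, Metric.ball_mem_nhds z hδ] with z' hz' e hb
    rw [key z hz, key z' hz', ← e, ← dist_smul_lor c.Φ⁻¹]
    refine (hq _).1 _ (Metric.mem_ball_self hδ) _ ?_
    rw [Metric.mem_ball, dist_smul_lor, dist_comm, e, dist_comm]
    exact hb

/-- The boundary estimate from a family of planes. -/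
theorem cdim_ge {X : Type} [MetricSpace X] (hK : GlobK X) {d : X → X → ℝ} (hd : CoarseLen d)
    {L : ℝ} (hq : ∀ x y, d x y ≤ L * dist x y + L ∧ dist x y ≤ L * d x y + L) (o : X)
    {Ω : Type} [MeasurableSpace Ω] (μ : MeasureTheory.Measure Ω)
    [MeasureTheory.IsProbabilityMeasure μ] (c : Ω → ℝ → ℝ → X) (hray : ∀ w θ, IsRay o (c w θ))
    (hsin : ∀ w θ θ', qr (c w θ) (c w θ') = |sin ((θ - θ') / 2)|) {s : ℝ} (hs : 1 < s)
    (hr : Regular μ (fun a b => qr (c a.1 a.2) (c b.1 b.2)) s) :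
    ENNReal.ofReal (s / (s - 1)) ≤ cdim d o := by
  obtain ⟨e, he⟩ := boundary_est hK hd hq o
  unfold cdim
  refine le_iInf fun ρ => le_iInf fun hρ => ?_
  obtain ⟨e1, e2, e3⟩ := he hρ.choose ρ hρ.choose_spec.1 hρ.choose_spec.2
  have hsin2 : 0 < sin (1 / 2) := sin_pos_of_pos_of_lt_pi (by norm_num) (by linarith [pi_gt_three])
  obtain ⟨η, hη, e3⟩ := e3 _ hsin2
  refine pansu μ (Z := Bdry d o) (fun a => e ⟨c a.1 a.2, hray a.1 a.2⟩)
    (fun a b => qr (c a.1 a.2) (c b.1 b.2)) (K₀ := 10) (c₀ := η) hs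
    (fun a b => qr_nonneg (hray _ _) (hray _ _)) (fun a b => qr_le_one (hray _ _) (hray _ _))
    (fun a => qr_self _) (fun a b => qr_comm _ _)
    (fun a b c => qr_tri (hray _ _) (hray _ _) (hray _ _)) (fun K => ?_) (fun w => ?_) hη
    (fun w => e3 _ _ ?_) hr
  · obtain ⟨H, hH⟩ := e1 K
    exact ⟨H, fun a b c h => hH ⟨_, hray a.1 a.2⟩ ⟨_, hray b.1 b.2⟩ ⟨_, hray c.1 c.2⟩ h⟩
  · refine Metric.continuous_iff.2 fun θ r hr => ?_
    obtain ⟨κ, hκ, h⟩ := e2 (r / 2) (by linarith)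
    refine ⟨κ, hκ, fun θ' hθ => lt_of_le_of_lt (h _ _ ?_) (by linarith)⟩
    change qr (c w θ') (c w θ) ≤ κ
    rw [hsin]
    refine (Real.abs_sin_le_abs).trans ?_
    rw [Real.dist_eq] at hθ
    rw [abs_div, abs_two]
    linarith [abs_nonneg (θ' - θ)]
  · change sin (1 / 2) ≤ qr (c w 0) (c w 1)
    rw [hsin, show ((0 : ℝ) - 1) / 2 = -(1 / 2) by norm_num, sin_neg, abs_neg]
    exact le_abs_self _

theorem lower (D : Setup m) : ∃ C₁ > 0, ∀ k : ℕ, 2 ≤ k →
    ∃ (M : Type) (_ : EMetricSpace M) (_ : ChartedSpace (Euc m) M)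
      (_ : RiemannianBundle (fun x : M => TangentSpace 𝓘(ℝ, Euc m) x)) (o : M),
      (IsClosedNegCurved (Euc m) M ∧ ∃ ρ, IsVisual udist (ubase o) ρ) ∧
      ENNReal.ofReal (log k / C₁) ≤ cdim udist (ubase o) := by
  obtain ⟨C₁, hC₁, hreg⟩ := regular_apts D.toBranch
  refine ⟨C₁, hC₁, fun k hk => ?_⟩
  have hk1 : 1 ≤ k := by omega
  obtain ⟨M, i1, i2, i3, hM, ⟨g⟩⟩ := smooth_BM D hk1
  obtain ⟨S, _, f, ε, hS, hS1, hS2⟩ := sing_BM D hk1
  obtain ⟨m₀, hm₀⟩ := exists_apts D hk1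
  have := compact_BM D hk1
  have := connected_BM D hk1
  have hcS : CompactSpace S := f.compactSpace
  have : ConnectedSpace S := f.surjective.connectedSpace f.continuous
  have hl : IsLen M := by
    obtain ⟨_, -, -, -, h, -⟩ := hM
    exact isLen_of_riemannian (Euc m) M h
  obtain ⟨_, hX, _, hsc, hXl, δ, hδ⟩ := ucover_space (g.trans f) hS (g.symm m₀)
  obtain ⟨hcl, L, hL⟩ := ulen_qi (g.trans f) hS hl (g.symm m₀)
  have hK0 := hδ.locK hS
  obtain ⟨δ', hg⟩ := ugeo_of_simplyConnected hK0 hXl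
  have hK := globK_of_ugeo hK0 hg
  have hq : ∀ x y : UCover M (g.symm m₀),
      udist x y ≤ L * dist x y + L ∧ dist x y ≤ L * udist x y + L := by
    intro x y
    rw [dist_edist, hX]
    exact hL x y
  obtain ⟨C, -, -, h4⟩ := morse hK hcl hq
  refine ⟨M, i1, i2, i3, g.symm m₀, ⟨hM, exists_visual hcl _ (h4 _)⟩, ?_⟩
  obtain ⟨A⟩ := hm₀ S _ f _ δ (ubase (g.symm m₀)) hcS hS1 hS2 hδ hsc hK
    (congrArg f (g.apply_symm_apply m₀))
  obtain ⟨hray, hsin, _, μ, hμ, hr⟩ := hreg k hk _ _ A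
  have hlog : 0 < log k := Real.log_pos (by exact_mod_cast (by omega : 1 < k))
  have hs : 1 < 1 + C₁ / log k := by have := div_pos hC₁ hlog; linarith
  refine le_trans (ENNReal.ofReal_le_ofReal ?_)
    (cdim_ge hK hcl hq _ μ (fun w θ t => A.σ w (pol t θ)) hray hsin hs hr)
  rw [add_sub_cancel_left, div_le_div_iff₀ hC₁ (div_pos hC₁ hlog), mul_div_cancel₀ _ hlog.ne']
  nlinarith [mul_pos (div_pos hC₁ hlog) hC₁]

theorem cdimUnbounded (m : ℕ) : CdimUnbounded (Euc m) := by
  obtain ⟨W⟩ := exists_walls m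
  obtain ⟨B⟩ := exists_branch W
  obtain ⟨D⟩ := exists_setup B
  obtain ⟨C₁, hC₁, h⟩ := lower D
  choose M i1 i2 i3 o h1 h2 using fun i : ℕ => h (i + 2) (by omega)
  refine ⟨M, i1, i2, i3, o, h1, tendsto_nhds_top_mono' ?_ h2⟩
  refine ENNReal.tendsto_ofReal_atTop.comp (Tendsto.atTop_div_const hC₁ ?_)
  exact tendsto_log_atTop.comp (tendsto_natCast_atTop_atTop.comp (tendsto_add_atTop_nat 2))

end Pool.Agent.MP_39b1da_gt

end
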